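import Pool.Agent.H495R3.CyPoly

/-!
# Betweenness is hard

An instance is a number of elements and a list of triples.  The question is whether there is an
ordering of the elements in which the middle element of every triple is between the other two.
-/

set_option autoImplicit false

namespace Pool.Agent.V11227.BT

open Pool.Agent.NPC Pool.Agent.H495R3.Cy

/-- `y` is strictly between `x` and `z`. -/
def Mid (x y z : ℤ) : Prop := (x < y ∧ y < z) ∨ (z < y ∧ y < x)

/-- The betweenness problem: the list of elements and the list of triples. -/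
def Betweenness (I : List ℕ × List (ℕ × ℕ × ℕ)) : Prop :=
  ∃ g : ℕ → ℤ, Set.InjOn g {x | x ∈ I.1} ∧ ∀ t ∈ I.2, Mid (g t.1) (g t.2.1) (g t.2.2)

/-- Good instances: the elements are the numbers less than `n`, and all triples consist of distinct
elements. -/
def Good (I : List ℕ × List (ℕ × ℕ × ℕ)) : Prop :=
  (∃ n, 2 ≤ n ∧ I.1 = List.range n) ∧ ∀ t ∈ I.2, t.1 ∈ I.1 ∧ t.2.1 ∈ I.1 ∧ t.2.2 ∈ I.1 ∧
    t.1 ≠ t.2.1 ∧ t.2.1 ≠ t.2.2 ∧ t.1 ≠ t.2.2

/-- The triples. -/
def trips (φ : List Cl) : List (ℕ × ℕ × ℕ) :=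
  (List.range (3 * φ.length)).map (fun v => (3 + 2 * v, 1, 3 + 2 * v + 1)) ++
    φ.zipIdx.flatMap (fun p => [(lc p.1.1, 3 + 6 * φ.length + 2 * p.2, lc p.1.2.1),
      (lc p.1.2.2, 3 + 6 * φ.length + 2 * p.2 + 1, 2),
      (3 + 6 * φ.length + 2 * p.2, 1, 3 + 6 * φ.length + 2 * p.2 + 1)])

theorem mem_trips {φ : List Cl} (t : ℕ × ℕ × ℕ) : t ∈ trips φ ↔ Trip φ t.1 t.2.1 t.2.2 := by
  obtain ⟨a, b, c⟩ := t
  unfold trips Trip
  simp only [List.mem_append, List.mem_map, List.mem_flatMap, List.mem_range, List.mem_cons,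
    List.not_mem_nil, or_false, Prod.mk.injEq]
  constructor
  · rintro (⟨v, hv, h1, h2, h3⟩ | ⟨⟨d, k⟩, hd, h⟩)
    · exact Or.inl ⟨v, hv, h1.symm, h2.symm, h3.symm⟩
    · rw [List.mem_zipIdx_iff_getElem?] at hd
      simp only at hd h
      obtain ⟨hk, hd⟩ := List.getElem?_eq_some_iff.1 hd
      subst hd
      exact Or.inr ⟨k, hk, h⟩
  · rintro (⟨v, hv, h1, h2, h3⟩ | ⟨k, hk, h⟩)
    · exact Or.inl ⟨v, hv, h1.symm, h2.symm, h3.symm⟩
    · right
      refine ⟨(φ[k], k), ?_, h⟩
      rw [List.mem_zipIdx_iff_getElem?]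
      simp

/-- The instance of a formula. -/
def btRed (φ : List Cl) : List ℕ × List (ℕ × ℕ × ℕ) := (els φ, trips φ)

theorem good_btRed {φ : List Cl} (hd : Distinct3 φ) (hb : Bounded3 φ) : Good (btRed φ) := by
  refine ⟨⟨3 + 8 * φ.length, by omega, rfl⟩, fun t ht => ?_⟩
  have h := (mem_trips t).1 ht
  obtain ⟨h1, h2, h3, h4, h5, h6, h7, h8, h9⟩ := trip_ok hd hb h
  simp only [btRed, mem_els]
  exact ⟨h7, h8, h9, h1, h2, h3⟩

theorem btRed_correct {φ : List Cl} (hd : Distinct3 φ) (hb : Bounded3 φ) :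
    SAT3 φ ↔ Betweenness (btRed φ) := by
  constructor
  · rintro ⟨τ, hτ⟩
    refine ⟨gS φ τ, gS_inj hd hb, fun t ht => ?_⟩
    have ht' := (mem_trips t).1 ht
    obtain ⟨a, b, c⟩ := t
    simp only at ht' ⊢
    unfold Mid
    rcases ht' with ⟨v, hv, rfl, rfl, rfl⟩ | ⟨k, hk, ht⟩
    · -- the middle is between the two literals
      rw [gS_one, gS_main (by omega) (by omega), gS_main (by omega) (by omega)]
      have e1 : Rt τ (3 + 2 * v) = !decide (τ v = false) := Rt_lc (false, v)
      have e2 : Rt τ (3 + 2 * v + 1) = !decide (τ v = true) := Rt_lc (true, v)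
      have hs := sc_pos (φ := φ)
      cases hv' : τ v with
      | true =>
        rw [hv'] at e1 e2
        right
        rw [P0_right (τ := τ) (x := 3 + 2 * v) (by simpa using e1),
          P0_left (τ := τ) (x := 3 + 2 * v + 1) (by simpa using e2)]
        constructor
        · exact mul_neg_of_neg_of_pos (by omega) hs
        · exact mul_pos (by omega) hs
      | false =>
        rw [hv'] at e1 e2
        left
        rw [P0_left (τ := τ) (x := 3 + 2 * v) (by simpa using e1),
          P0_right (τ := τ) (x := 3 + 2 * v + 1) (by simpa using e2)]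
        constructor
        · exact mul_neg_of_neg_of_pos (by omega) hs
        · exact mul_pos (by omega) hs
    · have t1 := aux_between (τ := τ) hd hb (j := 2 * k) (by omega)
      have t2 := aux_between (τ := τ) hd hb (j := 2 * k + 1) (by omega)
      have s1 := aux_side (τ := τ) (φ := φ) (2 * k) (by omega)
      have s2 := aux_side (τ := τ) (φ := φ) (2 * k + 1) (by omega)
      rw [hst_even hk] at t1 s1
      rw [hst_odd hk] at t2 s2
      have r1 := Rt_lc (τ := τ) φ[k].1
      have r2 := Rt_lc (τ := τ) φ[k].2.1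
      have r3 := Rt_lc (τ := τ) φ[k].2.2
      have rf : Rt τ 2 = true := by unfold Rt; rw [if_pos (by norm_num)]
      rcases ht with ⟨rfl, rfl, rfl⟩ | ⟨rfl, rfl, rfl⟩ | ⟨rfl, rfl, rfl⟩
      · split_ifs at t1
        · exact t1
        · exact t1.symm
        · exact t1
      · rw [show 3 + 6 * φ.length + 2 * k + 1 = 3 + 6 * φ.length + (2 * k + 1) by omega]
        split_ifs at t2
        · exact t2.symm
        · exact t2
      · rw [gS_one, show 3 + 6 * φ.length + 2 * k + 1 = 3 + 6 * φ.length + (2 * k + 1) by omega]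
        by_cases l1 : τ φ[k].1.2 = φ[k].1.1
        · rw [if_pos l1] at s1
          rw [if_pos (Or.inl l1)] at s2
          left
          exact ⟨s1.2 (by simp [r1, l1]), s2.1 rf⟩
        · by_cases l2 : τ φ[k].2.1.2 = φ[k].2.1.1
          · rw [if_neg l1, if_pos l2] at s1
            rw [if_pos (Or.inr l2)] at s2
            left
            exact ⟨s1.2 (by simp [r2, l2]), s2.1 rf⟩
          · have l3 : τ φ[k].2.2.2 = φ[k].2.2.1 := by
              rcases hτ _ (List.getElem_mem hk) with h | h | h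
              · exact absurd h l1
              · exact absurd h l2
              · exact h
            rw [if_neg l1, if_neg l2] at s1
            rw [if_neg (by tauto)] at s2
            right
            exact ⟨s2.2 (by simp [r3, l3]), s1.1 (by simp [r1, l1])⟩
  · rintro ⟨g, hg, hs⟩
    refine solv_to_sat hd hb ?_
    -- place the element `0` to the left of all others
    obtain ⟨C, hC⟩ : ∃ C : ℤ, ∀ x ∈ els φ, C < g x := by
      obtain ⟨C, hC⟩ := (List.finite_toSet (els φ)).image g |>.bddBelow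
      exact ⟨C - 1, fun x hx => by have := hC ⟨x, hx, rfl⟩; omega⟩
    let g' : ℕ → ℤ := fun x => if x = 0 then C else g x
    have h0 : g' 0 = C := if_pos rfl
    have h1 : ∀ x, 0 < x → g' x = g x := fun x hx => if_neg (by omega)
    refine ⟨g', ?_, fun q hq => ?_⟩
    · intro x hx y hy hxy
      by_cases hx0 : x = 0
      · by_cases hy0 : y = 0
        · rw [hx0, hy0]
        · rw [hx0, h0, h1 y (by omega)] at hxy
          have := hC y hy
          omega
      · by_cases hy0 : y = 0
        · rw [hy0, h0, h1 x (by omega)] at hxy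
          have := hC x hx
          omega
        · rw [h1 x (by omega), h1 y (by omega)] at hxy
          exact hg hx hy hxy
    · obtain ⟨a, b, c, ht, hq⟩ := (mem_quads q).1 hq
      obtain ⟨k1, k2, k3, k4, k5, k6, k7, k8, k9⟩ := trip_ok hd hb ht
      have hm := hs (a, b, c) ((mem_trips _).2 ht)
      simp only [Mid] at hm
      refine betw_of ?_ ?_ ?_ ?_ q hq
      · rw [h0, h1 a k4]; exact hC a ((mem_els a).2 k7)
      · rw [h0, h1 b k5]; exact hC b ((mem_els b).2 k8)
      · rw [h0, h1 c k6]; exact hC c ((mem_els c).2 k9)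
      · rw [h1 a k4, h1 b k5, h1 c k6]; exact hm

theorem poly_trips : NPC.Poly trips := by
  unfold trips
  refine NPC.Poly.append (NPC.Poly.map (F := fun (_ : List Cl) v => (3 + 2 * v, 1, 3 + 2 * v + 1))
    (range3_poly NPC.Poly.id) (by fun_prop)) ?_
  exact NPC.Poly.flatMap (F := fun (φ : List Cl) (p : Cl × ℕ) =>
    [(lc p.1.1, 3 + 6 * φ.length + 2 * p.2, lc p.1.2.1),
      (lc p.1.2.2, 3 + 6 * φ.length + 2 * p.2 + 1, 2),
      (3 + 6 * φ.length + 2 * p.2, 1, 3 + 6 * φ.length + 2 * p.2 + 1)]) (by fun_prop) (by fun_prop)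

theorem poly_btRed : NPC.Poly btRed := NPC.Poly.pair (els_poly NPC.Poly.id) poly_trips

/-- Betweenness is hard, on good instances. -/
theorem hardPr_betweenness : HardPr Good Betweenness :=
  hardPr_SAT3b.trans poly_btRed (fun _ h => good_btRed h.1 h.2.1)
    (fun _ h => btRed_correct h.1 h.2.1)

end Pool.Agent.V11227.BT
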