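import Mathlib

/-!
# Context-free grammars: semantic soundness and closure

`Sem I α w`: the word `w` is a concatenation of words matching the symbols of `α`, where the
nonterminals are interpreted by `I`. An interpretation closed under the rules bounds the
language of the grammar, and derivability itself is closed under the rules.
-/

set_option autoImplicit false

namespace Pool.Agent.V11227.CFG

open ContextFreeGrammar

variable {T N : Type}

/-- Interpretation of a string of symbols. -/
def Sem (I : N → List T → Prop) : List (Symbol T N) → List T → Prop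
  | [], w => w = []
  | Symbol.terminal t :: α, w => ∃ w', w = t :: w' ∧ Sem I α w'
  | Symbol.nonterminal A :: α, w => ∃ w1 w2, w = w1 ++ w2 ∧ I A w1 ∧ Sem I α w2

theorem sem_append (I : N → List T → Prop) (α β : List (Symbol T N)) (w : List T) :
    Sem I (α ++ β) w ↔ ∃ w1 w2, w = w1 ++ w2 ∧ Sem I α w1 ∧ Sem I β w2 := by
  induction α generalizing w with
  | nil =>
    constructor
    · intro h
      exact ⟨[], w, rfl, rfl, h⟩
    · rintro ⟨w1, w2, rfl, h1, h2⟩
      have : w1 = [] := h1
      subst this
      simpa using h2
  | cons s α ih =>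
    cases s with
    | terminal t =>
      constructor
      · rintro ⟨w', rfl, h⟩
        obtain ⟨w1, w2, rfl, h1, h2⟩ := (ih _).1 h
        exact ⟨t :: w1, w2, rfl, ⟨w1, rfl, h1⟩, h2⟩
      · rintro ⟨w1, w2, rfl, ⟨w1', rfl, h1⟩, h2⟩
        exact ⟨w1' ++ w2, rfl, (ih _).2 ⟨w1', w2, rfl, h1, h2⟩⟩
    | nonterminal A =>
      constructor
      · rintro ⟨v1, v2, rfl, hA, h⟩
        obtain ⟨w1, w2, rfl, h1, h2⟩ := (ih _).1 h
        exact ⟨v1 ++ w1, w2, by simp, ⟨v1, w1, rfl, hA, h1⟩, h2⟩
      · rintro ⟨w1, w2, rfl, ⟨v1, v2, rfl, hA, h1⟩, h2⟩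
        exact ⟨v1, v2 ++ w2, by simp, hA, (ih _).2 ⟨v2, w2, rfl, h1, h2⟩⟩

theorem sem_map (I : N → List T → Prop) (w : List T) :
    Sem I (w.map Symbol.terminal) w := by
  induction w with
  | nil => rfl
  | cons t w ih => exact ⟨w, rfl, ih⟩

theorem sem_single (I : N → List T → Prop) (A : N) (w : List T) :
    Sem I [Symbol.nonterminal A] w ↔ I A w := by
  constructor
  · rintro ⟨w1, w2, rfl, h, h2⟩
    have : w2 = [] := h2
    subst this
    simpa using h
  · intro h
    exact ⟨w, [], by simp, h, rfl⟩

/-- Soundness: an interpretation closed under the rules is closed under derivations. -/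
theorem sound {g : ContextFreeGrammar T} (I : g.NT → List T → Prop)
    (hI : ∀ r ∈ g.rules, ∀ w, Sem I r.output w → I r.input w)
    {α β : List (Symbol T g.NT)} (h : g.Derives α β) {w : List T} (hw : Sem I β w) :
    Sem I α w := by
  induction h with
  | refl => exact hw
  | tail _ hp ih =>
    apply ih
    obtain ⟨r, hr, hrw⟩ := hp
    obtain ⟨p, q, rfl, rfl⟩ := hrw.exists_parts
    obtain ⟨w12, w3, rfl, h12, h3⟩ := (sem_append I _ _ _).1 hw
    obtain ⟨w1, w2, rfl, h1, h2⟩ := (sem_append I _ _ _).1 h12
    refine (sem_append I _ _ _).2 ⟨w1 ++ w2, w3, rfl,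
      (sem_append I _ _ _).2 ⟨w1, w2, rfl, h1, ?_⟩, h3⟩
    exact (sem_single I _ _).2 (hI r hr w2 h2)

theorem sound_language {g : ContextFreeGrammar T} (I : g.NT → List T → Prop)
    (hI : ∀ r ∈ g.rules, ∀ w, Sem I r.output w → I r.input w)
    {w : List T} (hw : w ∈ g.language) : I g.initial w := by
  have h : g.Derives [Symbol.nonterminal g.initial] (w.map Symbol.terminal) := hw
  exact (sem_single I _ _).1 (sound I hI h (sem_map I w))

/-- The words generated by a nonterminal. -/
def Gen (g : ContextFreeGrammar T) (A : g.NT) (w : List T) : Prop :=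
  g.Derives [Symbol.nonterminal A] (w.map Symbol.terminal)

theorem derives_of_sem {g : ContextFreeGrammar T} {α : List (Symbol T g.NT)} {w : List T}
    (h : Sem (Gen g) α w) : g.Derives α (w.map Symbol.terminal) := by
  induction α generalizing w with
  | nil =>
    have : w = [] := h
    subst this
    exact Derives.refl _
  | cons s α ih =>
    cases s with
    | terminal t =>
      obtain ⟨w', rfl, h'⟩ := h
      have := (ih h').append_left [Symbol.terminal t]
      simpa using this
    | nonterminal A =>
      obtain ⟨w1, w2, rfl, hA, h2⟩ := h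
      have h1 : g.Derives ([Symbol.nonterminal A] ++ α) (w1.map Symbol.terminal ++ α) :=
        hA.append_right α
      have h2' := (ih h2).append_left (w1.map Symbol.terminal)
      have := h1.trans h2'
      simpa using this

theorem gen_of_rule {g : ContextFreeGrammar T} {r : ContextFreeRule T g.NT} (hr : r ∈ g.rules)
    {w : List T} (h : Sem (Gen g) r.output w) : Gen g r.input w := by
  have h1 : g.Produces [Symbol.nonterminal r.input] r.output :=
    ⟨r, hr, ContextFreeRule.Rewrites.input_output⟩
  exact h1.trans_derives (derives_of_sem h)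

theorem mem_language_of_gen {g : ContextFreeGrammar T} {w : List T}
    (h : Gen g g.initial w) : w ∈ g.language := h

end Pool.Agent.V11227.CFG
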