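import Pool.Agent.V11227.CNDefs

/-!
# Core and nucleus of joins and disjoint unions
-/

namespace Pool.Agent.V11227.CN

open Classical

variable {V : Type} [Fintype V] {G : SimpleGraph V}

theorem exists_maximumIndep (G : SimpleGraph V) : ∃ S : Finset V, IsMaximumIndep G S := by
  obtain ⟨S, hS, hmax⟩ := Finset.exists_max_image
    (Finset.univ.filter fun S : Finset V => G.IsIndepSet (S : Set V)) Finset.card
    ⟨∅, by simp⟩
  rw [Finset.mem_filter] at hS
  exact ⟨S, hS.2, fun T hT => hmax T (by simp [hT])⟩

/-- The shape of the graph: clique vertices (`κ v = none`), which are adjacent to everything, and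
the others, which lie in fibres `(i, q)`; different `i` are not adjacent, and different `q` with the
same `i` are. -/
structure Shape (G : SimpleGraph V) (κ : V → Option (ℕ × ℕ)) : Prop where
  cl : ∀ v w, v ≠ w → κ v = none → G.Adj v w
  out : ∀ v w i q i' q', κ v = some (i, q) → κ w = some (i', q') → i ≠ i' → ¬ G.Adj v w
  join : ∀ v w i q q', κ v = some (i, q) → κ w = some (i, q') → q ≠ q' → G.Adj v w

variable {κ : V → Option (ℕ × ℕ)}

/-- the part of `S` in group `i` -/
noncomputable def grp (κ : V → Option (ℕ × ℕ)) (S : Finset V) (i : ℕ) : Finset V :=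
  S.filter fun w => ∃ q, κ w = some (i, q)

theorem mem_grp {S : Finset V} {i : ℕ} {w : V} :
    w ∈ grp κ S i ↔ w ∈ S ∧ ∃ q, κ w = some (i, q) := Finset.mem_filter

theorem grp_fibre (h : Shape G κ) {S : Finset V} (hS : G.IsIndepSet (S : Set V)) {w : V} {i q : ℕ}
    (hw : w ∈ S) (hκ : κ w = some (i, q)) : ∀ x ∈ grp κ S i, κ x = some (i, q) := by
  intro x hx
  obtain ⟨hxS, q', hq'⟩ := mem_grp.1 hx
  by_cases hqq : q = q'
  · rw [hq', hqq]
  · exfalso
    have hadj := h.join w x i q q' hκ hq' hqq
    exact hS hw hxS hadj.ne hadj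

theorem swap_indep (h : Shape G κ) {S T : Finset V} (hS : G.IsIndepSet (S : Set V)) {i q : ℕ}
    (hcl : ∀ w ∈ S, κ w ≠ none) (hT : G.IsIndepSet (T : Set V)) (hTq : ∀ w ∈ T, κ w = some (i, q)) :
    G.IsIndepSet ((S \ grp κ S i ∪ T : Finset V) : Set V) ∧
      (S \ grp κ S i ∪ T).card = S.card - (grp κ S i).card + T.card := by
  constructor
  · intro x hx y hy hxy hadj
    rw [Finset.mem_coe, Finset.mem_union, Finset.mem_sdiff] at hx hy
    have key : ∀ x y, (x ∈ S ∧ x ∉ grp κ S i) → y ∈ T → ¬ G.Adj x y := by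
      rintro x y ⟨hx1, hx2⟩ hy hadj
      obtain ⟨⟨i', q'⟩, hp⟩ := Option.ne_none_iff_exists'.1 (hcl x hx1)
      refine h.out x y i' q' i q hp (hTq y hy) ?_ hadj
      rintro rfl
      exact hx2 (mem_grp.2 ⟨hx1, q', hp⟩)
    rcases hx with hx | hx
    · rcases hy with hy | hy
      · exact hS hx.1 hy.1 hxy hadj
      · exact key x y hx hy hadj
    · rcases hy with hy | hy
      · exact key y x hy hx hadj.symm
      · exact hT hx hy hxy hadj
  · rw [Finset.card_union_of_disjoint, Finset.card_sdiff_of_subset]
    · exact Finset.filter_subset _ _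
    · rw [Finset.disjoint_left]
      intro x hx hxT
      rw [Finset.mem_sdiff] at hx
      exact hx.2 (mem_grp.2 ⟨hx.1, q, hTq x hxT⟩)

theorem singleton_of_clique (h : Shape G κ) {S : Finset V} (hS : G.IsIndepSet (S : Set V)) {v : V}
    (hv : v ∈ S) (hκ : κ v = none) : S = {v} := by
  ext w
  rw [Finset.mem_singleton]
  constructor
  · intro hw
    by_contra hne
    exact hS hv hw (Ne.symm hne) (h.cl v w (Ne.symm hne) hκ)
  · rintro rfl; exact hv

theorem grp_card_le (S : Finset V) (i : ℕ) : (grp κ S i).card ≤ S.card :=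
  Finset.card_le_card (Finset.filter_subset _ _)

/-- If no fibre is the unique best fibre of its group then the core is empty. -/
theorem core_eq_empty (h : Shape G κ)
    (hcl : ∀ v, κ v = none → ∃ w, w ≠ v ∧ κ w = none)
    (hbest : ∀ v i q, κ v = some (i, q) → ∃ q', q' ≠ q ∧ ∀ S : Finset V,
      G.IsIndepSet (S : Set V) → (∀ w ∈ S, κ w = some (i, q)) → ∃ T : Finset V,
        G.IsIndepSet (T : Set V) ∧ (∀ w ∈ T, κ w = some (i, q')) ∧ S.card ≤ T.card) :
    core G = ∅ := by
  rw [Set.eq_empty_iff_forall_notMem]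
  intro v hv
  obtain ⟨S, hS⟩ := exists_maximumIndep G
  have hvS : v ∈ S := hv S hS
  rcases hκ : κ v with _ | ⟨i, q⟩
  · obtain ⟨w, hwv, hw⟩ := hcl v hκ
    have hSv := singleton_of_clique h hS.1 hvS hκ
    have h1 : IsMaximumIndep G {w} := by
      refine ⟨by simp, fun T hT => ?_⟩
      have := hS.2 T hT
      rw [hSv] at this
      simpa using this
    have := hv _ h1
    rw [Finset.mem_singleton] at this
    exact hwv this.symm
  · have hno : ∀ w ∈ S, κ w ≠ none := by
      intro w hw hwn
      have h1 := singleton_of_clique h hS.1 hw hwn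
      have h2 : v = w := by
        have : v ∈ ({w} : Finset V) := by rw [← h1]; exact hvS
        simpa using this
      rw [h2, hwn] at hκ
      exact absurd hκ (by simp)
    obtain ⟨q', hq', hT⟩ := hbest v i q hκ
    have hfib := grp_fibre h hS.1 hvS hκ
    have hgi : G.IsIndepSet (grp κ S i : Set V) := fun x hx y hy =>
      hS.1 (Finset.mem_filter.1 hx).1 (Finset.mem_filter.1 hy).1
    obtain ⟨T, hT1, hT2, hT3⟩ := hT _ hgi hfib
    obtain ⟨h3, h4⟩ := swap_indep h hS.1 hno hT1 hT2
    have h5 : IsMaximumIndep G (S \ grp κ S i ∪ T) := by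
      refine ⟨h3, fun U hU => (hS.2 U hU).trans ?_⟩
      have := grp_card_le (κ := κ) S i
      omega
    have h6 := hv _ h5
    rw [Finset.mem_union, Finset.mem_sdiff] at h6
    rcases h6 with h6 | h6
    · exact h6.2 (mem_grp.2 ⟨h6.1, q, hκ⟩)
    · have := hT2 v h6
      rw [hκ] at this
      simp only [Option.some.injEq, Prod.mk.injEq, true_and] at this
      exact hq' this.symm

/-- A locally isolated vertex of a fibre which is the unique best fibre of its group is in the
core. -/
theorem mem_core (h : Shape G κ) {v : V} {i q : ℕ} (hv : κ v = some (i, q))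
    (hiso : ∀ w, κ w = some (i, q) → ¬ G.Adj v w) {T : Finset V} (hT1 : G.IsIndepSet (T : Set V))
    (hT2 : ∀ w ∈ T, κ w = some (i, q)) (hT3 : 2 ≤ T.card)
    (hbest : ∀ q', q' ≠ q → ∀ S : Finset V, G.IsIndepSet (S : Set V) →
      (∀ w ∈ S, κ w = some (i, q')) → S.card < T.card) : v ∈ core G := by
  intro S hS
  by_contra hvS
  have hno : ∀ w ∈ S, κ w ≠ none := by
    intro w hw hwn
    have h1 := singleton_of_clique h hS.1 hw hwn
    have h2 := hS.2 T hT1
    rw [h1, Finset.card_singleton] at h2
    omega
  by_cases hall : ∀ w ∈ grp κ S i, κ w = some (i, q)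
  · have h1 : G.IsIndepSet ((insert v S : Finset V) : Set V) := by
      have key : ∀ w ∈ S, ¬ G.Adj v w := by
        intro w hw hadj
        obtain ⟨⟨i', q'⟩, hp⟩ := Option.ne_none_iff_exists'.1 (hno w hw)
        by_cases hi : i' = i
        · subst hi
          exact hiso w (hall w (mem_grp.2 ⟨hw, q', hp⟩)) hadj
        · exact h.out v w i q i' q' hv hp (Ne.symm hi) hadj
      intro x hx y hy hxy hadj
      rw [Finset.mem_coe, Finset.mem_insert] at hx hy
      rcases hx with rfl | hx
      · rcases hy with rfl | hy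
        · exact hxy rfl
        · exact key y hy hadj
      · rcases hy with rfl | hy
        · exact key x hx hadj.symm
        · exact hS.1 hx hy hxy hadj
    have h2 := hS.2 _ h1
    rw [Finset.card_insert_of_notMem hvS] at h2
    omega
  · push Not at hall
    obtain ⟨w, hw, hwq⟩ := hall
    obtain ⟨hwS, q', hq'⟩ := mem_grp.1 hw
    have hne : q' ≠ q := by
      rintro rfl
      exact hwq hq'
    have hfib := grp_fibre h hS.1 hwS hq'
    have hgi : G.IsIndepSet (grp κ S i : Set V) := fun x hx y hy =>
      hS.1 (Finset.mem_filter.1 hx).1 (Finset.mem_filter.1 hy).1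
    have h1 := hbest q' hne _ hgi hfib
    obtain ⟨h3, h4⟩ := swap_indep h hS.1 hno hT1 hT2
    have h5 := hS.2 _ h3
    have := grp_card_le (κ := κ) S i
    omega

/-- If there are more clique vertices than other vertices, and at least three vertices, then the
nucleus is empty. -/
theorem nucleus_eq_empty (h : Shape G κ)
    (hmore : (Finset.univ.filter fun v => κ v ≠ none).card <
      (Finset.univ.filter fun v => κ v = none).card) (h3 : 3 ≤ Fintype.card V) :
    nucleus G = ∅ := by
  have hneg : ∀ I : Finset V, G.IsIndepSet (I : Set V) → I.Nonempty → diff G I < 0 := by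
    intro I hI hne
    unfold diff
    by_cases hc : ∃ v ∈ I, κ v = none
    · obtain ⟨v, hv, hκ⟩ := hc
      rw [singleton_of_clique h hI hv hκ]
      have h1 : (Finset.univ.erase v) ⊆ nbhd G {v} := by
        intro w hw
        rw [Finset.mem_erase] at hw
        unfold nbhd
        rw [Finset.mem_filter]
        exact ⟨Finset.mem_univ _, v, by simp, h.cl v w (Ne.symm hw.1) hκ⟩
      have h2 := Finset.card_le_card h1
      rw [Finset.card_erase_of_mem (Finset.mem_univ _), Finset.card_univ] at h2
      rw [Finset.card_singleton]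
      omega
    · push Not at hc
      obtain ⟨x, hx⟩ := hne
      have h1 : I ⊆ Finset.univ.filter fun v => κ v ≠ none := fun v hv => by
        rw [Finset.mem_filter]
        exact ⟨Finset.mem_univ _, hc v hv⟩
      have h2 : (Finset.univ.filter fun v => κ v = none) ⊆ nbhd G I := by
        intro w hw
        rw [Finset.mem_filter] at hw
        unfold nbhd
        rw [Finset.mem_filter]
        refine ⟨Finset.mem_univ _, x, hx, (h.cl w x ?_ hw.2).symm⟩
        rintro rfl
        exact hc w hx hw.2
      have h3 := Finset.card_le_card h1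
      have h4 := Finset.card_le_card h2
      omega
  have h0 : diff G ∅ = 0 := by
    unfold diff nbhd
    simp
  have h1 : IsMaxCritical G ∅ := by
    refine ⟨⟨by simp, fun J hJ => ?_⟩, fun J hJ => ?_⟩
    · rw [h0]
      rcases J.eq_empty_or_nonempty with rfl | hne
      · rw [h0]
      · exact (hneg J hJ hne).le
    · rcases J.eq_empty_or_nonempty with rfl | hne
      · exact le_rfl
      · have h2 := hJ.2 ∅ (by simp)
        have h3 := hneg J hJ.1 hne
        rw [h0] at h2
        omega
  rw [Set.eq_empty_iff_forall_notMem]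
  intro v hv
  have := hv ∅ h1
  simp at this

/-! ### Invariance under isomorphism -/

section iso

variable {W : Type} [Fintype W] {H : SimpleGraph W}

theorem indep_map (e : G ≃g H) (S : Finset V) :
    H.IsIndepSet ((S.map e.toEquiv.toEmbedding : Finset W) : Set W) ↔ G.IsIndepSet (S : Set V) := by
  constructor
  · intro h x hx y hy hxy hadj
    refine h (x := e x) ?_ (y := e y) ?_ (fun he => hxy (e.injective he)) (e.map_adj_iff.2 hadj)
    · exact Finset.mem_coe.2 (Finset.mem_map.2 ⟨x, hx, rfl⟩)
    · exact Finset.mem_coe.2 (Finset.mem_map.2 ⟨y, hy, rfl⟩)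
  · intro h x hx y hy hxy hadj
    obtain ⟨x', hx', rfl⟩ := Finset.mem_map.1 (Finset.mem_coe.1 hx)
    obtain ⟨y', hy', rfl⟩ := Finset.mem_map.1 (Finset.mem_coe.1 hy)
    exact h hx' hy' (fun he => hxy (by rw [he])) (e.map_adj_iff.1 hadj)

theorem exists_map (e : G ≃g H) (T : Finset W) : ∃ S : Finset V, S.map e.toEquiv.toEmbedding = T :=
  ⟨T.map e.symm.toEquiv.toEmbedding, by
    ext x
    simp only [Finset.mem_map]
    constructor
    · rintro ⟨y, ⟨z, hz, rfl⟩, rfl⟩
      have : e.toEquiv.toEmbedding (e.symm.toEquiv.toEmbedding z) = z := e.apply_symm_apply z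
      rw [this]; exact hz
    · intro hx
      exact ⟨_, ⟨x, hx, rfl⟩, e.apply_symm_apply x⟩⟩

theorem maximumIndep_map (e : G ≃g H) (S : Finset V) :
    IsMaximumIndep H (S.map e.toEquiv.toEmbedding) ↔ IsMaximumIndep G S := by
  unfold IsMaximumIndep
  rw [indep_map]
  refine and_congr_right fun _ => ⟨fun h T hT => ?_, fun h T hT => ?_⟩
  · have := h (T.map e.toEquiv.toEmbedding) ((indep_map e T).2 hT)
    rwa [Finset.card_map, Finset.card_map] at this
  · obtain ⟨T', rfl⟩ := exists_map e T
    rw [Finset.card_map, Finset.card_map]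
    exact h T' ((indep_map e T').1 hT)

theorem core_map (e : G ≃g H) (v : V) : e v ∈ core H ↔ v ∈ core G := by
  constructor
  · intro h S hS
    have := h _ ((maximumIndep_map e S).2 hS)
    rw [Finset.mem_map] at this
    obtain ⟨w, hw, hwv⟩ := this
    have : w = v := e.injective hwv
    rwa [← this]
  · intro h T hT
    obtain ⟨S, rfl⟩ := exists_map e T
    exact Finset.mem_map.2 ⟨v, h S ((maximumIndep_map e S).1 hT), rfl⟩

theorem nbhd_map (e : G ≃g H) (X : Finset V) :
    nbhd H (X.map e.toEquiv.toEmbedding) = (nbhd G X).map e.toEquiv.toEmbedding := by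
  ext y
  unfold nbhd
  simp only [Finset.mem_filter, Finset.mem_univ, true_and, Finset.mem_map]
  constructor
  · rintro ⟨x, ⟨x', hx', rfl⟩, hadj⟩
    refine ⟨e.symm y, ⟨x', hx', ?_⟩, e.apply_symm_apply y⟩
    rw [← e.map_adj_iff, e.apply_symm_apply]
    exact hadj
  · rintro ⟨z, ⟨x, hx, hadj⟩, rfl⟩
    exact ⟨e x, ⟨x, hx, rfl⟩, e.map_adj_iff.2 hadj⟩

theorem diff_map (e : G ≃g H) (X : Finset V) : diff H (X.map e.toEquiv.toEmbedding) = diff G X := by
  unfold diff
  rw [nbhd_map, Finset.card_map, Finset.card_map]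

theorem critical_map (e : G ≃g H) (S : Finset V) :
    IsCritical H (S.map e.toEquiv.toEmbedding) ↔ IsCritical G S := by
  unfold IsCritical
  rw [indep_map]
  refine and_congr_right fun _ => ⟨fun h T hT => ?_, fun h T hT => ?_⟩
  · have := h (T.map e.toEquiv.toEmbedding) ((indep_map e T).2 hT)
    rwa [diff_map, diff_map] at this
  · obtain ⟨T', rfl⟩ := exists_map e T
    rw [diff_map, diff_map]
    exact h T' ((indep_map e T').1 hT)

theorem maxCritical_map (e : G ≃g H) (S : Finset V) :
    IsMaxCritical H (S.map e.toEquiv.toEmbedding) ↔ IsMaxCritical G S := by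
  unfold IsMaxCritical
  rw [critical_map]
  refine and_congr_right fun _ => ⟨fun h T hT => ?_, fun h T hT => ?_⟩
  · have := h (T.map e.toEquiv.toEmbedding) ((critical_map e T).2 hT)
    rwa [Finset.card_map, Finset.card_map] at this
  · obtain ⟨T', rfl⟩ := exists_map e T
    rw [Finset.card_map, Finset.card_map]
    exact h T' ((critical_map e T').1 hT)

theorem nucleus_map (e : G ≃g H) (v : V) : e v ∈ nucleus H ↔ v ∈ nucleus G := by
  constructor
  · intro h S hS
    have := h _ ((maxCritical_map e S).2 hS)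
    rw [Finset.mem_map] at this
    obtain ⟨w, hw, hwv⟩ := this
    have : w = v := e.injective hwv
    rwa [← this]
  · intro h T hT
    obtain ⟨S, rfl⟩ := exists_map e T
    exact Finset.mem_map.2 ⟨v, h S ((maxCritical_map e S).1 hT), rfl⟩

theorem core_eq_nucleus_iff (e : G ≃g H) : core H = nucleus H ↔ core G = nucleus G := by
  constructor
  · intro h
    ext v
    rw [← core_map e, ← nucleus_map e, h]
  · intro h
    ext w
    obtain ⟨v, rfl⟩ := e.surjective w
    rw [core_map, nucleus_map, h]

end iso

end Pool.Agent.V11227.CN
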