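import Pool.Agent.V11227.CN1
import Pool.Agent.Y650.TH.Final

/-!
# Core and nucleus: the reduction
-/

namespace Pool.Agent.V11227.CN

open Pool.Agent.NPC Pool.Agent.H622R2 Pool.Agent.Y650.TH

/-- Local labels: clause index, position, literal; or the index of an isolated vertex. -/
abbrev Loc := (ℕ × ℕ × Lit) ⊕ ℕ

/-- Labels: group, part, local label; or the index of a clique vertex. -/
abbrev Lab := ((ℕ × ℕ) × Loc) ⊕ ℕ

instance : DecidableEq Loc := inferInstance
instance : DecidableEq Lab := inferInstance

/-- A part: a formula and the indices of the isolated vertices. -/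
abbrev Part := List Cl × List ℕ

/-- The five parts for a pair of formulas. -/
def parts (p : List Cl × List Cl) : List Part :=
  [(p.1, List.range (p.2.length + 3)), (p.2, List.range (p.1.length + 3)),
    (p.2, List.range (p.1.length + 3)), ([], List.range (p.1.length + p.2.length + 2)),
    ([], List.range (p.1.length + p.2.length + 2))]

/-- The literals of a clause with their positions. -/
def lits (c : Cl) : List (ℕ × Lit) := [(0, c.1), (1, c.2.1), (2, c.2.2)]

/-- The vertices of a part. -/
def pv (P : Part) : List Loc :=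
  (P.1.zipIdx.flatMap fun e => (lits e.1).map fun x => Sum.inl (e.2, x)) ++ P.2.map Sum.inr

/-- The vertices which are not clique vertices. -/
def base (ps : List (List Cl × List Cl)) : List Lab :=
  ps.zipIdx.flatMap fun e => (parts e.1).zipIdx.flatMap fun f => (pv f.1).map fun x =>
    Sum.inl ((e.2, f.2), x)

/-- All vertices. -/
def vs (ps : List (List Cl × List Cl)) : List Lab :=
  base ps ++ (List.range ((base ps).length + 3)).map Sum.inr

/-- Local adjacency: same clause, or contradictory literals. -/
def ladj : Loc → Loc → Bool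
  | Sum.inl a, Sum.inl b =>
    decide (a.1 = b.1) || (decide (a.2.2.2 = b.2.2.2) && !decide (a.2.2.1 = b.2.2.1))
  | _, _ => false

/-- Adjacency of different labels. -/
def adj : Lab → Lab → Bool
  | Sum.inl a, Sum.inl b =>
    decide (a.1.1 = b.1.1) && (!decide (a.1.2 = b.1.2) || ladj a.2 b.2)
  | _, _ => true

/-- The graph of the reduction. -/
def red (ps : List (List Cl × List Cl)) : List (List Bool) := mat (ddup (vs ps)) adj

theorem mem_lits {c : Cl} {x : ℕ × Lit} : x ∈ lits c ↔ x = (0, c.1) ∨ x = (1, c.2.1) ∨ x = (2, c.2.2) := by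
  simp [lits]

theorem mem_pv_inl {P : Part} {a : ℕ × ℕ × Lit} :
    Sum.inl a ∈ pv P ↔ ∃ c, P.1[a.1]? = some c ∧ a.2 ∈ lits c := by
  unfold pv
  simp only [List.mem_append, List.mem_flatMap, List.mem_map, reduceCtorEq, and_false, exists_false,
    or_false]
  constructor
  · rintro ⟨⟨c, i⟩, hc, x, hx, he⟩
    have he' := Sum.inl.inj he
    subst he'
    exact ⟨c, by simpa using List.mem_zipIdx_iff_getElem?.1 hc, hx⟩
  · rintro ⟨c, hc, hx⟩
    exact ⟨(c, a.1), List.mem_zipIdx_iff_getElem?.2 hc, a.2, hx, rfl⟩

theorem mem_pv_inr {P : Part} {j : ℕ} : Sum.inr j ∈ pv P ↔ j ∈ P.2 := by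
  unfold pv
  simp

theorem mem_base {ps : List (List Cl × List Cl)} {iq : ℕ × ℕ} {x : Loc} :
    Sum.inl (iq, x) ∈ base ps ↔
      ∃ p, ps[iq.1]? = some p ∧ ∃ P, (parts p)[iq.2]? = some P ∧ x ∈ pv P := by
  unfold base
  simp only [List.mem_flatMap, List.mem_map]
  constructor
  · rintro ⟨⟨p, i⟩, hp, ⟨P, q⟩, hP, y, hy, he⟩
    have he' := Sum.inl.inj he
    simp only [Prod.mk.injEq] at he'
    obtain ⟨rfl, rfl⟩ := he'
    exact ⟨p, List.mem_zipIdx_iff_getElem?.1 hp, P, List.mem_zipIdx_iff_getElem?.1 hP, hy⟩
  · rintro ⟨p, hp, P, hP, hx⟩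
    exact ⟨(p, iq.1), List.mem_zipIdx_iff_getElem?.2 hp, (P, iq.2),
      List.mem_zipIdx_iff_getElem?.2 hP, x, hx, rfl⟩

theorem inr_notMem_base {ps : List (List Cl × List Cl)} {j : ℕ} : Sum.inr j ∉ base ps := by
  unfold base
  simp

theorem mem_vs_inl {ps : List (List Cl × List Cl)} {iq : ℕ × ℕ} {x : Loc} :
    Sum.inl (iq, x) ∈ vs ps ↔
      ∃ p, ps[iq.1]? = some p ∧ ∃ P, (parts p)[iq.2]? = some P ∧ x ∈ pv P := by
  unfold vs
  rw [List.mem_append, mem_base]
  simp

theorem mem_vs_inr {ps : List (List Cl × List Cl)} {j : ℕ} :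
    Sum.inr j ∈ vs ps ↔ j < (base ps).length + 3 := by
  unfold vs
  rw [List.mem_append]
  simp [inr_notMem_base]

/-- The vertex type. -/
abbrev VT (ps : List (List Cl × List Cl)) : Type := {x // x ∈ ddup (vs ps)}

/-- The graph. -/
abbrev GT (ps : List (List Cl × List Cl)) : SimpleGraph (VT ps) := labGraph (ddup (vs ps)) adj

/-- The fibre of a vertex. -/
def kap (ps : List (List Cl × List Cl)) (v : VT ps) : Option (ℕ × ℕ) :=
  match v.1 with
  | Sum.inl a => some a.1
  | Sum.inr _ => none

theorem ladj_comm (x y : Loc) : ladj x y = ladj y x := by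
  rcases x with x | x <;> rcases y with y | y <;> simp only [ladj, eq_comm]

theorem adj_comm (x y : Lab) : adj x y = adj y x := by
  rcases x with x | x <;> rcases y with y | y
  · simp only [adj]
    simp only [ladj_comm x.2 y.2, eq_comm (a := x.1.1), eq_comm (a := x.1.2)]
  all_goals rfl

theorem GT_adj {ps : List (List Cl × List Cl)} (u v : VT ps) :
    (GT ps).Adj u v ↔ u ≠ v ∧ adj u.1 v.1 = true := by
  change u ≠ v ∧ (adj u.1 v.1 = true ∨ adj v.1 u.1 = true) ↔ _
  rw [adj_comm v.1 u.1, or_self]

theorem shape (ps : List (List Cl × List Cl)) : Shape (GT ps) (kap ps) := by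
  constructor
  · rintro ⟨v, hv⟩ w hvw hκ
    rw [GT_adj]
    refine ⟨hvw, ?_⟩
    rcases v with a | j
    · simp [kap] at hκ
    · cases w.1 <;> rfl
  · rintro ⟨v, hv⟩ ⟨w, hw⟩ i q i' q' hκ hκ' hne hadj
    rw [GT_adj] at hadj
    rcases v with ⟨⟨i1, q1⟩, x⟩ | j
    · rcases w with ⟨⟨i2, q2⟩, y⟩ | j
      · simp only [kap, Option.some.injEq, Prod.mk.injEq] at hκ hκ'
        obtain ⟨rfl, rfl⟩ := hκ
        obtain ⟨rfl, rfl⟩ := hκ'
        have := hadj.2
        simp only [adj, Bool.and_eq_true, decide_eq_true_eq] at this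
        exact hne this.1
      · simp [kap] at hκ'
    · simp [kap] at hκ
  · rintro ⟨v, hv⟩ ⟨w, hw⟩ i q q' hκ hκ' hne
    rw [GT_adj]
    rcases v with ⟨⟨i1, q1⟩, x⟩ | j
    · rcases w with ⟨⟨i2, q2⟩, y⟩ | j
      · simp only [kap, Option.some.injEq, Prod.mk.injEq] at hκ hκ'
        obtain ⟨rfl, rfl⟩ := hκ
        obtain ⟨rfl, rfl⟩ := hκ'
        refine ⟨?_, ?_⟩
        · intro he
          rw [Subtype.mk.injEq, Sum.inl.injEq, Prod.mk.injEq, Prod.mk.injEq] at he
          exact hne he.1.2
        · simp only [adj, decide_true, Bool.true_and, Bool.or_eq_true, Bool.not_eq_true',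
            decide_eq_false_iff_not]
          exact Or.inl hne
      · simp [kap] at hκ'
    · simp [kap] at hκ

/-- adjacency inside a fibre -/
theorem adj_fibre {ps : List (List Cl × List Cl)} {iq : ℕ × ℕ} {x y : Loc}
    (hx : Sum.inl (iq, x) ∈ ddup (vs ps)) (hy : Sum.inl (iq, y) ∈ ddup (vs ps)) :
    (GT ps).Adj ⟨Sum.inl (iq, x), hx⟩ ⟨Sum.inl (iq, y), hy⟩ ↔ x ≠ y ∧ ladj x y = true := by
  rw [GT_adj]
  simp [adj]

/-- the form of a vertex of a fibre -/
theorem fibre_form {ps : List (List Cl × List Cl)} {v : VT ps} {iq : ℕ × ℕ}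
    (h : kap ps v = some iq) : ∃ x, v.1 = Sum.inl (iq, x) := by
  obtain ⟨v, hv⟩ := v
  rcases v with ⟨jq, x⟩ | j
  · simp only [kap, Option.some.injEq] at h
    subst h
    exact ⟨x, rfl⟩
  · simp [kap] at h

/-- the local label -/
def lc (v : Lab) : Loc :=
  match v with
  | Sum.inl a => a.2
  | Sum.inr j => Sum.inr j

/-- the key of a local label: clause index or index of isolated vertex -/
def key (x : Loc) : ℕ ⊕ ℕ :=
  match x with
  | Sum.inl a => Sum.inl a.1
  | Sum.inr j => Sum.inr j

theorem length_eq_of {α : Type} {l : List α} {i : ℕ} {a : α} (h : l[i]? = some a) : i < l.length :=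
  (List.getElem?_eq_some_iff.1 h).1

/-- The upper bound for independent sets in a fibre. -/
theorem card_le {ps : List (List Cl × List Cl)} {iq : ℕ × ℕ} {p : List Cl × List Cl} {P : Part}
    (hp : ps[iq.1]? = some p) (hP : (parts p)[iq.2]? = some P) (hnd : P.2.Nodup)
    {S : Finset (VT ps)} (hS : (GT ps).IsIndepSet (S : Set (VT ps)))
    (hκ : ∀ w ∈ S, kap ps w = some iq) :
    S.card ≤ P.1.length + P.2.length ∧ (S.card = P.1.length + P.2.length → SAT3 P.1) := by
  classical
  let f : VT ps → ℕ ⊕ ℕ := fun v => key (lc v.1)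
  have hloc : ∀ w ∈ S, ∃ x, w.1 = Sum.inl (iq, x) ∧ x ∈ pv P := by
    intro w hw
    obtain ⟨x, hx⟩ := fibre_form (hκ w hw)
    refine ⟨x, hx, ?_⟩
    have h1 := (mem_ddup _ _).1 w.2
    rw [hx, mem_vs_inl] at h1
    obtain ⟨p', hp', P', hP', hx'⟩ := h1
    rw [hp] at hp'
    obtain rfl := Option.some.inj hp'
    rw [hP] at hP'
    obtain rfl := Option.some.inj hP'
    exact hx'
  have hinj : Set.InjOn f S := by
    intro v hv w hw he
    obtain ⟨x, hx, hxP⟩ := hloc v hv
    obtain ⟨y, hy, hyP⟩ := hloc w hw
    by_contra hne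
    have hxy : x ≠ y := by
      rintro rfl
      exact hne (Subtype.ext (hx.trans hy.symm))
    refine hS hv hw hne ?_
    rw [GT_adj]
    refine ⟨hne, ?_⟩
    rw [hx, hy]
    change key (lc v.1) = key (lc w.1) at he
    rw [hx, hy] at he
    rcases x with x | x <;> rcases y with y | y
    · have : x.1 = y.1 := Sum.inl.inj he
      simp [adj, ladj, this]
    · exact absurd he (by simp [key, lc])
    · exact absurd he (by simp [key, lc])
    · exact absurd (congrArg Sum.inr (Sum.inr.inj he)) hxy
  let U : Finset (ℕ ⊕ ℕ) := (Finset.range P.1.length).disjSum P.2.toFinset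
  have hU : U.card = P.1.length + P.2.length := by
    rw [Finset.card_disjSum, Finset.card_range, List.toFinset_card_of_nodup hnd]
  have hsub : S.image f ⊆ U := by
    intro z hz
    obtain ⟨w, hw, rfl⟩ := Finset.mem_image.1 hz
    obtain ⟨x, hx, hxP⟩ := hloc w hw
    change key (lc w.1) ∈ U
    rw [hx]
    rcases x with x | x
    · obtain ⟨c, hc, -⟩ := mem_pv_inl.1 hxP
      exact Finset.inl_mem_disjSum.2 (Finset.mem_range.2 (length_eq_of hc))
    · exact Finset.inr_mem_disjSum.2 (List.mem_toFinset.2 (mem_pv_inr.1 hxP))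
  have hcard : (S.image f).card = S.card := Finset.card_image_of_injOn hinj
  refine ⟨?_, fun heq => ?_⟩
  · rw [← hcard, ← hU]
    exact Finset.card_le_card hsub
  · have himg : S.image f = U := Finset.eq_of_subset_of_card_le hsub (by rw [hcard, heq, hU])
    refine ⟨fun n => decide (∃ w ∈ S, ∃ a : ℕ × ℕ × Lit, w.1 = Sum.inl (iq, Sum.inl a) ∧
      a.2.2 = (true, n)), fun c hc => ?_⟩
    obtain ⟨i, hi, hic⟩ := List.getElem_of_mem hc
    have h1 : (Sum.inl i : ℕ ⊕ ℕ) ∈ S.image f := by
      rw [himg]
      exact Finset.inl_mem_disjSum.2 (Finset.mem_range.2 hi)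
    obtain ⟨w, hw, hwi⟩ := Finset.mem_image.1 h1
    obtain ⟨x, hx, hxP⟩ := hloc w hw
    change key (lc w.1) = Sum.inl i at hwi
    rw [hx] at hwi
    rcases x with a | x
    · have hai : a.1 = i := Sum.inl.inj hwi
      obtain ⟨c', hc', ha⟩ := mem_pv_inl.1 hxP
      rw [hai, List.getElem?_eq_getElem hi, hic] at hc'
      obtain rfl := Option.some.inj hc'
      have hval : decide (∃ w ∈ S, ∃ b : ℕ × ℕ × Lit, w.1 = Sum.inl (iq, Sum.inl b) ∧
          b.2.2 = (true, a.2.2.2)) = a.2.2.1 := by
        rcases hb : a.2.2.1 with _ | _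
        · rw [decide_eq_false_iff_not]
          rintro ⟨w', hw', b, hwb, hb'⟩
          have hne : w ≠ w' := by
            rintro rfl
            rw [hx] at hwb
            have := Sum.inl.inj hwb
            simp only [Prod.mk.injEq, Sum.inl.injEq, true_and] at this
            rw [this, hb'] at hb
            exact absurd hb (by simp)
          refine hS hw hw' hne ?_
          rw [GT_adj]
          refine ⟨hne, ?_⟩
          rw [hx, hwb]
          simp [adj, ladj, hb', hb]
        · rw [decide_eq_true_iff]
          exact ⟨w, hw, a, hx, by rw [← hb]⟩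
      rcases mem_lits.1 ha with h | h | h
      · left; rw [h] at hval; exact hval
      · right; left; rw [h] at hval; exact hval
      · right; right; rw [h] at hval; exact hval
    · exact absurd hwi (by simp [key, lc])

/-- Large independent sets for satisfiable formulas. -/
theorem exists_indep {ps : List (List Cl × List Cl)} {iq : ℕ × ℕ} {p : List Cl × List Cl} {P : Part}
    (hp : ps[iq.1]? = some p) (hP : (parts p)[iq.2]? = some P) (hnd : P.2.Nodup)
    (hsat : SAT3 P.1) : ∃ T : Finset (VT ps), (GT ps).IsIndepSet (T : Set (VT ps)) ∧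
      (∀ w ∈ T, kap ps w = some iq) ∧ T.card = P.1.length + P.2.length := by
  classical
  obtain ⟨τ, hτ⟩ := hsat
  have hch : ∀ i (hi : i < P.1.length), ∃ y : ℕ × Lit, y ∈ lits P.1[i] ∧ τ y.2.2 = y.2.1 := by
    intro i hi
    rcases hτ _ (List.getElem_mem hi) with h | h | h
    · exact ⟨(0, _), mem_lits.2 (Or.inl rfl), h⟩
    · exact ⟨(1, _), mem_lits.2 (Or.inr (Or.inl rfl)), h⟩
    · exact ⟨(2, _), mem_lits.2 (Or.inr (Or.inr rfl)), h⟩
  choose g hg1 hg2 using hch
  have hmem : ∀ z : ℕ ⊕ ℕ, z ∈ (Finset.range P.1.length).disjSum P.2.toFinset →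
      ∃ x : Loc, x ∈ pv P ∧ key x = z ∧ ∀ a, x = Sum.inl a → τ a.2.2.2 = a.2.2.1 := by
    intro z hz
    rcases z with i | j
    · have hi := Finset.mem_range.1 (Finset.inl_mem_disjSum.1 hz)
      refine ⟨Sum.inl (i, g i hi), mem_pv_inl.2 ⟨_, List.getElem?_eq_getElem hi, hg1 i hi⟩, rfl, ?_⟩
      rintro a ha
      rw [← Sum.inl.inj ha]
      exact hg2 i hi
    · refine ⟨Sum.inr j, mem_pv_inr.2 (List.mem_toFinset.1 (Finset.inr_mem_disjSum.1 hz)), rfl, ?_⟩
      rintro a ha
      exact absurd ha (by simp)
  choose! t ht1 ht2 ht3 using hmem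
  have hv : ∀ z ∈ (Finset.range P.1.length).disjSum P.2.toFinset,
      Sum.inl (iq, t z) ∈ ddup (vs ps) := by
    intro z hz
    rw [mem_ddup, mem_vs_inl]
    exact ⟨p, hp, P, hP, ht1 z hz⟩
  let U : Finset (ℕ ⊕ ℕ) := (Finset.range P.1.length).disjSum P.2.toFinset
  let T : Finset (VT ps) := U.attach.image fun z => ⟨Sum.inl (iq, t z.1), hv z.1 z.2⟩
  refine ⟨T, ?_, ?_, ?_⟩
  · intro v hv' w hw' hne hadj
    obtain ⟨z, -, rfl⟩ := Finset.mem_image.1 (Finset.mem_coe.1 hv')
    obtain ⟨z', -, rfl⟩ := Finset.mem_image.1 (Finset.mem_coe.1 hw')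
    rw [adj_fibre] at hadj
    obtain ⟨h1, h2⟩ := hadj
    have hz := ht2 z.1 z.2
    have hz' := ht2 z'.1 z'.2
    rcases ha : t z.1 with a | a <;> rcases hb : t z'.1 with b | b
    · rw [ha, hb] at h2
      simp only [ladj, Bool.or_eq_true, decide_eq_true_eq, Bool.and_eq_true, Bool.not_eq_true',
        decide_eq_false_iff_not] at h2
      rcases h2 with h2 | ⟨h2, h3⟩
      · have : z.1 = z'.1 := by
          rw [← hz, ← hz', ha, hb]
          simp [key, h2]
        exact h1 (by rw [this])
      · have e1 := ht3 z.1 z.2 a ha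
        have e2 := ht3 z'.1 z'.2 b hb
        rw [h2, e2] at e1
        exact h3 e1.symm
    · rw [ha, hb] at h2; exact absurd h2 (by simp [ladj])
    · rw [ha, hb] at h2; exact absurd h2 (by simp [ladj])
    · rw [ha, hb] at h2; exact absurd h2 (by simp [ladj])
  · intro w hw
    obtain ⟨z, -, rfl⟩ := Finset.mem_image.1 hw
    rfl
  · rw [Finset.card_image_of_injective, Finset.card_attach, Finset.card_disjSum, Finset.card_range,
      List.toFinset_card_of_nodup hnd]
    intro z z' he
    rw [Subtype.mk.injEq, Sum.inl.injEq, Prod.mk.injEq] at he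
    have h1 := ht2 z.1 z.2
    have h2 := ht2 z'.1 z'.2
    exact Subtype.ext (by rw [← h1, ← h2, he.2])

theorem sat_nil : SAT3 [] := ⟨fun _ => true, by simp⟩

theorem core_iff (ps : List (List Cl × List Cl)) : core (GT ps) = ∅ ↔ ¬ OrDP ps := by
  classical
  have hfib : ∀ v iq, kap ps v = some iq → ∃ p, ps[iq.1]? = some p ∧ ∃ P,
      (parts p)[iq.2]? = some P := by
    intro v iq hv
    obtain ⟨x, hx⟩ := fibre_form hv
    have h1 := (mem_ddup _ _).1 v.2
    rw [hx, mem_vs_inl] at h1
    obtain ⟨p, hp, P, hP, -⟩ := h1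
    exact ⟨p, hp, P, hP⟩
  constructor
  · rintro hcore ⟨p, hp, hsat, hunsat⟩
    obtain ⟨i, hi, hip⟩ := List.getElem_of_mem hp
    have hp' : ps[i]? = some p := by rw [List.getElem?_eq_getElem hi, hip]
    have hP : (parts p)[0]? = some (p.1, List.range (p.2.length + 3)) := rfl
    have hv : (Sum.inl ((i, 0), Sum.inr 0) : Lab) ∈ ddup (vs ps) := by
      rw [mem_ddup, mem_vs_inl]
      exact ⟨p, hp', _, hP, mem_pv_inr.2 (by simp)⟩
    obtain ⟨T, hT1, hT2, hT3⟩ := exists_indep (iq := (i, 0)) hp' hP List.nodup_range hsat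
    simp only [List.length_range] at hT3
    have hmem : (⟨_, hv⟩ : VT ps) ∈ core (GT ps) := by
      refine mem_core (shape ps) (i := i) (q := 0) rfl ?_ hT1 hT2 (by omega) ?_
      · intro w hw hadj
        obtain ⟨x, hx⟩ := fibre_form hw
        rw [GT_adj, hx] at hadj
        have := hadj.2
        simp [adj, ladj] at this
      · intro q' hq' S hS hS'
        by_cases hex : ∃ P', (parts p)[q']? = some P'
        · obtain ⟨P', hP'⟩ := hex
          rcases q' with _ | _ | _ | _ | _ | q'
          · exact absurd rfl hq'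
          · obtain rfl : (p.2, List.range (p.1.length + 3)) = P' := Option.some.inj hP'
            obtain ⟨h1, h2⟩ := card_le (iq := (i, 1)) hp' hP' List.nodup_range hS hS'
            simp only [List.length_range] at h1 h2
            rcases Nat.lt_or_ge S.card (p.2.length + (p.1.length + 3)) with h3 | h3
            · omega
            · exact absurd (h2 (le_antisymm h1 h3)) hunsat
          · obtain rfl : (p.2, List.range (p.1.length + 3)) = P' := Option.some.inj hP'
            obtain ⟨h1, h2⟩ := card_le (iq := (i, 2)) hp' hP' List.nodup_range hS hS'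
            simp only [List.length_range] at h1 h2
            rcases Nat.lt_or_ge S.card (p.2.length + (p.1.length + 3)) with h3 | h3
            · omega
            · exact absurd (h2 (le_antisymm h1 h3)) hunsat
          · obtain rfl : (([] : List Cl), List.range (p.1.length + p.2.length + 2)) = P' :=
              Option.some.inj hP'
            obtain ⟨h1, h2⟩ := card_le (iq := (i, 3)) hp' hP' List.nodup_range hS hS'
            simp only [List.length_range, List.length_nil] at h1
            omega
          · obtain rfl : (([] : List Cl), List.range (p.1.length + p.2.length + 2)) = P' :=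
              Option.some.inj hP'
            obtain ⟨h1, h2⟩ := card_le (iq := (i, 4)) hp' hP' List.nodup_range hS hS'
            simp only [List.length_range, List.length_nil] at h1
            omega
          · exact absurd hP' (by simp [parts])
        · have hSe : S = ∅ := by
            rw [Finset.eq_empty_iff_forall_notMem]
            intro w hw
            obtain ⟨p', hp1, P', hP'⟩ := hfib w (i, q') (hS' w hw)
            rw [hp'] at hp1
            obtain rfl := Option.some.inj hp1
            exact hex ⟨P', hP'⟩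
          rw [hSe, Finset.card_empty]
          omega
    rw [hcore] at hmem
    exact hmem
  · intro hno
    refine core_eq_empty (shape ps) ?_ ?_
    · rintro ⟨v, hv⟩ hκ
      rcases v with a | j
      · simp [kap] at hκ
      · by_cases hj : j = 0
        · have h1 : (Sum.inr 1 : Lab) ∈ ddup (vs ps) := by
            rw [mem_ddup, mem_vs_inr]; omega
          exact ⟨⟨_, h1⟩, by simp [hj], rfl⟩
        · have h1 : (Sum.inr 0 : Lab) ∈ ddup (vs ps) := by
            rw [mem_ddup, mem_vs_inr]; omega
          exact ⟨⟨_, h1⟩, by simp [Ne.symm hj], rfl⟩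
    · intro v i q hκ
      obtain ⟨p, hp, P, hP⟩ := hfib v (i, q) hκ
      have hpmem : p ∈ ps := List.mem_of_getElem? hp
      have hnot : SAT3 p.1 → SAT3 p.2 := by
        intro h1
        by_contra h2
        exact hno ⟨p, hpmem, h1, h2⟩
      -- the general upper bound
      have hub : ∀ (q : ℕ) (P : Part), (parts p)[q]? = some P → P.1.length + P.2.length ≤
          p.1.length + p.2.length + 3 ∧ P.2.Nodup := by
        intro q P hP
        rcases q with _ | _ | _ | _ | _ | q
        · obtain rfl : (p.1, List.range (p.2.length + 3)) = P := Option.some.inj hP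
          exact ⟨by simp; omega, List.nodup_range⟩
        · obtain rfl : (p.2, List.range (p.1.length + 3)) = P := Option.some.inj hP
          exact ⟨by simp; omega, List.nodup_range⟩
        · obtain rfl : (p.2, List.range (p.1.length + 3)) = P := Option.some.inj hP
          exact ⟨by simp; omega, List.nodup_range⟩
        · obtain rfl : (([] : List Cl), List.range (p.1.length + p.2.length + 2)) = P :=
            Option.some.inj hP
          exact ⟨by simp, List.nodup_range⟩
        · obtain rfl : (([] : List Cl), List.range (p.1.length + p.2.length + 2)) = P :=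
            Option.some.inj hP
          exact ⟨by simp, List.nodup_range⟩
        · exact absurd hP (by simp [parts])
      obtain ⟨hPub, hPnd⟩ := hub q P hP
      by_cases hs : SAT3 p.2
      · have hex : ∀ q', (q' = 1 ∨ q' = 2) → q' ≠ q → ∃ q', q' ≠ q ∧ ∀ S : Finset (VT ps),
            (GT ps).IsIndepSet (S : Set (VT ps)) → (∀ w ∈ S, kap ps w = some (i, q)) →
            ∃ T : Finset (VT ps), (GT ps).IsIndepSet (T : Set (VT ps)) ∧
              (∀ w ∈ T, kap ps w = some (i, q')) ∧ S.card ≤ T.card := by
          intro q' hq' hne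
          refine ⟨q', hne, fun S hS hS' => ?_⟩
          have hP' : (parts p)[q']? = some (p.2, List.range (p.1.length + 3)) := by
            rcases hq' with rfl | rfl <;> rfl
          obtain ⟨T, hT1, hT2, hT3⟩ := exists_indep (iq := (i, q')) hp hP' List.nodup_range hs
          refine ⟨T, hT1, hT2, ?_⟩
          have h1 := (card_le (iq := (i, q)) hp hP hPnd hS hS').1
          simp only [List.length_range] at hT3
          omega
        by_cases hq : q = 1
        · exact hex 2 (Or.inr rfl) (by omega)
        · exact hex 1 (Or.inl rfl) (Ne.symm hq)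
      · have hs1 : ¬ SAT3 p.1 := fun h => hs (hnot h)
        have hex : ∀ q', (q' = 3 ∨ q' = 4) → q' ≠ q → ∃ q', q' ≠ q ∧ ∀ S : Finset (VT ps),
            (GT ps).IsIndepSet (S : Set (VT ps)) → (∀ w ∈ S, kap ps w = some (i, q)) →
            ∃ T : Finset (VT ps), (GT ps).IsIndepSet (T : Set (VT ps)) ∧
              (∀ w ∈ T, kap ps w = some (i, q')) ∧ S.card ≤ T.card := by
          intro q' hq' hne
          refine ⟨q', hne, fun S hS hS' => ?_⟩
          have hP' : (parts p)[q']? = some (([] : List Cl),
              List.range (p.1.length + p.2.length + 2)) := by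
            rcases hq' with rfl | rfl <;> rfl
          obtain ⟨T, hT1, hT2, hT3⟩ := exists_indep (iq := (i, q')) hp hP' List.nodup_range sat_nil
          refine ⟨T, hT1, hT2, ?_⟩
          obtain ⟨h1, h2⟩ := card_le (iq := (i, q)) hp hP hPnd hS hS'
          simp only [List.length_range, List.length_nil] at hT3
          have h3 : S.card ≤ p.1.length + p.2.length + 2 := by
            rcases q with _ | _ | _ | _ | _ | q
            · obtain rfl : (p.1, List.range (p.2.length + 3)) = P := Option.some.inj hP
              simp only [List.length_range] at h1 h2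
              rcases Nat.lt_or_ge S.card (p.1.length + (p.2.length + 3)) with h3 | h3
              · omega
              · exact absurd (h2 (le_antisymm h1 h3)) hs1
            · obtain rfl : (p.2, List.range (p.1.length + 3)) = P := Option.some.inj hP
              simp only [List.length_range] at h1 h2
              rcases Nat.lt_or_ge S.card (p.2.length + (p.1.length + 3)) with h3 | h3
              · omega
              · exact absurd (h2 (le_antisymm h1 h3)) hs
            · obtain rfl : (p.2, List.range (p.1.length + 3)) = P := Option.some.inj hP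
              simp only [List.length_range] at h1 h2
              rcases Nat.lt_or_ge S.card (p.2.length + (p.1.length + 3)) with h3 | h3
              · omega
              · exact absurd (h2 (le_antisymm h1 h3)) hs
            · obtain rfl : (([] : List Cl), List.range (p.1.length + p.2.length + 2)) = P :=
                Option.some.inj hP
              simp only [List.length_range, List.length_nil] at h1
              omega
            · obtain rfl : (([] : List Cl), List.range (p.1.length + p.2.length + 2)) = P :=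
                Option.some.inj hP
              simp only [List.length_range, List.length_nil] at h1
              omega
            · exact absurd hP (by simp [parts])
          omega
        by_cases hq : q = 3
        · exact hex 4 (Or.inr rfl) (by omega)
        · exact hex 3 (Or.inl rfl) (Ne.symm hq)

theorem nucleus_eq (ps : List (List Cl × List Cl)) : nucleus (GT ps) = ∅ := by
  classical
  have h1 : (base ps).length + 3 ≤ (Finset.univ.filter fun v => kap ps v = none).card := by
    have hm : ∀ j : Fin ((base ps).length + 3), (Sum.inr (j : ℕ) : Lab) ∈ ddup (vs ps) := by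
      intro j
      rw [mem_ddup, mem_vs_inr]
      exact j.2
    have hc : (Finset.univ.image fun j : Fin ((base ps).length + 3) => (⟨_, hm j⟩ : VT ps)).card =
        (base ps).length + 3 := by
      rw [Finset.card_image_of_injective, Finset.card_univ, Fintype.card_fin]
      intro i j hij
      rw [Subtype.mk.injEq, Sum.inr.injEq] at hij
      exact Fin.ext hij
    rw [← hc]
    refine Finset.card_le_card fun v hv => ?_
    obtain ⟨j, -, rfl⟩ := Finset.mem_image.1 hv
    rw [Finset.mem_filter]
    exact ⟨Finset.mem_univ _, rfl⟩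
  have h2 : (Finset.univ.filter fun v => kap ps v ≠ none).card ≤ (base ps).length := by
    have hsub : ((Finset.univ.filter fun v => kap ps v ≠ none).image Subtype.val) ⊆
        (base ps).toFinset := by
      intro x hx
      obtain ⟨v, hv, rfl⟩ := Finset.mem_image.1 hx
      rw [Finset.mem_filter] at hv
      obtain ⟨iq, hiq⟩ := Option.ne_none_iff_exists'.1 hv.2
      obtain ⟨x, hx⟩ := fibre_form hiq
      have h3 := (mem_ddup _ _).1 v.2
      rw [hx] at h3 ⊢
      rw [List.mem_toFinset, mem_base]
      exact mem_vs_inl.1 h3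
    have h3 := Finset.card_le_card hsub
    rw [Finset.card_image_of_injective _ Subtype.val_injective] at h3
    exact h3.trans (List.toFinset_card_le _)
  refine nucleus_eq_empty (shape ps) (by omega) ?_
  have h3 : (Finset.univ.filter fun v => kap ps v = none).card ≤ Fintype.card (VT ps) :=
    Finset.card_le_univ _
  omega

theorem red_correct (ps : List (List Cl × List Cl)) :
    ¬ OrDP ps ↔ core (matGraph (red ps)) = nucleus (matGraph (red ps)) := by
  have h := core_eq_nucleus_iff (matIso (ddup (vs ps)) adj (ddup_nodup _))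
  rw [nucleus_eq, core_iff] at h
  exact h

end Pool.Agent.V11227.CN
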