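import Pool.Agent.Y650.TH.Final
import Pool.Agent.NPC.Dec

/-!
# Parallel access to NP: closure, and a criterion for membership
-/

namespace Pool.Agent.V11227

open Pool.Agent.NPC Pool.Agent.Y650.TH

theorem theta_compl {L : Set (List Bool)} (h : InTheta2 L) : InTheta2 Lᶜ := by
  obtain ⟨O, q, e, hO, hq, he, hL⟩ := h
  have he' : NPC.Poly e := poly_of_polyTime he
  refine ⟨O, q, fun y => [!decide (e y = [true])], hO, hq, polyTime_of_poly (by fun_prop), fun x => ?_⟩
  obtain ⟨qs, ans, h1, h2, h3⟩ := hL x
  refine ⟨qs, ans, h1, h2, ?_⟩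
  rw [Set.mem_compl_iff, h3, List.cons.injEq, and_iff_left rfl, Bool.not_eq_true',
    decide_eq_false_iff_not]

/-- A criterion for membership: the input `a` determines a list `t a` of questions, and the answer
is a polynomial-time function of the list of questions with their answers. -/
theorem inTheta2_of {α β : Type} [TEnc α] [TDec α] [TEnc β] {P : α → Prop} {Q : α × β → Prop}
    (hQ : InNPP Q) {t : α → List β} (ht : NPC.Poly t) {E : α → List (β × Bool) → Bool}
    (hE : NPC.Poly fun p : α × List (β × Bool) => E p.1 p.2)
    (h : ∀ (a : α) (A : β → Bool), (∀ b ∈ t a, (A b = true ↔ Q (a, b))) →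
      (P a ↔ E a ((t a).map fun b => (b, A b)) = true)) : InTheta2 (lang P) := by
  classical
  let qm : α → List (List Bool) := fun a => (t a).map fun b => bits (a, b)
  let qs : List Bool → List (List Bool) := fun x => (unbits α x).elim [] qm
  let ev : List Bool × List Bool → Bool := fun p =>
    (unbits α p.1).elim false fun a => E a ((t a).zip p.2)
  let es : List Bool → Bool := fun y => (unbits (List Bool × List Bool) y).elim false ev
  have hqm : NPC.Poly (fun p : List Bool × α => qm p.2) := by
    refine NPC.Poly.map (F := fun (p : List Bool × α) b => bits (p.2, b)) (by fun_prop) ?_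
    exact (Pool.Agent.Y528.TH.bits_poly (α := α × β)).comp (by fun_prop)
  have hqs : NPC.Poly qs := NPC.Poly.optElim (h := fun _ a => qm a) (poly_unbits (α := α))
    (NPC.Poly.const _) hqm
  have hev : NPC.Poly ev := by
    have h1 : NPC.Poly (fun p : List Bool × List Bool => unbits α p.1) :=
      (poly_unbits (α := α)).comp (NPC.Poly.fst NPC.Poly.id)
    refine NPC.Poly.optElim (h := fun p a => E a ((t a).zip p.2)) h1 (NPC.Poly.const _) ?_
    exact hE.comp (f := fun p : (List Bool × List Bool) × α => (p.2, (t p.2).zip p.1.2)) (by fun_prop)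
  have hes : NPC.Poly es := NPC.Poly.optElim (h := fun _ p => ev p)
    (poly_unbits (α := List Bool × List Bool)) (NPC.Poly.const _) (hev.comp (NPC.Poly.snd NPC.Poly.id))
  refine ⟨lang Q, fun x => bits (qs x), fun y => [es y], hQ, polyTime_bits hqs,
    polyTime_of_poly hes, fun x => ?_⟩
  refine ⟨qs x, (qs x).map fun y => decide (y ∈ lang Q), rfl, ?_, ?_⟩
  · rw [List.forall₂_map_left_iff]
    exact List.forall₂_same.2 fun y _ => decide_eq_true_iff
  · show _ ↔ [es (bits (x, (qs x).map fun y => decide (y ∈ lang Q)))] = [true]
    simp only [es]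
    rw [unbits_bits, List.cons.injEq, and_iff_left rfl, mem_lang_iff]
    show _ ↔ ev (x, (qs x).map fun y => decide (y ∈ lang Q)) = true
    simp only [ev, qs]
    cases hx : unbits α x with
    | none => simp
    | some a =>
      simp only [Option.some.injEq, exists_eq_left', Option.elim_some]
      rw [h a (fun b => decide (bits (a, b) ∈ lang Q))
        (fun b _ => by rw [decide_eq_true_iff, bits_mem_lang])]
      simp only [qm, List.map_map]
      have : (t a).zip ((t a).map ((fun y => decide (y ∈ lang Q)) ∘ fun b => bits (a, b))) =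
          (t a).map fun b => (b, decide (bits (a, b) ∈ lang Q)) := by
        induction t a with
        | nil => rfl
        | cons b l ih => simp [ih]
      rw [this]

/-- `NP` is contained in the class. -/
theorem theta_of_np {L : Set (List Bool)} (h : InNP L) : InTheta2 L := by
  classical
  let ev : List Bool × List Bool → Bool := fun p => p.2.getD 0 false
  let es : List Bool → Bool := fun y => (unbits (List Bool × List Bool) y).elim false ev
  have hev : NPC.Poly ev := by
    show NPC.Poly (fun p : List Bool × List Bool => p.2.getD 0 false)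
    fun_prop
  have hes : NPC.Poly es := NPC.Poly.optElim (h := fun _ p => ev p)
    (poly_unbits (α := List Bool × List Bool)) (NPC.Poly.const _) (hev.comp (NPC.Poly.snd NPC.Poly.id))
  refine ⟨L, fun x => bits [x], fun y => [es y], h, polyTime_bits (by fun_prop),
    polyTime_of_poly hes, fun x => ?_⟩
  refine ⟨[x], [decide (x ∈ L)], rfl, ?_, ?_⟩
  · simp
  · show _ ↔ [es (bits (x, [decide (x ∈ L)]))] = [true]
    simp only [es]
    rw [unbits_bits, List.cons.injEq, and_iff_left rfl]
    simp [ev]

theorem theta_of_conp {L : Set (List Bool)} (h : InCoNP L) : InTheta2 L := by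
  have := theta_compl (theta_of_np h)
  rwa [compl_compl] at this

theorem HardTh.compl {α : Type} [TEnc α] {P : α → Prop} (h : HardTh P) : HardTh (fun a => ¬ P a) := by
  intro L hL
  obtain ⟨f, hf, hfL⟩ := h _ (theta_compl hL)
  refine ⟨f, hf, fun x => ?_⟩
  show x ∈ L ↔ ¬ P (f x)
  rw [← hfL x, Set.mem_compl_iff, not_not]

theorem HardTh.npHard {α : Type} [TEnc α] {P : α → Prop} (h : HardTh P) : NPHardP P :=
  fun _ hL => Pool.Agent.Y650.TH.HardTh.reduces h (theta_of_np hL)

theorem HardTh.coNPHard {α : Type} [TEnc α] {P : α → Prop} (h : HardTh P) : CoNPHardP P :=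
  fun _ hL => Pool.Agent.Y650.TH.HardTh.reduces h (theta_of_conp hL)

end Pool.Agent.V11227
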