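import Pool.Agent.V11227.CN2
import Pool.Agent.V11227.Theta

/-!
# Core and nucleus: hardness and membership
-/

namespace Pool.Agent.V11227.CN

open Pool.Agent.NPC Pool.Agent.H622R2 Pool.Agent.Y650.TH

/-! ### The reduction is computable in polynomial time -/

theorem poly_parts : NPC.Poly parts := by
  unfold parts
  have h1 : UPoly (fun p : List Cl × List Cl => p.1.length) := UPoly.length (NPC.Poly.fst NPC.Poly.id)
  have h2 : UPoly (fun p : List Cl × List Cl => p.2.length) := UPoly.length (NPC.Poly.snd NPC.Poly.id)
  have r1 : NPC.Poly (fun p : List Cl × List Cl => List.range (p.1.length + 3)) :=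
    (h1.add (UPoly.const 3)).range
  have r2 : NPC.Poly (fun p : List Cl × List Cl => List.range (p.2.length + 3)) :=
    (h2.add (UPoly.const 3)).range
  have r3 : NPC.Poly (fun p : List Cl × List Cl => List.range (p.1.length + p.2.length + 2)) :=
    ((h1.add h2).add (UPoly.const 2)).range
  fun_prop

theorem poly_lits : NPC.Poly lits := by
  unfold lits
  fun_prop

theorem poly_pv : NPC.Poly pv := by
  unfold pv
  have h := poly_lits
  fun_prop

theorem poly_base : NPC.Poly base := by
  unfold base
  have h := poly_parts
  have h1 := poly_pv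
  fun_prop

theorem poly_vs : NPC.Poly vs := by
  unfold vs
  have h := poly_base
  have h1 : NPC.Poly (fun ps => List.range ((base ps).length + 3)) :=
    ((UPoly.length h).add (UPoly.const 3)).range
  fun_prop

theorem poly_ladj : NPC.Poly (fun p : Loc × Loc => ladj p.1 p.2) := by
  have : NPC.Poly (fun p : Loc × Loc => Sum.elim (fun a : ℕ × ℕ × Lit =>
      Sum.elim (fun b : ℕ × ℕ × Lit => decide (a.1 = b.1) ||
        (decide (a.2.2.2 = b.2.2.2) && !decide (a.2.2.1 = b.2.2.1))) (fun _ : ℕ => false) p.2)
      (fun _ : ℕ => false) p.1) := by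
    fun_prop
  refine this.congr fun p => ?_
  obtain ⟨x, y⟩ := p
  rcases x with x | x <;> rcases y with y | y <;> rfl

theorem poly_adj : NPC.Poly (fun p : Lab × Lab => adj p.1 p.2) := by
  have h := poly_ladj
  have : NPC.Poly (fun p : Lab × Lab => Sum.elim (fun a : (ℕ × ℕ) × Loc =>
      Sum.elim (fun b : (ℕ × ℕ) × Loc => decide (a.1.1 = b.1.1) &&
        (!decide (a.1.2 = b.1.2) || (fun p : Loc × Loc => ladj p.1 p.2) (a.2, b.2)))
        (fun _ : ℕ => true) p.2)
      (fun _ : ℕ => true) p.1) := by
    fun_prop
  refine this.congr fun p => ?_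
  obtain ⟨x, y⟩ := p
  rcases x with x | x <;> rcases y with y | y <;> rfl

theorem poly_red : NPC.Poly red := by
  unfold red
  exact mat_poly (adj := fun (_ : List (List Cl × List Cl)) a b => adj a b) (ddup_poly poly_vs)
    (poly_adj.comp (f := fun p : (List (List Cl × List Cl) × Lab) × Lab => (p.1.2, p.2))
      (by fun_prop))

/-- The problem: the core of the graph equals its nucleus. -/
def CN (M : List (List Bool)) : Prop := core (matGraph M) = nucleus (matGraph M)

theorem hard_CN : HardTh CN :=
  (HardTh.compl Pool.Agent.Y620.TH.nf).trans poly_red red_correct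

end Pool.Agent.V11227.CN
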