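import Pool.Agent.V11227.CN3
import Pool.Agent.Y528.TH.Mem2

/-!
# Core and nucleus: membership in the class of parallel access to NP
-/

namespace Pool.Agent.V11227.CN

open Pool.Agent.NPC Pool.Agent.H622R2 Pool.Agent.Y650.TH Pool.Agent.Y528.TH

section abstract

variable {V : Type} [Fintype V] (G : SimpleGraph V)

/-- The question about a graph: an independent set avoiding `X` with at least `j` elements and
difference at least `k - n`. -/
def Qs (X : Set V) (j k : ℕ) : Prop :=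
  ∃ I : Finset V, G.IsIndepSet (I : Set V) ∧ (∀ i ∈ I, i ∉ X) ∧ j ≤ I.card ∧
    (nbhd G I).card + k ≤ I.card + Fintype.card V

variable {G}

theorem qs_le {X : Set V} {j k : ℕ} (h : Qs G X j k) : j ≤ Fintype.card V ∧
    k ≤ 2 * Fintype.card V := by
  obtain ⟨I, -, -, h3, h4⟩ := h
  have := Finset.card_le_univ I
  omega

theorem maximum_iff {a : ℕ} (h1 : Qs G ∅ a 0) (h2 : ¬ Qs G ∅ (a + 1) 0) (S : Finset V) :
    IsMaximumIndep G S ↔ G.IsIndepSet (S : Set V) ∧ a ≤ S.card := by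
  have hle : ∀ T : Finset V, G.IsIndepSet (T : Set V) → T.card ≤ a := by
    intro T hT
    by_contra hlt
    refine h2 ⟨T, hT, fun i _ => Set.notMem_empty i, by omega, ?_⟩
    have := Finset.card_le_univ (nbhd G T)
    omega
  constructor
  · rintro ⟨hS, hS'⟩
    obtain ⟨I, hI, -, hI', -⟩ := h1
    exact ⟨hS, hI'.trans (hS' I hI)⟩
  · rintro ⟨hS, hS'⟩
    exact ⟨hS, fun T hT => (hle T hT).trans hS'⟩

theorem critical_iff {d : ℕ} (h1 : Qs G ∅ 0 d) (h2 : ¬ Qs G ∅ 0 (d + 1)) (S : Finset V) :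
    IsCritical G S ↔ G.IsIndepSet (S : Set V) ∧
      (nbhd G S).card + d ≤ S.card + Fintype.card V := by
  have hle : ∀ T : Finset V, G.IsIndepSet (T : Set V) →
      T.card + Fintype.card V ≤ (nbhd G T).card + d := by
    intro T hT
    by_contra hlt
    exact h2 ⟨T, hT, fun i _ => Set.notMem_empty i, by omega, by omega⟩
  constructor
  · rintro ⟨hS, hS'⟩
    obtain ⟨I, hI, -, -, hI'⟩ := h1
    have := hS' I hI
    unfold diff at this
    exact ⟨hS, by omega⟩
  · rintro ⟨hS, hS'⟩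
    refine ⟨hS, fun T hT => ?_⟩
    have := hle T hT
    unfold diff
    omega

theorem maxCritical_iff {c d : ℕ} (h1 : Qs G ∅ 0 d) (h2 : ¬ Qs G ∅ 0 (d + 1))
    (h3 : Qs G ∅ c d) (h4 : ¬ Qs G ∅ (c + 1) d) (S : Finset V) :
    IsMaxCritical G S ↔ G.IsIndepSet (S : Set V) ∧ c ≤ S.card ∧
      (nbhd G S).card + d ≤ S.card + Fintype.card V := by
  have hle : ∀ T : Finset V, IsCritical G T → T.card ≤ c := by
    intro T hT
    obtain ⟨hT1, hT2⟩ := (critical_iff h1 h2 T).1 hT
    by_contra hlt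
    exact h4 ⟨T, hT1, fun i _ => Set.notMem_empty i, by omega, hT2⟩
  constructor
  · rintro ⟨hS, hS'⟩
    obtain ⟨hS1, hS2⟩ := (critical_iff h1 h2 S).1 hS
    obtain ⟨I, hI, -, hI', hI''⟩ := h3
    exact ⟨hS1, hI'.trans (hS' I ((critical_iff h1 h2 I).2 ⟨hI, hI''⟩)), hS2⟩
  · rintro ⟨hS, hS', hS''⟩
    exact ⟨(critical_iff h1 h2 S).2 ⟨hS, hS''⟩, fun T hT => (hle T hT).trans hS'⟩

theorem mem_core_iff {a : ℕ} (h1 : Qs G ∅ a 0) (h2 : ¬ Qs G ∅ (a + 1) 0) (v : V) :
    v ∈ core G ↔ ¬ Qs G {v} a 0 := by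
  constructor
  · rintro h ⟨I, hI, hv, hI', -⟩
    exact hv v (h I ((maximum_iff h1 h2 I).2 ⟨hI, hI'⟩)) rfl
  · intro h S hS
    obtain ⟨hS1, hS2⟩ := (maximum_iff h1 h2 S).1 hS
    by_contra hv
    refine h ⟨S, hS1, ?_, hS2, ?_⟩
    · rintro i hi rfl
      exact hv hi
    · have := Finset.card_le_univ (nbhd G S)
      omega

theorem mem_nucleus_iff {c d : ℕ} (h1 : Qs G ∅ 0 d) (h2 : ¬ Qs G ∅ 0 (d + 1))
    (h3 : Qs G ∅ c d) (h4 : ¬ Qs G ∅ (c + 1) d) (v : V) :
    v ∈ nucleus G ↔ ¬ Qs G {v} c d := by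
  constructor
  · rintro h ⟨I, hI, hv, hI', hI''⟩
    exact hv v (h I ((maxCritical_iff h1 h2 h3 h4 I).2 ⟨hI, hI', hI''⟩)) rfl
  · intro h S hS
    obtain ⟨hS1, hS2, hS3⟩ := (maxCritical_iff h1 h2 h3 h4 S).1 hS
    by_contra hv
    refine h ⟨S, hS1, ?_, hS2, hS3⟩
    rintro i hi rfl
    exact hv hi

theorem exists_last {P : ℕ → Prop} {m : ℕ} (h0 : P 0) (hm : ¬ P (m + 1)) :
    ∃ a, a ≤ m ∧ P a ∧ ¬ P (a + 1) := by
  by_contra h
  push Not at h
  have : ∀ a, a ≤ m + 1 → P a := by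
    intro a
    induction a with
    | zero => exact fun _ => h0
    | succ a ih => exact fun ha => h a (by omega) (ih (by omega))
  exact hm (this _ le_rfl)

variable (G) in
theorem core_nucleus_iff : core G = nucleus G ↔
    ∃ a ≤ Fintype.card V, ∃ d ≤ 2 * Fintype.card V, ∃ c ≤ Fintype.card V,
      (Qs G ∅ a 0 ∧ ¬ Qs G ∅ (a + 1) 0) ∧ (Qs G ∅ 0 d ∧ ¬ Qs G ∅ 0 (d + 1)) ∧
      (Qs G ∅ c d ∧ ¬ Qs G ∅ (c + 1) d) ∧ ∀ v, (Qs G {v} a 0 ↔ Qs G {v} c d) := by
  constructor
  · intro h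
    have h00 : Qs G ∅ 0 0 := ⟨∅, by simp, by simp, Nat.zero_le _, by
      have := Finset.card_le_univ (nbhd G (∅ : Finset V)); omega⟩
    obtain ⟨a, ha, ha1, ha2⟩ := exists_last (P := fun a => Qs G ∅ a 0) (m := Fintype.card V) h00
      (fun h => by have := (qs_le h).1; omega)
    obtain ⟨d, hd, hd1, hd2⟩ := exists_last (P := fun a => Qs G ∅ 0 a) (m := 2 * Fintype.card V) h00
      (fun h => by have := (qs_le h).2; omega)
    obtain ⟨c, hc, hc1, hc2⟩ := exists_last (P := fun a => Qs G ∅ a d) (m := Fintype.card V) hd1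
      (fun h => by have := (qs_le h).1; omega)
    refine ⟨a, ha, d, hd, c, hc, ⟨ha1, ha2⟩, ⟨hd1, hd2⟩, ⟨hc1, hc2⟩, fun v => ?_⟩
    have h1 := mem_core_iff ha1 ha2 v
    have h2 := mem_nucleus_iff hd1 hd2 hc1 hc2 v
    rw [h] at h1
    have h3 := h1.symm.trans h2
    tauto
  · rintro ⟨a, -, d, -, c, -, ⟨ha1, ha2⟩, ⟨hd1, hd2⟩, ⟨hc1, hc2⟩, h⟩
    ext v
    rw [mem_core_iff ha1 ha2 v, mem_nucleus_iff hd1 hd2 hc1 hc2 v, h v]

end abstract

/-! ### Counting -/

theorem length_filter_range (n : ℕ) (p : ℕ → Bool) :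
    ((List.range n).filter p).length = (Finset.univ.filter fun i : Fin n => p i = true).card := by
  classical
  rw [← List.toFinset_card_of_nodup (List.nodup_range.filter _),
    ← Finset.card_map Fin.valEmbedding]
  congr 1
  ext i
  simp only [List.mem_toFinset, List.mem_filter, List.mem_range, Finset.mem_map,
    Finset.mem_filter, Finset.mem_univ, true_and, Fin.valEmbedding_apply]
  constructor
  · rintro ⟨h1, h2⟩
    exact ⟨⟨i, h1⟩, h2, rfl⟩
  · rintro ⟨j, hj, rfl⟩
    exact ⟨j.2, hj⟩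

/-- the size of the set -/
def cntB (M : List (List Bool)) (s : List Bool) : ℕ := ((rg M).filter fun i => gb s i).length

/-- the size of the neighbourhood -/
def nbB (M : List (List Bool)) (s : List Bool) : ℕ :=
  ((rg M).filter fun i => (rg M).any fun j => gb s j && adjB M j i).length

@[fun_prop]
theorem poly_cntB {α : Type} [TEnc α] {M : α → List (List Bool)} {s : α → List Bool} (hM : Poly M)
    (hs : Poly s) : Poly (fun a => cntB (M a) (s a)) := by
  unfold cntB
  fun_prop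

@[fun_prop]
theorem poly_nbB {α : Type} [TEnc α] {M : α → List (List Bool)} {s : α → List Bool} (hM : Poly M)
    (hs : Poly s) : Poly (fun a => nbB (M a) (s a)) := by
  unfold nbB
  fun_prop

/-- the finite set of a list -/
def fs (M : List (List Bool)) (s : List Bool) : Finset (Fin M.length) :=
  Finset.univ.filter fun i => gb s i = true

theorem coe_fs (M : List (List Bool)) (s : List Bool) : (fs M s : Set (Fin M.length)) = vset M s := by
  ext i
  simp [fs, mem_vset]

theorem mem_fs {M : List (List Bool)} {s : List Bool} {i : Fin M.length} :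
    i ∈ fs M s ↔ gb s i = true := by
  simp [fs]

theorem cntB_eq (M : List (List Bool)) (s : List Bool) : cntB M s = (fs M s).card := by
  unfold cntB rg fs
  rw [length_filter_range]

theorem nbB_eq (M : List (List Bool)) (s : List Bool) :
    nbB M s = (nbhd (matGraph M) (fs M s)).card := by
  unfold nbB rg
  rw [length_filter_range]
  unfold nbhd
  congr 1
  ext i
  simp only [Finset.mem_filter, Finset.mem_univ, true_and, List.any_eq_true, List.mem_range,
    Bool.and_eq_true, mem_fs]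
  constructor
  · rintro ⟨j, hj, h1, h2⟩
    exact ⟨⟨j, hj⟩, h1, (adjB_iff M ⟨j, hj⟩ i).1 h2⟩
  · rintro ⟨j, h1, h2⟩
    exact ⟨j, j.2, h1, (adjB_iff M j i).2 h2⟩

/-! ### The oracle -/

/-- the question -/
def Qm (x : List (List Bool) × ℕ × ℕ × ℕ) : Prop :=
  Qs (matGraph x.1) {i | i.1 = x.2.1} x.2.2.1 x.2.2.2

/-- the verifier -/
def Rm (x : (List (List Bool) × ℕ × ℕ × ℕ) × List Bool) : Bool :=
  stB x.1.1 x.2 && (!(gb x.2 x.1.2.1) && (decide (x.1.2.2.1 ≤ cntB x.1.1 x.2) &&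
    decide (nbB x.1.1 x.2 + x.1.2.2.2 ≤ cntB x.1.1 x.2 + x.1.1.length)))

theorem poly_Rm : Poly Rm := by
  unfold Rm
  fun_prop

theorem gb_toL {n : ℕ} (K : Set (Fin n)) (v : ℕ) :
    gb (toL K) v = true ↔ ∃ h : v < n, (⟨v, h⟩ : Fin n) ∈ K := by
  classical
  unfold gb toL
  by_cases hv : v < n
  · rw [List.getD_eq_getElem _ _ (by rw [List.length_map, List.length_range]; exact hv),
      List.getElem_map, List.getElem_range, decide_eq_true_eq]
  · rw [List.getD_eq_default _ _ (by rw [List.length_map, List.length_range]; omega)]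
    simp only [Bool.false_eq_true, false_iff]
    rintro ⟨h, -⟩
    exact hv h

theorem fs_toL {M : List (List Bool)} (I : Finset (Fin M.length)) :
    fs M (toL (I : Set (Fin M.length))) = I := by
  ext i
  rw [mem_fs, gb_toL]
  exact ⟨fun ⟨_, h⟩ => h, fun h => ⟨i.2, h⟩⟩

theorem inNP_Qm : InNPP Qm := by
  refine inNPP_of (R := Rm) poly_Rm (4 * Polynomial.X + 1) fun x => ?_
  obtain ⟨M, v, j, k⟩ := x
  have hR : ∀ s : List Bool, Rm ((M, v, j, k), s) = true ↔
      (matGraph M).IsIndepSet (fs M s : Set (Fin M.length)) ∧ gb s v = false ∧ j ≤ (fs M s).card ∧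
        (nbhd (matGraph M) (fs M s)).card + k ≤ (fs M s).card + M.length := by
    intro s
    unfold Rm
    simp only [Bool.and_eq_true, decide_eq_true_eq, Bool.not_eq_true', stB_iff, cntB_eq, nbB_eq,
      coe_fs]
  constructor
  · rintro ⟨I, h1, h2, h3, h4⟩
    rw [Fintype.card_fin] at h4
    refine ⟨toL (I : Set (Fin M.length)), ?_, (hR _).2 ?_⟩
    · have h5 := sz_listBool_le (toL (I : Set (Fin M.length)))
      rw [length_toL] at h5
      have hn : M.length ≤ sz (M, v, j, k) := by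
        have h1 := length_le_sz M
        rw [sz_pair]
        omega
      have : (4 * Polynomial.X + 1 : Polynomial ℕ).eval (sz (M, v, j, k)) =
          4 * sz (M, v, j, k) + 1 := by simp
      rw [this]
      omega
    · rw [fs_toL]
      refine ⟨h1, ?_, h3, h4⟩
      rw [← Bool.not_eq_true, gb_toL]
      rintro ⟨h, hI⟩
      exact h2 _ hI rfl
  · rintro ⟨s, -, hs⟩
    obtain ⟨h1, h2, h3, h4⟩ := (hR s).1 hs
    refine ⟨fs M s, h1, ?_, h3, by rw [Fintype.card_fin]; exact h4⟩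
    intro i hi he
    rw [mem_fs] at hi
    have he' : i.1 = v := he
    rw [he', h2] at hi
    exact absurd hi (by decide)

/-! ### Queries and evaluation -/

/-- the questions -/
def tr (M : List (List Bool)) : List (ℕ × ℕ × ℕ) :=
  (List.range (M.length + 1)) ×ˢ ((List.range (M.length + 2)) ×ˢ
    (List.range (M.length + M.length + 2)))

theorem poly_tr : Poly tr := by
  unfold tr
  have h : UPoly (fun M : List (List Bool) => M.length) := UPoly.length NPC.Poly.id
  have h1 : Poly (fun M : List (List Bool) => List.range (M.length + 1)) := (h.add (UPoly.const 1)).range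
  have h2 : Poly (fun M : List (List Bool) => List.range (M.length + 2)) := (h.add (UPoly.const 2)).range
  have h3 : Poly (fun M : List (List Bool) => List.range (M.length + M.length + 2)) :=
    ((h.add h).add (UPoly.const 2)).range
  fun_prop

theorem mem_tr {M : List (List Bool)} {v j k : ℕ} : (v, j, k) ∈ tr M ↔
    v ≤ M.length ∧ j ≤ M.length + 1 ∧ k ≤ M.length + M.length + 1 := by
  unfold tr
  rw [List.mem_product, List.mem_product, List.mem_range, List.mem_range, List.mem_range]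
  omega

/-- look up an answer -/
def lk (l : List ((ℕ × ℕ × ℕ) × Bool)) (t : ℕ × ℕ × ℕ) : Bool :=
  l.any fun p => decide (p.1 = t) && p.2

@[fun_prop]
theorem poly_lk {α : Type} [TEnc α] {l : α → List ((ℕ × ℕ × ℕ) × Bool)} {t : α → ℕ × ℕ × ℕ}
    (hl : Poly l) (ht : Poly t) : Poly (fun a => lk (l a) (t a)) := by
  unfold lk
  fun_prop

theorem lk_map {l : List (ℕ × ℕ × ℕ)} {A : ℕ × ℕ × ℕ → Bool} {t : ℕ × ℕ × ℕ} (ht : t ∈ l) :
    lk (l.map fun b => (b, A b)) t = true ↔ A t = true := by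
  unfold lk
  simp only [List.any_eq_true, List.mem_map, Bool.and_eq_true, decide_eq_true_eq]
  constructor
  · rintro ⟨_, ⟨b, -, rfl⟩, rfl, h⟩
    exact h
  · intro h
    exact ⟨_, ⟨t, ht, rfl⟩, rfl, h⟩

/-- the evaluation -/
def Ev (M : List (List Bool)) (l : List ((ℕ × ℕ × ℕ) × Bool)) : Bool :=
  (List.range (M.length + 1)).any fun a => (List.range (M.length + M.length + 1)).any fun d =>
    (List.range (M.length + 1)).any fun c =>
      (lk l (M.length, a, 0) && !lk l (M.length, a + 1, 0)) &&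
      ((lk l (M.length, 0, d) && !lk l (M.length, 0, d + 1)) &&
      ((lk l (M.length, c, d) && !lk l (M.length, c + 1, d)) &&
      ((List.range M.length).all fun v => decide (lk l (v, a, 0) = lk l (v, c, d)))))

theorem poly_Ev : Poly (fun p : List (List Bool) × List ((ℕ × ℕ × ℕ) × Bool) => Ev p.1 p.2) := by
  unfold Ev
  have h : UPoly (fun M : List (List Bool) => M.length) := UPoly.length NPC.Poly.id
  have h1 : Poly (fun M : List (List Bool) => List.range (M.length + 1)) := (h.add (UPoly.const 1)).range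
  have h2 : Poly (fun M : List (List Bool) => List.range M.length) := h.range
  have h3 : Poly (fun M : List (List Bool) => List.range (M.length + M.length + 1)) :=
    ((h.add h).add (UPoly.const 1)).range
  have g1 : ∀ {α : Type} [TEnc α] {f : α → List (List Bool)}, Poly f →
      Poly (fun a => List.range ((f a).length + 1)) := fun hf => h1.comp hf
  have g2 : ∀ {α : Type} [TEnc α] {f : α → List (List Bool)}, Poly f →
      Poly (fun a => List.range ((f a).length)) := fun hf => h2.comp hf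
  have g3 : ∀ {α : Type} [TEnc α] {f : α → List (List Bool)}, Poly f →
      Poly (fun a => List.range ((f a).length + (f a).length + 1)) := fun hf => h3.comp hf
  refine NPC.Poly.any (p := fun (p : List (List Bool) × List ((ℕ × ℕ × ℕ) × Bool)) a =>
    (List.range (p.1.length + p.1.length + 1)).any fun d =>
    (List.range (p.1.length + 1)).any fun c =>
      (lk p.2 (p.1.length, a, 0) && !lk p.2 (p.1.length, a + 1, 0)) &&
      ((lk p.2 (p.1.length, 0, d) && !lk p.2 (p.1.length, 0, d + 1)) &&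
      ((lk p.2 (p.1.length, c, d) && !lk p.2 (p.1.length, c + 1, d)) &&
      ((List.range p.1.length).all fun v => decide (lk p.2 (v, a, 0) = lk p.2 (v, c, d)))))) 
      (g1 (by fun_prop)) ?_
  refine NPC.Poly.any (p := fun (q : (List (List Bool) × List ((ℕ × ℕ × ℕ) × Bool)) × ℕ) d =>
    (List.range (q.1.1.length + 1)).any fun c =>
      (lk q.1.2 (q.1.1.length, q.2, 0) && !lk q.1.2 (q.1.1.length, q.2 + 1, 0)) &&
      ((lk q.1.2 (q.1.1.length, 0, d) && !lk q.1.2 (q.1.1.length, 0, d + 1)) &&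
      ((lk q.1.2 (q.1.1.length, c, d) && !lk q.1.2 (q.1.1.length, c + 1, d)) &&
      ((List.range q.1.1.length).all fun v =>
        decide (lk q.1.2 (v, q.2, 0) = lk q.1.2 (v, c, d))))))
      (g3 (f := fun q : (List (List Bool) × List ((ℕ × ℕ × ℕ) × Bool)) × ℕ => q.1.1) (by fun_prop)) ?_
  refine NPC.Poly.any (p := fun (q : ((List (List Bool) × List ((ℕ × ℕ × ℕ) × Bool)) × ℕ) × ℕ) c =>
      (lk q.1.1.2 (q.1.1.1.length, q.1.2, 0) && !lk q.1.1.2 (q.1.1.1.length, q.1.2 + 1, 0)) &&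
      ((lk q.1.1.2 (q.1.1.1.length, 0, q.2) && !lk q.1.1.2 (q.1.1.1.length, 0, q.2 + 1)) &&
      ((lk q.1.1.2 (q.1.1.1.length, c, q.2) && !lk q.1.1.2 (q.1.1.1.length, c + 1, q.2)) &&
      ((List.range q.1.1.1.length).all fun v =>
        decide (lk q.1.1.2 (v, q.1.2, 0) = lk q.1.1.2 (v, c, q.2))))))
      (g1 (f := fun q : ((List (List Bool) × List ((ℕ × ℕ × ℕ) × Bool)) × ℕ) × ℕ => q.1.1.1)
        (by fun_prop)) ?_
  refine NPC.Poly.and (by fun_prop) (NPC.Poly.and (by fun_prop) (NPC.Poly.and (by fun_prop) ?_))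
  exact NPC.Poly.all (p := fun (r : (((List (List Bool) × List ((ℕ × ℕ × ℕ) × Bool)) × ℕ) × ℕ) × ℕ) v =>
        decide (lk r.1.1.1.2 (v, r.1.1.2, 0) = lk r.1.1.1.2 (v, r.2, r.1.2)))
      (g2 (f := fun r : (((List (List Bool) × List ((ℕ × ℕ × ℕ) × Bool)) × ℕ) × ℕ) × ℕ => r.1.1.1.1)
        (by fun_prop)) (by fun_prop)

theorem theta_CN : InTheta2 (lang CN) := by
  refine inTheta2_of (Q := Qm) inNP_Qm poly_tr (E := Ev) poly_Ev fun M A hA => ?_
  have hl : ∀ v j k, v ≤ M.length → j ≤ M.length + 1 → k ≤ M.length + M.length + 1 →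
      (lk ((tr M).map fun b => (b, A b)) (v, j, k) = true ↔ Qs (matGraph M) {i | i.1 = v} j k) := by
    intro v j k hv hj hk
    rw [lk_map (mem_tr.2 ⟨hv, hj, hk⟩), hA _ (mem_tr.2 ⟨hv, hj, hk⟩)]
    rfl
  have hempty : {i : Fin M.length | i.1 = M.length} = ∅ := by
    ext i
    simp only [Set.mem_ofPred_eq, Set.mem_empty_iff_false, iff_false]
    exact i.2.ne
  have hsing : ∀ v : Fin M.length, {i : Fin M.length | i.1 = v.1} = {v} := by
    intro v
    ext i
    simp [Fin.ext_iff]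
  have hl0 : ∀ j k, j ≤ M.length + 1 → k ≤ M.length + M.length + 1 →
      (lk ((tr M).map fun b => (b, A b)) (M.length, j, k) = true ↔ Qs (matGraph M) ∅ j k) := by
    intro j k hj hk
    rw [hl _ _ _ le_rfl hj hk, hempty]
  have hlv : ∀ (v : Fin M.length) j k, j ≤ M.length + 1 → k ≤ M.length + M.length + 1 →
      (lk ((tr M).map fun b => (b, A b)) (v.1, j, k) = true ↔ Qs (matGraph M) {v} j k) := by
    intro v j k hj hk
    rw [hl _ _ _ v.2.le hj hk, hsing]
  unfold CN
  rw [core_nucleus_iff]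
  unfold Ev
  simp only [List.any_eq_true, List.all_eq_true, List.mem_range, Bool.and_eq_true,
    Bool.not_eq_true', decide_eq_true_eq, Fintype.card_fin, ← Bool.not_eq_true]
  constructor
  · rintro ⟨a, ha, d, hd, c, hc, ⟨ha1, ha2⟩, ⟨hd1, hd2⟩, ⟨hc1, hc2⟩, h⟩
    refine ⟨a, by omega, d, by omega, c, by omega, ⟨?_, ?_⟩, ⟨?_, ?_⟩, ⟨?_, ?_⟩, ?_⟩
    · rw [hl0 _ _ (by omega) (by omega)]; exact ha1
    · rw [hl0 _ _ (by omega) (by omega)]; exact ha2
    · rw [hl0 _ _ (by omega) (by omega)]; exact hd1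
    · rw [hl0 _ _ (by omega) (by omega)]; exact hd2
    · rw [hl0 _ _ (by omega) (by omega)]; exact hc1
    · rw [hl0 _ _ (by omega) (by omega)]; exact hc2
    · intro v hv
      rw [Bool.eq_iff_iff, hlv ⟨v, hv⟩ a 0 (by omega) (by omega),
        hlv ⟨v, hv⟩ c d (by omega) (by omega)]
      exact h _
  · rintro ⟨a, ha, d, hd, c, hc, ⟨ha1, ha2⟩, ⟨hd1, hd2⟩, ⟨hc1, hc2⟩, h⟩
    rw [hl0 _ _ (by omega) (by omega)] at ha1 ha2 hd1 hd2 hc1 hc2
    refine ⟨a, by omega, d, by omega, c, by omega, ⟨ha1, ha2⟩, ⟨hd1, hd2⟩, ⟨hc1, hc2⟩, fun v => ?_⟩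
    have := h v.1 v.2
    rw [Bool.eq_iff_iff, hlv v a 0 (by omega) (by omega), hlv v c d (by omega) (by omega)] at this
    exact this

end Pool.Agent.V11227.CN
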