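import Mathlib

/-!
# Core and nucleus of a graph: definitions
-/

namespace Pool.Agent.V11227.CN

open Classical

variable {V : Type} [Fintype V] (G : SimpleGraph V)

/-- `S` is a maximum independent set of `G`. -/
def IsMaximumIndep (S : Finset V) : Prop :=
  G.IsIndepSet (S : Set V) ∧ ∀ T : Finset V, G.IsIndepSet (T : Set V) → T.card ≤ S.card

/-- The core of `G`: the intersection of all maximum independent sets. -/
def core : Set V := {v | ∀ S : Finset V, IsMaximumIndep G S → v ∈ S}

/-- `N(X)`: the vertices adjacent to some vertex of `X`. -/
noncomputable def nbhd (X : Finset V) : Finset V := Finset.univ.filter fun v => ∃ x ∈ X, G.Adj x v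

/-- `d(X) = |X| - |N(X)|`. -/
noncomputable def diff (X : Finset V) : ℤ := (X.card : ℤ) - ((nbhd G X).card : ℤ)

/-- `I` is a critical independent set. -/
def IsCritical (I : Finset V) : Prop :=
  G.IsIndepSet (I : Set V) ∧ ∀ J : Finset V, G.IsIndepSet (J : Set V) → diff G J ≤ diff G I

/-- `I` is a maximum critical independent set: a critical independent set of largest cardinality. -/
def IsMaxCritical (I : Finset V) : Prop :=
  IsCritical G I ∧ ∀ J : Finset V, IsCritical G J → J.card ≤ I.card

/-- The nucleus of `G`: the intersection of all maximum critical independent sets. -/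
def nucleus : Set V := {v | ∀ I : Finset V, IsMaxCritical G I → v ∈ I}

end Pool.Agent.V11227.CN
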