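import Pool.Agent.H601R2.PP

/-!
# Greatest fixed points of filters are computed in polynomial time
-/

namespace Pool.Agent.V11227

open Pool.Agent.NPC

section gen

variable {β : Type} (ok : List β → β → Prop)

open Classical in
/-- one filtering step -/
noncomputable def gstep (L : List β) : List β := L.filter fun b => decide (ok L b)

/-- iterated filtering -/
noncomputable def gfp (l : List β) : List β := (gstep ok)^[l.length] l

theorem gstep_sublist (L : List β) : (gstep ok L).Sublist L := List.filter_sublist

theorem iterate_sublist (l : List β) (k : ℕ) : ((gstep ok)^[k] l).Sublist l := by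
  induction k with
  | zero => exact List.Sublist.refl _
  | succ k ih =>
    rw [Function.iterate_succ_apply']
    exact (gstep_sublist ok _).trans ih

theorem iterate_stable (l : List β) (k : ℕ) :
    gstep ok ((gstep ok)^[k] l) = (gstep ok)^[k] l ∨ ((gstep ok)^[k] l).length + k ≤ l.length := by
  induction k with
  | zero => right; simp
  | succ k ih =>
    rw [Function.iterate_succ_apply']
    by_cases h : gstep ok ((gstep ok)^[k] l) = (gstep ok)^[k] l
    · left; rw [h, h]
    · right
      rcases ih with h' | h'
      · exact absurd h' h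
      · have h1 := (gstep_sublist ok ((gstep ok)^[k] l)).length_le
        have h2 : (gstep ok ((gstep ok)^[k] l)).length ≠ ((gstep ok)^[k] l).length := fun he =>
          h ((gstep_sublist ok _).eq_of_length he)
        omega

theorem gstep_gfp (l : List β) : gstep ok (gfp ok l) = gfp ok l := by
  unfold gfp
  rcases iterate_stable ok l l.length with h | h
  · exact h
  · have h1 : (gstep ok)^[l.length] l = [] := List.length_eq_zero_iff.1 (by omega)
    rw [h1]; rfl

theorem ok_of_mem_gfp {l : List β} {b : β} (h : b ∈ gfp ok l) : ok (gfp ok l) b := by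
  have h1 : b ∈ gstep ok (gfp ok l) := by rw [gstep_gfp]; exact h
  unfold gstep at h1
  rw [List.mem_filter] at h1
  simpa using h1.2

theorem mem_of_mem_gfp {l : List β} {b : β} (h : b ∈ gfp ok l) : b ∈ l :=
  (iterate_sublist ok l _).subset h

variable {ok}

theorem mem_gstep {L : List β} {b : β} : b ∈ gstep ok L ↔ b ∈ L ∧ ok L b := by
  classical
  unfold gstep
  rw [List.mem_filter, decide_eq_true_iff]

theorem mem_gfp_of {l L : List β} (hmono : ∀ (A B : List β), (∀ x ∈ A, x ∈ B) → ∀ b, ok A b → ok B b)
    (h1 : ∀ x ∈ L, x ∈ l) (h2 : ∀ x ∈ L, ok L x) : ∀ x ∈ L, x ∈ gfp ok l := by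
  have key : ∀ k, ∀ x ∈ L, x ∈ (gstep ok)^[k] l := by
    intro k
    induction k with
    | zero => exact h1
    | succ k ih =>
      intro x hx
      rw [Function.iterate_succ_apply']
      exact mem_gstep.2 ⟨ih x hx, hmono _ _ ih x (h2 x hx)⟩
  exact key _

theorem mem_gfp_iff {l : List β} (hmono : ∀ (A B : List β), (∀ x ∈ A, x ∈ B) → ∀ b, ok A b → ok B b)
    (b : β) : b ∈ gfp ok l ↔ ∃ L : List β, b ∈ L ∧ ∀ x ∈ L, x ∈ l ∧ ok L x := by
  constructor
  · intro h
    exact ⟨gfp ok l, h, fun x hx => ⟨mem_of_mem_gfp ok hx, ok_of_mem_gfp ok hx⟩⟩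
  · rintro ⟨L, h1, h2⟩
    exact mem_gfp_of hmono (fun x hx => (h2 x hx).1) (fun x hx => (h2 x hx).2) b h1

end gen

theorem sz_sublist_le {β : Type} [TEnc β] {l l' : List β} (h : l.Sublist l') : sz l ≤ sz l' := by
  induction h with
  | slnil => exact le_rfl
  | cons a _ ih => simp; omega
  | cons_cons a _ ih => simp; omega

/-- Greatest fixed points of filters are computed in polynomial time. -/
theorem poly_gfp {α β : Type} [TEnc α] [TEnc β] {l : α → List β} {ok : α → List β → β → Prop}
    (hl : Poly l) (hok : PP (fun p : α × List β × β => ok p.1 p.2.1 p.2.2)) :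
    Poly (fun a => gfp (ok a) (l a)) := by
  classical
  obtain ⟨r, hr⟩ := hl.sz_le
  refine Poly.iterLen (F := fun a => gstep (ok a)) hl hl ?_ r fun a k _ => ?_
  · refine (PP.filter (inst := fun p b => inferInstance) (l := fun p : α × List β => p.2)
      (r := fun p b => ok p.1 p.2 b) (Poly.snd Poly.id) ?_).congr fun p => ?_
    · exact hok.comp (f := fun q : (α × List β) × β => (q.1.1, q.1.2, q.2)) (by fun_prop)
    · unfold gstep
      congr
  · exact (sz_sublist_le (iterate_sublist _ _ _)).trans (hr a)

end Pool.Agent.V11227
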