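import Pool.Agent.V11227.DPDefs
import Pool.Agent.V11227.Gfp
import Pool.Agent.NPC.Dec
import Pool.Agent.H692R2.Eq6

/-!
# ↓-posets are recognised in polynomial time
-/

namespace Pool.Agent.V11227.DP

open Pool.Agent.NPC

/-! ### The characterisation by ↓-functions -/

section theory

variable {C : Type} (le : C → C → Prop)

/-- ↓-functions -/
def DFun (f : C → C) : Prop :=
  (∀ c, le (f c) c) ∧ (∀ c d, le c d → le (f c) (f d)) ∧ ∀ c d, le c (f d) → f c = c

variable {le}

theorem DFun.comp (hp : IsPartialOrder C le) {f g : C → C} (hf : DFun le f) (hg : DFun le g) :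
    DFun le (f ∘ g) ∧ ∀ x, f (g x) = g (f x) := by
  have hr := hp.refl
  have ht := hp.trans
  have ha := hp.antisymm
  have key : ∀ {f g : C → C}, DFun le f → DFun le g → ∀ x, le (f (g x)) (g (f x)) := by
    intro f g hf hg x
    have h1 : g (f (g x)) = f (g x) := hg.2.2 _ _ (hf.1 _)
    rw [← h1]
    exact hg.2.1 _ _ (hf.2.1 _ _ (hg.1 _))
  have hcomm : ∀ x, f (g x) = g (f x) := fun x => ha _ _ (key hf hg x) (key hg hf x)
  refine ⟨⟨fun c => ht _ _ _ (hf.1 _) (hg.1 _), fun c d h => hf.2.1 _ _ (hg.2.1 _ _ h),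
    fun c d h => ?_⟩, hcomm⟩
  have h1 : f c = c := hf.2.2 _ _ h
  have h2 : g c = c := by
    have h' : le c (f (g d)) := h
    rw [hcomm] at h'
    exact hg.2.2 _ _ h'
  change f (g c) = c
  rw [h2, h1]

theorem isDownPoset_iff (hp : IsPartialOrder C le) :
    IsDownPoset le ↔ ∀ c d, le c d → ∃ f, DFun le f ∧ f d = c := by
  have hr := hp.refl
  have ht := hp.trans
  have ha := hp.antisymm
  constructor
  · rintro ⟨S, X, A, e, he⟩ c d hcd
    obtain ⟨s, hs⟩ := (he c d).1 hcd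
    refine ⟨fun x => e.symm (A.act (e x) s), ⟨?_, ?_, ?_⟩, ?_⟩
    · intro x
      rw [he, e.apply_symm_apply]
      exact ⟨s, rfl⟩
    · intro x y hxy
      obtain ⟨t, ht⟩ := (he x y).1 hxy
      rw [he, e.apply_symm_apply, e.apply_symm_apply]
      refine ⟨t, ?_⟩
      rw [← A.act_mul, A.mul_comm, A.act_mul, ht]
    · intro x y hxy
      rw [he, e.apply_symm_apply] at hxy
      obtain ⟨t, ht⟩ := hxy
      rw [Equiv.symm_apply_eq]
      have h1 : A.mul (A.mul s t) s = A.mul s t := by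
        rw [A.mul_comm s t, A.mul_assoc, A.mul_idem]
      rw [← ht]
      calc A.act (A.act (A.act (e y) s) t) s = A.act (e y) (A.mul (A.mul s t) s) := by
            rw [A.act_mul, A.act_mul]
        _ = A.act (A.act (e y) s) t := by rw [h1, A.act_mul]
    · change e.symm (A.act (e d) s) = c
      rw [hs, e.symm_apply_apply]
  · intro h
    let S : Type := {f : C → C // DFun le f}
    let A : SemilatticeAction S C :=
      { mul := fun s t => ⟨t.1 ∘ s.1, (t.2.comp hp s.2).1⟩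
        one := ⟨id, hr, fun _ _ h => h, fun _ _ _ => rfl⟩
        act := fun c s => s.1 c
        mul_idem := fun s => Subtype.ext (funext fun x => s.2.2.2 _ x (hr _))
        mul_comm := fun s t => Subtype.ext (funext fun x => (t.2.comp hp s.2).2 x)
        mul_assoc := fun _ _ _ => rfl
        one_mul := fun _ => rfl
        act_mul := fun _ _ _ => rfl
        act_one := fun _ => rfl }
    refine ⟨S, C, A, Equiv.refl C, fun c d => ⟨fun hcd => ?_, ?_⟩⟩
    · obtain ⟨f, hf, hfd⟩ := h c d hcd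
      exact ⟨⟨f, hf⟩, hfd⟩
    · rintro ⟨s, hs⟩
      change s.1 d = c at hs
      rw [← hs]
      exact s.2.1 d

variable (le)

/-- `m` is the meet of `a` and `y` -/
def Glb (m a y : C) : Prop := le m a ∧ le m y ∧ ∀ k, le k a → le k y → le k m

/-- arc consistency of `p` with respect to `A` -/
def Ok (A : C × C → Prop) (p : C × C) : Prop :=
  (∀ y, le y p.1 → ∃ b, A (y, b) ∧ Glb le b p.2 y) ∧
    ∀ z, le p.1 z → ∃ e, A (z, e) ∧ Glb le p.2 e p.1

/-- the unary conditions -/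
def Ini (c d : C) (p : C × C) : Prop := le p.2 p.1 ∧ (p.1 = d → p.2 = c)

variable {le}

theorem Glb.uniq (hp : IsPartialOrder C le) {m m' a y : C} (h : Glb le m a y)
    (h' : Glb le m' a y) : m = m' :=
  hp.antisymm _ _ (h'.2.2 _ h.1 h.2.1) (h.2.2 _ h'.1 h'.2.1)

theorem exists_dfun_iff [Finite C] (hp : IsPartialOrder C le) (c d : C) :
    (∃ f, DFun le f ∧ f d = c) ↔
      ∃ A : C × C → Prop, (∀ p, A p → Ini le c d p ∧ Ok le A p) ∧ ∀ x, ∃ a, A (x, a) := by
  have hr := hp.refl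
  have ht := hp.trans
  have ha := hp.antisymm
  constructor
  · rintro ⟨f, ⟨h1, h2, h3⟩, hfd⟩
    have key : ∀ x y, le y x → Glb le (f y) (f x) y := fun x y hy =>
      ⟨h2 _ _ hy, h1 _, fun k hk hky => by
        have := h3 k x hk
        rw [← this]
        exact h2 _ _ hky⟩
    refine ⟨fun p => f p.1 = p.2, ?_, fun x => ⟨f x, rfl⟩⟩
    rintro ⟨x, a⟩ hxa
    change f x = a at hxa
    subst hxa
    exact ⟨⟨h1 _, fun h => by change x = d at h; subst h; exact hfd⟩,
      fun y hy => ⟨f y, rfl, key x y hy⟩, fun z hz => ⟨f z, rfl, key z x hz⟩⟩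
  · rintro ⟨A₀, hA₀, hx₀⟩
    let G : C × C → Prop := fun p => ∃ A : C × C → Prop, (∀ q, A q → Ini le c d q ∧ Ok le A q) ∧ A p
    have hmax : ∀ A : C × C → Prop, (∀ q, A q → Ini le c d q ∧ Ok le A q) → ∀ p, A p → G p :=
      fun A hA p hp => ⟨A, hA, hp⟩
    have hG : ∀ p, G p → Ini le c d p ∧ Ok le G p := by
      rintro p ⟨A, hA, hp⟩
      obtain ⟨h1, h2, h3⟩ := hA p hp
      refine ⟨h1, fun y hy => ?_, fun z hz => ?_⟩
      · obtain ⟨b, hb, hb'⟩ := h2 y hy
        exact ⟨b, hmax A hA _ hb, hb'⟩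
      · obtain ⟨e, he, he'⟩ := h3 z hz
        exact ⟨e, hmax A hA _ he, he'⟩
    have hGx : ∀ x, ∃ a, G (x, a) := fun x => by
      obtain ⟨a, h⟩ := hx₀ x
      exact ⟨a, hmax A₀ hA₀ _ h⟩
    -- the fibres have meets
    have hmeet : ∀ x a a', G (x, a) → G (x, a') → ∃ m, Glb le m a a' := by
      intro x a a' h h'
      obtain ⟨b, -, hb⟩ := (hG _ h).2.1 a' (hG _ h').1.1
      exact ⟨b, hb⟩
    let B : C × C → Prop := fun p => ∃ a a', G (p.1, a) ∧ G (p.1, a') ∧ Glb le p.2 a a'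
    have hB : ∀ p, B p → Ini le c d p ∧ Ok le B p := by
      rintro ⟨x, m⟩ ⟨a, a', h, h', hm⟩
      change G (x, a) at h
      change G (x, a') at h'
      change Glb le m a a' at hm
      refine ⟨⟨ht _ _ _ hm.1 (hG _ h).1.1, fun hxd => ?_⟩, fun y hy => ?_, fun z hz => ?_⟩
      · have e1 := (hG _ h).1.2 hxd
        have e2 := (hG _ h').1.2 hxd
        change a = c at e1
        change a' = c at e2
        change m = c
        subst e1
        subst e2
        exact ha _ _ hm.1 (hm.2.2 _ (hr _) (hr _))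
      · change le y x at hy
        obtain ⟨b, hb, hb1⟩ := (hG _ h).2.1 y hy
        obtain ⟨b', hb', hb1'⟩ := (hG _ h').2.1 y hy
        obtain ⟨w, hw⟩ := hmeet y b b' hb hb'
        refine ⟨w, ⟨b, b', hb, hb', hw⟩, ?_, ?_, ?_⟩
        · exact hm.2.2 _ (ht _ _ _ hw.1 hb1.1) (ht _ _ _ hw.2.1 hb1'.1)
        · exact ht _ _ _ hw.1 hb1.2.1
        · intro k hk hky
          exact hw.2.2 _ (hb1.2.2 _ (ht _ _ _ hk hm.1) hky) (hb1'.2.2 _ (ht _ _ _ hk hm.2.1) hky)
      · change le x z at hz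
        obtain ⟨e, he, he1⟩ := (hG _ h).2.2 z hz
        obtain ⟨e', he', he1'⟩ := (hG _ h').2.2 z hz
        obtain ⟨u, hu⟩ := hmeet z e e' he he'
        refine ⟨u, ⟨e, e', he, he', hu⟩, ?_, ?_, ?_⟩
        · exact hu.2.2 _ (ht _ _ _ hm.1 he1.1) (ht _ _ _ hm.2.1 he1'.1)
        · exact ht _ _ _ hm.1 he1.2.1
        · intro k hk hkx
          exact hm.2.2 _ (he1.2.2 _ (ht _ _ _ hk hu.1) hkx) (he1'.2.2 _ (ht _ _ _ hk hu.2.1) hkx)
    -- least elements of the fibres
    have hleast : ∀ x, ∃ a, G (x, a) ∧ ∀ a', G (x, a') → le a a' := by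
      intro x
      let po : PartialOrder C :=
        { le := le, le_refl := hr, le_trans := ht, le_antisymm := ha }
      obtain ⟨a, hamem, hamin⟩ := (Set.toFinite {a | G (x, a)}).exists_minimal (hGx x)
      refine ⟨a, hamem, fun a' h' => ?_⟩
      obtain ⟨m, hm⟩ := hmeet x a a' hamem h'
      have h1 : G (x, m) := hmax B hB _ ⟨a, a', hamem, h', hm⟩
      have h2 : le a m := hamin h1 hm.1
      exact ht _ _ _ h2 hm.2.1
    choose f hf hfle using hleast
    have key : ∀ x y, le y x → Glb le (f y) (f x) y := by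
      intro x y hy
      obtain ⟨b, hb, hb'⟩ := (hG _ (hf x)).2.1 y hy
      obtain ⟨e, he, he'⟩ := (hG _ (hf y)).2.2 x hy
      have h1 : le (f y) b := hfle _ _ hb
      have h2 : le b (f y) := he'.2.2 _ (ht _ _ _ hb'.1 (hfle _ _ he)) hb'.2.1
      rw [ha _ _ h1 h2]
      exact hb'
    refine ⟨f, ⟨fun x => (hG _ (hf x)).1.1, fun x y h => (key y x h).1, fun x y h => ?_⟩,
      (hG _ (hf d)).1.2 rfl⟩
    have h1 : le x y := ht _ _ _ h (hG _ (hf y)).1.1
    exact ha _ _ (hG _ (hf x)).1.1 ((key y x h1).2.2 _ h (hr _))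

end theory

end Pool.Agent.V11227.DP
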