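import Pool.Agent.V11227.DP

/-!
# ↓-posets are recognised in polynomial time: the algorithm
-/

namespace Pool.Agent.V11227.DP

open Pool.Agent.NPC Pool.Agent.H692R2.Equi

/-- the relation of a matrix -/
def leM (M : List (List Bool)) (i j : ℕ) : Prop := (M.getD i []).getD j false = true

/-- `M` is the matrix of a partial order -/
def ValidPO (M : List (List Bool)) : Prop :=
  (∀ i < M.length, (M.getD i []).length = M.length) ∧ (∀ i < M.length, leM M i i) ∧
    (∀ i < M.length, ∀ j < M.length, leM M i j → leM M j i → i = j) ∧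
    ∀ i < M.length, ∀ j < M.length, ∀ k < M.length, leM M i j → leM M j k → leM M i k

/-- meets -/
def glbM (M : List (List Bool)) (m a y : ℕ) : Prop :=
  leM M m a ∧ leM M m y ∧ ∀ k < M.length, leM M k a → leM M k y → leM M k m

/-- arc consistency -/
def okM (M : List (List Bool)) (L : List (ℕ × ℕ)) (p : ℕ × ℕ) : Prop :=
  (∀ y < M.length, leM M y p.1 → ∃ b < M.length, (y, b) ∈ L ∧ glbM M b p.2 y) ∧
    ∀ z < M.length, leM M p.1 z → ∃ e < M.length, (z, e) ∈ L ∧ glbM M p.2 e p.1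

/-- all pairs -/
def allPairs (n : ℕ) : List (ℕ × ℕ) := (List.range n).flatMap fun x => (List.range n).map fun a => (x, a)

theorem mem_allPairs {n : ℕ} {p : ℕ × ℕ} : p ∈ allPairs n ↔ p.1 < n ∧ p.2 < n := by
  obtain ⟨x, a⟩ := p
  simp [allPairs]

open Classical in
/-- the initial pairs -/
noncomputable def iniL (q : List (List Bool) × ℕ × ℕ) : List (ℕ × ℕ) :=
  (allPairs q.1.length).filter fun p => decide (leM q.1 p.2 p.1 ∧ (p.1 = q.2.2 → p.2 = q.2.1))

theorem mem_iniL {q : List (List Bool) × ℕ × ℕ} {p : ℕ × ℕ} : p ∈ iniL q ↔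
    (p.1 < q.1.length ∧ p.2 < q.1.length) ∧ leM q.1 p.2 p.1 ∧ (p.1 = q.2.2 → p.2 = q.2.1) := by
  classical
  unfold iniL
  rw [List.mem_filter, mem_allPairs, decide_eq_true_iff]

/-- the criterion -/
def Crit (M : List (List Bool)) : Prop :=
  ValidPO M ∧ ∀ c < M.length, ∀ d < M.length, leM M c d → ∀ x < M.length, ∃ a < M.length,
    (x, a) ∈ gfp (okM M) (iniL (M, c, d))

theorem okM_mono (M : List (List Bool)) (A B : List (ℕ × ℕ)) (h : ∀ x ∈ A, x ∈ B) (b : ℕ × ℕ)
    (hb : okM M A b) : okM M B b := by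
  refine ⟨fun y hy hy' => ?_, fun z hz hz' => ?_⟩
  · obtain ⟨b, h1, h2, h3⟩ := hb.1 y hy hy'
    exact ⟨b, h1, h _ h2, h3⟩
  · obtain ⟨b, h1, h2, h3⟩ := hb.2 z hz hz'
    exact ⟨b, h1, h _ h2, h3⟩

theorem matrix_length {n : ℕ} (le : Fin n → Fin n → Prop) : (matrix le).length = n := by
  simp [matrix]

theorem leM_matrix {n : ℕ} (le : Fin n → Fin n → Prop) (i j : Fin n) :
    leM (matrix le) i j ↔ le i j := by
  unfold leM matrix
  simp [List.getD_eq_getElem?_getD]

/-- the existence of a ↓-function in terms of the fixed point -/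
theorem gfp_iff {M : List (List Bool)} {le : Fin M.length → Fin M.length → Prop}
    (hle : ∀ i j : Fin M.length, leM M i j ↔ le i j) (hp : IsPartialOrder _ le) (c d : Fin M.length) :
    (∃ f, DFun le f ∧ f d = c) ↔
      ∀ x < M.length, ∃ a < M.length, (x, a) ∈ gfp (okM M) (iniL (M, c, d)) := by
  have hglb : ∀ m a y : Fin M.length, glbM M m a y ↔ Glb le m a y := by
    intro m a y
    unfold glbM Glb
    rw [hle, hle]
    refine and_congr_right fun _ => and_congr_right fun _ => ?_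
    constructor
    · intro h k h1 h2
      exact (hle _ _).1 (h k k.2 ((hle _ _).2 h1) ((hle _ _).2 h2))
    · intro h k hk h1 h2
      exact (hle ⟨k, hk⟩ m).2 (h ⟨k, hk⟩ ((hle ⟨k, hk⟩ a).1 h1) ((hle ⟨k, hk⟩ y).1 h2))
  rw [exists_dfun_iff hp]
  constructor
  · rintro ⟨A, hA, hx⟩ x hx'
    classical
    let L : List (ℕ × ℕ) := (allPairs M.length).filter fun p =>
      decide (∃ (h1 : p.1 < M.length) (h2 : p.2 < M.length), A (⟨p.1, h1⟩, ⟨p.2, h2⟩))
    have hL : ∀ p : ℕ × ℕ, p ∈ L ↔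
        ∃ (h1 : p.1 < M.length) (h2 : p.2 < M.length), A (⟨p.1, h1⟩, ⟨p.2, h2⟩) := by
      intro p
      change p ∈ List.filter _ _ ↔ _
      rw [List.mem_filter, decide_eq_true_iff, mem_allPairs]
      exact ⟨fun h => h.2, fun h => ⟨⟨h.1, h.2.1⟩, h⟩⟩
    obtain ⟨a, ha⟩ := hx ⟨x, hx'⟩
    refine ⟨a, a.2, ?_⟩
    refine mem_gfp_of (okM_mono M) ?_ ?_ (x, (a : ℕ)) ((hL _).2 ⟨hx', a.2, ha⟩) (L := L)
    · intro p hp
      obtain ⟨h1, h2, h⟩ := (hL p).1 hp
      obtain ⟨⟨h3, h4⟩, -⟩ := hA _ h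
      refine mem_iniL.2 ⟨⟨h1, h2⟩, ?_, ?_⟩
      · exact (hle ⟨p.2, h2⟩ ⟨p.1, h1⟩).2 h3
      · intro he
        have := h4 (Fin.ext he)
        exact congrArg Fin.val this
    · intro p hp
      obtain ⟨h1, h2, h⟩ := (hL p).1 hp
      obtain ⟨-, h3, h4⟩ := hA _ h
      refine ⟨fun y hy hy' => ?_, fun z hz hz' => ?_⟩
      · obtain ⟨b, hb, hb'⟩ := h3 ⟨y, hy⟩ ((hle ⟨y, hy⟩ ⟨p.1, h1⟩).1 hy')
        exact ⟨b, b.2, (hL _).2 ⟨hy, b.2, hb⟩, (hglb b ⟨p.2, h2⟩ ⟨y, hy⟩).2 hb'⟩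
      · obtain ⟨e, he, he'⟩ := h4 ⟨z, hz⟩ ((hle ⟨p.1, h1⟩ ⟨z, hz⟩).1 hz')
        exact ⟨e, e.2, (hL _).2 ⟨hz, e.2, he⟩, (hglb ⟨p.2, h2⟩ e ⟨p.1, h1⟩).2 he'⟩
  · intro h
    refine ⟨fun p => ((p.1 : ℕ), (p.2 : ℕ)) ∈ gfp (okM M) (iniL (M, c, d)), ?_, ?_⟩
    · rintro ⟨x, a⟩ hxa
      have h1 := mem_iniL.1 (mem_of_mem_gfp _ hxa)
      have h2 := ok_of_mem_gfp _ hxa
      refine ⟨⟨(hle _ _).1 h1.2.1, fun he => ?_⟩, fun y hy => ?_, fun z hz => ?_⟩
      · change x = d at he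
        subst he
        exact Fin.ext (h1.2.2 rfl)
      · obtain ⟨b, hb, hb1, hb2⟩ := h2.1 y y.2 ((hle _ _).2 hy)
        exact ⟨⟨b, hb⟩, hb1, (hglb ⟨b, hb⟩ a y).1 hb2⟩
      · obtain ⟨e, he, he1, he2⟩ := h2.2 z z.2 ((hle _ _).2 hz)
        exact ⟨⟨e, he⟩, he1, (hglb a ⟨e, he⟩ x).1 he2⟩
    · intro x
      obtain ⟨a, ha, ha'⟩ := h x x.2
      exact ⟨⟨a, ha⟩, ha'⟩

theorem downPoset_iff (M : List (List Bool)) : DownPoset M ↔ Crit M := by
  constructor
  · rintro ⟨n, le, hp, rfl, hM⟩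
    have hn := matrix_length le
    have hadj := leM_matrix le
    have hrow : ∀ i < n, ((matrix le).getD i []).length = n := by
      intro i hi
      unfold matrix
      simp [List.getD_eq_getElem?_getD, hi]
    generalize matrix le = M at hn hadj hrow
    subst hn
    refine ⟨⟨hrow, fun i hi => (hadj ⟨i, hi⟩ ⟨i, hi⟩).2 (hp.refl _), fun i hi j hj h1 h2 => ?_,
      fun i hi j hj k hk h1 h2 => ?_⟩, fun c hc d hd hcd => ?_⟩
    · exact congrArg Fin.val (hp.antisymm ⟨i, hi⟩ ⟨j, hj⟩ ((hadj ⟨i, hi⟩ ⟨j, hj⟩).1 h1)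
        ((hadj ⟨j, hj⟩ ⟨i, hi⟩).1 h2))
    · exact (hadj ⟨i, hi⟩ ⟨k, hk⟩).2 (hp.trans _ _ _ ((hadj ⟨i, hi⟩ ⟨j, hj⟩).1 h1)
        ((hadj ⟨j, hj⟩ ⟨k, hk⟩).1 h2))
    · have h1 := (isDownPoset_iff hp).1 hM ⟨c, hc⟩ ⟨d, hd⟩ ((hadj ⟨c, hc⟩ ⟨d, hd⟩).1 hcd)
      exact (gfp_iff hadj hp ⟨c, hc⟩ ⟨d, hd⟩).1 h1
  · rintro ⟨⟨h1, h2, h3, h4⟩, h5⟩
    let le : Fin M.length → Fin M.length → Prop := fun i j => leM M i j
    have hp : IsPartialOrder _ le :=
      { refl := fun i => h2 i i.2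
        trans := fun i j k hij hjk => h4 i i.2 j j.2 k k.2 hij hjk
        antisymm := fun i j hij hji => Fin.ext (h3 i i.2 j j.2 hij hji) }
    refine ⟨M.length, le, hp, ?_, ?_⟩
    · unfold matrix
      refine List.ext_getElem (by simp) fun i hi1 hi2 => ?_
      have hlen := h1 i hi1
      have hgi : M.getD i [] = M[i] := by
        rw [List.getD_eq_getElem?_getD, List.getElem?_eq_getElem hi1]; rfl
      rw [hgi] at hlen
      rw [List.getElem_ofFn]
      refine List.ext_getElem (by simp [hlen]) fun j hj1 hj2 => ?_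
      rw [List.getElem_ofFn]
      have : (le ⟨i, hi1⟩ ⟨j, by omega⟩) ↔ M[i][j] = true := by
        change (M.getD i []).getD j false = true ↔ _
        rw [hgi, List.getD_eq_getElem?_getD, List.getElem?_eq_getElem hj1]; rfl
      by_cases hb : M[i][j] = true
      · rw [hb]; symm; simpa using this.2 hb
      · rw [Bool.not_eq_true] at hb
        rw [hb]; symm
        simpa using fun h => absurd (this.1 h) (by rw [hb]; simp)
    · rw [isDownPoset_iff hp]
      intro c d hcd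
      exact (gfp_iff (fun _ _ => Iff.rfl) hp c d).2 (h5 c c.2 d d.2 hcd)

/-! ### Polynomial time -/

section poly

variable {β : Type} [TEnc β] {g : β → List (List Bool)} (hg : NPC.Poly g)

include hg

theorem pLe {i j : β → ℕ} (hi : NPC.Poly i) (hj : NPC.Poly j) : PP (fun b => leM (g b) (i b) (j b)) :=
  PP.bool (b := fun b => ((g b).getD (i b) []).getD (j b) false) (by fun_prop)

theorem pAllN {r : β → ℕ → Prop} (hr : PP (fun p : β × ℕ => r p.1 p.2)) :
    PP (fun b => ∀ x < (g b).length, r b x) :=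
  (PP.ball (UPoly.range (UPoly.length hg)) hr).congr fun b => by simp only [List.mem_range]

theorem pExN {r : β → ℕ → Prop} (hr : PP (fun p : β × ℕ => r p.1 p.2)) :
    PP (fun b => ∃ x < (g b).length, r b x) :=
  (PP.bex (UPoly.range (UPoly.length hg)) hr).congr fun b => by simp only [List.mem_range]

theorem pGlb {m a y : β → ℕ} (hm : NPC.Poly m) (ha : NPC.Poly a) (hy : NPC.Poly y) :
    PP (fun b => glbM (g b) (m b) (a b) (y b)) := by
  refine (pLe hg hm ha).and ((pLe hg hm hy).and (pAllN hg (pImp ?_ (pImp ?_ ?_))))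
  · exact pLe (g := fun p : β × ℕ => g p.1) (by fun_prop) (by fun_prop) (by fun_prop)
  · exact pLe (g := fun p : β × ℕ => g p.1) (by fun_prop) (by fun_prop) (by fun_prop)
  · exact pLe (g := fun p : β × ℕ => g p.1) (by fun_prop) (by fun_prop) (by fun_prop)

theorem pOk {L : β → List (ℕ × ℕ)} {p : β → ℕ × ℕ} (hL : NPC.Poly L) (hp : NPC.Poly p) :
    PP (fun b => okM (g b) (L b) (p b)) := by
  refine PP.and (pAllN hg (pImp ?_ (pExN (g := fun p : β × ℕ => g p.1) (by fun_prop)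
    (PP.and (PP.mem ?_ ?_) ?_))))
    (pAllN hg (pImp ?_ (pExN (g := fun p : β × ℕ => g p.1) (by fun_prop)
    (PP.and (PP.mem ?_ ?_) ?_))))
  · exact pLe (g := fun p : β × ℕ => g p.1) (by fun_prop) (by fun_prop) (by fun_prop)
  · fun_prop
  · fun_prop
  · exact pGlb (g := fun p : (β × ℕ) × ℕ => g p.1.1) (by fun_prop) (by fun_prop) (by fun_prop)
      (by fun_prop)
  · exact pLe (g := fun p : β × ℕ => g p.1) (by fun_prop) (by fun_prop) (by fun_prop)
  · fun_prop
  · fun_prop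
  · exact pGlb (g := fun p : (β × ℕ) × ℕ => g p.1.1) (by fun_prop) (by fun_prop) (by fun_prop)
      (by fun_prop)

end poly

theorem poly_allPairs : NPC.Poly (fun M : List (List Bool) => allPairs M.length) := by
  have h : NPC.Poly (fun M : List (List Bool) => List.range M.length) :=
    UPoly.range (UPoly.length NPC.Poly.id)
  unfold allPairs
  refine NPC.Poly.flatMap (F := fun (M : List (List Bool)) x => (List.range M.length).map fun a => (x, a))
    h ?_
  have h' : NPC.Poly (fun p : List (List Bool) × ℕ => List.range p.1.length) :=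
    UPoly.range (UPoly.length (NPC.Poly.fst NPC.Poly.id))
  exact NPC.Poly.map (F := fun (p : List (List Bool) × ℕ) a => (p.2, a)) h' (by fun_prop)

theorem poly_iniL : NPC.Poly iniL := by
  classical
  refine (PP.filter (inst := fun _ _ => Classical.propDecidable _)
    (l := fun q : List (List Bool) × ℕ × ℕ => allPairs q.1.length)
    (r := fun q p => leM q.1 p.2 p.1 ∧ (p.1 = q.2.2 → p.2 = q.2.1)) ?_ ?_).congr fun q => ?_
  · exact poly_allPairs.comp (f := fun q : List (List Bool) × ℕ × ℕ => q.1) (by fun_prop)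
  · refine PP.and (pLe (g := fun x : (List (List Bool) × ℕ × ℕ) × (ℕ × ℕ) => x.1.1) (by fun_prop)
      (by fun_prop) (by fun_prop)) (pImp (PP.eq (by fun_prop) (by fun_prop))
      (PP.eq (by fun_prop) (by fun_prop)))
  · unfold iniL
    congr 1
    funext x
    congr

theorem poly_gfpM : NPC.Poly (fun q : List (List Bool) × ℕ × ℕ => gfp (okM q.1) (iniL q)) := by
  refine poly_gfp (ok := fun q : List (List Bool) × ℕ × ℕ => okM q.1) poly_iniL ?_
  exact pOk (g := fun p : (List (List Bool) × ℕ × ℕ) × List (ℕ × ℕ) × (ℕ × ℕ) => p.1.1)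
    (by fun_prop) (by fun_prop) (by fun_prop)

theorem pp_crit : PP Crit := by
  have hid : NPC.Poly (fun M : List (List Bool) => M) := NPC.Poly.id
  refine PP.and (PP.and ?_ (PP.and ?_ (PP.and ?_ ?_))) ?_
  · exact pAllN hid (PP.eq (by fun_prop) (by fun_prop))
  · exact pAllN hid (pLe (g := fun p : List (List Bool) × ℕ => p.1) (by fun_prop) (by fun_prop)
      (by fun_prop))
  · refine pAllN hid (pAllN (g := fun p : List (List Bool) × ℕ => p.1) (by fun_prop)
      (pImp ?_ (pImp ?_ (PP.eq (by fun_prop) (by fun_prop)))))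
    · exact pLe (g := fun p : (List (List Bool) × ℕ) × ℕ => p.1.1) (by fun_prop) (by fun_prop)
        (by fun_prop)
    · exact pLe (g := fun p : (List (List Bool) × ℕ) × ℕ => p.1.1) (by fun_prop) (by fun_prop)
        (by fun_prop)
  · refine pAllN hid (pAllN (g := fun p : List (List Bool) × ℕ => p.1) (by fun_prop)
      (pAllN (g := fun p : (List (List Bool) × ℕ) × ℕ => p.1.1) (by fun_prop)
      (pImp ?_ (pImp ?_ ?_)))) <;>
    exact pLe (g := fun p : ((List (List Bool) × ℕ) × ℕ) × ℕ => p.1.1.1) (by fun_prop)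
      (by fun_prop) (by fun_prop)
  · refine pAllN hid (pAllN (g := fun p : List (List Bool) × ℕ => p.1) (by fun_prop)
      (pImp ?_ (pAllN (g := fun p : (List (List Bool) × ℕ) × ℕ => p.1.1) (by fun_prop)
      (pExN (g := fun p : ((List (List Bool) × ℕ) × ℕ) × ℕ => p.1.1.1) (by fun_prop)
        (PP.mem (by fun_prop) ?_)))))
    · exact pLe (g := fun p : (List (List Bool) × ℕ) × ℕ => p.1.1) (by fun_prop) (by fun_prop)
        (by fun_prop)
    · exact poly_gfpM.comp (f := fun p : (((List (List Bool) × ℕ) × ℕ) × ℕ) × ℕ =>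
        (p.1.1.1.1, p.1.1.1.2, p.1.1.2)) (by fun_prop)

theorem inPP_downPoset : InPP DownPoset :=
  inPP_of_PP (pp_crit.congr fun M => (downPoset_iff M).symm)

end Pool.Agent.V11227.DP
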