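import Mathlib

/-!
# ↓-posets: definitions
-/

namespace Pool.Agent.V11227.DP

/-- An action (on the right, through `act`) of a semilattice with identity `S` (product `mul`,
identity `one`) on a set `X`. -/
structure SemilatticeAction (S X : Type) where
  /-- the product of the semilattice -/
  mul : S → S → S
  /-- the identity of the semilattice -/
  one : S
  /-- the action -/
  act : X → S → X
  mul_idem : ∀ s, mul s s = s
  mul_comm : ∀ s t, mul s t = mul t s
  mul_assoc : ∀ s t u, mul (mul s t) u = mul s (mul t u)
  one_mul : ∀ s, mul one s = s
  act_mul : ∀ c s t, act c (mul s t) = act (act c s) t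
  act_one : ∀ c, act c one = c

/-- The relation `c ≤ d` iff `d s = c` for some `s` in the semilattice. -/
def SemilatticeAction.le {S X : Type} (A : SemilatticeAction S X) (c d : X) : Prop :=
  ∃ s, A.act d s = c

/-- The poset `(C, le)` is a ↓-poset: it is isomorphic to the poset of an action of some
semilattice with identity on some set. -/
def IsDownPoset {C : Type} (le : C → C → Prop) : Prop :=
  ∃ (S X : Type) (A : SemilatticeAction S X) (e : C ≃ X), ∀ c d, le c d ↔ A.le (e c) (e d)

open Classical in
/-- The Boolean matrix of a relation on `{0, …, n-1}`, as the list of its rows. -/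
noncomputable def matrix {n : ℕ} (le : Fin n → Fin n → Prop) : List (List Bool) :=
  List.ofFn fun i : Fin n => List.ofFn fun j : Fin n => decide (le i j)

/-- The decision problem: `M` is the matrix of the order relation of a finite poset which is a
↓-poset. -/
def DownPoset (M : List (List Bool)) : Prop :=
  ∃ (n : ℕ) (le : Fin n → Fin n → Prop), IsPartialOrder (Fin n) le ∧ M = matrix le ∧
    IsDownPoset le

end Pool.Agent.V11227.DP
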