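import Pool.Agent.H692R2.Eq6
import Pool.Agent.NPC.Dec

/-!
# Graphs given by adjacency matrices: tools
-/

namespace Pool.Agent.V11227

open Pool.Agent.NPC Pool.Agent.H692R2.Equi

/-- the graph of a valid matrix -/
def ofM (M : List (List Bool)) (h : ValidM M) : SimpleGraph (Fin M.length) where
  Adj i j := adjM M i j
  symm := ⟨fun i j hij => h.2.2 i i.2 j j.2 hij⟩
  loopless := ⟨fun i hi => h.2.1 i i.2 hi⟩

theorem matrix_ofM (M : List (List Bool)) (h : ValidM M) : matrix (ofM M h) = M := by
  obtain ⟨h1, h2, h3⟩ := h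
  unfold matrix
  refine List.ext_getElem (by simp) fun i hi1 hi2 => ?_
  have hlen := h1 i hi2
  have hgi : M.getD i [] = M[i] := by
    rw [List.getD_eq_getElem?_getD, List.getElem?_eq_getElem hi2]; rfl
  rw [hgi] at hlen
  rw [List.getElem_ofFn]
  refine List.ext_getElem (by simp [hlen]) fun j hj1 hj2 => ?_
  rw [List.getElem_ofFn]
  have : ((ofM M ⟨h1, h2, h3⟩).Adj ⟨i, hi2⟩ ⟨j, by omega⟩) ↔ M[i][j] = true := by
    change (M.getD i []).getD j false = true ↔ _
    rw [hgi, List.getD_eq_getElem?_getD, List.getElem?_eq_getElem hj2]; rfl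
  by_cases hb : M[i][j] = true
  · rw [hb]; simpa using this.2 hb
  · rw [Bool.not_eq_true] at hb
    rw [hb]
    simpa using fun h => absurd (this.1 h) (by rw [hb]; simp)

theorem validM_matrix {n : ℕ} (G : SimpleGraph (Fin n)) : ValidM (matrix G) := by
  have hn := matrix_length G
  have hadj := adjM_matrix G
  have hrow : ∀ i < n, ((matrix G).getD i []).length = n := by
    intro i hi
    unfold matrix
    simp [List.getD_eq_getElem?_getD, hi]
  refine ⟨fun i hi => ?_, fun i hi => ?_, fun i hi j hj => ?_⟩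
  · rw [hn] at hi ⊢
    exact hrow i hi
  · rw [hn] at hi
    intro h
    exact G.irrefl ((hadj ⟨i, hi⟩ ⟨i, hi⟩).1 h)
  · rw [hn] at hi hj
    intro h
    exact (hadj ⟨j, hj⟩ ⟨i, hi⟩).2 ((hadj ⟨i, hi⟩ ⟨j, hj⟩).1 h).symm

theorem graphM_iff (Q : (n : ℕ) → SimpleGraph (Fin n) → Prop) (M : List (List Bool)) :
    (∃ (n : ℕ) (G : SimpleGraph (Fin n)), M = matrix G ∧ Q n G) ↔
      ∃ h : ValidM M, Q M.length (ofM M h) := by
  constructor
  · rintro ⟨n, G, rfl, hG⟩
    refine ⟨validM_matrix G, ?_⟩
    have hn := matrix_length G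
    have key : ∀ (n' : ℕ) (G' : SimpleGraph (Fin n')) (hn' : n' = n),
        (∀ i j : Fin n', G'.Adj i j ↔ G.Adj (Fin.cast hn' i) (Fin.cast hn' j)) → Q n' G' := by
      intro n' G' hn' hG'
      subst hn'
      have : G' = G := by
        ext i j
        exact hG' i j
      rw [this]
      exact hG
    refine key _ _ hn fun i j => ?_
    change adjM (matrix G) i j ↔ _
    rw [← adjM_matrix]
    rfl
  · rintro ⟨h, hQ⟩
    exact ⟨_, _, (matrix_ofM M h).symm, hQ⟩

/-- all lists of length at most `k` with entries below `n` -/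
def tuplesLe (n : ℕ) : ℕ → List (List ℕ)
  | 0 => [[]]
  | k + 1 => [] :: (tuplesLe n k).flatMap fun t => (List.range n).map fun x => x :: t

theorem mem_tuplesLe {n k : ℕ} {L : List ℕ} : L ∈ tuplesLe n k ↔ L.length ≤ k ∧ ∀ x ∈ L, x < n := by
  induction k generalizing L with
  | zero =>
    simp only [tuplesLe, List.mem_singleton, Nat.le_zero, List.length_eq_zero_iff]
    constructor
    · rintro rfl; simp
    · exact fun h => h.1
  | succ k ih =>
    simp only [tuplesLe, List.mem_cons, List.mem_flatMap, List.mem_map, List.mem_range]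
    constructor
    · rintro (rfl | ⟨t, ht, x, hx, rfl⟩)
      · simp
      · obtain ⟨h1, h2⟩ := ih.1 ht
        refine ⟨by simpa using h1, fun y hy => ?_⟩
        rcases List.mem_cons.1 hy with rfl | hy
        · exact hx
        · exact h2 y hy
    · rintro ⟨h1, h2⟩
      cases L with
      | nil => exact Or.inl rfl
      | cons x t =>
        refine Or.inr ⟨t, ih.2 ⟨by simpa using h1, fun y hy => h2 y (by simp [hy])⟩, x,
          h2 x (by simp), rfl⟩

theorem poly_tuplesLe (k : ℕ) {α : Type} [TEnc α] {n : α → ℕ} (hn : UPoly n) :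
    NPC.Poly (fun a => tuplesLe (n a) k) := by
  induction k with
  | zero => exact NPC.Poly.const _
  | succ k ih =>
    have h1 : NPC.Poly (fun a => (tuplesLe (n a) k).flatMap fun t =>
        (List.range (n a)).map fun x => x :: t) := by
      refine NPC.Poly.flatMap (F := fun a t => (List.range (n a)).map fun x => x :: t) ih ?_
      have h' : NPC.Poly (fun p : α × List ℕ => List.range (n p.1)) :=
        UPoly.range (hn.comp (NPC.Poly.fst NPC.Poly.id))
      exact NPC.Poly.map (F := fun (p : α × List ℕ) x => x :: p.2) h' (by fun_prop)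
    exact NPC.Poly.cons (NPC.Poly.const []) h1

section poly

variable {β : Type} [TEnc β]

theorem pAllL {γ : Type} [TEnc γ] {g : β → List γ} (hg : NPC.Poly g) {r : β → ℕ → Prop}
    (hr : PP (fun p : β × ℕ => r p.1 p.2)) : PP (fun b => ∀ x < (g b).length, r b x) :=
  (PP.ball (UPoly.range (UPoly.length hg)) hr).congr fun b => by simp only [List.mem_range]

theorem pExL {γ : Type} [TEnc γ] {g : β → List γ} (hg : NPC.Poly g) {r : β → ℕ → Prop}
    (hr : PP (fun p : β × ℕ => r p.1 p.2)) : PP (fun b => ∃ x < (g b).length, r b x) :=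
  (PP.bex (UPoly.range (UPoly.length hg)) hr).congr fun b => by simp only [List.mem_range]

theorem pAdj {g : β → List (List Bool)} (hg : NPC.Poly g) {i j : β → ℕ} (hi : NPC.Poly i)
    (hj : NPC.Poly j) : PP (fun b => adjM (g b) (i b) (j b)) :=
  PP.bool (b := fun b => ((g b).getD (i b) []).getD (j b) false) (by fun_prop)

theorem pIff {p q : β → Prop} (hp : PP p) (hq : PP q) : PP (fun b => p b ↔ q b) :=
  ((hp.and hq).or (hp.not.and hq.not)).congr fun b => by tauto

end poly

end Pool.Agent.V11227
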