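import Pool.Agent.V11227.JonesLk9

/-!
# Powers of pure braids with regular linking matrices: the first alternative is impossible
-/

set_option autoImplicit false

namespace Pool.Agent.V11227.GN

open Finset LaurentPolynomial Pool.Agent.H891R2.Jones Pool.Agent.W639.RB Pool.Agent.Y463.SK
  Pool.Agent.V11227.JL

variable {m : ℕ}

/-- the statement for an abstract finite algebra and an abstract quotient -/
theorem gexists_b_q {R S : Type*} [CommRing R] [Ring S] [Algebra R S] [Module.Finite R S]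
    {A A' d : R} {e : ℕ → S} (hA : A * A' = 1) (hd : d = - A ^ 2 - A' ^ 2) (hT : IsTLr m d e)
    (htf : ∀ x : S, (A + 1) • x = 0 → x = 0) (w : List (Letter m)) (hp : permW w = 1) (k : ℤ)
    (u : R) (hu : ∃ t, u = 1 - ((-k : ℤ) : R) * (A + 1) + (A + 1) ^ 2 * t)
    (h : ∀ ζ : MonoidAlgebra ℤ (Equiv.Perm (Fin m)), ((k + esum w) • 1 + th w) * ζ = 0 → ζ = 0) {Q : Type*} [Ring Q] (q : S →+* Q)
    (hqs : Function.Surjective q) (hker : ∀ x, q x = 0 → ∃ y, x = (A + 1) ^ 2 • y)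
    (H : Mod2 A A' d e m q (q (algebraMap R S (A + 1)))) :
    ∃ b1 : S, u • wd A A' e (toN w) = 1 + (A + 1) • b1 ∧
      ∃ P : Polynomial R, Polynomial.aeval b1 P = 0 ∧ ∃ g0 : ℤ, g0 ≠ 0 ∧ ∃ j : ℕ, 
        (A + 1) ∣ P.coeff 0 - (g0 : R) ^ j := by
  obtain ⟨b, hb⟩ := wd_mod hA hd hT (toN w) (toN_lt w) (permL_of_pure hp)
  obtain ⟨t, ht⟩ := hu
  obtain ⟨b1, hb1⟩ : ∃ b1 : S, u • wd A A' e (toN w) - 1 = (A + 1) • b1 := by
    refine ⟨((-((-k : ℤ) : R)) + (A + 1) * t) • wd A A' e (toN w) + b, ?_⟩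
    rw [smul_add, ← hb, ht, smul_smul]
    have e1 : (1 - ((-k : ℤ) : R) * (A + 1) + (A + 1) ^ 2 * t) =
        1 + (A + 1) * ((-((-k : ℤ) : R)) + (A + 1) * t) := by ring
    rw [e1, add_smul, one_smul]
    abel
  obtain ⟨p, hpdef⟩ : ∃ p, p = q (algebraMap R S (A + 1)) := ⟨_, rfl⟩
  rw [← hpdef] at H
  have hpc : ∀ y, p * y = y * p := by
    intro y
    obtain ⟨x, rfl⟩ := hqs y
    exact H.pc x
  have hword := word_mod2 H hpc w
  rw [hp, map_one, mul_one] at hword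
  obtain ⟨g, hg0, hg⟩ := exists_g ((k + esum w) • 1 + th w) h
  obtain ⟨Lf, hLf⟩ : ∃ Lf, Lf = MonoidAlgebra.lift ℤ Q (Equiv.Perm (Fin m)) (XX H.cox) := ⟨_, rfl⟩
  rw [← hLf] at hword
  have hy1 : Lf ((k + esum w) • 1 + th w) = ((k + esum w : ℤ) : Q) + Lf (th w) := by
    rw [map_add, map_zsmul, map_one, zsmul_eq_mul, mul_one]
  have hqu : q (algebraMap R S u) = 1 + (k : Q) * p := by
    rw [ht, map_add, map_sub, map_one, map_mul, map_mul, map_pow, map_add, map_sub, map_one, map_mul,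
      map_mul, map_pow, ← hpdef, map_intCast, map_intCast]
    exact calcB p _ k H.pp
  obtain ⟨P, hP, j, hj⟩ := exists_annih (A + 1) htf q hqs hker b1 (Lf ((k + esum w) • 1 + th w)) (by
      rw [← hb1, map_sub, map_one, Algebra.smul_def, map_mul, hqu, hword, hy1, ← hpdef]
      exact calcA p _ k (esum w) H.pp hpc) g (by
      rw [Polynomial.aeval_algHom_apply Lf, hg, map_zero])
  exact ⟨b1, by rw [← hb1]; abel, P, hP, g.coeff 0, hg0, j, hj⟩

/-- the statement for an abstract finite algebra -/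
theorem gexists_b_gen {R S : Type*} [CommRing R] [Ring S] [Algebra R S] [Module.Finite R S]
    {A A' d : R} {e : ℕ → S} (hA : A * A' = 1) (hd : d = - A ^ 2 - A' ^ 2) (hT : IsTLr m d e)
    (htf : ∀ x : S, (A + 1) • x = 0 → x = 0) (w : List (Letter m)) (hp : permW w = 1) (k : ℤ)
    (u : R) (hu : ∃ t, u = 1 - ((-k : ℤ) : R) * (A + 1) + (A + 1) ^ 2 * t)
    (h : ∀ ζ : MonoidAlgebra ℤ (Equiv.Perm (Fin m)), ((k + esum w) • 1 + th w) * ζ = 0 → ζ = 0) :
    ∃ b1 : S, u • wd A A' e (toN w) = 1 + (A + 1) • b1 ∧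
      ∃ P : Polynomial R, Polynomial.aeval b1 P = 0 ∧ ∃ g0 : ℤ, g0 ≠ 0 ∧ ∃ j : ℕ, 
        (A + 1) ∣ P.coeff 0 - (g0 : R) ^ j :=
  gexists_b_q hA hd hT htf w hp k u hu h (Ideal.Quotient.mk (II S ((A + 1) ^ 2)))
    Ideal.Quotient.mk_surjective (fun x hx => by rwa [Ideal.Quotient.eq_zero_iff_mem, mem_II] at hx)
    (mod2 (m := m) hA hd hT)

/-- the element `b = u w` and its annihilating polynomial -/
theorem gexists_b (hm : 0 < m) (w : List (Letter m)) (hp : IsPure w) (c : ℤ) (hc : Even c)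
    (h : ∀ ζ : MonoidAlgebra ℤ (Equiv.Perm (Fin m)), ((3 * c + esum w) • 1 + th w) * ζ = 0 → ζ = 0) :
    ∃ b1 : BB m, (T (-3 * c) : ℤ[T;T⁻¹]) • bb m (toN w) = 1 + (T 1 + 1 : ℤ[T;T⁻¹]) • b1 ∧
      ∃ P : Polynomial ℤ[T;T⁻¹], Polynomial.aeval b1 P = 0 ∧ P.coeff 0 ≠ 0 := by
  classical
  -- the subalgebra
  obtain ⟨S0, hS0⟩ : ∃ S0, S0 = Algebra.adjoin ℤ[T;T⁻¹] (Set.range (EB m)) := ⟨_, rfl⟩
  have hfg0 := (finrank_le (isTLr_EB m) hm (EB_zero m)).1
  rw [← hS0] at hfg0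
  have hmem : ∀ i, EB m i ∈ S0 := fun i => by rw [hS0]; exact Algebra.subset_adjoin ⟨i, rfl⟩
  let e' : ℕ → S0 := fun i => ⟨EB m i, hmem i⟩
  have h' : IsTLr m (-(T 1)^2 - (T (-1))^2 : ℤ[T;T⁻¹]) e' := by
    refine ⟨?_, ?_, ?_, ?_⟩
    · intro i hi; exact Subtype.ext ((isTLr_EB m).sq i hi)
    · intro i hi; exact Subtype.ext ((isTLr_EB m).up i hi)
    · intro i hi; exact Subtype.ext ((isTLr_EB m).down i hi)
    · intro i j hj hij; exact Subtype.ext ((isTLr_EB m).far i j hj hij)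
  have hcoe : ((wd (T 1 : ℤ[T;T⁻¹]) (T (-1)) e' (toN w) : S0) : BB m) = bb m (toN w) := by
    unfold bb wd
    have : ∀ v : List (Bool × ℕ), (((v.map (ltr (T 1 : ℤ[T;T⁻¹]) (T (-1)) e')).prod : S0) : BB m) =
        (v.map (ltr (T 1 : ℤ[T;T⁻¹]) (T (-1)) (EB m))).prod := by
      intro v
      induction v with
      | nil => rfl
      | cons x v ih =>
        rw [List.map_cons, List.map_cons, List.prod_cons, List.prod_cons, Subalgebra.coe_mul, ih]
        congr 1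
        unfold ltr
        split_ifs <;> rfl
    exact this (toN w)
  have : Module.Finite ℤ[T;T⁻¹] S0 := ⟨hfg0⟩
  have htf : ∀ x : S0, (T 1 + 1 : ℤ[T;T⁻¹]) • x = 0 → x = 0 := by
    intro x hx
    apply Subtype.ext
    apply tf (x : BB m)
    exact congrArg Subtype.val hx
  obtain ⟨b1, hb1, P, hP, g0, hg0, j, hj⟩ := gexists_b_gen T_mul_inv rfl h' htf w hp (3 * c)
    (T (-3 * c)) (by
      obtain ⟨t, ht⟩ := T_even (-3 * c) (hc.mul_left (-3))
      exact ⟨t, by rw [ht]; push_cast; ring⟩) h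
  refine ⟨(b1 : BB m), ?_, P, ?_, ?_⟩
  · have e1 := congrArg Subtype.val hb1
    have e2 : (((T (-3 * c) : ℤ[T;T⁻¹]) • wd (T 1 : ℤ[T;T⁻¹]) (T (-1)) e' (toN w) : S0) : BB m) =
        (T (-3 * c) : ℤ[T;T⁻¹]) • bb m (toN w) := by
      rw [← hcoe]; rfl
    have e3 : ((1 + (T 1 + 1 : ℤ[T;T⁻¹]) • b1 : S0) : BB m) =
        1 + (T 1 + 1 : ℤ[T;T⁻¹]) • (b1 : BB m) := rfl
    rw [e2, e3] at e1
    exact e1
  · have e1 := congrArg S0.val hP
    rw [map_zero, ← Polynomial.aeval_algHom_apply] at e1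
    exact e1
  · intro h0
    rw [h0, zero_sub, dvd_neg] at hj
    have e1 : evm ((g0 : ℤ[T;T⁻¹]) ^ j) = 0 := evm_eq_zero_iff.2 hj
    rw [map_pow, map_intCast] at e1
    have e2 : (g0 : ℤ) ^ j = 0 := by simpa using e1
    exact pow_ne_zero j hg0 e2

/-- **The first alternative is impossible for regular pure words.** -/
theorem no_all_gn (hm : 0 < m) (O : Outer m) (w : List (Letter m)) (hp : IsPure w)
    (v : List (Bool × ℕ)) (hv : ∀ x ∈ v, x.2 + 1 < m)
    (h : ∀ ζ : MonoidAlgebra ℤ (Equiv.Perm (Fin m)),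
      ((3 * costS (toN w) (pat O.up) + esum w) • 1 + th w) * ζ = 0 → ζ = 0)
    (F : ℤ[T;T⁻¹]) (hF : F ≠ 0) : ¬ ∀ n : ℤ, ff O (powL (toN w) n ++ v) = F := by
  intro hall
  have hp' := permL_of_pure hp
  have hlt := toN_lt w
  obtain ⟨c, hcdef⟩ : ∃ c, c = costS (toN w) (pat O.up) := ⟨_, rfl⟩
  have hc : Even c := by rw [hcdef]; exact even_cost (toN w) hlt hp' O.up
  rw [← hcdef] at h
  obtain ⟨b1, hb, P, hP, hP0⟩ := gexists_b hm w hp c hc h
  apply hF
  have hprod : P.coeff 0 * F = 0 := by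
    apply eq_zero_of_ev
    intro N hN
    have hA := Ar_ne N hN
    have key : ∀ n : ℤ, (N : ℂ) * ev N hN F =
      ((if Even (owr O + costS v (pat O.up)) then (1 : ℂ) else -1) *
        (Ar N) ^ (-3 * (owr O + costS v (pat O.up)))) *
      Fn O ⟨N, hN⟩ v ((T (-3 * (n * c)) : ℤ[T;T⁻¹]) • bb m (powL (toN w) n)) := by
      intro n
      have h1 := key_formula hm O (toN w) hlt hp' v hv ⟨N, hN⟩ n
      rw [hall n, ← hcdef] at h1
      exact h1
    obtain ⟨K, hK⟩ : ∃ K : ℂ, K = (if Even (owr O + costS v (pat O.up)) then (1 : ℂ) else -1) *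
        (Ar N) ^ (-3 * (owr O + costS v (pat O.up))) := ⟨_, rfl⟩
    rw [← hK] at key
    have hK0 : K ≠ 0 := by
      rw [hK]
      apply mul_ne_zero
      · split_ifs <;> norm_num
      · exact zpow_ne_zero _ hA
    set X : ℕ → BB m := fun n => (T (-3 * ((n : ℤ) * c)) : ℤ[T;T⁻¹]) • bb m (powL (toN w) n) with hX
    set b : BB m := (T (-3 * c) : ℤ[T;T⁻¹]) • bb m (toN w) with hbdef
    have hXs : ∀ n, X (n+1) = b * X n := by
      intro n
      simp only [hX]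
      push_cast
      rw [bb_pow_succ (toN w) hlt n, hbdef, smul_mul_smul_comm, ← T_add]
      congr 2
      ring
    have hconst : ∀ n, Fn O ⟨N, hN⟩ v (X n) = K⁻¹ * ((N : ℂ) * ev N hN F) := by
      intro n
      rw [key n, ← mul_assoc, inv_mul_cancel₀ hK0, one_mul]
    have hpow : ∀ k : ℕ, ∀ n : ℕ, Fn O ⟨N, hN⟩ v ((b - 1) ^ (k + 1) * X n) = 0 := by
      intro k
      induction k with
      | zero =>
        intro n
        rw [zero_add, pow_one, sub_mul, one_mul, ← hXs, Fn_sub, hconst, hconst, sub_self]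
      | succ k ih =>
        intro n
        have e1 : (b - 1) ^ (k + 1 + 1) * X n = (b - 1) ^ (k + 1) * X (n + 1) -
            (b - 1) ^ (k + 1) * X n := by
          rw [hXs, pow_succ]
          noncomm_ring
        rw [e1, Fn_sub, ih, ih, sub_zero]
    have hX0 : X 0 = 1 := by
      simp only [hX]
      have e1 : bb m (powL (toN w) (0 : ℕ)) = 1 := rfl
      rw [e1]
      simp
    have hb1 : b - 1 = (T 1 + 1 : ℤ[T;T⁻¹]) • b1 := by rw [hb, add_sub_cancel_left]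
    have hφ : ∀ k : ℕ, Fn O ⟨N, hN⟩ v (b1 ^ (k + 1)) = 0 := by
      intro k
      have h1 := hpow k 0
      rw [hX0, mul_one, hb1, smul_pow, Fn_smul, map_pow] at h1
      exact (mul_eq_zero.1 h1).resolve_left (pow_ne_zero _ (ev_pi_ne N hN))
    have h1 : Fn O ⟨N, hN⟩ v (Polynomial.aeval b1 P) =
        ev N hN (P.coeff 0) * Fn O ⟨N, hN⟩ v 1 := by
      rw [Polynomial.aeval_eq_sum_range, Finset.sum_range_succ', Fn_add, Fn_smul, pow_zero]
      have h2 : ∀ (s : Finset ℕ) (g : ℕ → BB m), (∀ i ∈ s, Fn O ⟨N, hN⟩ v (g i) = 0) →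
          Fn O ⟨N, hN⟩ v (∑ i ∈ s, g i) = 0 := by
        classical
        intro s g
        induction s using Finset.induction_on with
        | empty => intro _; simp [Fn_zero]
        | insert a s ha ih =>
          intro hg
          rw [Finset.sum_insert ha, Fn_add, hg a (Finset.mem_insert_self _ _),
            ih (fun i hi => hg i (Finset.mem_insert_of_mem hi)), add_zero]
      rw [h2, zero_add]
      intro i _
      rw [Fn_smul, hφ, mul_zero]
    rw [hP, Fn_zero, ← hX0, hconst] at h1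
    have hN0 : (N : ℂ) ≠ 0 := by rw [Nat.cast_ne_zero]; omega
    rw [map_mul]
    have h3 : ev N hN (P.coeff 0) * ev N hN F = 0 := by
      have h4 : ev N hN (P.coeff 0) * (K⁻¹ * ((N : ℂ) * ev N hN F)) =
          (K⁻¹ * N) * (ev N hN (P.coeff 0) * ev N hN F) := by ring
      rw [h4] at h1
      exact (mul_eq_zero.1 h1.symm).resolve_left (mul_ne_zero (inv_ne_zero hK0) hN0)
    exact h3
  exact (mul_eq_zero.1 hprod).resolve_left hP0

end Pool.Agent.V11227.GN
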