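import Mathlib

/-!
# Zeros of determinants of matrices of linear forms
-/

set_option autoImplicit false

namespace Pool.Agent.V11227.GN

open Finset MvPolynomial

variable {T G : Type} [Fintype T] [DecidableEq T] [Fintype G] [DecidableEq G]

/-- the matrix `∑ x_p A_p` of linear forms -/
noncomputable def genM (A : T → Matrix G G ℤ) : Matrix G G (MvPolynomial T ℤ) :=
  fun i j => ∑ p, MvPolynomial.X p * MvPolynomial.C (A p i j)

theorem eval_det (A : T → Matrix G G ℤ) (y : T → ℤ) :
    eval y (genM A).det = (∑ p, y p • A p).det := by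
  rw [RingHom.map_det]
  congr 1
  ext i j
  rw [RingHom.mapMatrix_apply, Matrix.map_apply, Matrix.sum_apply]
  unfold genM
  rw [map_sum]
  refine Finset.sum_congr rfl fun p _ => ?_
  simp

theorem deg_le (A : T → Matrix G G ℤ) : (genM A).det.totalDegree ≤ Fintype.card G := by
  rw [Matrix.det_apply']
  apply totalDegree_finsetSum_le
  intro σ _
  refine (totalDegree_mul _ _).trans ?_
  have h1 : (((Equiv.Perm.sign σ : ℤ) : MvPolynomial T ℤ)).totalDegree = 0 := by
    have : (((Equiv.Perm.sign σ : ℤ) : MvPolynomial T ℤ)) = C (Equiv.Perm.sign σ : ℤ) := by simp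
    rw [this, totalDegree_C]
  rw [h1, zero_add]
  refine (totalDegree_finsetProd _ _).trans ?_
  calc ∑ i, (genM A (σ i) i).totalDegree ≤ ∑ _i : G, 1 := by
        refine Finset.sum_le_sum fun i _ => ?_
        unfold genM
        apply totalDegree_finsetSum_le
        intro p _
        refine (totalDegree_mul _ _).trans ?_
        rw [totalDegree_C, add_zero]
        exact (totalDegree_X p).le
    _ = Fintype.card G := by simp

/-- few zeros in a box -/
theorem box_count [Nonempty T] (P : MvPolynomial T ℤ) (hP : P ≠ 0) (N : ℕ) :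
    {y : T → ℤ | (∀ p, |y p| ≤ N) ∧ eval y P = 0}.Finite ∧
    {y : T → ℤ | (∀ p, |y p| ≤ N) ∧ eval y P = 0}.ncard ≤
      P.totalDegree * (2 * N + 1) ^ (Fintype.card T - 1) := by
  classical
  let e := Fintype.equivFin T
  set n := Fintype.card T with hn
  have hn0 : 0 < n := Fintype.card_pos
  set S : Finset ℤ := Finset.Icc (-(N:ℤ)) N with hS
  have hScard : S.card = 2 * N + 1 := by
    rw [hS, Int.card_Icc]
    omega
  have hP' : rename e P ≠ 0 := by
    intro h
    apply hP
    apply rename_injective e e.injective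
    rw [h, map_zero]
  have h1 := schwartz_zippel_totalDegree hP' S
  set F := {f ∈ Fintype.piFinset fun _ : Fin n => S | eval f (rename e P) = 0} with hF
  have hset : {y : T → ℤ | (∀ p, |y p| ≤ N) ∧ eval y P = 0} = (fun f : Fin n → ℤ => f ∘ e) '' (F : Set (Fin n → ℤ)) := by
    ext y
    constructor
    · rintro ⟨h2, h3⟩
      refine ⟨y ∘ e.symm, ?_, ?_⟩
      · rw [Finset.mem_coe, hF, Finset.mem_filter, Fintype.mem_piFinset]
        refine ⟨fun i => ?_, ?_⟩
        · rw [hS, Finset.mem_Icc]
          exact abs_le.1 (h2 _)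
        · rw [eval_rename]
          have : (y ∘ e.symm) ∘ e = y := by funext p; simp
          rw [this]
          exact h3
      · funext p; simp
    · rintro ⟨f, hf, rfl⟩
      rw [Finset.mem_coe, hF, Finset.mem_filter, Fintype.mem_piFinset] at hf
      refine ⟨fun p => ?_, ?_⟩
      · have := hf.1 (e p)
        rw [hS, Finset.mem_Icc] at this
        exact abs_le.2 this
      · have := hf.2
        rwa [eval_rename] at this
  have hfin : {y : T → ℤ | (∀ p, |y p| ≤ N) ∧ eval y P = 0}.Finite := by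
    rw [hset]
    exact F.finite_toSet.image _
  refine ⟨hfin, ?_⟩
  have hcard : {y : T → ℤ | (∀ p, |y p| ≤ N) ∧ eval y P = 0}.ncard ≤ F.card := by
    rw [hset]
    refine (Set.ncard_image_le F.finite_toSet).trans ?_
    rw [Set.ncard_coe_finset]
  refine hcard.trans ?_
  rw [hScard] at h1
  have hpos : (0 : ℚ≥0) < ((2 * N + 1 : ℕ) : ℚ≥0) := by
    have : 0 < 2 * N + 1 := by omega
    exact_mod_cast this
  have h2 : (F.card : ℚ≥0) ≤ (P.totalDegree : ℚ≥0) * ((2 * N + 1 : ℕ) : ℚ≥0) ^ (n - 1) := by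
    rw [div_le_div_iff₀ (pow_pos hpos n) hpos] at h1
    have h3 : (F.card : ℚ≥0) * ((2 * N + 1 : ℕ) : ℚ≥0) ≤
        ((P.totalDegree : ℚ≥0) * ((2 * N + 1 : ℕ) : ℚ≥0) ^ (n - 1)) * ((2 * N + 1 : ℕ) : ℚ≥0) := by
      refine h1.trans ?_
      rw [mul_assoc, ← pow_succ, Nat.sub_add_cancel hn0]
      gcongr
      exact totalDegree_rename_le _ _
    exact le_of_mul_le_mul_right h3 hpos
  exact_mod_cast h2

/-- few matrices of a linear family with determinant zero -/
theorem bad_count [Nonempty T] (A : T → Matrix G G ℤ) (y0 : T → ℤ)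
    (h0 : (∑ p, y0 p • A p).det ≠ 0) (N : ℕ) :
    {y : T → ℤ | (∀ p, |y p| ≤ N) ∧ (∑ p, y p • A p).det = 0}.Finite ∧
    {y : T → ℤ | (∀ p, |y p| ≤ N) ∧ (∑ p, y p • A p).det = 0}.ncard ≤
      Fintype.card G * (2 * N + 1) ^ (Fintype.card T - 1) := by
  have hP : (genM A).det ≠ 0 := by
    intro h
    apply h0
    rw [← eval_det, h, map_zero]
  have h := box_count (genM A).det hP N
  simp only [eval_det] at h
  exact ⟨h.1, h.2.trans (Nat.mul_le_mul_right _ (deg_le A))⟩

end Pool.Agent.V11227.GN
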