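import Pool.Agent.V11227.JonesGn1
import Pool.Agent.V11227.JonesGn2

/-!
# Linking matrices
-/

set_option autoImplicit false

namespace Pool.Agent.V11227.GN

open Finset Pool.Agent.H891R2.Jones Pool.Agent.W639.RB Pool.Agent.Y463.SK
  Pool.Agent.V11227.JL

variable {m : ℕ}

/-- the pairs of strands -/
abbrev Pr (m : ℕ) : Type := {p : Fin m × Fin m // p.1 < p.2}

theorem cr_symm (w : List (Letter m)) : ∀ a b, cr w a b = cr w b a := by
  induction w with
  | nil => intro a b; rfl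
  | cons x w ih =>
    intro a b
    have h : ((a = ⟨x.2, by omega⟩ ∧ b = ⟨x.2 + 1, by omega⟩) ∨
        (a = ⟨x.2 + 1, by omega⟩ ∧ b = ⟨x.2, by omega⟩)) ↔
        ((b = ⟨x.2, by omega⟩ ∧ a = ⟨x.2 + 1, by omega⟩) ∨
        (b = ⟨x.2 + 1, by omega⟩ ∧ a = ⟨x.2, by omega⟩)) := by tauto
    rw [cr, cr, ih]
    congr 1
    exact if_congr h rfl rfl

theorem cr_self (w : List (Letter m)) : ∀ a, cr w a a = 0 := by
  induction w with
  | nil => intro a; rfl
  | cons x w ih =>
    intro a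
    rw [cr, ih, add_zero, if_neg]
    rintro (⟨h1, h2⟩ | ⟨h1, h2⟩)
    · rw [h1] at h2
      simp [Fin.ext_iff] at h2
    · rw [h1] at h2
      simp [Fin.ext_iff] at h2

theorem sum_pairs {V : Type*} [AddCommGroup V] (f : Fin m → Fin m → V)
    (hs : ∀ a b, f a b = f b a) (h0 : ∀ a, f a a = 0) :
    ∑ a, ∑ b, f a b = ∑ p : Pr m, (f p.1.1 p.1.2 + f p.1.1 p.1.2) := by
  classical
  have h1 : ∑ a, ∑ b, f a b = ∑ x : Fin m × Fin m, f x.1 x.2 := by
    rw [Fintype.sum_prod_type]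
  have h2 : ∀ x : Fin m × Fin m, f x.1 x.2 =
      (if x.1 < x.2 then f x.1 x.2 else 0) + (if x.2 < x.1 then f x.2 x.1 else 0) := by
    rintro ⟨a, b⟩
    rcases lt_trichotomy a b with h | h | h
    · simp only [h, if_true, not_lt_of_gt h, if_false, add_zero]
    · subst h
      simp [h0]
    · simp only [h, if_true, not_lt_of_gt h, if_false, zero_add]
      exact hs a b
  have h3 : ∑ x : Fin m × Fin m, (if x.2 < x.1 then f x.2 x.1 else 0) =
      ∑ x : Fin m × Fin m, (if x.1 < x.2 then f x.1 x.2 else 0) := by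
    rw [← Equiv.sum_comp (Equiv.prodComm (Fin m) (Fin m))]
    rfl
  have h4 : ∑ x : Fin m × Fin m, (if x.1 < x.2 then f x.1 x.2 else 0) =
      ∑ p : Pr m, f p.1.1 p.1.2 := by
    rw [← Finset.sum_filter]
    exact Finset.sum_subtype _ (by intro x; simp) _
  rw [h1, Finset.sum_congr rfl (fun x _ => h2 x), Finset.sum_add_distrib, h3, h4,
    Finset.sum_add_distrib]

theorem card_pr : Fintype.card (Pr m) = m.choose 2 := by
  have h := sum_pairs (m := m) (fun a b => if a = b then (0:ℤ) else 1)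
    (fun a b => by simp only [eq_comm]) (fun a => by simp)
  have h1 : ∑ a : Fin m, ∑ b : Fin m, (if a = b then (0:ℤ) else 1) = m * (m - 1 : ℕ) := by
    have h2 : ∀ a : Fin m, ∑ b : Fin m, (if a = b then (0:ℤ) else 1) = (m - 1 : ℕ) := by
      intro a
      have h3 : ∀ b : Fin m, (if a = b then (0:ℤ) else 1) = 1 - (if a = b then 1 else 0) := by
        intro b; split_ifs <;> simp
      rw [Finset.sum_congr rfl fun b _ => h3 b, Finset.sum_sub_distrib]
      simp only [Finset.sum_const, Finset.card_univ, Fintype.card_fin, Finset.sum_ite_eq,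
        Finset.mem_univ, if_true]
      have : 0 < m := a.pos
      rw [Nat.cast_sub this]
      simp
    rw [Finset.sum_congr rfl fun a _ => h2 a]
    simp
  have h2 : ∑ p : Pr m, ((if p.1.1 = p.1.2 then (0:ℤ) else 1) + (if p.1.1 = p.1.2 then (0:ℤ) else 1)) =
      2 * Fintype.card (Pr m) := by
    have h3 : ∀ p : Pr m, ((if p.1.1 = p.1.2 then (0:ℤ) else 1) +
        (if p.1.1 = p.1.2 then (0:ℤ) else 1)) = 2 := by
      intro p
      rw [if_neg (ne_of_lt p.2)]
      norm_num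
    rw [Finset.sum_congr rfl fun p _ => h3 p, Finset.sum_const, Finset.card_univ]
    simp
    ring
  rw [h1, h2] at h
  have h3 : m * (m - 1) = 2 * Fintype.card (Pr m) := by exact_mod_cast h
  rw [Nat.choose_two_right, h3]
  omega

/-- the coefficient of a pair of strands: `2` for the same direction, `-1` otherwise -/
def cc (U : Fin m → Bool) (a b : Fin m) : ℤ := if U a = U b then 2 else -1

/-- the element of the group ring of a pair of strands -/
noncomputable def gp (U : Fin m → Bool) (a b : Fin m) : MonoidAlgebra ℤ (Equiv.Perm (Fin m)) :=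
  cc U a b • 1 + MonoidAlgebra.single (Equiv.swap a b) 1

/-- the element of the group ring of a matrix -/
noncomputable def gel (U : Fin m → Bool) (l : Pr m → ℤ) : MonoidAlgebra ℤ (Equiv.Perm (Fin m)) :=
  ∑ p, l p • gp U p.1.1 p.1.2

theorem kappa_eq (O : Outer m) (w : List (Letter m)) :
    3 * costS (toN w) (pat O.up) + esum w = ∑ a, ∑ b, cc O.up a b * cr w a b := by
  have h1 := two_cost w (pat O.up)
  have h2 := two_esum w
  have h4 : 2 * (3 * costS (toN w) (pat O.up) + esum w) =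
      2 * ∑ a, ∑ b, cc O.up a b * cr w a b := by
    rw [mul_add, h2, show 2 * (3 * costS (toN w) (pat O.up)) =
      3 * (2 * costS (toN w) (pat O.up)) by ring, h1, Finset.mul_sum, Finset.mul_sum,
      ← Finset.sum_add_distrib]
    refine Finset.sum_congr rfl fun a _ => ?_
    rw [Finset.mul_sum, Finset.mul_sum, ← Finset.sum_add_distrib]
    refine Finset.sum_congr rfl fun b _ => ?_
    rw [pat_mul]
    unfold cc
    split_ifs <;> ring
  linarith

theorem elem_eq (O : Outer m) (w : List (Letter m)) (l : Pr m → ℤ)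
    (hl : ∀ p : Pr m, cr w p.1.1 p.1.2 = 2 * l p) :
    (3 * costS (toN w) (pat O.up) + esum w) • (1 : MonoidAlgebra ℤ (Equiv.Perm (Fin m))) + th w =
      (4 : ℤ) • gel O.up l := by
  rw [kappa_eq, th_eq, Finset.sum_smul, ← Finset.sum_add_distrib]
  have h1 : ∀ a : Fin m, (∑ b, cc O.up a b * cr w a b) • (1 : MonoidAlgebra ℤ (Equiv.Perm (Fin m))) +
      ∑ b, cr w a b • MonoidAlgebra.single (Equiv.swap a b) (1 : ℤ) =
      ∑ b, cr w a b • gp O.up a b := by
    intro a
    rw [Finset.sum_smul, ← Finset.sum_add_distrib]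
    refine Finset.sum_congr rfl fun b _ => ?_
    unfold gp
    rw [smul_add, smul_smul, mul_comm]
  rw [Finset.sum_congr rfl fun a _ => h1 a, sum_pairs]
  · unfold gel
    rw [Finset.smul_sum]
    refine Finset.sum_congr rfl fun p _ => ?_
    rw [hl p, smul_smul, ← add_smul]
    congr 1
    ring
  · intro a b
    rw [cr_symm]
    congr 1
    unfold gp cc
    rw [Equiv.swap_comm]
    simp only [eq_comm]
  · intro a
    rw [cr_self, zero_smul]

/-- the matrices of the left multiplications -/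
noncomputable def AA (U : Fin m → Bool) (p : Pr m) :
    Matrix (Equiv.Perm (Fin m)) (Equiv.Perm (Fin m)) ℤ :=
  Algebra.leftMulMatrix (MonoidAlgebra.basis (Equiv.Perm (Fin m)) ℤ) (gp U p.1.1 p.1.2)

theorem AA_sum (U : Fin m → Bool) (l : Pr m → ℤ) : ∑ p, l p • AA U p =
    Algebra.leftMulMatrix (MonoidAlgebra.basis (Equiv.Perm (Fin m)) ℤ) (gel U l) := by
  unfold gel AA
  rw [map_sum]
  refine Finset.sum_congr rfl fun p _ => ?_
  rw [map_zsmul]

theorem reg_of_det {G : Type} [Group G] [Fintype G] [DecidableEq G] (η : MonoidAlgebra ℤ G)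
    (h : (Algebra.leftMulMatrix (MonoidAlgebra.basis G ℤ) η).det ≠ 0) (ζ : MonoidAlgebra ℤ G)
    (hz : η * ζ = 0) : ζ = 0 := by
  have h2 := Algebra.leftMulMatrix_mulVec_repr (MonoidAlgebra.basis G ℤ) η ζ
  rw [hz, map_zero] at h2
  have h3 := Matrix.eq_zero_of_mulVec_eq_zero h (v := (MonoidAlgebra.basis G ℤ).repr ζ) (by
    rw [h2]; rfl)
  apply (MonoidAlgebra.basis G ℤ).repr.injective
  rw [map_zero]
  ext i
  exact congrFun h3 i

/-- one parallel pair gives a nonzero determinant -/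
theorem det_single (U : Fin m → Bool) (p : Pr m) (hp : U p.1.1 = U p.1.2) : (AA U p).det ≠ 0 := by
  intro h0
  set s : MonoidAlgebra ℤ (Equiv.Perm (Fin m)) := MonoidAlgebra.single (Equiv.swap p.1.1 p.1.2) 1
    with hs
  have hss : s * s = 1 := by
    rw [hs, MonoidAlgebra.single_mul_single, Equiv.swap_mul_self, one_mul]
    rfl
  have h1 : gp U p.1.1 p.1.2 * ((2:ℤ) • 1 - s) = (3:ℤ) • 1 := by
    unfold gp cc
    rw [if_pos hp, ← hs, add_mul, smul_mul_assoc, one_mul, mul_sub, hss, mul_smul_comm, mul_one,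
      smul_sub, smul_smul]
    norm_num
  have h2 := congrArg (fun z => (Algebra.leftMulMatrix
    (MonoidAlgebra.basis (Equiv.Perm (Fin m)) ℤ) z).det) h1
  simp only [map_mul, Matrix.det_mul, map_zsmul, map_one] at h2
  have h3 : (AA U p).det * (Algebra.leftMulMatrix
      (MonoidAlgebra.basis (Equiv.Perm (Fin m)) ℤ) ((2:ℤ) • 1 - s)).det =
      ((3:ℤ) • (1 : Matrix (Equiv.Perm (Fin m)) (Equiv.Perm (Fin m)) ℤ)).det := h2
  rw [h0, zero_mul, Matrix.det_smul, Matrix.det_one, mul_one] at h3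
  exact pow_ne_zero _ (by norm_num) h3.symm

/-- the exceptional matrices for the directions `U` -/
def BadU (U : Fin m → Bool) : Set (Pr m → ℤ) := {l | (∑ p, l p • AA U p).det = 0}

/-- the exceptional matrices -/
def Bad (m : ℕ) : Set (Pr m → ℤ) :=
  {l | ∃ U : Fin m → Bool, (∃ p : Pr m, U p.1.1 = U p.1.2) ∧ l ∈ BadU U}

theorem parallel (hm : 3 ≤ m) (U : Fin m → Bool) : ∃ p : Pr m, U p.1.1 = U p.1.2 := by
  by_cases h1 : U ⟨0, by omega⟩ = U ⟨1, by omega⟩
  · exact ⟨⟨(⟨0, by omega⟩, ⟨1, by omega⟩), by simp [Fin.lt_def]⟩, h1⟩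
  · by_cases h2 : U ⟨1, by omega⟩ = U ⟨2, by omega⟩
    · exact ⟨⟨(⟨1, by omega⟩, ⟨2, by omega⟩), by simp [Fin.lt_def]⟩, h2⟩
    · refine ⟨⟨(⟨0, by omega⟩, ⟨2, by omega⟩), by simp [Fin.lt_def]⟩, ?_⟩
      show U ⟨0, by omega⟩ = U ⟨2, by omega⟩
      revert h1 h2
      cases U ⟨0, by omega⟩ <;> cases U ⟨1, by omega⟩ <;> cases U ⟨2, by omega⟩ <;> simp

theorem badU_count (U : Fin m → Bool) (hU : ∃ p : Pr m, U p.1.1 = U p.1.2) (N : ℕ) :
    {l : Pr m → ℤ | l ∈ BadU U ∧ ∀ p, |l p| ≤ N}.Finite ∧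
    {l : Pr m → ℤ | l ∈ BadU U ∧ ∀ p, |l p| ≤ N}.ncard ≤
      m.factorial * (2 * N + 1) ^ (m.choose 2 - 1) := by
  obtain ⟨p, hp⟩ := hU
  have : Nonempty (Pr m) := ⟨p⟩
  have h := bad_count (AA U) (Pi.single p 1) (by
    rw [Finset.sum_eq_single p]
    · rw [Pi.single_eq_same, one_smul]
      exact det_single U p hp
    · intro q _ hq
      rw [Pi.single_eq_of_ne hq, zero_smul]
    · intro h
      exact absurd (mem_univ p) h) N
  rw [card_pr, Fintype.card_perm, Fintype.card_fin] at h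
  have e : {l : Pr m → ℤ | l ∈ BadU U ∧ ∀ p, |l p| ≤ N} =
      {y : Pr m → ℤ | (∀ p, |y p| ≤ N) ∧ (∑ p, y p • AA U p).det = 0} := by
    ext l
    exact and_comm
  rw [e]
  exact h

/-- **There are few exceptional matrices.** -/
theorem bad_count_all (m N : ℕ) : {l : Pr m → ℤ | l ∈ Bad m ∧ ∀ p, |l p| ≤ N}.Finite ∧
    {l : Pr m → ℤ | l ∈ Bad m ∧ ∀ p, |l p| ≤ N}.ncard ≤
      2 ^ m * m.factorial * (2 * N + 1) ^ (m.choose 2 - 1) := by
  classical
  have h1 : {l : Pr m → ℤ | l ∈ Bad m ∧ ∀ p, |l p| ≤ N} ⊆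
      ⋃ U : Fin m → Bool, {l : Pr m → ℤ | (∃ p : Pr m, U p.1.1 = U p.1.2) ∧ l ∈ BadU U ∧
        ∀ p, |l p| ≤ N} := by
    rintro l ⟨⟨U, hU, hl⟩, hN⟩
    exact Set.mem_iUnion.2 ⟨U, hU, hl, hN⟩
  have h2 : ∀ U : Fin m → Bool, {l : Pr m → ℤ | (∃ p : Pr m, U p.1.1 = U p.1.2) ∧ l ∈ BadU U ∧
      ∀ p, |l p| ≤ N}.Finite ∧ {l : Pr m → ℤ | (∃ p : Pr m, U p.1.1 = U p.1.2) ∧ l ∈ BadU U ∧
      ∀ p, |l p| ≤ N}.ncard ≤ m.factorial * (2 * N + 1) ^ (m.choose 2 - 1) := by
    intro U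
    by_cases hU : ∃ p : Pr m, U p.1.1 = U p.1.2
    · have := badU_count U hU N
      simpa only [hU, true_and] using this
    · simp only [hU, false_and]
      simp
  have h3 : (⋃ U : Fin m → Bool, {l : Pr m → ℤ | (∃ p : Pr m, U p.1.1 = U p.1.2) ∧ l ∈ BadU U ∧
        ∀ p, |l p| ≤ N}).Finite := Set.finite_iUnion fun U => (h2 U).1
  refine ⟨h3.subset h1, (Set.ncard_le_ncard h1 h3).trans
    ((Set.ncard_iUnion_le_of_fintype _).trans ?_)⟩
  calc ∑ U : Fin m → Bool, {l : Pr m → ℤ | (∃ p : Pr m, U p.1.1 = U p.1.2) ∧ l ∈ BadU U ∧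
        ∀ p, |l p| ≤ N}.ncard ≤ ∑ _U : Fin m → Bool, m.factorial * (2 * N + 1) ^ (m.choose 2 - 1) :=
        Finset.sum_le_sum fun U _ => (h2 U).2
    _ = 2 ^ m * m.factorial * (2 * N + 1) ^ (m.choose 2 - 1) := by
        rw [Finset.sum_const, Finset.card_univ, Fintype.card_fun, Fintype.card_bool,
          Fintype.card_fin, smul_eq_mul, mul_assoc]

/-- pure words with a linking matrix which is not exceptional -/
theorem noAll_of_good (hm : 0 < m) (O : Outer m) (w : List (Letter m)) (hp : IsPure w)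
    (l : Pr m → ℤ) (hl : ∀ p : Pr m, cr w p.1.1 p.1.2 = 2 * l p) (hb : l ∉ BadU O.up) :
    NoAll O (toN w) := by
  intro v hv F hF
  refine no_all_gn hm O w hp v hv (fun ζ hζ => ?_) F hF
  rw [elem_eq O w l hl, smul_mul_assoc] at hζ
  have h1 : gel O.up l * ζ = 0 := by
    have := smul_eq_zero.1 hζ
    exact this.resolve_left (by norm_num)
  apply reg_of_det (gel O.up l) ?_ ζ h1
  rw [← AA_sum]
  exact hb

end Pool.Agent.V11227.GN
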