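import Pool.Agent.V11227.JonesGn3

/-!
# Every symmetric matrix is the linking matrix of a pure braid
-/

set_option autoImplicit false

namespace Pool.Agent.V11227.GN

open Finset Pool.Agent.H891R2.Jones Pool.Agent.W639.RB Pool.Agent.Y463.SK
  Pool.Agent.V11227.JL Pool.Agent.V11227.JP

variable {m : ℕ}

theorem swp_swp (x : Letter m) (a : Fin m) : swp x (swp x a) = a := Equiv.swap_apply_self _ _ a

theorem permW_cons_inv (x : Letter m) (u : List (Letter m)) (a : Fin m) :
    (permW (x :: u))⁻¹ a = (permW u)⁻¹ (swp x a) := by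
  rw [permW_cons, mul_inv_rev, Equiv.Perm.mul_apply]
  rfl

theorem cr_append (u w : List (Letter m)) : ∀ a b, cr (u ++ w) a b =
    cr u a b + cr w ((permW u)⁻¹ a) ((permW u)⁻¹ b) := by
  induction u with
  | nil => intro a b; simp [cr, permW]
  | cons x u ih =>
    intro a b
    rw [List.cons_append, cr, cr, ih, permW_cons_inv, permW_cons_inv]
    ring

theorem cr_inv (u : List (Letter m)) : ∀ a b,
    cr (invW u) ((permW u)⁻¹ a) ((permW u)⁻¹ b) = - cr u a b := by
  induction u with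
  | nil => intro a b; simp [cr, invW]
  | cons x u ih =>
    intro a b
    have h1 : invW (x :: u) = invW u ++ [(!x.1, x.2)] := by simp [invW]
    have h0 : ∀ c : Fin m, permW u ((permW u)⁻¹ c) = c := fun c => by
      rw [← Equiv.Perm.mul_apply, mul_inv_cancel]; rfl
    rw [h1, cr_append, permW_cons_inv, permW_cons_inv, ih, permW_inv, inv_inv, h0, h0, cr, cr, cr]
    have h2 : ((swp x a = ⟨x.2, by omega⟩ ∧ swp x b = ⟨x.2 + 1, by omega⟩) ∨
        (swp x a = ⟨x.2 + 1, by omega⟩ ∧ swp x b = ⟨x.2, by omega⟩)) ↔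
        ((a = ⟨x.2, by omega⟩ ∧ b = ⟨x.2 + 1, by omega⟩) ∨
        (a = ⟨x.2 + 1, by omega⟩ ∧ b = ⟨x.2, by omega⟩)) := by
      have h3 : ∀ c d : Fin m, swp x c = d ↔ c = swp x d := by
        intro c d
        constructor
        · intro h; rw [← h, swp_swp]
        · intro h; rw [h, swp_swp]
      rw [h3, h3, h3, h3]
      have h4 : swp x ⟨x.2, by omega⟩ = ⟨x.2 + 1, by omega⟩ := Equiv.swap_apply_left _ _
      have h5 : swp x ⟨x.2 + 1, by omega⟩ = ⟨x.2, by omega⟩ := Equiv.swap_apply_right _ _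
      rw [h4, h5]
      tauto
    have h6 : (if (swp x a = ⟨x.2, by omega⟩ ∧ swp x b = ⟨x.2 + 1, by omega⟩) ∨
        (swp x a = ⟨x.2 + 1, by omega⟩ ∧ swp x b = ⟨x.2, by omega⟩) then
          (if (!x.1) = true then (1:ℤ) else -1) else 0) =
        - (if (a = ⟨x.2, by omega⟩ ∧ b = ⟨x.2 + 1, by omega⟩) ∨
        (a = ⟨x.2 + 1, by omega⟩ ∧ b = ⟨x.2, by omega⟩) then (if x.1 then (1:ℤ) else -1) else 0) := by
      rw [if_congr h2 rfl rfl]
      split_ifs <;> simp_all
    show -cr u (swp x a) (swp x b) + ((if (swp x a = ⟨x.2, _⟩ ∧ swp x b = ⟨x.2 + 1, _⟩) ∨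
        (swp x a = ⟨x.2 + 1, _⟩ ∧ swp x b = ⟨x.2, _⟩) then
          (if (!x.1) = true then (1:ℤ) else -1) else 0) + 0) = _
    rw [h6]
    ring

theorem cr_pure_append (u w : List (Letter m)) (hu : IsPure u) (a b : Fin m) :
    cr (u ++ w) a b = cr u a b + cr w a b := by
  have h : permW u = 1 := hu
  rw [cr_append, h]
  rfl

theorem pure_append {u w : List (Letter m)} (hu : IsPure u) (hw : IsPure w) : IsPure (u ++ w) := by
  have h1 : permW u = 1 := hu
  have h2 : permW w = 1 := hw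
  show permW (u ++ w) = 1
  rw [permW_append, h1, h2, one_mul]

theorem pure_inv {u : List (Letter m)} (hu : IsPure u) : IsPure (invW u) := by
  have h1 : permW u = 1 := hu
  show permW (invW u) = 1
  rw [permW_inv, h1, inv_one]

theorem cr_pure_inv (u : List (Letter m)) (hu : IsPure u) (a b : Fin m) :
    cr (invW u) a b = - cr u a b := by
  have h : permW u = 1 := hu
  have h1 := cr_inv u a b
  rw [h] at h1
  exact h1

theorem pure_flat {w : List (Letter m)} (hw : IsPure w) (k : ℕ) :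
    IsPure (List.replicate k w).flatten ∧
      ∀ a b, cr (List.replicate k w).flatten a b = k * cr w a b := by
  induction k with
  | zero =>
    refine ⟨by simp [IsPure, permW], fun a b => ?_⟩
    simp [cr]
  | succ k ih =>
    rw [List.replicate_succ, List.flatten_cons]
    refine ⟨pure_append hw ih.1, fun a b => ?_⟩
    rw [cr_pure_append _ _ hw, ih.2]
    push_cast
    ring

theorem pure_powW {w : List (Letter m)} (hw : IsPure w) (n : ℤ) :
    IsPure (powW w n) ∧ ∀ a b, cr (powW w n) a b = n * cr w a b := by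
  rcases n with n | n
  · exact pure_flat hw n
  · obtain ⟨h1, h2⟩ := pure_flat (pure_inv hw) (n + 1)
    refine ⟨h1, fun a b => ?_⟩
    show cr (List.replicate (n + 1) (invW w)).flatten a b = _
    rw [h2, cr_pure_inv _ hw, Int.negSucc_eq]
    push_cast
    ring

/-- the full twist of two strands -/
theorem exists_gen (p : Pr m) : ∃ w : List (Letter m), IsPure w ∧
    ∀ q : Pr m, cr w q.1.1 q.1.2 = if q = p then 2 else 0 := by
  obtain ⟨⟨a, b⟩, hab⟩ := p
  have hab' : a < b := hab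
  have hm : 2 ≤ m := by
    have h1 := a.2
    have h2 := b.2
    have h3 : (a : ℕ) < b := hab'
    omega
  have h01 : (⟨0, by omega⟩ : Fin m) ≠ ⟨1, by omega⟩ := by simp
  -- a permutation which sends `0, 1` to `a, b`
  obtain ⟨σ, hσ0, hσ1⟩ : ∃ σ : Equiv.Perm (Fin m), σ ⟨0, by omega⟩ = a ∧ σ ⟨1, by omega⟩ = b := by
    set τ : Equiv.Perm (Fin m) := Equiv.swap ⟨0, by omega⟩ a with hτ
    set b' := τ b with hb'
    have hb0 : b' ≠ ⟨0, by omega⟩ := by
      intro h
      have : b = a := by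
        have h1 := congrArg τ h
        rw [hb', hτ, Equiv.swap_apply_self, Equiv.swap_apply_left] at h1
        exact h1
      exact (ne_of_gt hab') this
    refine ⟨τ * Equiv.swap ⟨1, by omega⟩ b', ?_, ?_⟩
    · rw [Equiv.Perm.mul_apply, Equiv.swap_apply_of_ne_of_ne h01 hb0.symm, hτ,
        Equiv.swap_apply_left]
    · rw [Equiv.Perm.mul_apply, Equiv.swap_apply_left, hb', hτ, Equiv.swap_apply_self]
  obtain ⟨u, hu⟩ := exists_word σ
  set x : Letter m := (true, ⟨0, by omega⟩) with hx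
  have hxx : IsPure [x, x] := by
    show permW [x, x] = 1
    rw [permW_cons, permW_cons]
    have : permW ([] : List (Letter m)) = 1 := rfl
    rw [this, mul_one]
    exact Equiv.swap_mul_self _ _
  have hxx' : permW [x, x] = 1 := hxx
  have hcr : ∀ c d : Fin m, cr [x, x] c d = if (c = ⟨0, by omega⟩ ∧ d = ⟨1, by omega⟩) ∨
      (c = ⟨1, by omega⟩ ∧ d = ⟨0, by omega⟩) then 2 else 0 := by
    intro c d
    have e0 : swp x ⟨0, by omega⟩ = ⟨1, by omega⟩ := Equiv.swap_apply_left _ _
    have e1 : swp x ⟨1, by omega⟩ = ⟨0, by omega⟩ := Equiv.swap_apply_right _ _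
    have h3 : ∀ c d : Fin m, swp x c = d ↔ c = swp x d := by
      intro c d
      constructor
      · intro h; rw [← h, swp_swp]
      · intro h; rw [h, swp_swp]
    have h4 : cr [x, x] c d = (if (c = ⟨0, by omega⟩ ∧ d = ⟨1, by omega⟩) ∨
        (c = ⟨1, by omega⟩ ∧ d = ⟨0, by omega⟩) then (1:ℤ) else 0) +
        ((if (swp x c = ⟨0, by omega⟩ ∧ swp x d = ⟨1, by omega⟩) ∨
        (swp x c = ⟨1, by omega⟩ ∧ swp x d = ⟨0, by omega⟩) then (1:ℤ) else 0) + 0) := rfl
    have h5 : ((swp x c = ⟨0, by omega⟩ ∧ swp x d = ⟨1, by omega⟩) ∨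
        (swp x c = ⟨1, by omega⟩ ∧ swp x d = ⟨0, by omega⟩)) ↔
        ((c = ⟨0, by omega⟩ ∧ d = ⟨1, by omega⟩) ∨ (c = ⟨1, by omega⟩ ∧ d = ⟨0, by omega⟩)) := by
      rw [h3, h3, h3, h3, e0, e1]
      tauto
    rw [h4, if_congr h5 rfl rfl]
    split_ifs <;> norm_num
  refine ⟨u ++ ([x, x] ++ invW u), ?_, ?_⟩
  · show permW (u ++ ([x, x] ++ invW u)) = 1
    rw [permW_append, permW_append, hxx', one_mul, permW_inv, mul_inv_cancel]
  · rintro ⟨⟨c, d⟩, hcd⟩
    have hcd' : c < d := hcd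
    show cr (u ++ ([x, x] ++ invW u)) c d = _
    rw [cr_append, cr_pure_append _ _ hxx, cr_inv, hcr, hu]
    have e2 : ∀ e : Fin m, σ⁻¹ e = ⟨0, by omega⟩ ↔ e = a := by
      intro e
      rw [Equiv.Perm.inv_eq_iff_eq, hσ0]
    have e3 : ∀ e : Fin m, σ⁻¹ e = ⟨1, by omega⟩ ↔ e = b := by
      intro e
      rw [Equiv.Perm.inv_eq_iff_eq, hσ1]
    have e4 : ((σ⁻¹ c = ⟨0, by omega⟩ ∧ σ⁻¹ d = ⟨1, by omega⟩) ∨
        (σ⁻¹ c = ⟨1, by omega⟩ ∧ σ⁻¹ d = ⟨0, by omega⟩)) ↔
        ((⟨(c, d), hcd⟩ : Pr m) = ⟨(a, b), hab⟩) := by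
      rw [e2, e2, e3, e3]
      constructor
      · rintro (⟨h1, h2⟩ | ⟨h1, h2⟩)
        · subst h1; subst h2; rfl
        · rw [h1, h2] at hcd'
          exact absurd hab' (not_lt_of_gt hcd')
      · intro h'
        have := congrArg Subtype.val h'
        exact Or.inl (Prod.mk.inj this)
    rw [if_congr e4 rfl rfl]
    ring

/-- **Every matrix is the linking matrix of a pure braid.** -/
theorem exists_matrix (l : Pr m → ℤ) : ∃ w : List (Letter m), IsPure w ∧
    ∀ q : Pr m, cr w q.1.1 q.1.2 = 2 * l q := by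
  classical
  have key : ∀ S : Finset (Pr m), ∃ w : List (Letter m), IsPure w ∧
      ∀ q : Pr m, cr w q.1.1 q.1.2 = if q ∈ S then 2 * l q else 0 := by
    intro S
    induction S using Finset.induction_on with
    | empty => exact ⟨[], rfl, fun q => by simp [cr]⟩
    | insert p S hp ih =>
      obtain ⟨w, h1, h2⟩ := ih
      obtain ⟨g, h3, h4⟩ := exists_gen p
      obtain ⟨h5, h6⟩ := pure_powW h3 (l p)
      refine ⟨powW g (l p) ++ w, pure_append h5 h1, fun q => ?_⟩
      rw [cr_pure_append _ _ h5, h6, h4, h2]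
      by_cases hq : q = p
      · subst hq
        rw [if_pos rfl, if_neg hp, if_pos (Finset.mem_insert_self _ _)]
        ring
      · rw [if_neg hq]
        simp only [Finset.mem_insert, hq, false_or, mul_zero, zero_add]
  obtain ⟨w, h1, h2⟩ := key univ
  exact ⟨w, h1, fun q => by rw [h2, if_pos (mem_univ _)]⟩

/-- the crossing numbers of a pure word are even -/
theorem cr_even_aux (w : List (Letter m)) : ∀ a b : Fin m, a ≠ b →
    (Even (cr w a b) ↔ ((a < b) ↔ ((permW w)⁻¹ a < (permW w)⁻¹ b))) := by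
  induction w with
  | nil => intro a b _; simp [cr, permW]
  | cons x w ih =>
    intro a b hab
    have hne : swp x a ≠ swp x b := fun h => hab ((swp x).injective h)
    rw [cr, permW_cons_inv, permW_cons_inv]
    have h1 := ih (swp x a) (swp x b) hne
    have hx1 : (x.2 : ℕ) + 1 < m := by omega
    by_cases hc : (a = ⟨x.2, by omega⟩ ∧ b = ⟨x.2 + 1, by omega⟩) ∨
        (a = ⟨x.2 + 1, by omega⟩ ∧ b = ⟨x.2, by omega⟩)
    · rw [if_pos hc]
      have h2 : (a < b) ↔ ¬ (swp x a < swp x b) := by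
        have e0 : swp x ⟨x.2, by omega⟩ = ⟨x.2 + 1, by omega⟩ := Equiv.swap_apply_left _ _
        have e1 : swp x ⟨x.2 + 1, by omega⟩ = ⟨x.2, by omega⟩ := Equiv.swap_apply_right _ _
        rcases hc with ⟨rfl, rfl⟩ | ⟨rfl, rfl⟩
        · rw [e0, e1]
          simp [Fin.lt_def]
        · rw [e0, e1]
          simp [Fin.lt_def]
      have h3 : Even ((if x.1 then (1:ℤ) else -1) + cr w (swp x a) (swp x b)) ↔
          ¬ Even (cr w (swp x a) (swp x b)) := by
        rw [Int.even_add]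
        have : ¬ Even (if x.1 then (1:ℤ) else -1) := by
          split_ifs <;> decide
        tauto
      rw [h3, h1, h2]
      tauto
    · rw [if_neg hc, zero_add, h1]
      have h2 : (a < b) ↔ (swp x a < swp x b) := by
        unfold swp
        have hva : ∀ c : Fin m, ((Equiv.swap (⟨x.2, by omega⟩ : Fin m) ⟨x.2 + 1, by omega⟩ c : Fin m) : ℕ) =
            if (c : ℕ) = x.2 then (x.2 : ℕ) + 1 else if (c : ℕ) = x.2 + 1 then (x.2 : ℕ) else c := by
          intro c
          rw [Equiv.swap_apply_def]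
          simp only [Fin.ext_iff]
          split_ifs <;> rfl
        rw [Fin.lt_def, Fin.lt_def, hva, hva]
        have hc' : ¬ (((a : ℕ) = x.2 ∧ (b : ℕ) = x.2 + 1) ∨ ((a : ℕ) = x.2 + 1 ∧ (b : ℕ) = x.2)) := by
          simpa only [Fin.ext_iff] using hc
        have hab' : (a : ℕ) ≠ b := fun h => hab (Fin.ext h)
        split_ifs <;> omega
      rw [h2]

theorem cr_even (w : List (Letter m)) (hw : IsPure w) (a b : Fin m) : Even (cr w a b) := by
  by_cases hab : a = b
  · rw [hab, cr_self]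
    exact Even.zero
  · rw [cr_even_aux w a b hab]
    have h : permW w = 1 := hw
    rw [h]
    simp

/-- the matrix of the linking numbers (up to sign) of a pure word -/
theorem exists_lk (w : List (Letter m)) (hw : IsPure w) :
    ∃ l : Pr m → ℤ, ∀ q : Pr m, cr w q.1.1 q.1.2 = 2 * l q := by
  refine ⟨fun q => cr w q.1.1 q.1.2 / 2, fun q => ?_⟩
  rw [Int.mul_ediv_cancel' (even_iff_two_dvd.1 (cr_even w hw _ _))]

end Pool.Agent.V11227.GN
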