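import Pool.Agent.V11227.JonesLk8

/-!
# Directions of the strands of products of words
-/

set_option autoImplicit false

namespace Pool.Agent.V11227.JL

open Finset LaurentPolynomial Pool.Agent.H891R2.Jones Pool.Agent.W639.RB Pool.Agent.Y463.SK
  Pool.Agent.V11227.JP Pool.Agent.Y463.RW

variable {m s : ℕ}

/-! ### directions -/

theorem permW_inv (w : List (Letter m)) : permW (invW w) = (permW w)⁻¹ := by
  induction w with
  | nil => simp [invW, permW]
  | cons x w ih =>
    have h1 : invW (x :: w) = invW w ++ [(!x.1, x.2)] := by simp [invW]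
    rw [h1, permW_append, ih]
    simp [permW, Equiv.swap_inv]

/-- the words which preserve the directions of the strands -/
theorem dir_mul {U : Fin m → Bool} {σ τ : Equiv.Perm (Fin m)} (hσ : ∀ j, U (σ j) = U j)
    (hτ : ∀ j, U (τ j) = U j) (j : Fin m) : U ((σ * τ) j) = U j := by
  rw [Equiv.Perm.mul_apply, hσ, hτ]

theorem dir_inv {U : Fin m → Bool} {σ : Equiv.Perm (Fin m)} (hσ : ∀ j, U (σ j) = U j) (j : Fin m) :
    U (σ⁻¹ j) = U j := by
  rw [← hσ (σ⁻¹ j)]
  simp

theorem dir_prodL (O : Outer m) (w : Fin s → List (Letter m))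
    (hw : ∀ i j, O.up (permW (w i) j) = O.up j) (l : List (Fin s × Bool)) :
    ∀ j, O.up (permW (prodL w l) j) = O.up j := by
  induction l with
  | nil => intro j; simp [prodL, permW]
  | cons x l ih =>
    intro j
    have h1 : prodL w (x :: l) = (if x.2 then w x.1 else invW (w x.1)) ++ prodL w l := by
      simp [prodL]
    rw [h1, permW_append]
    refine dir_mul ?_ ih j
    intro j
    split_ifs
    · exact hw _ j
    · rw [permW_inv]
      exact dir_inv (hw _) j

theorem dir_prod (O : Outer m) (w : Fin s → List (Letter m))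
    (hw : ∀ i j, O.up (permW (w i) j) = O.up j) (v : List (Letter m))
    (hv : ∀ j, O.up (permW v j) = O.up j) {n : ℕ} (u : Fin n → Fin s × Bool) (j : Fin m) :
    O.up (permW (prodW w u ++ v) j) = O.up j := by
  rw [permW_append, prodW_ofFn]
  exact dir_mul (dir_prodL O w hw _) hv j

end Pool.Agent.V11227.JL
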