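import Pool.Agent.V11227.JonesGn4
import Pool.Agent.V11227.JonesLk9

/-!
# Powers and random products of braids whose linking matrix is not exceptional
-/

set_option autoImplicit false

namespace Pool.Agent.V11227.GN

open Finset LaurentPolynomial Pool.Agent.H891R2.Jones Pool.Agent.W639.RB Pool.Agent.Y463.SK
  Pool.Agent.V11227.JP Pool.Agent.V11227.JL Pool.Agent.Y463.RW

variable {m s : ℕ}

/-- `2 l` is the matrix of the crossing numbers of the pairs of strands of the word `w` -/
def IsLk (w : List (Letter m)) (l : Pr m → ℤ) : Prop := ∀ p : Pr m, cr w p.1.1 p.1.2 = 2 * l p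

theorem noAll_good (hm : 3 ≤ m) (O : Outer m) (w : List (Letter m)) (hp : IsPure w)
    (l : Pr m → ℤ) (hl : ∀ p : Pr m, cr w p.1.1 p.1.2 = 2 * l p) (hb : l ∉ Bad m) :
    NoAll O (toN w) :=
  noAll_of_good (by omega) O w hp l hl (fun h => hb ⟨O.up, parallel hm O.up, h⟩)

theorem na_class (hm : 0 < m) (O : Outer m) (u w v : List (Letter m)) (r : ℕ)
    (hp : IsPure (powW w r)) (hN : NoAll (draw O (toN u)) (toN (powW w r))) (s : ℤ) (F : ℤ[T;T⁻¹])
    (Z : Finset ℤ) (hZ : ∀ z ∈ Z, (dia O (u ++ (powW w (r * z + s) ++ v))).fPoly = F) :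
    Z.card ≤ m.factorial := by
  rcases Z.eq_empty_or_nonempty with h0 | ⟨z0, hz0⟩
  · rw [h0]; simp
  have hF : F ≠ 0 := by rw [← hZ z0 hz0]; exact fPoly_ne _
  have hp' : permL (powL (toN w) r) = 1 := by rw [← toN_pow]; exact permL_of_pure hp
  rw [toN_pow] at hN
  refine class_bound_of hm (draw O (toN u)) (toN w) (toN_lt _) r hp' hN s (toN v)
    (toN_lt _) F hF Z (fun z hz => ?_)
  have := hZ z hz
  rw [dia_eq, toN_append, toN_pow] at this
  exact this

/-- one power -/
theorem na_one (hm : 0 < m) (O : Outer m) (u w v : List (Letter m)) (r : ℕ) (hr : 0 < r)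
    (hp : IsPure (powW w r)) (hN : NoAll (draw O (toN u)) (toN (powW w r))) (F : ℤ[T;T⁻¹]) :
    {n : ℤ | (dia O (u ++ (powW w n ++ v))).fPoly = F}.Finite ∧
      {n : ℤ | (dia O (u ++ (powW w n ++ v))).fPoly = F}.ncard ≤ r * m.factorial := by
  by_cases hF : F = 0
  · have : {n : ℤ | (dia O (u ++ (powW w n ++ v))).fPoly = F} = ∅ := by
      ext n
      simp only [Set.mem_ofPred_eq, Set.mem_empty_iff_false, iff_false, hF]
      exact fPoly_ne _
    rw [this]
    exact ⟨Set.finite_empty, by simp⟩
  · apply fin_of_bound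
    intro Z hZ
    have hp' : permL (powL (toN w) r) = 1 := by rw [← toN_pow]; exact permL_of_pure hp
    rw [toN_pow] at hN
    refine one_word_of hm (draw O (toN u)) (toN w) (toN_lt _) r hr hp' hN (toN v)
      (toN_lt _) F hF Z (fun z hz => ?_)
    have := hZ z hz
    rw [Set.mem_ofPred_eq, dia_eq, toN_append, toN_pow] at this
    exact this

/-- many different polynomials -/
theorem na_image (hm : 0 < m) (O : Outer m) (u w v : List (Letter m)) (r : ℕ) (hr : 0 < r)
    (hp : IsPure (powW w r)) (hN : NoAll (draw O (toN u)) (toN (powW w r)))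
    [DecidableEq ℤ[T;T⁻¹]] (Z : Finset ℤ) :
    Z.card ≤ r * m.factorial * (Z.image fun n => (dia O (u ++ (powW w n ++ v))).fPoly).card := by
  apply Finset.card_le_mul_card_image
  intro F _
  obtain ⟨h1, h2⟩ := na_one hm O u w v r hr hp hN F
  refine le_trans ?_ h2
  rw [← Set.ncard_coe_finset]
  apply Set.ncard_le_ncard _ h1
  intro n hn
  have := (Finset.mem_filter.1 (Finset.mem_coe.1 hn)).2
  exact this

/-- **Several powers: codimension one in every good direction.** -/
theorem na_multi {k : ℕ} (hm : 0 < m) (O : Outer m)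
    (w v : Fin k → List (Letter m)) (r : Fin k → ℕ) (i : Fin k)
    (hp : IsPure (powW (w i) (r i)))
    (hN : ∀ pre : List (Letter m), NoAll (draw O (toN pre)) (toN (powW (w i) (r i))))
    (s : Fin k → ℤ) (F : ℤ[T;T⁻¹]) [DecidableEq ℤ[T;T⁻¹]] (A : Fin k → Finset ℤ) :
    ((Fintype.piFinset A).filter
      (fun q => (dia O (multiW w v (fun i => r i * q i + s i))).fPoly = F)).card ≤
        m.factorial * ∏ j ∈ univ.erase i, (A j).card := by
  classical
  set S := (Fintype.piFinset A).filter
      (fun q => (dia O (multiW w v (fun i => r i * q i + s i))).fPoly = F) with hS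
  have h1 : S.card ≤ m.factorial * (S.image (fun q => Function.update q i 0)).card := by
    apply Finset.card_le_mul_card_image
    intro q0 hq0
    obtain ⟨q1, hq1, hq1'⟩ := Finset.mem_image.1 hq0
    -- the fibre
    set Fi := S.filter (fun q => Function.update q i 0 = q0) with hFi
    have hinj : Set.InjOn (fun q : Fin k → ℤ => q i) Fi := by
      intro q hq q' hq' h
      have h2 := (Finset.mem_filter.1 hq).2
      have h3 := (Finset.mem_filter.1 hq').2
      funext j
      by_cases hj : j = i
      · rw [hj]; exact h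
      · have h4 := congrFun (h2.trans h3.symm) j
        rwa [Function.update_of_ne hj, Function.update_of_ne hj] at h4
    rw [← Finset.card_image_of_injOn hinj]
    obtain ⟨pre, post, hpp⟩ := flatten_update k (fun j => powW (w j) (r j * q0 j + s j) ++ v j) i
    refine na_class hm O pre (w i) (v i ++ post) (r i) hp (hN pre) (s i) F _ (fun z hz => ?_)
    obtain ⟨q, hq, hqz⟩ := Finset.mem_image.1 hz
    have h2 := (Finset.mem_filter.1 hq).2
    have h3 := (Finset.mem_filter.1 (Finset.mem_filter.1 hq).1).2
    have key : multiW w v (fun j => r j * q j + s j) =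
        pre ++ (powW (w i) (r i * z + s i) ++ (v i ++ post)) := by
      have h4 := hpp (powW (w i) (r i * z + s i) ++ v i)
      rw [List.append_assoc, List.append_assoc] at h4
      rw [← h4]
      unfold multiW
      congr 2
      funext j
      by_cases hj : j = i
      · subst hj
        rw [Function.update_self, ← hqz]
      · rw [Function.update_of_ne hj]
        have h5 := congrFun h2 j
        rw [Function.update_of_ne hj] at h5
        show powW (w j) (r j * q j + s j) ++ v j = powW (w j) (r j * q0 j + s j) ++ v j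
        rw [h5]
    rw [← key]
    exact h3
  refine h1.trans (Nat.mul_le_mul_left _ ?_)
  have h2 : S.image (fun q => Function.update q i 0) ⊆ Fintype.piFinset (Function.update A i {0}) := by
    intro q hq
    obtain ⟨q1, hq1, rfl⟩ := Finset.mem_image.1 hq
    have h3 := Fintype.mem_piFinset.1 (Finset.mem_filter.1 hq1).1
    rw [Fintype.mem_piFinset]
    intro j
    by_cases hj : j = i
    · subst hj
      rw [Function.update_self, Function.update_self]
      exact Finset.mem_singleton_self _
    · rw [Function.update_of_ne hj, Function.update_of_ne hj]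
      exact h3 j
  refine (Finset.card_le_card h2).trans ?_
  rw [Fintype.card_piFinset, ← Finset.mul_prod_erase univ _ (Finset.mem_univ i), Function.update_self,
    Finset.card_singleton, one_mul]
  refine (Finset.prod_congr rfl fun j hj => ?_).le
  rw [Function.update_of_ne (Finset.ne_of_mem_erase hj)]

open Classical in
/-- **One permutation.** -/
theorem na_random_tau (hm : 0 < m) (hs : 0 < s) (O : Outer m) (w : Fin s → List (Letter m)) (n1 : ℕ)
    (u1 : Fin n1 → Fin s × Bool) (r : ℕ) (hr : IsPure (powW (prodW w u1) r))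
    (hN : NoAll O (toN (powW (prodW w u1) r))) (v : List (Letter m)) (τ : Equiv.Perm (Fin m))
    (F : ℤ[T;T⁻¹]) (n : ℕ) (hn : 0 < n) :
    ((univ.filter (fun u : Fin n → Fin s × Bool => permW (prodW w u) = τ ∧
      (dia O (prodW w u ++ v)).fPoly = F)).card : ℝ) ≤
        Cst (2 * s : ℝ) (dimB m + 1) * (n : ℝ) ^ (- ex (dimB m + 1)) * (2 * s : ℝ) ^ n := by
  have hpos : (0:ℝ) ≤ Cst (2 * s : ℝ) (dimB m + 1) * (n : ℝ) ^ (- ex (dimB m + 1)) *
      (2 * s : ℝ) ^ n := by
    have := Cst_ge (2 * s : ℝ) (dimB m + 1)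
    positivity
  by_cases hF : F = 0
  · rw [Finset.filter_false_of_mem]
    · simpa using hpos
    · intro u _ hu
      exact fPoly_ne _ (hu.2.trans hF)
  rcases zero_one hm hs O w v F τ with hall | h
  swap
  · exact h n hn
  by_cases hτ : ∃ (n0 : ℕ) (u0 : Fin n0 → Fin s × Bool), permW (prodW w u0) = τ
  swap
  · rw [Finset.filter_false_of_mem]
    · simpa using hpos
    · intro u _ hu
      exact hτ ⟨n, u, hu.1⟩
  exfalso
  obtain ⟨n0, u0, hu0⟩ := hτ
  set g := prodW w u1 with hg
  have hp' : permL (powL (toN g) r) = 1 := by rw [← toN_pow]; exact permL_of_pure hr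
  have hperm : ∀ q : ℤ, permL (powL (toN g) (r * q + 0)) = 1 := by
    intro q
    have h1 := (powL_mul (toN_lt g) r 0 q).2.1
    rw [h1, permL_append, permL_powL hp']
    rfl
  rw [toN_pow] at hN
  refine no_class_of hm O (toN g) (toN_lt _) r hN 0
    (toN (prodW w u0 ++ v)) (toN_lt _) F hF (fun q => ?_)
  obtain ⟨l', hl'⟩ := exists_pow w (List.ofFn u1) (r * q + 0)
  rw [← prodW_ofFn, ← hg] at hl'
  have e1 : prodW w (l' ++ List.ofFn u0).get = powW g (r * q + 0) ++ prodW w u0 := by
    rw [prodL_get, prodL_append, hl', ← prodW_ofFn]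
  have h2 := hall _ (l' ++ List.ofFn u0).get (by
    rw [e1, ← hu0]
    apply (perm_iff _ _).1
    rw [toN_append, permL_append, toN_pow, hperm q, one_mul])
  rw [e1, dia_fPoly, List.append_assoc, toN_append, toN_pow] at h2
  exact h2

open Classical in
/-- **All permutations together.** -/
theorem na_random_all (hm : 0 < m) (hs : 0 < s) (O : Outer m) (w : Fin s → List (Letter m)) (n1 : ℕ)
    (u1 : Fin n1 → Fin s × Bool) (r : ℕ) (hr : IsPure (powW (prodW w u1) r))
    (hN : NoAll O (toN (powW (prodW w u1) r))) (v : List (Letter m))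
    (F : ℤ[T;T⁻¹]) (n : ℕ) (hn : 0 < n) :
    ((univ.filter (fun u : Fin n → Fin s × Bool =>
      (dia O (prodW w u ++ v)).fPoly = F)).card : ℝ) ≤
        (m.factorial * Cst (2 * s : ℝ) (dimB m + 1)) * (n : ℝ) ^ (- ex (dimB m + 1)) *
          (2 * s : ℝ) ^ n := by
  rw [Finset.card_eq_sum_card_fiberwise (f := fun u => permW (prodW w u))
    (t := (univ : Finset (Equiv.Perm (Fin m)))) (fun _ _ => Finset.mem_coe.2 (Finset.mem_univ _))]
  push_cast
  calc ∑ τ : Equiv.Perm (Fin m), (((univ.filter (fun u : Fin n → Fin s × Bool =>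
        (dia O (prodW w u ++ v)).fPoly = F)).filter (fun u => permW (prodW w u) = τ)).card : ℝ)
      ≤ ∑ _τ : Equiv.Perm (Fin m), Cst (2 * s : ℝ) (dimB m + 1) * (n : ℝ) ^ (- ex (dimB m + 1)) *
          (2 * s : ℝ) ^ n := by
        refine Finset.sum_le_sum fun τ _ => ?_
        refine le_trans ?_ (na_random_tau hm hs O w n1 u1 r hr hN v τ F n hn)
        rw [Finset.filter_filter]
        apply le_of_eq
        congr 2
        ext u
        simp only [Finset.mem_filter, Finset.mem_univ, true_and, and_comm]
    _ = _ := by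
        rw [Finset.sum_const, Finset.card_univ, Fintype.card_perm, Fintype.card_fin, nsmul_eq_mul]
        ring

end Pool.Agent.V11227.GN
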