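import Pool.Agent.V11227.JonesLk10

/-!
# Vassiliev invariants of several random products
-/

set_option autoImplicit false

namespace Pool.Agent.V11227.JL

open Finset LaurentPolynomial Pool.Agent.H891R2.Jones Pool.Agent.W639.RB Pool.Agent.Y463.SK
  Pool.Agent.V11227.JP Pool.Agent.Y463.RW Pool.Agent.H832R3.VJ Pool.Agent.W705.JR

variable {m s : ℕ}

theorem size_prod (O : Outer m) (w : Fin s → List (Letter m)) (v : List (Letter m)) (L N : ℕ)
    (hL : ∀ j, (w j).length ≤ L) (hN : osize O + (2 * m + 1) * v.length ≤ N) {n : ℕ}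
    (U : Fin n → Fin s × Bool) : size (vdia O (prodW w U ++ v)) ≤ N + (2 * m + 1) * (n * L) := by
  rw [size_vdia, List.length_append, mul_add]
  have h1 := Nat.mul_le_mul_left (2 * m + 1) (length_prodW w L hL U)
  omega

theorem sep_prod (O O' : Outer m) (w w' : Fin s → List (Letter m)) (v v' : List (Letter m)) (L N : ℕ)
    (hL : ∀ j, (w j).length ≤ L) (hL' : ∀ j, (w' j).length ≤ L)
    (hN : osize O + (2 * m + 1) * v.length ≤ N) (hN' : osize O' + (2 * m + 1) * v'.length ≤ N) {n : ℕ}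
    (U U' : Fin n → Fin s × Bool)
    (h : ¬ Separated ((8 * m + 4) * (n * L) + 4 * N + 1) (vdia O (prodW w U ++ v))
        (vdia O' (prodW w' U' ++ v'))) :
    (Pool.Agent.Y463.SK.dia O (prodW w U ++ v)).fPoly =
      (Pool.Agent.Y463.SK.dia O' (prodW w' U' ++ v')).fPoly := by
  by_contra hne
  apply h
  refine sep_mono ?_ (sep_of_ne (vdia O (prodW w U ++ v)) (vdia O' (prodW w' U' ++ v')) hne)
  have h5 := size_prod O w v L N hL hN U
  have h6 := size_prod O' w' v' L N hL' hN' U'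
  have h7 : (8 * m + 4) * (n * L) = 4 * ((2 * m + 1) * (n * L)) := by ring
  rw [h7]
  omega

theorem card_prod (n : ℕ) : (Fintype.card (Fin n → Fin s × Bool) : ℝ) = (2 * s : ℝ) ^ n := by
  rw [Fintype.card_fun, Fintype.card_fin, Fintype.card_prod, Fintype.card_fin, Fintype.card_bool]
  push_cast
  ring

open Classical in
/-- **Several random products: the brackets.** -/
theorem lk_tuples (hm : 0 < m) (hs : 0 < s) {M : ℕ} (O : Fin M → Outer m)
    (w : Fin M → Fin s → List (Letter m))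
    (h : ∀ i, ∃ (n1 : ℕ) (u1 : Fin n1 → Fin s × Bool) (r : ℕ),
      IsPure (powW (prodW (w i) u1) r) ∧ Linked (O i) (powW (prodW (w i) u1) r))
    (v : Fin M → List (Letter m)) (n : ℕ) (hn : 0 < n) (C : ℝ) (hC : 0 ≤ C)
    (hC' : C = m.factorial * Cst (2 * s : ℝ) (dimB m + 1)) :
    ((univ.filter (fun U : Fin M → Fin n → Fin s × Bool => ∃ i j, i ≠ j ∧
      (Pool.Agent.Y463.SK.dia (O i) (prodW (w i) (U i) ++ v i)).fPoly =
        (Pool.Agent.Y463.SK.dia (O j) (prodW (w j) (U j) ++ v j)).fPoly)).card : ℝ) ≤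
        (M:ℝ) ^ 2 * (C * (n : ℝ) ^ (- ex (dimB m + 1))) * ((2 * s : ℝ) ^ n) ^ M := by
  have h2 := tuples (α := Fin n → Fin s × Bool) M
    (fun i j x y => (Pool.Agent.Y463.SK.dia (O i) (prodW (w i) x ++ v i)).fPoly =
      (Pool.Agent.Y463.SK.dia (O j) (prodW (w j) y ++ v j)).fPoly)
    (C * (n : ℝ) ^ (- ex (dimB m + 1))) (by positivity) (by
      intro i j _ y
      rw [card_prod]
      obtain ⟨n1, u1, r, h3, h4⟩ := h i
      have h5 := lk_random_all hm hs (O i) (w i) n1 u1 r h3 h4 (v i)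
        (Pool.Agent.Y463.SK.dia (O j) (prodW (w j) y ++ v j)).fPoly n hn
      rw [← hC'] at h5
      exact le_trans (cardle _ _ _ _ id Function.injective_id fun w hw => hw) h5)
  rw [card_prod] at h2
  exact le_trans (cardle _ _ _ _ id Function.injective_id fun w hw => hw) h2

open Classical in
/-- **Several random products: Vassiliev invariants.** -/
theorem vas_tuples (hm : 0 < m) (hs : 0 < s) {M : ℕ} (O : Fin M → Outer m)
    (w : Fin M → Fin s → List (Letter m))
    (h : ∀ i, ∃ (n1 : ℕ) (u1 : Fin n1 → Fin s × Bool) (r : ℕ),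
      IsPure (powW (prodW (w i) u1) r) ∧ Linked (O i) (powW (prodW (w i) u1) r))
    (v : Fin M → List (Letter m)) (L N : ℕ)
    (hL : ∀ i j, (w i j).length ≤ L) (hN : ∀ i, osize (O i) + (2 * m + 1) * (v i).length ≤ N)
    (n : ℕ) (hn : 0 < n) (C : ℝ) (hC : 0 ≤ C)
    (hC' : C = m.factorial * Cst (2 * s : ℝ) (dimB m + 1)) :
    ((univ.filter (fun U : Fin M → Fin n → Fin s × Bool => ∃ i j, i ≠ j ∧
      ¬ Separated ((8 * m + 4) * (n * L) + 4 * N + 1) (vdia (O i) (prodW (w i) (U i) ++ v i))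
        (vdia (O j) (prodW (w j) (U j) ++ v j)))).card : ℝ) ≤
        (M:ℝ) ^ 2 * (C * (n : ℝ) ^ (- ex (dimB m + 1))) * ((2 * s : ℝ) ^ n) ^ M := by
  refine le_trans (cardle _ _ _ _ id Function.injective_id fun U hU => ?_)
    (lk_tuples hm hs O w h v n hn C hC hC')
  obtain ⟨i, j, hij, hs'⟩ := hU
  exact ⟨i, j, hij, sep_prod (O i) (O j) (w i) (w j) (v i) (v j) L N (hL i) (hL j) (hN i) (hN j)
    (U i) (U j) hs'⟩

end Pool.Agent.V11227.JL
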