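import Pool.Agent.V11227.JonesGn5
import Pool.Agent.V11227.JonesLk11

/-!
# Regular pure braids: both criteria; Vassiliev invariants
-/

set_option autoImplicit false

namespace Pool.Agent.V11227.GN

open Finset LaurentPolynomial Pool.Agent.H891R2.Jones Pool.Agent.W639.RB Pool.Agent.Y463.SK
  Pool.Agent.V11227.JP Pool.Agent.V11227.JL Pool.Agent.Y463.RW Pool.Agent.H832R3.VJ
  Pool.Agent.W705.JR

variable {m s : ℕ}

theorem noAll_pre_of_linked (hm : 0 < m) (O : Outer m) (hO : ∀ i j, O.up i = O.up j)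
    (W : List (Letter m)) (hp : IsPure W) (h : Linked O W) (pre : List (Letter m)) :
    NoAll (draw O (toN pre)) (toN W) := by
  apply noAll_of_linked hm _ _ hp
  unfold Linked at h ⊢
  have e2 : ∀ a b, (draw O (toN pre)).up a = (draw O (toN pre)).up b := by
    intro a b; rw [draw_dir, draw_dir]; exact hO _ _
  have e3 : ∑ a, ∑ b, (if (draw O (toN pre)).up a = (draw O (toN pre)).up b then 2 else -1) *
      cr W a b = ∑ a, ∑ b, (if O.up a = O.up b then 2 else -1) * cr W a b := by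
    refine Finset.sum_congr rfl fun a _ => Finset.sum_congr rfl fun b _ => ?_
    rw [if_pos (e2 a b), if_pos (hO a b)]
  rw [e3]
  exact h

open Classical in
/-- the exceptional matrices; for fewer than three strands all matrices -/
noncomputable def Exc (m : ℕ) : Set (Pr m → ℤ) := if 3 ≤ m then Bad m else Set.univ

theorem exc_count (m : ℕ) (hm : 3 ≤ m) (N : ℕ) :
    {l : Pr m → ℤ | l ∈ Exc m ∧ ∀ p, |l p| ≤ N}.Finite ∧
    {l : Pr m → ℤ | l ∈ Exc m ∧ ∀ p, |l p| ≤ N}.ncard ≤
      2 ^ m * m.factorial * (2 * N + 1) ^ (m.choose 2 - 1) := by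
  unfold Exc
  rw [if_pos hm]
  exact bad_count_all m N

theorem noAll_exc (O : Outer m) (w : List (Letter m)) (hp : IsPure w)
    (h : ∃ l, l ∉ Exc m ∧ IsLk w l) : NoAll O (toN w) := by
  obtain ⟨l, hb, hl⟩ := h
  unfold Exc at hb
  split_ifs at hb with hm
  · exact noAll_good hm O w hp l hl hb
  · exact absurd (Set.mem_univ l) hb

/-! ### Vassiliev invariants -/

theorem vna_one (hm : 0 < m) (O : Outer m) (u w v : List (Letter m)) (r : ℕ) (hr : 0 < r)
    (hp : IsPure (powW w r)) (hN : NoAll (draw O (toN u)) (toN (powW w r))) (X : Dia) :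
    {n : ℤ | ¬ Separated (2 * (osize O + (2 * m + 1) * (u.length + n.natAbs * w.length + v.length) +
        size X) + 1) (vdia O (u ++ (powW w n ++ v))) X}.Finite ∧
      {n : ℤ | ¬ Separated (2 * (osize O + (2 * m + 1) * (u.length + n.natAbs * w.length + v.length) +
        size X) + 1) (vdia O (u ++ (powW w n ++ v))) X}.ncard ≤ r * m.factorial := by
  obtain ⟨h1, h2⟩ := na_one hm O u w v r hr hp hN X.D.fPoly
  have h3 : {n : ℤ | ¬ Separated (2 * (osize O + (2 * m + 1) * (u.length + n.natAbs * w.length +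
      v.length) + size X) + 1) (vdia O (u ++ (powW w n ++ v))) X} ⊆
      {n : ℤ | (Pool.Agent.Y463.SK.dia O (u ++ (powW w n ++ v))).fPoly = X.D.fPoly} := by
    intro n hn
    refine nsep_eq O _ X _ ?_ hn
    rw [List.length_append, List.length_append, length_powW, ← add_assoc]
    omega
  exact ⟨h1.subset h3, (Set.ncard_le_ncard h3 h1).trans h2⟩

theorem vna_pairs (hm : 0 < m) (O : Outer m) (u w v : List (Letter m)) (r : ℕ) (hr : 0 < r)
    (hp : IsPure (powW w r)) (hN : NoAll (draw O (toN u)) (toN (powW w r))) (N : ℕ) (Z : Finset ℤ)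
    (hZ : ∀ n ∈ Z, n.natAbs ≤ N) :
    ∃ Y ⊆ Z, Z.card ≤ r * m.factorial * Y.card ∧ ∀ n ∈ Y, ∀ n' ∈ Y, n ≠ n' →
      Separated (4 * (osize O + (2 * m + 1) * (u.length + N * w.length + v.length)) + 1)
        (vdia O (u ++ (powW w n ++ v))) (vdia O (u ++ (powW w n' ++ v))) := by
  classical
  obtain ⟨Y, hY, hbij⟩ := Set.exists_subset_bijOn (↑Z : Set ℤ)
    (fun n => (Pool.Agent.Y463.SK.dia O (u ++ (powW w n ++ v))).fPoly)
  have hYf : Y.Finite := Z.finite_toSet.subset hY
  refine ⟨hYf.toFinset, fun n hn => hY (hYf.mem_toFinset.1 hn), ?_, ?_⟩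
  · have h1 := na_image hm O u w v r hr hp hN Z
    refine h1.trans (Nat.mul_le_mul_left _ ?_)
    have h2 : (Z.image fun n => (Pool.Agent.Y463.SK.dia O (u ++ (powW w n ++ v))).fPoly) =
        (hYf.toFinset.image fun n => (Pool.Agent.Y463.SK.dia O (u ++ (powW w n ++ v))).fPoly) := by
      ext F
      rw [← Finset.mem_coe, ← Finset.mem_coe, Finset.coe_image, Finset.coe_image,
        hYf.coe_toFinset, hbij.image_eq]
    rw [h2]
    exact Finset.card_image_le
  · intro n hn n' hn' hne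
    have h3 : (Pool.Agent.Y463.SK.dia O (u ++ (powW w n ++ v))).fPoly ≠
        (Pool.Agent.Y463.SK.dia O (u ++ (powW w n' ++ v))).fPoly := fun he =>
      hne (hbij.injOn (hYf.mem_toFinset.1 hn) (hYf.mem_toFinset.1 hn') he)
    have key : ∀ n ∈ hYf.toFinset, size (vdia O (u ++ (powW w n ++ v))) ≤
        osize O + (2 * m + 1) * (u.length + N * w.length + v.length) := by
      intro n hn
      rw [size_vdia, List.length_append, List.length_append, length_powW, ← add_assoc]
      have h4 := hZ n (hY (hYf.mem_toFinset.1 hn))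
      gcongr
    refine sep_mono ?_ (sep_of_ne (vdia O (u ++ (powW w n ++ v))) (vdia O (u ++ (powW w n' ++ v))) h3)
    have h4 := key n hn
    have h5 := key n' hn'
    omega

open Classical in
theorem vna_random (hm : 0 < m) (hs : 0 < s) (O : Outer m) (w : Fin s → List (Letter m)) (n1 : ℕ)
    (u1 : Fin n1 → Fin s × Bool) (r : ℕ) (hr : IsPure (powW (prodW w u1) r))
    (hN : NoAll O (toN (powW (prodW w u1) r))) (v : List (Letter m)) (L : ℕ)
    (hL : ∀ i, (w i).length ≤ L) (X : Dia) (n : ℕ) (hn : 0 < n) (d : ℕ)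
    (hd : 2 * (osize O + (2 * m + 1) * (n * L + v.length) + size X) < d) :
    ((univ.filter (fun u : Fin n → Fin s × Bool =>
      ¬ Separated d (vdia O (prodW w u ++ v)) X)).card : ℝ) ≤
        (m.factorial * Cst (2 * s : ℝ) (dimB m + 1)) * (n : ℝ) ^ (- ex (dimB m + 1)) *
          (2 * s : ℝ) ^ n := by
  refine le_trans ?_ (na_random_all hm hs O w n1 u1 r hr hN v X.D.fPoly n hn)
  refine cardle _ _ _ _ id Function.injective_id fun u hu => ?_
  refine nsep_eq O _ X d ?_ hu
  rw [List.length_append]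
  simp only [id]
  have h1 := length_prodW w L hL u
  have h2 : (2 * m + 1) * ((prodW w u).length + v.length) ≤ (2 * m + 1) * (n * L + v.length) :=
    Nat.mul_le_mul_left _ (Nat.add_le_add_right h1 _)
  omega

open Classical in
/-- **Several random products: the brackets.** -/
theorem na_tuples (hm : 0 < m) (hs : 0 < s) {M : ℕ} (O : Fin M → Outer m)
    (w : Fin M → Fin s → List (Letter m))
    (h : ∀ i, ∃ (n1 : ℕ) (u1 : Fin n1 → Fin s × Bool) (r : ℕ),
      IsPure (powW (prodW (w i) u1) r) ∧ NoAll (O i) (toN (powW (prodW (w i) u1) r)))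
    (v : Fin M → List (Letter m)) (n : ℕ) (hn : 0 < n) (C : ℝ) (hC : 0 ≤ C)
    (hC' : C = m.factorial * Cst (2 * s : ℝ) (dimB m + 1)) :
    ((univ.filter (fun U : Fin M → Fin n → Fin s × Bool => ∃ i j, i ≠ j ∧
      (Pool.Agent.Y463.SK.dia (O i) (prodW (w i) (U i) ++ v i)).fPoly =
        (Pool.Agent.Y463.SK.dia (O j) (prodW (w j) (U j) ++ v j)).fPoly)).card : ℝ) ≤
        (M:ℝ) ^ 2 * (C * (n : ℝ) ^ (- ex (dimB m + 1))) * ((2 * s : ℝ) ^ n) ^ M := by
  have h2 := tuples (α := Fin n → Fin s × Bool) M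
    (fun i j x y => (Pool.Agent.Y463.SK.dia (O i) (prodW (w i) x ++ v i)).fPoly =
      (Pool.Agent.Y463.SK.dia (O j) (prodW (w j) y ++ v j)).fPoly)
    (C * (n : ℝ) ^ (- ex (dimB m + 1))) (by positivity) (by
      intro i j _ y
      rw [card_prod]
      obtain ⟨n1, u1, r, h3, h4⟩ := h i
      have h5 := na_random_all hm hs (O i) (w i) n1 u1 r h3 h4 (v i)
        (Pool.Agent.Y463.SK.dia (O j) (prodW (w j) y ++ v j)).fPoly n hn
      rw [← hC'] at h5
      exact le_trans (cardle _ _ _ _ id Function.injective_id fun w hw => hw) h5)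
  rw [card_prod] at h2
  exact le_trans (cardle _ _ _ _ id Function.injective_id fun w hw => hw) h2

open Classical in
/-- **Several random products: Vassiliev invariants.** -/
theorem vna_tuples (hm : 0 < m) (hs : 0 < s) {M : ℕ} (O : Fin M → Outer m)
    (w : Fin M → Fin s → List (Letter m))
    (h : ∀ i, ∃ (n1 : ℕ) (u1 : Fin n1 → Fin s × Bool) (r : ℕ),
      IsPure (powW (prodW (w i) u1) r) ∧ NoAll (O i) (toN (powW (prodW (w i) u1) r)))
    (v : Fin M → List (Letter m)) (L N : ℕ)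
    (hL : ∀ i j, (w i j).length ≤ L) (hN : ∀ i, osize (O i) + (2 * m + 1) * (v i).length ≤ N)
    (n : ℕ) (hn : 0 < n) (C : ℝ) (hC : 0 ≤ C)
    (hC' : C = m.factorial * Cst (2 * s : ℝ) (dimB m + 1)) :
    ((univ.filter (fun U : Fin M → Fin n → Fin s × Bool => ∃ i j, i ≠ j ∧
      ¬ Separated ((8 * m + 4) * (n * L) + 4 * N + 1) (vdia (O i) (prodW (w i) (U i) ++ v i))
        (vdia (O j) (prodW (w j) (U j) ++ v j)))).card : ℝ) ≤
        (M:ℝ) ^ 2 * (C * (n : ℝ) ^ (- ex (dimB m + 1))) * ((2 * s : ℝ) ^ n) ^ M := by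
  refine le_trans (cardle _ _ _ _ id Function.injective_id fun U hU => ?_)
    (na_tuples hm hs O w h v n hn C hC hC')
  obtain ⟨i, j, hij, hs'⟩ := hU
  exact ⟨i, j, hij, sep_prod (O i) (O j) (w i) (w j) (v i) (v j) L N (hL i) (hL j) (hN i) (hN j)
    (U i) (U j) hs'⟩

end Pool.Agent.V11227.GN
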