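import Pool.Agent.Y463.SK.Gen

/-!
# Braid words modulo `(A + 1)^2`
-/

set_option autoImplicit false

namespace Pool.Agent.V11227.JL

open Finset Pool.Agent.H891R2.Jones Pool.Agent.W639.RB Pool.Agent.Y463.SK

variable {m : ℕ}

/-- the transposition of a letter -/
def swp (x : Letter m) : Equiv.Perm (Fin m) :=
  Equiv.swap (⟨x.2, by omega⟩ : Fin m) ⟨x.2 + 1, by omega⟩

/-- the sign of a letter -/
def eps (x : Letter m) : ℤ := if x.1 then 1 else -1

theorem permW_cons (x : Letter m) (w : List (Letter m)) : permW (x :: w) = swp x * permW w := by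
  simp [permW, swp]

theorem permW_append (w w' : List (Letter m)) : permW (w ++ w') = permW w * permW w' := by
  simp [permW]

/-- every permutation is the permutation of a word -/
theorem exists_word (σ : Equiv.Perm (Fin m)) : ∃ w : List (Letter m), permW w = σ := by
  rcases m with _ | n
  · exact ⟨[], Subsingleton.elim _ _⟩
  have h : σ ∈ Submonoid.closure
      (Set.range fun i : Fin n => Equiv.swap i.castSucc i.succ) := by
    rw [Equiv.Perm.mclosure_swap_castSucc_succ]
    exact Submonoid.mem_top _
  induction h using Submonoid.closure_induction with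
  | one => exact ⟨[], rfl⟩
  | mul a b _ _ ha hb =>
    obtain ⟨w, rfl⟩ := ha
    obtain ⟨w', rfl⟩ := hb
    exact ⟨w ++ w', permW_append w w'⟩
  | mem x hx =>
    obtain ⟨i, rfl⟩ := hx
    refine ⟨[(true, i)], ?_⟩
    simp only [permW, List.map_cons, List.map_nil, List.prod_cons, List.prod_nil, mul_one]
    rfl

theorem permW_reverse (w : List (Letter m)) : permW w * permW w.reverse = 1 := by
  induction w with
  | nil => rfl
  | cons x w ih =>
    rw [List.reverse_cons, permW_append, permW_cons]
    have h1 : permW [x] = swp x := by rw [permW_cons]; exact mul_one _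
    rw [h1, mul_assoc, ← mul_assoc (permW w), ih, one_mul]
    exact Equiv.swap_mul_self _ _

section cox
variable {M : Type*} [Monoid M] {s : ℕ → M}

/-- the product of a word in the Coxeter generators -/
def sp (s : ℕ → M) (w : List (Letter m)) : M := (w.map (fun x => s (x.2 : ℕ))).prod

theorem sp_append (w w' : List (Letter m)) : sp s (w ++ w') = sp s w * sp s w' := by simp [sp]

theorem sp_pure (h : IsCox m s) (w : List (Letter m)) (hw : permW w = 1) : sp s w = 1 := by
  have h1 := cox_word h ((toN w).map Prod.snd) (by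
    intro i hi
    obtain ⟨x, hx, rfl⟩ := List.mem_map.1 hi
    exact toN_lt w x hx) (by
      have := permL_of_pure (w := w) hw
      unfold permL at this
      rw [List.map_map]
      exact this)
  rw [List.map_map] at h1
  unfold toN at h1
  rw [List.map_map] at h1
  exact h1

theorem sp_eq (h : IsCox m s) (w w' : List (Letter m)) (hw : permW w = permW w') :
    sp s w = sp s w' := by
  have h1 : sp s w * sp s w'.reverse = 1 := by
    rw [← sp_append]
    apply sp_pure h
    rw [permW_append, hw, permW_reverse]
  have h2 : sp s w'.reverse * sp s w' = 1 := by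
    rw [← sp_append]
    apply sp_pure h
    have := permW_reverse w'.reverse
    rw [List.reverse_reverse] at this
    rw [permW_append, this]
  calc sp s w = sp s w * (sp s w'.reverse * sp s w') := by rw [h2, mul_one]
    _ = sp s w' := by rw [← mul_assoc, h1, one_mul]

/-- the homomorphism from the symmetric group -/
noncomputable def XX (h : IsCox m s) : Equiv.Perm (Fin m) →* M where
  toFun σ := sp s (exists_word σ).choose
  map_one' := sp_pure h _ (exists_word 1).choose_spec
  map_mul' σ τ := by
    rw [← sp_append]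
    apply sp_eq h
    rw [permW_append, (exists_word (σ * τ)).choose_spec, (exists_word σ).choose_spec,
      (exists_word τ).choose_spec]

theorem XX_word (h : IsCox m s) (w : List (Letter m)) : XX h (permW w) = sp s w :=
  sp_eq h _ _ (exists_word (permW w)).choose_spec

theorem XX_swp (h : IsCox m s) (x : Letter m) : XX h (swp x) = s (x.2 : ℕ) := by
  have h1 := XX_word h [x]
  have h2 : permW [x] = swp x := by rw [permW_cons]; exact mul_one _
  rw [h2] at h1
  rw [h1]
  simp [sp]

end cox

/-! ### the element of the group algebra -/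

/-- the sum of the signed transpositions of the pairs of strands which cross -/
noncomputable def th : List (Letter m) → MonoidAlgebra ℤ (Equiv.Perm (Fin m))
  | [] => 0
  | (x :: w) => (2 * eps x) • MonoidAlgebra.single (swp x) 1 +
      MonoidAlgebra.single (swp x) 1 * th w * MonoidAlgebra.single (swp x) 1

/-- the exponent sum -/
def esum (w : List (Letter m)) : ℤ := (w.map eps).sum

theorem esum_cons (x : Letter m) (w : List (Letter m)) : esum (x :: w) = eps x + esum w := by
  simp [esum]

theorem lift_single {Q : Type*} [Ring Q] (X : Equiv.Perm (Fin m) →* Q) (σ : Equiv.Perm (Fin m)) :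
    MonoidAlgebra.lift ℤ Q (Equiv.Perm (Fin m)) X (MonoidAlgebra.single σ 1) = X σ := by
  rw [MonoidAlgebra.lift_single, one_smul]

theorem lift_th {Q : Type*} [Ring Q] (X : Equiv.Perm (Fin m) →* Q) (x : Letter m)
    (w : List (Letter m)) :
    MonoidAlgebra.lift ℤ Q (Equiv.Perm (Fin m)) X (th (x :: w)) = (2 * eps x) • X (swp x) +
      X (swp x) * MonoidAlgebra.lift ℤ Q (Equiv.Perm (Fin m)) X (th w) * X (swp x) := by
  rw [th, map_add, map_mul, map_mul, map_zsmul, lift_single]

section modpi
variable {R B : Type*} [CommRing R] [Ring B] [Algebra R B] {A A' d : R} {e : ℕ → B}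

/-- the ideal generated by `r` -/
def II (B : Type*) [Ring B] [Algebra R B] (r : R) : Ideal B := Ideal.span {algebraMap R B r}

theorem mem_II {r : R} {x : B} : x ∈ II B r ↔ ∃ y : B, x = r • y := by
  unfold II
  rw [Ideal.mem_span_singleton']
  constructor
  · rintro ⟨y, rfl⟩
    exact ⟨y, by rw [Algebra.smul_def, Algebra.commutes]⟩
  · rintro ⟨y, rfl⟩
    exact ⟨y, by rw [Algebra.smul_def, Algebra.commutes]⟩

instance II_two (r : R) : (II B r).IsTwoSided := by
  constructor
  intro a b ha
  rw [mem_II] at ha ⊢
  obtain ⟨c, rfl⟩ := ha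
  exact ⟨c * b, by rw [smul_mul_assoc]⟩

/-- the facts about the quotient modulo `(A + 1)^2` -/
structure Mod2 (A A' d : R) (e : ℕ → B) (m : ℕ) {Q : Type*} [Ring Q] (q : B →+* Q) (p : Q) : Prop where
  pp : p * p = 0
  pc : ∀ x : B, p * q x = q x * p
  qA : q (algebraMap R B A) = -1 + p
  qA' : q (algebraMap R B A') = -1 - p
  cox : IsCox m (fun i => - (1 + q (e i)))

theorem mod2 (hA : A * A' = 1) (hd : d = - A ^ 2 - A' ^ 2) (h : IsTLr m d e) :
    Mod2 A A' d e m (Ideal.Quotient.mk (II B ((A + 1) ^ 2)))
      (Ideal.Quotient.mk (II B ((A + 1) ^ 2)) (algebraMap R B (A + 1))) := by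
  set q : B →+* B ⧸ II B ((A + 1) ^ 2) := Ideal.Quotient.mk _ with hq
  set p := q (algebraMap R B (A + 1)) with hp
  have hpp : p * p = 0 := by
    rw [hp, ← map_mul, ← map_mul, ← pow_two, hq, Ideal.Quotient.eq_zero_iff_mem]
    exact Ideal.subset_span rfl
  have hpc : ∀ x : B, p * q x = q x * p := by
    intro x
    rw [hp, ← map_mul, ← map_mul, Algebra.commutes]
  have hqA : q (algebraMap R B A) = -1 + p := by
    rw [hp, map_add, map_add, map_one, map_one]; abel
  have hqA' : q (algebraMap R B A') = -1 - p := by
    have h1 : q (algebraMap R B A') * q (algebraMap R B A) = 1 := by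
      rw [← map_mul, ← map_mul, mul_comm, hA, map_one, map_one]
    have h2 : (-1 + p) * (-1 - p) = 1 := by
      calc (-1 + p) * (-1 - p) = 1 - p * p := by noncomm_ring
        _ = 1 := by rw [hpp, sub_zero]
    rw [hqA] at h1
    calc q (algebraMap R B A') = q (algebraMap R B A') * ((-1 + p) * (-1 - p)) := by
          rw [h2, mul_one]
      _ = -1 - p := by rw [← mul_assoc, h1, one_mul]
  have hqd : q (algebraMap R B d) = -2 := by
    rw [hd, map_sub, map_sub, map_neg, map_neg, map_pow, map_pow, map_pow, map_pow, hqA, hqA']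
    have e1 : (-1 + p) ^ 2 = 1 - p - p + p * p := by noncomm_ring
    have e2 : (-1 - p) ^ 2 = 1 + p + p + p * p := by noncomm_ring
    rw [e1, e2, hpp]
    have e3 : (2 : B ⧸ II B ((A + 1) ^ 2)) = 1 + 1 := by norm_num
    rw [e3]
    abel
  have hsq : ∀ i, i + 1 < m → q (e i) * q (e i) = -2 * q (e i) := by
    intro i hi
    rw [← map_mul, h.sq i hi, Algebra.smul_def, map_mul, hqd]
  refine ⟨hpp, hpc, hqA, hqA', ⟨?_, ?_, ?_⟩⟩
  · intro i hi
    have h1 := hsq i hi
    calc -(1 + q (e i)) * -(1 + q (e i)) = 1 + 2 * q (e i) + q (e i) * q (e i) := by noncomm_ring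
      _ = 1 := by rw [h1]; noncomm_ring
  · intro i hi
    have h1 := hsq i (by omega)
    have h2 := hsq (i+1) (by omega)
    have h3 : q (e i) * q (e (i+1)) * q (e i) = q (e i) := by
      rw [← map_mul, ← map_mul, h.up i hi]
    have h4 : q (e (i+1)) * q (e i) * q (e (i+1)) = q (e (i+1)) := by
      rw [← map_mul, ← map_mul, h.down i hi]
    set x := q (e i)
    set y := q (e (i+1))
    calc -(1 + x) * -(1 + y) * -(1 + x) = -(1 + 2 * x + y + x * y + y * x + x * x + x * y * x) := by
          noncomm_ring
      _ = -(1 + x + y + x * y + y * x) := by rw [h1, h3]; noncomm_ring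
      _ = -(1 + 2 * y + x + x * y + y * x + y * y + y * x * y) := by rw [h2, h4]; noncomm_ring
      _ = -(1 + y) * -(1 + x) * -(1 + y) := by noncomm_ring
  · intro i j hj hij
    have h1 : q (e i) * q (e j) = q (e j) * q (e i) := by
      rw [← map_mul, ← map_mul, h.far i j hj hij]
    calc -(1 + q (e i)) * -(1 + q (e j)) = 1 + q (e i) + q (e j) + q (e i) * q (e j) := by
          noncomm_ring
      _ = 1 + q (e i) + q (e j) + q (e j) * q (e i) := by rw [h1]
      _ = -(1 + q (e j)) * -(1 + q (e i)) := by noncomm_ring

/-- **A word modulo `(A + 1)^2`.** -/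
theorem word_mod2 {Q : Type*} [Ring Q] {q : B →+* Q} {p : Q} (H : Mod2 A A' d e m q p)
    (hpc : ∀ y : Q, p * y = y * p) (w : List (Letter m)) :
    q (wd A A' e (toN w)) = XX H.cox (permW w) +
      p * (((esum w : ℤ) + MonoidAlgebra.lift ℤ Q (Equiv.Perm (Fin m)) (XX H.cox) (th w)) *
        XX H.cox (permW w)) := by
  induction w with
  | nil =>
    have h1 : permW ([] : List (Letter m)) = 1 := rfl
    have h2 : wd A A' e (toN ([] : List (Letter m))) = 1 := rfl
    rw [h1, h2, map_one, map_one]
    simp [esum, th]
  | cons x w ih =>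
    have h1 : wd A A' e (toN (x :: w)) = ltr A A' e (x.1, (x.2 : ℕ)) * wd A A' e (toN w) := by
      simp [wd, toN]
    have hs := XX_swp H.cox x
    set s := XX H.cox (swp x) with hsdef
    set L := MonoidAlgebra.lift ℤ Q (Equiv.Perm (Fin m)) (XX H.cox) (th w) with hL
    set X := XX H.cox (permW w) with hX
    have hss : s * s = 1 := by
      rw [hsdef, ← map_mul]
      have : swp x * swp x = 1 := Equiv.swap_mul_self _ _
      rw [this, map_one]
    have he : q (e (x.2 : ℕ)) = -1 - s := by rw [hs]; abel
    have hlet : q (ltr A A' e (x.1, (x.2 : ℕ))) = s + p * ((eps x : ℤ) * (2 + s)) := by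
      unfold ltr eps
      simp only
      split_ifs
      · rw [map_add, Algebra.smul_def, Algebra.smul_def, map_mul, map_mul, H.qA, H.qA', map_one, he]
        push_cast
        noncomm_ring
      · rw [map_add, Algebra.smul_def, Algebra.smul_def, map_mul, map_mul, H.qA, H.qA', map_one, he]
        push_cast
        noncomm_ring
    rw [h1, map_mul, hlet, ih, permW_cons, map_mul, lift_th, esum_cons]
    rw [← hsdef, ← hL, ← hX]
    have c1 := hpc s
    have c2 : ∀ z : ℤ, (z : Q) * s = s * z := fun z => (Int.cast_commute z s).eq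
    have e1 : (2 * eps x) • s = 2 * (eps x : Q) * s := by
      rw [zsmul_eq_mul]; push_cast; rfl
    rw [e1]
    push_cast
    have key : ((eps x : Q) * (2 + s)) * X + s * (((esum w : Q) + L) * X) =
        ((eps x : Q) + (esum w : Q) + (2 * (eps x : Q) * s + s * L * s)) * (s * X) := by
      have h3 : s * (s * X) = X := by rw [← mul_assoc, hss, one_mul]
      have h4 : (esum w : Q) * (s * X) = s * ((esum w : Q) * X) := by
        rw [← mul_assoc, c2, mul_assoc]
      calc ((eps x : Q) * (2 + s)) * X + s * (((esum w : Q) + L) * X) 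
          = 2 * (eps x : Q) * X + (eps x : Q) * (s * X) + s * ((esum w : Q) * X) + s * (L * X) := by
            have : (eps x : Q) * 2 = 2 * (eps x : Q) := ((Int.cast_commute _ _).eq)
            calc _ = (eps x : Q) * 2 * X + (eps x : Q) * (s * X) + s * ((esum w : Q) * X) + 
                s * (L * X) := by noncomm_ring
              _ = _ := by rw [this]
        _ = 2 * (eps x : Q) * (s * (s * X)) + (eps x : Q) * (s * X) + (esum w : Q) * (s * X) +
            s * (L * (s * (s * X))) := by rw [h3, h4]
        _ = _ := by noncomm_ring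
    calc (s + p * ((eps x : Q) * (2 + s))) * (X + p * (((esum w : Q) + L) * X)) 
        = s * X + p * (((eps x : Q) * (2 + s)) * X) + (s * p) * (((esum w : Q) + L) * X) + 
          p * ((eps x : Q) * (2 + s) * p) * (((esum w : Q) + L) * X) := by noncomm_ring
      _ = s * X + p * (((eps x : Q) * (2 + s)) * X) + (p * s) * (((esum w : Q) + L) * X) + 
          p * (p * ((eps x : Q) * (2 + s))) * (((esum w : Q) + L) * X) := by
            rw [← hpc s, ← hpc ((eps x : Q) * (2 + s))]
      _ = s * X + p * (((eps x : Q) * (2 + s)) * X + s * (((esum w : Q) + L) * X)) + 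
          (p * p) * ((eps x : Q) * (2 + s) * (((esum w : Q) + L) * X)) := by noncomm_ring
      _ = s * X + p * (((eps x : Q) + (esum w : Q) + (2 * (eps x : Q) * s + s * L * s)) * (s * X)) := by
            rw [H.pp, zero_mul, add_zero, key]

end modpi

end Pool.Agent.V11227.JL
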