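import Pool.Agent.V11227.JonesLk9
import Pool.Agent.W705.JR.Tup

/-!
# Vassiliev invariants of the diagrams with powers of linked braids
-/

set_option autoImplicit false

namespace Pool.Agent.V11227.JL

open Finset LaurentPolynomial Pool.Agent.H891R2.Jones Pool.Agent.W639.RB Pool.Agent.Y463.SK
  Pool.Agent.V11227.JP Pool.Agent.Y463.RW Pool.Agent.H832R3.VJ Pool.Agent.W705.JR

variable {m s : ℕ}

/-- the diagram with the word `x` in the box, with the finite set of its marked points -/
def vdia (O : Outer m) (x : List (Letter m)) : Dia :=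
  ⟨(draw O (x.map (fun y => (y.1, (y.2 : ℕ))))).P, inferInstance, Pool.Agent.Y463.SK.dia O x⟩

/-- the number of the crossings of the outside `O` plus twice the number of its marked points -/
noncomputable def osize (O : Outer m) : ℕ := O.crossings.length + 2 * Nat.card O.P

theorem size_vdia (O : Outer m) (x : List (Letter m)) :
    size (vdia O x) = osize O + (2 * m + 1) * x.length := by
  obtain ⟨h1, h2⟩ := draw_size (toN x) O (toN_lt x)
  have h3 : (toN x).length = x.length := by simp [toN]
  rw [h3] at h1 h2
  have h4 : size (vdia O x) = (draw O (toN x)).crossings.length + 2 * Nat.card (draw O (toN x)).P := rfl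
  rw [h4, h1, h2]
  unfold osize
  ring

theorem nsep_eq (O : Outer m) (x : List (Letter m)) (X : Dia) (d : ℕ)
    (hd : 2 * (osize O + (2 * m + 1) * x.length + size X) < d) (h : ¬ Separated d (vdia O x) X) :
    (Pool.Agent.Y463.SK.dia O x).fPoly = X.D.fPoly := by
  by_contra hne
  apply h
  refine sep_mono ?_ (sep_of_ne (vdia O x) X hne)
  rw [size_vdia]
  omega

theorem length_powW (w : List (Letter m)) (n : ℤ) : (powW w n).length = n.natAbs * w.length := by
  rcases n with n | n
  · simp [powW]
  · simp [powW, invW]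

/-- **One power.** -/
theorem vas_one (hm : 0 < m) (O : Outer m) (u w v : List (Letter m)) (r : ℕ) (hr : 0 < r)
    (hp : IsPure (powW w r)) (h : LinkedAt O u (powW w r)) (X : Dia) :
    {n : ℤ | ¬ Separated (2 * (osize O + (2 * m + 1) * (u.length + n.natAbs * w.length + v.length) +
        size X) + 1) (vdia O (u ++ (powW w n ++ v))) X}.Finite ∧
      {n : ℤ | ¬ Separated (2 * (osize O + (2 * m + 1) * (u.length + n.natAbs * w.length + v.length) +
        size X) + 1) (vdia O (u ++ (powW w n ++ v))) X}.ncard ≤ r * m.factorial := by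
  obtain ⟨h1, h2⟩ := lk_one hm O u w v r hr hp h X.D.fPoly
  have h3 : {n : ℤ | ¬ Separated (2 * (osize O + (2 * m + 1) * (u.length + n.natAbs * w.length +
      v.length) + size X) + 1) (vdia O (u ++ (powW w n ++ v))) X} ⊆
      {n : ℤ | (Pool.Agent.Y463.SK.dia O (u ++ (powW w n ++ v))).fPoly = X.D.fPoly} := by
    intro n hn
    refine nsep_eq O _ X _ ?_ hn
    rw [List.length_append, List.length_append, length_powW, ← add_assoc]
    omega
  exact ⟨h1.subset h3, (Set.ncard_le_ncard h3 h1).trans h2⟩

/-- **Pairwise separated members of a family.** -/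
theorem vas_pairs (hm : 0 < m) (O : Outer m) (u w v : List (Letter m)) (r : ℕ) (hr : 0 < r)
    (hp : IsPure (powW w r)) (h : LinkedAt O u (powW w r)) (N : ℕ) (Z : Finset ℤ)
    (hZ : ∀ n ∈ Z, n.natAbs ≤ N) :
    ∃ Y ⊆ Z, Z.card ≤ r * m.factorial * Y.card ∧ ∀ n ∈ Y, ∀ n' ∈ Y, n ≠ n' →
      Separated (4 * (osize O + (2 * m + 1) * (u.length + N * w.length + v.length)) + 1)
        (vdia O (u ++ (powW w n ++ v))) (vdia O (u ++ (powW w n' ++ v))) := by
  classical
  obtain ⟨Y, hY, hbij⟩ := Set.exists_subset_bijOn (↑Z : Set ℤ)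
    (fun n => (Pool.Agent.Y463.SK.dia O (u ++ (powW w n ++ v))).fPoly)
  have hYf : Y.Finite := Z.finite_toSet.subset hY
  refine ⟨hYf.toFinset, fun n hn => hY (hYf.mem_toFinset.1 hn), ?_, ?_⟩
  · have h1 := lk_image hm O u w v r hr hp h Z
    refine h1.trans (Nat.mul_le_mul_left _ ?_)
    have h2 : (Z.image fun n => (Pool.Agent.Y463.SK.dia O (u ++ (powW w n ++ v))).fPoly) =
        (hYf.toFinset.image fun n => (Pool.Agent.Y463.SK.dia O (u ++ (powW w n ++ v))).fPoly) := by
      ext F
      rw [← Finset.mem_coe, ← Finset.mem_coe, Finset.coe_image, Finset.coe_image,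
        hYf.coe_toFinset, hbij.image_eq]
    rw [h2]
    exact Finset.card_image_le
  · intro n hn n' hn' hne
    have h3 : (Pool.Agent.Y463.SK.dia O (u ++ (powW w n ++ v))).fPoly ≠
        (Pool.Agent.Y463.SK.dia O (u ++ (powW w n' ++ v))).fPoly := fun he =>
      hne (hbij.injOn (hYf.mem_toFinset.1 hn) (hYf.mem_toFinset.1 hn') he)
    have key : ∀ n ∈ hYf.toFinset, size (vdia O (u ++ (powW w n ++ v))) ≤
        osize O + (2 * m + 1) * (u.length + N * w.length + v.length) := by
      intro n hn
      rw [size_vdia, List.length_append, List.length_append, length_powW, ← add_assoc]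
      have h4 := hZ n (hY (hYf.mem_toFinset.1 hn))
      gcongr
    refine sep_mono ?_ (sep_of_ne (vdia O (u ++ (powW w n ++ v))) (vdia O (u ++ (powW w n' ++ v))) h3)
    have h4 := key n hn
    have h5 := key n' hn'
    omega

theorem length_prodW {n : ℕ} (w : Fin s → List (Letter m)) (L : ℕ) (hL : ∀ i, (w i).length ≤ L)
    (u : Fin n → Fin s × Bool) : (prodW w u).length ≤ n * L := by
  rw [prodW_ofFn]
  have h : ∀ l : List (Fin s × Bool), (prodL w l).length ≤ l.length * L := by
    intro l
    induction l with
    | nil => simp [prodL]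
    | cons x l ih =>
      have h1 : prodL w (x :: l) = (if x.2 then w x.1 else invW (w x.1)) ++ prodL w l := by
        simp [prodL]
      rw [h1, List.length_append, List.length_cons, add_mul, one_mul, add_comm]
      have h2 : (if x.2 then w x.1 else invW (w x.1)).length ≤ L := by
        split_ifs
        · exact hL _
        · unfold invW
          rw [List.length_reverse, List.length_map]
          exact hL _
      exact add_le_add ih h2
  have h1 := h (List.ofFn u)
  rwa [List.length_ofFn] at h1

open Classical in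
/-- **Random products and a fixed link.** -/
theorem vas_random (hm : 0 < m) (hs : 0 < s) (O : Outer m) (w : Fin s → List (Letter m)) (n1 : ℕ)
    (u1 : Fin n1 → Fin s × Bool) (r : ℕ) (hr : IsPure (powW (prodW w u1) r))
    (hM : Linked O (powW (prodW w u1) r)) (v : List (Letter m)) (L : ℕ)
    (hL : ∀ i, (w i).length ≤ L) (X : Dia) (n : ℕ) (hn : 0 < n) (d : ℕ)
    (hd : 2 * (osize O + (2 * m + 1) * (n * L + v.length) + size X) < d) :
    ((univ.filter (fun u : Fin n → Fin s × Bool =>
      ¬ Separated d (vdia O (prodW w u ++ v)) X)).card : ℝ) ≤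
        (m.factorial * Cst (2 * s : ℝ) (dimB m + 1)) * (n : ℝ) ^ (- ex (dimB m + 1)) *
          (2 * s : ℝ) ^ n := by
  refine le_trans ?_ (lk_random_all hm hs O w n1 u1 r hr hM v X.D.fPoly n hn)
  refine cardle _ _ _ _ id Function.injective_id fun u hu => ?_
  refine nsep_eq O _ X d ?_ hu
  rw [List.length_append]
  simp only [id]
  have h1 := length_prodW w L hL u
  have h2 : (2 * m + 1) * ((prodW w u).length + v.length) ≤ (2 * m + 1) * (n * L + v.length) :=
    Nat.mul_le_mul_left _ (Nat.add_le_add_right h1 _)
  omega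


end Pool.Agent.V11227.JL
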