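import Pool.Agent.V11227.JonesLk1

/-!
# Annihilating polynomials with a nonzero constant term
-/

set_option autoImplicit false

namespace Pool.Agent.V11227.JL

open Finset Polynomial Pool.Agent.H891R2.Jones Pool.Agent.W639.RB Pool.Agent.Y463.SK

theorem dvd_eval_sub {R : Type*} [CommRing R] (π : R) (p : R[X]) (hp : p.Monic)
    (h : ∀ j, π ^ (p.natDegree - j) ∣ p.coeff j) (γ : R) : π ∣ p.eval γ - γ ^ p.natDegree := by
  rw [eval_eq_sum_range, Finset.sum_range_succ, hp.coeff_natDegree, one_mul, add_sub_cancel_right]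
  apply Finset.dvd_sum
  intro j hj
  rw [Finset.mem_range] at hj
  apply Dvd.dvd.mul_right
  exact (dvd_pow_self π (by omega)).trans (h j)

theorem exists_annih {R S : Type*} [CommRing R] [Ring S] [Algebra R S] [Module.Finite R S] (π : R)
    (htf : ∀ x : S, π • x = 0 → x = 0) {Q : Type*} [Ring Q] (q : S →+* Q)
    (hq : Function.Surjective q) (hker : ∀ x, q x = 0 → ∃ y, x = π ^ 2 • y) (b1 : S) (y : Q)
    (hy : q (π • b1) = q (algebraMap R S π) * y) (g : ℤ[X]) (hg : aeval y g = 0) :
    ∃ P : R[X], aeval b1 P = 0 ∧ ∃ k : ℕ, π ∣ P.coeff 0 - (g.coeff 0 : R) ^ k := by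
  obtain ⟨η, hη⟩ := hq y
  obtain ⟨z, hz⟩ := hker (π • (b1 - η)) (by
    rw [smul_sub, map_sub, hy, ← hη, Algebra.smul_def π η, map_mul, sub_self])
  have hb1 : b1 = η + π • z := by
    have h1 : π • (b1 - η - π • z) = 0 := by
      rw [smul_sub, hz, smul_smul, ← pow_two, sub_self]
    have h2 := htf _ h1
    rw [sub_sub, sub_eq_zero] at h2
    exact h2
  obtain ⟨z', hz'⟩ := hker (aeval η g) (by
    have h1 := aeval_algHom_apply q.toIntAlgHom η g
    have h2 : q.toIntAlgHom (aeval η g) = q (aeval η g) := rfl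
    rw [← h2, ← h1]
    show aeval (q η) g = 0
    rw [hη, hg])
  have hmem : aeval b1 g ∈ II S π := by
    set q1 : S →+* S ⧸ II S π := Ideal.Quotient.mk _ with hq1
    have e1 : q1 b1 = q1 η := by
      rw [hb1, map_add]
      have : q1 (π • z) = 0 := by
        rw [hq1, Ideal.Quotient.eq_zero_iff_mem, mem_II]
        exact ⟨z, rfl⟩
      rw [this, add_zero]
    have e2 : q1 (aeval b1 g) = aeval (q1 b1) g := (aeval_algHom_apply q1.toIntAlgHom b1 g).symm
    have e3 : q1 (aeval η g) = aeval (q1 η) g := (aeval_algHom_apply q1.toIntAlgHom η g).symm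
    rw [← Ideal.Quotient.eq_zero_iff_mem, ← hq1, e2, e1, ← e3, hz', hq1,
      Ideal.Quotient.eq_zero_iff_mem, mem_II]
    exact ⟨π • z', by rw [smul_smul, ← pow_two]⟩
  rw [mem_II] at hmem
  obtain ⟨t, ht⟩ := hmem
  set a := aeval b1 g with ha
  obtain ⟨p, hp1, hp2, hp3, hp4⟩ :=
    LinearMap.exists_monic_and_natDegree_eq_and_coeff_mem_pow_and_aeval_eq_zero R (Algebra.lmul R S a)
    (Ideal.span {π}) (by
      rintro _ ⟨y, rfl⟩
      rw [ht]
      have : (Algebra.lmul R S) (π • t) y = π • (t * y) := by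
        rw [map_smul]; rfl
      rw [this]
      exact Submodule.smul_mem_smul (Ideal.subset_span rfl) Submodule.mem_top)
  have hpa : aeval a p = 0 := by
    have h2 : aeval (Algebra.lmul R S a) p = Algebra.lmul R S (aeval a p) :=
      aeval_algHom_apply (Algebra.lmul R S) a p
    rw [h2] at hp4
    have h3 := congrArg (fun f : Module.End R S => f 1) hp4
    simpa using h3
  refine ⟨p.comp (g.map (algebraMap ℤ R)), ?_, p.natDegree, ?_⟩
  · rw [aeval_comp, aeval_map_algebraMap, ← ha, hpa]
  · have e1 : (p.comp (g.map (algebraMap ℤ R))).coeff 0 = p.eval (g.coeff 0 : R) := by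
      rw [coeff_zero_eq_eval_zero, eval_comp, eval_map, eval₂_at_zero]
      simp
    rw [e1]
    apply dvd_eval_sub π p hp1
    intro j
    have := hp3 j
    rw [Ideal.span_singleton_pow, Ideal.mem_span_singleton] at this
    exact this

/-! ### the crossing numbers -/

variable {m : ℕ}

/-- The signed number of the crossings of the braid word `w` between the strands that start at the
places `a` and `b`. -/
def cr : List (Letter m) → Fin m → Fin m → ℤ
  | [], _, _ => 0
  | (x :: w), a, b => 
      (if (a = ⟨x.2, by omega⟩ ∧ b = ⟨x.2 + 1, by omega⟩) ∨ (a = ⟨x.2 + 1, by omega⟩ ∧ b = ⟨x.2, by omega⟩)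
        then (if x.1 then 1 else -1) else 0) + cr w (swp x a) (swp x b)

theorem sum_pair {V : Type*} [AddCommGroup V] (i j : Fin m) (hij : i ≠ j) (ε : ℤ) 
    (f : Fin m → Fin m → V) :
    ∑ a, ∑ b, (if (a = i ∧ b = j) ∨ (a = j ∧ b = i) then ε else 0) • f a b = 
      ε • f i j + ε • f j i := by
  have h1 : ∀ a b, (if (a = i ∧ b = j) ∨ (a = j ∧ b = i) then ε else 0) • f a b = 
      (if a = i then (if b = j then ε • f a b else 0) else 0) + 
      (if a = j then (if b = i then ε • f a b else 0) else 0) := by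
    intro a b
    by_cases ha : a = i
    · subst ha
      by_cases hb : b = j
      · subst hb; simp [hij]
      · simp [hb, hij]
    · by_cases ha' : a = j
      · subst ha'
        by_cases hb : b = i
        · subst hb; simp [ha]
        · simp [hb, ha]
      · simp [ha, ha']
  simp only [h1, Finset.sum_add_distrib]
  congr 1
  · rw [Finset.sum_comm]
    simp
  · rw [Finset.sum_comm]
    simp

theorem sum_cr_cons {V : Type*} [AddCommGroup V] (x : Letter m) (w : List (Letter m)) 
    (f : Fin m → Fin m → V) :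
    ∑ a, ∑ b, cr (x :: w) a b • f a b = eps x • f ⟨x.2, by omega⟩ ⟨x.2 + 1, by omega⟩ + 
      eps x • f ⟨x.2 + 1, by omega⟩ ⟨x.2, by omega⟩ + 
      ∑ a, ∑ b, cr w a b • f (swp x a) (swp x b) := by
  have h2 : ∀ a : Fin m, swp x (swp x a) = a := fun a => Equiv.swap_apply_self _ _ a
  have h1 : ∑ a, ∑ b, cr w (swp x a) (swp x b) • f a b = 
      ∑ a, ∑ b, cr w a b • f (swp x a) (swp x b) := by
    rw [← Equiv.sum_comp (swp x) (fun a => ∑ b, cr w a b • f (swp x a) (swp x b))]
    refine Finset.sum_congr rfl fun a _ => ?_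
    rw [← Equiv.sum_comp (swp x) (fun b => cr w (swp x a) b • f (swp x (swp x a)) (swp x b))]
    refine Finset.sum_congr rfl fun b _ => ?_
    rw [h2, h2]
  rw [← h1]
  simp only [cr, add_smul, Finset.sum_add_distrib]
  congr 1
  exact sum_pair _ _ (by intro h; simp [Fin.ext_iff] at h) _ f

theorem th_eq (w : List (Letter m)) : 
    th w = ∑ a, ∑ b, cr w a b • MonoidAlgebra.single (Equiv.swap a b) (1 : ℤ) := by
  induction w with
  | nil => simp [th, cr]
  | cons x w ih =>
    rw [sum_cr_cons, th, ih]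
    have h1 : Equiv.swap (⟨x.2 + 1, by omega⟩ : Fin m) ⟨x.2, by omega⟩ = swp x := Equiv.swap_comm _ _
    have h2 : Equiv.swap (⟨x.2, by omega⟩ : Fin m) ⟨x.2 + 1, by omega⟩ = swp x := rfl
    rw [h1, h2, ← add_smul, ← two_mul]
    congr 1
    rw [Finset.mul_sum, Finset.sum_mul]
    refine Finset.sum_congr rfl fun a _ => ?_
    rw [Finset.mul_sum, Finset.sum_mul]
    refine Finset.sum_congr rfl fun b _ => ?_
    rw [mul_smul_comm, smul_mul_assoc, MonoidAlgebra.single_mul_single, 
      MonoidAlgebra.single_mul_single, mul_one, mul_one]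
    congr 2
    have h3 : (swp x)⁻¹ = swp x := Equiv.swap_inv _ _
    have h4 := Equiv.swap_apply_apply (swp x) a b
    rw [h4, h3]

theorem two_esum (w : List (Letter m)) : 2 * esum w = ∑ a, ∑ b, cr w a b := by
  induction w with
  | nil => simp [esum, cr]
  | cons x w ih =>
    have h := sum_cr_cons x w (fun _ _ => (1 : ℤ))
    simp only [smul_eq_mul, mul_one] at h
    rw [h, esum_cons, ← ih]
    ring

theorem two_cost (w : List (Letter m)) : ∀ U : ℕ → ℤ, 
    2 * costS (toN w) U = ∑ a : Fin m, ∑ b : Fin m, cr w a b * (U a * U b) := by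
  induction w with
  | nil => intro U; simp [costS, cr, toN]
  | cons x w ih =>
    intro U
    have h := sum_cr_cons x w (fun a b => U (a : ℕ) * U (b : ℕ))
    simp only [smul_eq_mul] at h
    have e1 : costS (toN (x :: w)) U = eps x * (U x.2 * U (x.2 + 1)) + 
      costS (toN w) (U ∘ Equiv.swap (x.2 : ℕ) (x.2+1)) := rfl
    rw [h, e1, mul_add, ih]
    have e2 : ∀ a : Fin m, (U ∘ ⇑(Equiv.swap (x.2 : ℕ) (x.2+1))) (a : ℕ) = U (swp x a) := by
      intro a
      rw [Function.comp_apply]
      congr 1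
      exact Fin.val_injective.swap_apply (⟨x.2, by omega⟩ : Fin m) ⟨x.2 + 1, by omega⟩ a
    simp only [e2]
    ring

end Pool.Agent.V11227.JL
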