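import Pool.Agent.V11227.JonesPos2

/-!
# Powers of mostly positive braid words: words of letters, several powers
-/

set_option autoImplicit false

namespace Pool.Agent.V11227.JP

open Finset LaurentPolynomial Pool.Agent.H891R2.Jones Pool.Agent.W639.RB Pool.Agent.Y463.SK

variable {m : ℕ}

theorem fin_of_bound {S : Set ℤ} {B : ℕ} (h : ∀ Z : Finset ℤ, (∀ z ∈ Z, z ∈ S) → Z.card ≤ B) :
    S.Finite ∧ S.ncard ≤ B := by
  have hfin : S.Finite := by
    by_contra hinf
    obtain ⟨Z, hZ, hc⟩ := Set.Infinite.exists_subset_card_eq hinf (B + 1)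
    have := h Z (fun z hz => hZ hz)
    omega
  refine ⟨hfin, ?_⟩
  have := h hfin.toFinset (fun z hz => hfin.mem_toFinset.1 hz)
  rwa [← Set.ncard_eq_toFinset_card S hfin] at this

theorem costS_parallel (w : List (Bool × ℕ)) : ∀ (U : ℕ → ℤ) (e : ℤ), e * e = 1 →
    (∀ j, j < m → U j = e) → (∀ x ∈ w, x.2 + 1 < m) → costS w U = pos w - neg w := by
  induction w with
  | nil => intro U e _ _ _; simp [costS, pos, neg]
  | cons x w ih =>
    intro U e he hU hw
    have hx := hw x List.mem_cons_self
    have h1 := ih (U ∘ Equiv.swap x.2 (x.2+1)) e he (by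
      intro j hj
      rw [Function.comp_apply]
      by_cases h1 : j = x.2
      · rw [h1, Equiv.swap_apply_left]; exact hU _ hx
      · by_cases h2 : j = x.2 + 1
        · rw [h2, Equiv.swap_apply_right]; exact hU _ (by omega)
        · rw [Equiv.swap_apply_of_ne_of_ne h1 h2]; exact hU j hj)
      (fun y hy => hw y (List.mem_cons_of_mem _ hy))
    rw [costS, h1, hU x.2 (by omega), hU (x.2+1) hx, he]
    obtain ⟨b, i⟩ := x
    cases b
    · have e1 : pos ((false, i) :: w) = pos w := by simp [pos]
      have e2 : neg ((false, i) :: w) = neg w + 1 := by simp [neg]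
      rw [e1, e2]
      simp only [Bool.false_eq_true, if_false]
      push_cast
      ring
    · have e1 : pos ((true, i) :: w) = pos w + 1 := by simp [pos]
      have e2 : neg ((true, i) :: w) = neg w := by simp [neg]
      rw [e1, e2]
      simp only [if_true]
      push_cast
      ring

/-- the number of the positive letters of a word -/
def positive (w : List (Letter m)) : ℕ := w.countP (fun x => x.1)

/-- the number of the negative letters of a word -/
def negative (w : List (Letter m)) : ℕ := w.countP (fun x => !x.1)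

theorem pos_toN (w : List (Letter m)) : pos (toN w) = positive w := by
  unfold pos toN positive
  rw [List.countP_map]
  rfl

theorem neg_toN (w : List (Letter m)) : neg (toN w) = negative w := by
  unfold neg toN negative
  rw [List.countP_map]
  rfl

/-- The power `w ^ r` is mostly positive or mostly negative in the diagram `dia O u`. -/
def Mostly (O : Outer m) (u w : List (Letter m)) (r : ℕ) : Prop :=
  (r : ℤ) * (positive w + 3 * negative w) <
      3 * ((dia O (u ++ powW w r)).writhe - (dia O u).writhe) ∨
    (r : ℤ) * (negative w + 3 * positive w) <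
      3 * ((dia O u).writhe - (dia O (u ++ powW w r)).writhe)

theorem writhe_dia (O : Outer m) (x : List (Letter m)) :
    (dia O x).writhe = owr O + costS (toN x) (pat O.up) := by
  show (draw O (toN x)).close.writhe = _
  rw [close_writhe, (draw_writhe (toN x) O (toN_lt _)).1]

theorem mostly_big (O : Outer m) (u w : List (Letter m)) (r : ℕ) (h : Mostly O u w r) :
    Big (draw O (toN u)) (toN w) r := by
  have e : (dia O (u ++ powW w r)).writhe - (dia O u).writhe =
      wr (draw O (toN u)) (powL (toN w) r) := by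
    rw [writhe_dia, writhe_dia, toN_append, toN_pow, costS_append]
    unfold wr
    rw [(draw_writhe (toN u) O (toN_lt _)).2]
    ring
  have e' : (dia O u).writhe - (dia O (u ++ powW w r)).writhe =
      -wr (draw O (toN u)) (powL (toN w) r) := by rw [← e]; ring
  unfold Mostly at h
  rw [e, e'] at h
  unfold Big
  rw [pos_toN, neg_toN]
  rcases h with h | h
  · exact Or.inl h
  · right; linarith

theorem dia_eq (O : Outer m) (u x : List (Letter m)) : 
    (dia O (u ++ x)).fPoly = ff (draw O (toN u)) (toN x) := by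
  rw [dia_fPoly, toN_append]
  unfold ff
  rw [draw_append]

theorem letters_one (hm : 0 < m) (O : Outer m) (u w v : List (Letter m)) (r : ℕ) (hr : 0 < r)
    (hp : IsPure (powW w r)) (h : Mostly O u w r) (F : ℤ[T;T⁻¹]) (hF : F ≠ 0) :
    {n : ℤ | (dia O (u ++ (powW w n ++ v))).fPoly = F}.Finite ∧
      {n : ℤ | (dia O (u ++ (powW w n ++ v))).fPoly = F}.ncard ≤ r * m.factorial := by
  apply fin_of_bound
  intro Z hZ
  have hp' : permL (powL (toN w) r) = 1 := by rw [← toN_pow]; exact permL_of_pure hp
  refine one_word hm (draw O (toN u)) (toN w) (toN_lt _) r hr hp' (mostly_big O u w r h) (toN v)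
    (toN_lt _) F hF Z (fun z hz => ?_)
  have := hZ z hz
  rw [Set.mem_ofPred_eq, dia_eq, toN_append, toN_pow] at this
  exact this

/-- all strands have the same direction -/
theorem mostly_parallel (O : Outer m) (hO : ∀ i j, O.up i = O.up j) (u w : List (Letter m)) (r : ℕ)
    (hr : 0 < r) (h : 3 * negative w < positive w ∨ 3 * positive w < negative w) :
    Mostly O u w r := by
  have hr' : (0:ℤ) < r := by exact_mod_cast hr
  obtain ⟨e, he, hU⟩ : ∃ e : ℤ, e * e = 1 ∧ ∀ j, j < m → pat O.up j = e := by
    rcases Nat.eq_zero_or_pos m with h0 | h0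
    · exact ⟨1, by norm_num, fun j hj => by omega⟩
    · refine ⟨if O.up ⟨0, h0⟩ then 1 else -1, by split_ifs <;> norm_num, fun j hj => ?_⟩
      unfold pat
      rw [dif_pos hj, hO ⟨j, hj⟩ ⟨0, h0⟩]
  have e1 : (dia O (u ++ powW w r)).writhe - (dia O u).writhe = r * positive w - r * negative w := by
    rw [writhe_dia, writhe_dia, toN_append, toN_pow, costS_append,
      costS_parallel (m := m) (powL (toN w) r) _ e he _ (powL_lt (toN_lt _) _), powL_nat, pos_flat,
      neg_flat, pos_toN, neg_toN]
    · push_cast; ring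
    · intro j hj
      rw [Function.comp_apply, (permL_toN u).1 ⟨j, hj⟩]
      exact hU _ (Fin.is_lt _)
  unfold Mostly
  rw [e1]
  have e2 : (dia O u).writhe - (dia O (u ++ powW w r)).writhe =
      -(r * positive w - r * negative w) := by rw [← e1]; ring
  rw [e2]
  rcases h with h | h
  · left
    have h' : (3:ℤ) * negative w < positive w := by exact_mod_cast h
    nlinarith
  · right
    have h' : (3:ℤ) * positive w < negative w := by exact_mod_cast h
    nlinarith

/-- **Several powers.** -/
theorem letters_multi {k : ℕ} (hm : 0 < m) (O : Outer m) (hO : ∀ i j, O.up i = O.up j)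
    (w v : Fin k → List (Letter m)) (r : Fin k → ℕ) (hr0 : ∀ i, 0 < r i)
    (hr : ∀ i, IsPure (powW (w i) (r i)))
    (h : ∃ i, 3 * negative (w i) < positive (w i) ∨ 3 * positive (w i) < negative (w i))
    (s : Fin k → ℤ) (F : ℤ[T;T⁻¹]) (hF : F ≠ 0) [DecidableEq ℤ[T;T⁻¹]] (A : Fin k → Finset ℤ) :
    ((Fintype.piFinset A).filter
      (fun q => (dia O (multiW w v (fun i => r i * q i + s i))).fPoly = F)).card ≤
        m.factorial * ∑ i, ∏ j ∈ univ.erase i, (A j).card := by
  classical
  refine (multi_general hm O w v r hr s F).resolve_left ?_ A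
  intro hall
  obtain ⟨i, hi⟩ := h
  obtain ⟨pre, post, hpp⟩ := flatten_update k (fun j => powW (w j) (s j) ++ v j) i
  have key : ∀ t : ℤ, multiW w v (fun j => r j * (Function.update (0 : Fin k → ℤ) i t) j + s j) =
      pre ++ (powW (w i) (r i * t + s i) ++ v i) ++ post := by
    intro t
    rw [← hpp]
    unfold multiW
    congr 2
    funext j
    by_cases hj : j = i
    · subst hj
      simp only [Function.update_self]
    · simp only [Function.update_of_ne hj, Pi.zero_apply, mul_zero, zero_add]
  have hp' : permL (powL (toN (w i)) (r i)) = 1 := by rw [← toN_pow]; exact permL_of_pure (hr i)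
  refine no_class hm (draw O (toN pre)) (toN (w i)) (toN_lt _) (r i) hp'
    (mostly_big O pre (w i) (r i) (mostly_parallel O hO pre (w i) (r i) (hr0 i) hi)) (s i)
    (toN (v i ++ post)) (toN_lt _) F hF (fun t => ?_)
  have h1 := hall (Function.update (0 : Fin k → ℤ) i t)
  rw [key t, List.append_assoc, List.append_assoc, dia_eq, toN_append, toN_pow] at h1
  exact h1

/-! ### the polynomials are not zero -/

/-- reduction modulo `3` at `A = 1` -/
noncomputable def ph3 : ℤ[T;T⁻¹] →+* ZMod 3 :=
  LaurentPolynomial.eval₂ (Int.castRingHom (ZMod 3)) (1 : (ZMod 3)ˣ)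

theorem ph3_T (n : ℤ) : ph3 (T n) = 1 := by
  unfold ph3
  rw [LaurentPolynomial.eval₂_T]
  simp

theorem ph3_d : ph3 (-T 2 - T (-2)) = 1 := by
  rw [map_sub, map_neg, ph3_T, ph3_T]
  decide

theorem ph3_bracket {P : Type} (D : Diagram P) : ph3 D.bracket ≠ 0 := by
  unfold Diagram.bracket
  rw [map_sum]
  simp only [map_mul, map_pow, ph3_T, ph3_d, one_pow, mul_one, Finset.sum_const, Finset.card_univ,
    Fintype.card_pi, Fintype.card_bool, Finset.prod_const, Fintype.card_fin, nsmul_eq_mul]
  have h20 : (2 : ZMod 3) ≠ 0 := by decide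
  have hF : Fact (Nat.Prime 3) := ⟨Nat.prime_three⟩
  have h2 : ((2 : ZMod 3)) ^ D.crossings.length ≠ 0 := pow_ne_zero _ h20
  intro h1
  apply h2
  exact_mod_cast h1

theorem fPoly_ne {P : Type} (D : Diagram P) : D.fPoly ≠ 0 := by
  intro h
  have h10 : (1 : ZMod 3) ≠ 0 := by decide
  have h11 : (-1 : ZMod 3) ≠ 0 := by decide
  have h1 := congrArg ph3 h
  unfold Diagram.fPoly at h1
  rw [map_zero, map_mul, map_mul, ph3_T, mul_one] at h1
  have hF : Fact (Nat.Prime 3) := ⟨Nat.prime_three⟩
  rcases mul_eq_zero.1 h1 with h2 | h2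
  · split_ifs at h2
    · rw [map_one] at h2; exact h10 h2
    · rw [map_neg, map_one] at h2; exact h11 h2
  · exact ph3_bracket D h2

/-- one power, every value -/
theorem letters_one' (hm : 0 < m) (O : Outer m) (u w v : List (Letter m)) (r : ℕ) (hr : 0 < r)
    (hp : IsPure (powW w r)) (h : Mostly O u w r) (F : ℤ[T;T⁻¹]) :
    {n : ℤ | (dia O (u ++ (powW w n ++ v))).fPoly = F}.Finite ∧
      {n : ℤ | (dia O (u ++ (powW w n ++ v))).fPoly = F}.ncard ≤ r * m.factorial := by
  by_cases hF : F = 0
  · have : {n : ℤ | (dia O (u ++ (powW w n ++ v))).fPoly = F} = ∅ := by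
      ext n
      simp only [Set.mem_ofPred_eq, Set.mem_empty_iff_false, iff_false, hF]
      exact fPoly_ne _
    rw [this]
    exact ⟨Set.finite_empty, by simp⟩
  · exact letters_one hm O u w v r hr hp h F hF

/-- many different polynomials -/
theorem letters_image (hm : 0 < m) (O : Outer m) (u w v : List (Letter m)) (r : ℕ) (hr : 0 < r)
    (hp : IsPure (powW w r)) (h : Mostly O u w r) [DecidableEq ℤ[T;T⁻¹]] (Z : Finset ℤ) :
    Z.card ≤ r * m.factorial * (Z.image fun n => (dia O (u ++ (powW w n ++ v))).fPoly).card := by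
  apply Finset.card_le_mul_card_image
  intro F _
  obtain ⟨h1, h2⟩ := letters_one' hm O u w v r hr hp h F
  refine le_trans ?_ h2
  rw [← Set.ncard_coe_finset]
  apply Set.ncard_le_ncard _ h1
  intro n hn
  have := (Finset.mem_filter.1 (Finset.mem_coe.1 hn)).2
  exact this

/-- several powers, every value -/
theorem letters_multi' {k : ℕ} (hm : 0 < m) (O : Outer m) (hO : ∀ i j, O.up i = O.up j)
    (w v : Fin k → List (Letter m)) (r : Fin k → ℕ) (hr0 : ∀ i, 0 < r i)
    (hr : ∀ i, IsPure (powW (w i) (r i)))
    (h : ∃ i, 3 * negative (w i) < positive (w i) ∨ 3 * positive (w i) < negative (w i))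
    (s : Fin k → ℤ) (F : ℤ[T;T⁻¹]) [DecidableEq ℤ[T;T⁻¹]] (A : Fin k → Finset ℤ) :
    ((Fintype.piFinset A).filter
      (fun q => (dia O (multiW w v (fun i => r i * q i + s i))).fPoly = F)).card ≤
        m.factorial * ∑ i, ∏ j ∈ univ.erase i, (A j).card := by
  by_cases hF : F = 0
  · rw [Finset.filter_false_of_mem]
    · simp
    · intro q _
      rw [hF]
      exact fPoly_ne _
  · exact letters_multi hm O hO w v r hr0 hr h s F hF A

/-- the diagrams are closed -/
theorem letters_closed (O : Outer m) (hO : ∀ j, O.up j = true) (hcl : O.close.IsClosed)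
    (x : List (Letter m)) : (dia O x).IsClosed :=
  draw_closed (toN x) O (toN_lt x) hO hcl

end Pool.Agent.V11227.JP
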