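import Pool.Agent.V11227.JonesLk2
import Pool.Agent.V11227.JonesPos3

/-!
# Diagonally dominant elements of the group algebra of the symmetric group
-/

set_option autoImplicit false

namespace Pool.Agent.V11227.JL

open Finset Polynomial Pool.Agent.H891R2.Jones Pool.Agent.W639.RB Pool.Agent.Y463.SK

theorem dominant {G : Type*} [Group G] [Fintype G] (κ : ℤ) (ξ : MonoidAlgebra ℤ G)
    (h : ∑ σ, |ξ.coeff σ| < |κ|) (ζ : MonoidAlgebra ℤ G)
    (hz : (κ • (1 : MonoidAlgebra ℤ G) + ξ) * ζ = 0) : ζ = 0 := by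
  classical
  by_contra hne
  obtain ⟨σ0, -, hmax⟩ := Finset.exists_max_image (univ : Finset G) (fun σ => |ζ.coeff σ|) 
    ⟨1, mem_univ _⟩
  have hpos : 0 < |ζ.coeff σ0| := by
    by_contra hcon
    apply hne
    ext σ
    have h1 := hmax σ (mem_univ _)
    have h2 : |ζ.coeff σ| ≤ 0 := h1.trans (not_lt.1 hcon)
    simpa using abs_nonpos_iff.1 h2
  have h1 : κ * ζ.coeff σ0 + ∑ τ, ξ.coeff τ * ζ.coeff (τ⁻¹ * σ0) = 0 := by
    have h2 := congrArg (fun z : MonoidAlgebra ℤ G => z.coeff σ0) hz
    simp only [add_mul, smul_mul_assoc, one_mul] at h2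
    have h3 : (ξ * ζ).coeff σ0 = ∑ τ, ξ.coeff τ * ζ.coeff (τ⁻¹ * σ0) := by
      rw [MonoidAlgebra.coeff_mul_apply_left, Finsupp.sum_fintype]
      intro i; simp
    rw [MonoidAlgebra.coeff_add, Finsupp.add_apply, h3, MonoidAlgebra.coeff_smul_apply, smul_eq_mul]
      at h2
    simpa using h2
  have h4 : |κ| * |ζ.coeff σ0| ≤ (∑ σ, |ξ.coeff σ|) * |ζ.coeff σ0| := by
    rw [← abs_mul, eq_neg_of_add_eq_zero_left h1, abs_neg, Finset.sum_mul]
    refine (Finset.abs_sum_le_sum_abs _ _).trans (Finset.sum_le_sum fun τ _ => ?_)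
    rw [abs_mul]
    exact mul_le_mul_of_nonneg_left (hmax _ (mem_univ _)) (abs_nonneg _)
  have h5 := mul_lt_mul_of_pos_right h hpos
  linarith

/-- an element which is not a left zero divisor is annihilated by a polynomial with a nonzero
constant term -/
theorem exists_g {G : Type*} [Group G] [Fintype G] (η : MonoidAlgebra ℤ G)
    (h : ∀ ζ : MonoidAlgebra ℤ G, η * ζ = 0 → ζ = 0) :
    ∃ g : ℤ[X], g.coeff 0 ≠ 0 ∧ aeval η g = 0 := by
  classical
  set b := MonoidAlgebra.basis G ℤ with hb
  set M := Algebra.leftMulMatrix b η with hM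
  refine ⟨M.charpoly, ?_, ?_⟩
  · intro h0
    have hdet : M.det = 0 := by rw [Matrix.det_eq_sign_charpoly_coeff, h0, mul_zero]
    obtain ⟨v, hv, hv0⟩ := Matrix.exists_mulVec_eq_zero_iff.2 hdet
    set ζ : MonoidAlgebra ℤ G := b.equivFun.symm v with hζ
    have h1 : (b.repr ζ : G → ℤ) = v := by
      have : b.equivFun ζ = v := by rw [hζ, LinearEquiv.apply_symm_apply]
      rwa [Module.Basis.equivFun_apply] at this
    have h2 := Algebra.leftMulMatrix_mulVec_repr b η ζ
    rw [h1, ← hM, hv0] at h2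
    have h3 : η * ζ = 0 := by
      apply b.repr.injective
      rw [map_zero]
      ext i
      exact (congrFun h2 i).symm
    have h4 := h ζ h3
    apply hv
    rw [← h1, h4]
    simp
  · apply Algebra.leftMulMatrix_injective b
    rw [map_zero, ← aeval_algHom_apply, ← hM, Matrix.aeval_self_charpoly]

variable {m : ℕ}

theorem th_coeff (w : List (Letter m)) :
    ∑ σ, |(th w).coeff σ| ≤ ∑ a, ∑ b, |cr w a b| := by
  classical
  have h1 : ∀ σ, (th w).coeff σ = ∑ a, ∑ b, (if Equiv.swap a b = σ then cr w a b else 0) := by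
    intro σ
    rw [th_eq, MonoidAlgebra.coeff_sum, Finset.sum_apply']
    refine Finset.sum_congr rfl fun a _ => ?_
    rw [MonoidAlgebra.coeff_sum, Finset.sum_apply']
    refine Finset.sum_congr rfl fun b _ => ?_
    rw [MonoidAlgebra.coeff_smul_apply, MonoidAlgebra.coeff_single, Finsupp.single_apply]
    split_ifs <;> simp
  calc ∑ σ, |(th w).coeff σ| ≤ ∑ σ, ∑ a, ∑ b, |if Equiv.swap a b = σ then cr w a b else 0| := by
        refine Finset.sum_le_sum fun σ _ => ?_
        rw [h1]
        refine (Finset.abs_sum_le_sum_abs _ _).trans (Finset.sum_le_sum fun a _ => ?_)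
        exact Finset.abs_sum_le_sum_abs _ _
    _ = ∑ a, ∑ b, |cr w a b| := by
        rw [Finset.sum_comm]
        refine Finset.sum_congr rfl fun a _ => ?_
        rw [Finset.sum_comm]
        refine Finset.sum_congr rfl fun b _ => ?_
        rw [Finset.sum_eq_single (Equiv.swap a b)]
        · rw [if_pos rfl]
        · intro σ _ hσ
          rw [if_neg (fun h => hσ h.symm), abs_zero]
        · intro h; exact absurd (mem_univ _) h

end Pool.Agent.V11227.JL
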