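import Pool.Agent.V11227.JonesLk3

/-!
# Powers of pure braids with enough linking
-/

set_option autoImplicit false

namespace Pool.Agent.V11227.JL

open Finset LaurentPolynomial Pool.Agent.H891R2.Jones Pool.Agent.W639.RB Pool.Agent.Y463.SK

variable {m : ℕ}

theorem ev_pi_ne (N : ℕ) (hN : 3 ≤ N) : ev N hN (T 1 + 1) ≠ 0 := by
  rw [map_add, ev_T1, map_one]
  intro h
  have h1 := congrArg Complex.im h
  unfold Ar at h1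
  simp only [Complex.add_im, Complex.mul_im, Complex.I_re, Complex.I_im, Complex.ofReal_re,
    Complex.ofReal_im, Complex.one_im, Complex.zero_im] at h1
  have h2 : 0 < Real.sqrt (xr N) := Real.sqrt_pos.2 (by have := xr_gt N hN; linarith)
  linarith

/-- torsion-freeness -/
theorem tf (x : BB m) (h : (T 1 + 1 : ℤ[T;T⁻¹]) • x = 0) : x = 0 := by
  funext N
  have h1 := congrFun h N
  rw [BB_smul] at h1
  exact (smul_eq_zero.1 h1).resolve_left (ev_pi_ne N.1 N.2)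

/-- `A^(2j) ≡ 1 - 2 j (A + 1)` modulo `(A + 1)^2` -/
theorem T_even (c : ℤ) (hc : Even c) :
    ∃ t : ℤ[T;T⁻¹], T c = 1 - (c : ℤ[T;T⁻¹]) * (T 1 + 1) + (T 1 + 1) ^ 2 * t := by
  obtain ⟨j, rfl⟩ := hc
  have h2 : (T 2 : ℤ[T;T⁻¹]) = 1 - 2 * (T 1 + 1) + (T 1 + 1) ^ 2 := by
    have : (T 2 : ℤ[T;T⁻¹]) = T 1 * T 1 := by rw [← T_add]; rfl
    rw [this]; ring
  have h2' : (T (-2) : ℤ[T;T⁻¹]) * T 2 = 1 := by rw [← T_add]; exact T_zero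
  induction j using Int.induction_on with
  | zero => exact ⟨0, by simp⟩
  | succ n ih =>
    obtain ⟨t, ht⟩ := ih
    set k : ℤ := (n : ℤ) + (n : ℤ) with hk
    refine ⟨t * T 2 + (1 - (k : ℤ[T;T⁻¹]) * (T 1 + 1)) + 2 * (k : ℤ[T;T⁻¹]), ?_⟩
    have e : (T ((n : ℤ) + 1 + ((n : ℤ) + 1)) : ℤ[T;T⁻¹]) = T k * T 2 := by
      rw [← T_add]; congr 1; rw [hk]; ring
    rw [e, ht]
    have hkc : (((n : ℤ) + 1 + ((n : ℤ) + 1) : ℤ) : ℤ[T;T⁻¹]) = (k : ℤ[T;T⁻¹]) + 2 := by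
      rw [hk]; push_cast; ring
    rw [hkc]
    have key : (1 - (k : ℤ[T;T⁻¹]) * (T 1 + 1)) * T 2 = 
        (1 - (k : ℤ[T;T⁻¹]) * (T 1 + 1)) * (1 - 2 * (T 1 + 1) + (T 1 + 1) ^ 2) := by rw [← h2]
    linear_combination key
  | pred n ih =>
    obtain ⟨t, ht⟩ := ih
    have h3 : ∃ s : ℤ[T;T⁻¹], T (-2) = 1 + 2 * (T 1 + 1) + (T 1 + 1) ^ 2 * s := by
      refine ⟨T (-2) * (3 - 2 * (T 1 + 1)) , ?_⟩
      have h4 : (T (-2) : ℤ[T;T⁻¹]) * (1 - 2 * (T 1 + 1) + (T 1 + 1) ^ 2) = 1 := by rw [← h2, h2']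
      linear_combination (1 + 2 * (T 1 + 1)) * h4
    obtain ⟨s, hs⟩ := h3
    set k : ℤ := -(n:ℤ) + -(n:ℤ) with hk
    have e : (T (-(n : ℤ) - 1 + (-(n : ℤ) - 1)) : ℤ[T;T⁻¹]) = T k * T (-2) := by
      rw [← T_add]; congr 1; rw [hk]; ring
    refine ⟨t * T (-2) + (1 - (k : ℤ[T;T⁻¹]) * (T 1 + 1)) * s - 2 * (k : ℤ[T;T⁻¹]), ?_⟩
    rw [e, ht]
    have hkc : ((-(n : ℤ) - 1 + (-(n : ℤ) - 1) : ℤ) : ℤ[T;T⁻¹]) = (k : ℤ[T;T⁻¹]) - 2 := by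
      rw [hk]; push_cast; ring
    rw [hkc]
    have key : (1 - (k : ℤ[T;T⁻¹]) * (T 1 + 1)) * T (-2) = 
        (1 - (k : ℤ[T;T⁻¹]) * (T 1 + 1)) * (1 + 2 * (T 1 + 1) + (T 1 + 1) ^ 2 * s) := by rw [← hs]
    linear_combination key

end Pool.Agent.V11227.JL
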