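import Pool.Agent.V11227.JonesLk4

/-!
# Powers of pure braids with enough linking: the first alternative is impossible
-/

set_option autoImplicit false

namespace Pool.Agent.V11227.JL

open Finset LaurentPolynomial Pool.Agent.H891R2.Jones Pool.Agent.W639.RB Pool.Agent.Y463.SK

variable {m : ℕ}

theorem calcA {Q : Type*} [Ring Q] (p E : Q) (k l : ℤ) (hpp : p * p = 0)
    (hpc : ∀ y : Q, p * y = y * p) :
    (1 + (k : Q) * p) * (1 + p * ((l : Q) + E)) - 1 = p * (((k + l : ℤ) : Q) + E) := by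
  calc (1 + (k : Q) * p) * (1 + p * ((l : Q) + E)) - 1
      = p * ((l : Q) + E) + (k : Q) * p + (k : Q) * (p * p) * ((l : Q) + E) := by noncomm_ring
    _ = p * ((l : Q) + E) + p * (k : Q) := by
        rw [hpp, mul_zero, zero_mul, add_zero, hpc (k : Q)]
    _ = p * (((k + l : ℤ) : Q) + E) := by
        rw [← mul_add]
        congr 1
        push_cast
        abel

theorem calcB {Q : Type*} [Ring Q] (p x : Q) (k : ℤ) (hpp : p * p = 0) :
    1 - ((-k : ℤ) : Q) * p + p ^ 2 * x = 1 + (k : Q) * p := by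
  rw [pow_two, hpp, zero_mul, add_zero]
  push_cast
  noncomm_ring

/-- the statement for an abstract finite algebra and an abstract quotient -/
theorem exists_b_q {R S : Type*} [CommRing R] [Ring S] [Algebra R S] [Module.Finite R S]
    {A A' d : R} {e : ℕ → S} (hA : A * A' = 1) (hd : d = - A ^ 2 - A' ^ 2) (hT : IsTLr m d e)
    (htf : ∀ x : S, (A + 1) • x = 0 → x = 0) (w : List (Letter m)) (hp : permW w = 1) (k : ℤ)
    (u : R) (hu : ∃ t, u = 1 - ((-k : ℤ) : R) * (A + 1) + (A + 1) ^ 2 * t)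
    (h : ∑ a, ∑ b, |cr w a b| < |k + esum w|) {Q : Type*} [Ring Q] (q : S →+* Q)
    (hqs : Function.Surjective q) (hker : ∀ x, q x = 0 → ∃ y, x = (A + 1) ^ 2 • y)
    (H : Mod2 A A' d e m q (q (algebraMap R S (A + 1)))) :
    ∃ b1 : S, u • wd A A' e (toN w) = 1 + (A + 1) • b1 ∧
      ∃ P : Polynomial R, Polynomial.aeval b1 P = 0 ∧ ∃ g0 : ℤ, g0 ≠ 0 ∧ ∃ j : ℕ, 
        (A + 1) ∣ P.coeff 0 - (g0 : R) ^ j := by
  obtain ⟨b, hb⟩ := wd_mod hA hd hT (toN w) (toN_lt w) (permL_of_pure hp)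
  obtain ⟨t, ht⟩ := hu
  obtain ⟨b1, hb1⟩ : ∃ b1 : S, u • wd A A' e (toN w) - 1 = (A + 1) • b1 := by
    refine ⟨((-((-k : ℤ) : R)) + (A + 1) * t) • wd A A' e (toN w) + b, ?_⟩
    rw [smul_add, ← hb, ht, smul_smul]
    have e1 : (1 - ((-k : ℤ) : R) * (A + 1) + (A + 1) ^ 2 * t) =
        1 + (A + 1) * ((-((-k : ℤ) : R)) + (A + 1) * t) := by ring
    rw [e1, add_smul, one_smul]
    abel
  obtain ⟨p, hpdef⟩ : ∃ p, p = q (algebraMap R S (A + 1)) := ⟨_, rfl⟩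
  rw [← hpdef] at H
  have hpc : ∀ y, p * y = y * p := by
    intro y
    obtain ⟨x, rfl⟩ := hqs y
    exact H.pc x
  have hword := word_mod2 H hpc w
  rw [hp, map_one, mul_one] at hword
  obtain ⟨g, hg0, hg⟩ := exists_g ((k + esum w) • 1 + th w) (fun ζ hζ =>
    dominant (k + esum w) (th w) (lt_of_le_of_lt (th_coeff w) h) ζ hζ)
  obtain ⟨Lf, hLf⟩ : ∃ Lf, Lf = MonoidAlgebra.lift ℤ Q (Equiv.Perm (Fin m)) (XX H.cox) := ⟨_, rfl⟩
  rw [← hLf] at hword
  have hy1 : Lf ((k + esum w) • 1 + th w) = ((k + esum w : ℤ) : Q) + Lf (th w) := by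
    rw [map_add, map_zsmul, map_one, zsmul_eq_mul, mul_one]
  have hqu : q (algebraMap R S u) = 1 + (k : Q) * p := by
    rw [ht, map_add, map_sub, map_one, map_mul, map_mul, map_pow, map_add, map_sub, map_one, map_mul,
      map_mul, map_pow, ← hpdef, map_intCast, map_intCast]
    exact calcB p _ k H.pp
  obtain ⟨P, hP, j, hj⟩ := exists_annih (A + 1) htf q hqs hker b1 (Lf ((k + esum w) • 1 + th w)) (by
      rw [← hb1, map_sub, map_one, Algebra.smul_def, map_mul, hqu, hword, hy1, ← hpdef]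
      exact calcA p _ k (esum w) H.pp hpc) g (by
      rw [Polynomial.aeval_algHom_apply Lf, hg, map_zero])
  exact ⟨b1, by rw [← hb1]; abel, P, hP, g.coeff 0, hg0, j, hj⟩

/-- the statement for an abstract finite algebra -/
theorem exists_b_gen {R S : Type*} [CommRing R] [Ring S] [Algebra R S] [Module.Finite R S]
    {A A' d : R} {e : ℕ → S} (hA : A * A' = 1) (hd : d = - A ^ 2 - A' ^ 2) (hT : IsTLr m d e)
    (htf : ∀ x : S, (A + 1) • x = 0 → x = 0) (w : List (Letter m)) (hp : permW w = 1) (k : ℤ)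
    (u : R) (hu : ∃ t, u = 1 - ((-k : ℤ) : R) * (A + 1) + (A + 1) ^ 2 * t)
    (h : ∑ a, ∑ b, |cr w a b| < |k + esum w|) :
    ∃ b1 : S, u • wd A A' e (toN w) = 1 + (A + 1) • b1 ∧
      ∃ P : Polynomial R, Polynomial.aeval b1 P = 0 ∧ ∃ g0 : ℤ, g0 ≠ 0 ∧ ∃ j : ℕ, 
        (A + 1) ∣ P.coeff 0 - (g0 : R) ^ j :=
  exists_b_q hA hd hT htf w hp k u hu h (Ideal.Quotient.mk (II S ((A + 1) ^ 2)))
    Ideal.Quotient.mk_surjective (fun x hx => by rwa [Ideal.Quotient.eq_zero_iff_mem, mem_II] at hx)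
    (mod2 (m := m) hA hd hT)

/-- the element `b = u w` and its annihilating polynomial -/
theorem exists_b (hm : 0 < m) (w : List (Letter m)) (hp : IsPure w) (c : ℤ) (hc : Even c)
    (h : ∑ a, ∑ b, |cr w a b| < |3 * c + esum w|) :
    ∃ b1 : BB m, (T (-3 * c) : ℤ[T;T⁻¹]) • bb m (toN w) = 1 + (T 1 + 1 : ℤ[T;T⁻¹]) • b1 ∧
      ∃ P : Polynomial ℤ[T;T⁻¹], Polynomial.aeval b1 P = 0 ∧ P.coeff 0 ≠ 0 := by
  classical
  -- the subalgebra
  obtain ⟨S0, hS0⟩ : ∃ S0, S0 = Algebra.adjoin ℤ[T;T⁻¹] (Set.range (EB m)) := ⟨_, rfl⟩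
  have hfg0 := (finrank_le (isTLr_EB m) hm (EB_zero m)).1
  rw [← hS0] at hfg0
  have hmem : ∀ i, EB m i ∈ S0 := fun i => by rw [hS0]; exact Algebra.subset_adjoin ⟨i, rfl⟩
  let e' : ℕ → S0 := fun i => ⟨EB m i, hmem i⟩
  have h' : IsTLr m (-(T 1)^2 - (T (-1))^2 : ℤ[T;T⁻¹]) e' := by
    refine ⟨?_, ?_, ?_, ?_⟩
    · intro i hi; exact Subtype.ext ((isTLr_EB m).sq i hi)
    · intro i hi; exact Subtype.ext ((isTLr_EB m).up i hi)
    · intro i hi; exact Subtype.ext ((isTLr_EB m).down i hi)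
    · intro i j hj hij; exact Subtype.ext ((isTLr_EB m).far i j hj hij)
  have hcoe : ((wd (T 1 : ℤ[T;T⁻¹]) (T (-1)) e' (toN w) : S0) : BB m) = bb m (toN w) := by
    unfold bb wd
    have : ∀ v : List (Bool × ℕ), (((v.map (ltr (T 1 : ℤ[T;T⁻¹]) (T (-1)) e')).prod : S0) : BB m) =
        (v.map (ltr (T 1 : ℤ[T;T⁻¹]) (T (-1)) (EB m))).prod := by
      intro v
      induction v with
      | nil => rfl
      | cons x v ih =>
        rw [List.map_cons, List.map_cons, List.prod_cons, List.prod_cons, Subalgebra.coe_mul, ih]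
        congr 1
        unfold ltr
        split_ifs <;> rfl
    exact this (toN w)
  have : Module.Finite ℤ[T;T⁻¹] S0 := ⟨hfg0⟩
  have htf : ∀ x : S0, (T 1 + 1 : ℤ[T;T⁻¹]) • x = 0 → x = 0 := by
    intro x hx
    apply Subtype.ext
    apply tf (x : BB m)
    exact congrArg Subtype.val hx
  obtain ⟨b1, hb1, P, hP, g0, hg0, j, hj⟩ := exists_b_gen T_mul_inv rfl h' htf w hp (3 * c)
    (T (-3 * c)) (by
      obtain ⟨t, ht⟩ := T_even (-3 * c) (hc.mul_left (-3))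
      exact ⟨t, by rw [ht]; push_cast; ring⟩) h
  refine ⟨(b1 : BB m), ?_, P, ?_, ?_⟩
  · have e1 := congrArg Subtype.val hb1
    have e2 : (((T (-3 * c) : ℤ[T;T⁻¹]) • wd (T 1 : ℤ[T;T⁻¹]) (T (-1)) e' (toN w) : S0) : BB m) =
        (T (-3 * c) : ℤ[T;T⁻¹]) • bb m (toN w) := by
      rw [← hcoe]; rfl
    have e3 : ((1 + (T 1 + 1 : ℤ[T;T⁻¹]) • b1 : S0) : BB m) =
        1 + (T 1 + 1 : ℤ[T;T⁻¹]) • (b1 : BB m) := rfl
    rw [e2, e3] at e1
    exact e1
  · have e1 := congrArg S0.val hP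
    rw [map_zero, ← Polynomial.aeval_algHom_apply] at e1
    exact e1
  · intro h0
    rw [h0, zero_sub, dvd_neg] at hj
    have e1 : evm ((g0 : ℤ[T;T⁻¹]) ^ j) = 0 := evm_eq_zero_iff.2 hj
    rw [map_pow, map_intCast] at e1
    have e2 : (g0 : ℤ) ^ j = 0 := by simpa using e1
    exact pow_ne_zero j hg0 e2

end Pool.Agent.V11227.JL
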