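import Pool.Agent.V11227.JonesLk5

/-!
# Powers of pure braids with enough linking: the bounds
-/

set_option autoImplicit false

namespace Pool.Agent.V11227.JL

open Finset LaurentPolynomial Pool.Agent.H891R2.Jones Pool.Agent.W639.RB Pool.Agent.Y463.SK

variable {m : ℕ}

/-- **The first alternative is impossible for pure words with enough linking.** -/
theorem no_all_lk (hm : 0 < m) (O : Outer m) (w : List (Letter m)) (hp : IsPure w)
    (v : List (Bool × ℕ)) (hv : ∀ x ∈ v, x.2 + 1 < m)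
    (h : ∑ a, ∑ b, |cr w a b| < |3 * costS (toN w) (pat O.up) + esum w|)
    (F : ℤ[T;T⁻¹]) (hF : F ≠ 0) : ¬ ∀ n : ℤ, ff O (powL (toN w) n ++ v) = F := by
  intro hall
  have hp' := permL_of_pure hp
  have hlt := toN_lt w
  obtain ⟨c, hcdef⟩ : ∃ c, c = costS (toN w) (pat O.up) := ⟨_, rfl⟩
  have hc : Even c := by rw [hcdef]; exact even_cost (toN w) hlt hp' O.up
  rw [← hcdef] at h
  obtain ⟨b1, hb, P, hP, hP0⟩ := exists_b hm w hp c hc h
  apply hF
  have hprod : P.coeff 0 * F = 0 := by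
    apply eq_zero_of_ev
    intro N hN
    have hA := Ar_ne N hN
    have key : ∀ n : ℤ, (N : ℂ) * ev N hN F =
      ((if Even (owr O + costS v (pat O.up)) then (1 : ℂ) else -1) *
        (Ar N) ^ (-3 * (owr O + costS v (pat O.up)))) *
      Fn O ⟨N, hN⟩ v ((T (-3 * (n * c)) : ℤ[T;T⁻¹]) • bb m (powL (toN w) n)) := by
      intro n
      have h1 := key_formula hm O (toN w) hlt hp' v hv ⟨N, hN⟩ n
      rw [hall n, ← hcdef] at h1
      exact h1
    obtain ⟨K, hK⟩ : ∃ K : ℂ, K = (if Even (owr O + costS v (pat O.up)) then (1 : ℂ) else -1) *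
        (Ar N) ^ (-3 * (owr O + costS v (pat O.up))) := ⟨_, rfl⟩
    rw [← hK] at key
    have hK0 : K ≠ 0 := by
      rw [hK]
      apply mul_ne_zero
      · split_ifs <;> norm_num
      · exact zpow_ne_zero _ hA
    set X : ℕ → BB m := fun n => (T (-3 * ((n : ℤ) * c)) : ℤ[T;T⁻¹]) • bb m (powL (toN w) n) with hX
    set b : BB m := (T (-3 * c) : ℤ[T;T⁻¹]) • bb m (toN w) with hbdef
    have hXs : ∀ n, X (n+1) = b * X n := by
      intro n
      simp only [hX]
      push_cast
      rw [bb_pow_succ (toN w) hlt n, hbdef, smul_mul_smul_comm, ← T_add]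
      congr 2
      ring
    have hconst : ∀ n, Fn O ⟨N, hN⟩ v (X n) = K⁻¹ * ((N : ℂ) * ev N hN F) := by
      intro n
      rw [key n, ← mul_assoc, inv_mul_cancel₀ hK0, one_mul]
    have hpow : ∀ k : ℕ, ∀ n : ℕ, Fn O ⟨N, hN⟩ v ((b - 1) ^ (k + 1) * X n) = 0 := by
      intro k
      induction k with
      | zero =>
        intro n
        rw [zero_add, pow_one, sub_mul, one_mul, ← hXs, Fn_sub, hconst, hconst, sub_self]
      | succ k ih =>
        intro n
        have e1 : (b - 1) ^ (k + 1 + 1) * X n = (b - 1) ^ (k + 1) * X (n + 1) -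
            (b - 1) ^ (k + 1) * X n := by
          rw [hXs, pow_succ]
          noncomm_ring
        rw [e1, Fn_sub, ih, ih, sub_zero]
    have hX0 : X 0 = 1 := by
      simp only [hX]
      have e1 : bb m (powL (toN w) (0 : ℕ)) = 1 := rfl
      rw [e1]
      simp
    have hb1 : b - 1 = (T 1 + 1 : ℤ[T;T⁻¹]) • b1 := by rw [hb, add_sub_cancel_left]
    have hφ : ∀ k : ℕ, Fn O ⟨N, hN⟩ v (b1 ^ (k + 1)) = 0 := by
      intro k
      have h1 := hpow k 0
      rw [hX0, mul_one, hb1, smul_pow, Fn_smul, map_pow] at h1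
      exact (mul_eq_zero.1 h1).resolve_left (pow_ne_zero _ (ev_pi_ne N hN))
    have h1 : Fn O ⟨N, hN⟩ v (Polynomial.aeval b1 P) =
        ev N hN (P.coeff 0) * Fn O ⟨N, hN⟩ v 1 := by
      rw [Polynomial.aeval_eq_sum_range, Finset.sum_range_succ', Fn_add, Fn_smul, pow_zero]
      have h2 : ∀ (s : Finset ℕ) (g : ℕ → BB m), (∀ i ∈ s, Fn O ⟨N, hN⟩ v (g i) = 0) →
          Fn O ⟨N, hN⟩ v (∑ i ∈ s, g i) = 0 := by
        classical
        intro s g
        induction s using Finset.induction_on with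
        | empty => intro _; simp [Fn_zero]
        | insert a s ha ih =>
          intro hg
          rw [Finset.sum_insert ha, Fn_add, hg a (Finset.mem_insert_self _ _),
            ih (fun i hi => hg i (Finset.mem_insert_of_mem hi)), add_zero]
      rw [h2, zero_add]
      intro i _
      rw [Fn_smul, hφ, mul_zero]
    rw [hP, Fn_zero, ← hX0, hconst] at h1
    have hN0 : (N : ℂ) ≠ 0 := by rw [Nat.cast_ne_zero]; omega
    rw [map_mul]
    have h3 : ev N hN (P.coeff 0) * ev N hN F = 0 := by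
      have h4 : ev N hN (P.coeff 0) * (K⁻¹ * ((N : ℂ) * ev N hN F)) =
          (K⁻¹ * N) * (ev N hN (P.coeff 0) * ev N hN F) := by ring
      rw [h4] at h1
      exact (mul_eq_zero.1 h1.symm).resolve_left (mul_ne_zero (inv_ne_zero hK0) hN0)
    exact h3
  exact (mul_eq_zero.1 hprod).resolve_left hP0

end Pool.Agent.V11227.JL
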