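import Pool.Agent.V11227.JonesPos3
import Pool.Agent.Y463.RW.Fin

/-!
# Random products of braids one of which is mostly positive
-/

set_option autoImplicit false

namespace Pool.Agent.V11227.JP

open Finset LaurentPolynomial Pool.Agent.H891R2.Jones Pool.Agent.W639.RB Pool.Agent.Y463.SK
  Pool.Agent.Y463.RW

variable {m s : ℕ}

/-- the product of a list of pairs -/
def prodL (w : Fin s → List (Letter m)) (l : List (Fin s × Bool)) : List (Letter m) :=
  (l.map (fun x => if x.2 then w x.1 else invW (w x.1))).flatten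

theorem prodW_ofFn {n : ℕ} (w : Fin s → List (Letter m)) (u : Fin n → Fin s × Bool) :
    prodW w u = prodL w (List.ofFn u) := by
  unfold prodW prodL
  rw [List.map_ofFn]
  rfl

theorem prodL_get (w : Fin s → List (Letter m)) (l : List (Fin s × Bool)) :
    prodW w l.get = prodL w l := by
  rw [prodW_ofFn, List.ofFn_get]

theorem prodL_append (w : Fin s → List (Letter m)) (l l' : List (Fin s × Bool)) :
    prodL w (l ++ l') = prodL w l ++ prodL w l' := by
  simp [prodL]

theorem invW_append (a b : List (Letter m)) : invW (a ++ b) = invW b ++ invW a := by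
  simp [invW]

theorem invW_invW (a : List (Letter m)) : invW (invW a) = a := by
  simp [invW, List.map_reverse, Function.comp_def]

theorem prodL_inv (w : Fin s → List (Letter m)) (l : List (Fin s × Bool)) :
    prodL w ((l.map (fun x => (x.1, !x.2))).reverse) = invW (prodL w l) := by
  induction l with
  | nil => rfl
  | cons x l ih =>
    rw [List.map_cons, List.reverse_cons, prodL_append, ih]
    have : prodL w (x :: l) = (if x.2 then w x.1 else invW (w x.1)) ++ prodL w l := by simp [prodL]
    rw [this, invW_append]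
    congr 1
    obtain ⟨i, b⟩ := x
    cases b <;> simp [prodL, invW_invW]

theorem prodL_rep (w : Fin s → List (Letter m)) (l : List (Fin s × Bool)) (k : ℕ) :
    prodL w (List.replicate k l).flatten = (List.replicate k (prodL w l)).flatten := by
  induction k with
  | zero => rfl
  | succ k ih =>
    rw [List.replicate_succ, List.flatten_cons, prodL_append, ih, List.replicate_succ,
      List.flatten_cons]

theorem exists_pow (w : Fin s → List (Letter m)) (l : List (Fin s × Bool)) (t : ℤ) :
    ∃ l', prodL w l' = powW (prodL w l) t := by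
  rcases t with k | k
  · exact ⟨_, prodL_rep w l k⟩
  · refine ⟨(List.replicate (k+1) (l.map (fun x => (x.1, !x.2))).reverse).flatten, ?_⟩
    rw [prodL_rep, prodL_inv]
    rfl

open Classical in
/-- **One permutation.** -/
theorem random_tau (hm : 0 < m) (hs : 0 < s) (O : Outer m) (w : Fin s → List (Letter m)) (n1 : ℕ)
    (u1 : Fin n1 → Fin s × Bool) (r : ℕ) (hr : IsPure (powW (prodW w u1) r))
    (hM : Mostly O [] (prodW w u1) r) (v : List (Letter m)) (τ : Equiv.Perm (Fin m))
    (F : ℤ[T;T⁻¹]) (n : ℕ) (hn : 0 < n) :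
    ((univ.filter (fun u : Fin n → Fin s × Bool => permW (prodW w u) = τ ∧
      (dia O (prodW w u ++ v)).fPoly = F)).card : ℝ) ≤
        Cst (2 * s : ℝ) (dimB m + 1) * (n : ℝ) ^ (- ex (dimB m + 1)) * (2 * s : ℝ) ^ n := by
  have hpos : (0:ℝ) ≤ Cst (2 * s : ℝ) (dimB m + 1) * (n : ℝ) ^ (- ex (dimB m + 1)) *
      (2 * s : ℝ) ^ n := by
    have := Cst_ge (2 * s : ℝ) (dimB m + 1)
    positivity
  by_cases hF : F = 0
  · rw [Finset.filter_false_of_mem]
    · simpa using hpos
    · intro u _ hu
      exact fPoly_ne _ (hu.2.trans hF)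
  rcases zero_one hm hs O w v F τ with hall | h
  swap
  · exact h n hn
  by_cases hτ : ∃ (n0 : ℕ) (u0 : Fin n0 → Fin s × Bool), permW (prodW w u0) = τ
  swap
  · rw [Finset.filter_false_of_mem]
    · simpa using hpos
    · intro u _ hu
      exact hτ ⟨n, u, hu.1⟩
  exfalso
  obtain ⟨n0, u0, hu0⟩ := hτ
  set g := prodW w u1 with hg
  have hp' : permL (powL (toN g) r) = 1 := by rw [← toN_pow]; exact permL_of_pure hr
  have hperm : ∀ q : ℤ, permL (powL (toN g) (r * q + 0)) = 1 := by
    intro q
    have h1 := (powL_mul (toN_lt g) r 0 q).2.1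
    rw [h1, permL_append, permL_powL hp']
    rfl
  refine no_class hm O (toN g) (toN_lt _) r hp' (mostly_big O [] g r hM) 0
    (toN (prodW w u0 ++ v)) (toN_lt _) F hF (fun q => ?_)
  obtain ⟨l', hl'⟩ := exists_pow w (List.ofFn u1) (r * q + 0)
  rw [← prodW_ofFn, ← hg] at hl'
  have e1 : prodW w (l' ++ List.ofFn u0).get = powW g (r * q + 0) ++ prodW w u0 := by
    rw [prodL_get, prodL_append, hl', ← prodW_ofFn]
  have h2 := hall _ (l' ++ List.ofFn u0).get (by
    rw [e1, ← hu0]
    apply (perm_iff _ _).1
    rw [toN_append, permL_append, toN_pow, hperm q, one_mul])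
  rw [e1, dia_fPoly, List.append_assoc, toN_append, toN_pow] at h2
  exact h2

open Classical in
/-- **All permutations together.** -/
theorem random_all (hm : 0 < m) (hs : 0 < s) (O : Outer m) (w : Fin s → List (Letter m)) (n1 : ℕ)
    (u1 : Fin n1 → Fin s × Bool) (r : ℕ) (hr : IsPure (powW (prodW w u1) r))
    (hM : Mostly O [] (prodW w u1) r) (v : List (Letter m))
    (F : ℤ[T;T⁻¹]) (n : ℕ) (hn : 0 < n) :
    ((univ.filter (fun u : Fin n → Fin s × Bool =>
      (dia O (prodW w u ++ v)).fPoly = F)).card : ℝ) ≤
        (m.factorial * Cst (2 * s : ℝ) (dimB m + 1)) * (n : ℝ) ^ (- ex (dimB m + 1)) *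
          (2 * s : ℝ) ^ n := by
  rw [Finset.card_eq_sum_card_fiberwise (f := fun u => permW (prodW w u))
    (t := (univ : Finset (Equiv.Perm (Fin m)))) (fun _ _ => Finset.mem_coe.2 (Finset.mem_univ _))]
  push_cast
  calc ∑ τ : Equiv.Perm (Fin m), (((univ.filter (fun u : Fin n → Fin s × Bool =>
        (dia O (prodW w u ++ v)).fPoly = F)).filter (fun u => permW (prodW w u) = τ)).card : ℝ)
      ≤ ∑ _τ : Equiv.Perm (Fin m), Cst (2 * s : ℝ) (dimB m + 1) * (n : ℝ) ^ (- ex (dimB m + 1)) *
          (2 * s : ℝ) ^ n := by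
        refine Finset.sum_le_sum fun τ _ => ?_
        refine le_trans ?_ (random_tau hm hs O w n1 u1 r hr hM v τ F n hn)
        rw [Finset.filter_filter]
        apply le_of_eq
        congr 2
        ext u
        simp only [Finset.mem_filter, Finset.mem_univ, true_and, and_comm]
    _ = _ := by
        rw [Finset.sum_const, Finset.card_univ, Fintype.card_perm, Fintype.card_fin, nsmul_eq_mul]
        ring

/-- some power of every word is pure -/
theorem exists_pure (g : List (Letter m)) : ∃ r : ℕ, 0 < r ∧ IsPure (powW g r) := by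
  refine ⟨orderOf (permW g), orderOf_pos _, ?_⟩
  have h : ∀ k : ℕ, permW (powW g (k : ℤ)) = permW g ^ k := by
    intro k
    show permW (List.replicate k g).flatten = _
    induction k with
    | zero => rfl
    | succ k ih =>
      rw [List.replicate_succ, List.flatten_cons, pow_succ', ← ih]
      simp [permW]
  show permW (powW g _) = 1
  rw [h, pow_orderOf_eq_one]

end Pool.Agent.V11227.JP
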