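import Pool.Agent.V11227.JonesLk6
import Pool.Agent.V11227.JonesPos4

/-!
# Powers and random products of braids with enough linking
-/

set_option autoImplicit false

namespace Pool.Agent.V11227.JL

open Finset LaurentPolynomial Pool.Agent.H891R2.Jones Pool.Agent.W639.RB Pool.Agent.Y463.SK
  Pool.Agent.V11227.JP Pool.Agent.Y463.RW

variable {m : ℕ}

/-- no family of the powers of `W` has a constant polynomial different from zero -/
def NoAll (O : Outer m) (W : List (Bool × ℕ)) : Prop :=
  ∀ v : List (Bool × ℕ), (∀ x ∈ v, x.2 + 1 < m) → ∀ F : ℤ[T;T⁻¹], F ≠ 0 →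
    ¬ ∀ n : ℤ, ff O (powL W n ++ v) = F

theorem no_class_of (hm : 0 < m) (O : Outer m) (w : List (Bool × ℕ))
    (hw : ∀ x ∈ w, x.2 + 1 < m) (r : ℕ) (hN : NoAll O (powL w r)) (s : ℤ)
    (v : List (Bool × ℕ)) (hv : ∀ x ∈ v, x.2 + 1 < m) (F : ℤ[T;T⁻¹]) (hF : F ≠ 0) :
    ¬ ∀ q : ℤ, ff O (powL w (r * q + s) ++ v) = F := by
  intro hall
  refine hN (powL w s ++ v) ?_ F hF
    (fun q => by rw [← class_eq hm O w hw r s v hv q]; exact hall q)
  intro x hx
  rcases List.mem_append.1 hx with h | h
  · exact powL_lt hw s x h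
  · exact hv x h

theorem class_bound_of (hm : 0 < m) (O : Outer m) (w : List (Bool × ℕ))
    (hw : ∀ x ∈ w, x.2 + 1 < m) (r : ℕ) (hp : permL (powL w r) = 1) (hN : NoAll O (powL w r)) (s : ℤ)
    (v : List (Bool × ℕ)) (hv : ∀ x ∈ v, x.2 + 1 < m) (F : ℤ[T;T⁻¹]) (hF : F ≠ 0) 
    (Z : Finset ℤ) (hZ : ∀ z ∈ Z, ff O (powL w (r * z + s) ++ v) = F) : Z.card ≤ m.factorial :=
  (single_general hm O w hw r hp s v hv F).resolve_left
    (no_class_of hm O w hw r hN s v hv F hF) Z hZ

theorem one_word_of (hm : 0 < m) (O : Outer m) (w : List (Bool × ℕ))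
    (hw : ∀ x ∈ w, x.2 + 1 < m) (r : ℕ) (hr : 0 < r) (hp : permL (powL w r) = 1)
    (hN : NoAll O (powL w r))
    (v : List (Bool × ℕ)) (hv : ∀ x ∈ v, x.2 + 1 < m) (F : ℤ[T;T⁻¹]) (hF : F ≠ 0)
    (Z : Finset ℤ) (hZ : ∀ z ∈ Z, ff O (powL w z ++ v) = F) : Z.card ≤ r * m.factorial := by
  classical
  have h1 : Z ⊆ (Finset.range r).biUnion (fun s => Z.filter (fun z => z % r = s)) := by
    intro z hz
    rw [Finset.mem_biUnion]
    have hr' : (0:ℤ) < r := by exact_mod_cast hr
    have h2 := Int.emod_nonneg z hr'.ne'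
    have h3 := Int.emod_lt_of_pos z hr'
    refine ⟨(z % r).toNat, Finset.mem_range.2 (by omega), ?_⟩
    rw [Finset.mem_filter]
    exact ⟨hz, by rw [Int.toNat_of_nonneg h2]⟩
  refine (Finset.card_le_card h1).trans (Finset.card_biUnion_le.trans ?_)
  have h4 : ∀ s ∈ Finset.range r, (Z.filter (fun z : ℤ => z % r = (s:ℤ))).card ≤ m.factorial := by
    intro s _
    have hinj : Set.InjOn (fun z : ℤ => z / r) (Z.filter (fun z : ℤ => z % r = (s:ℤ))) := by
      intro z hz z' hz' h
      have h5 := (Finset.mem_filter.1 hz).2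
      have h6 := (Finset.mem_filter.1 hz').2
      have h7 := Int.mul_ediv_add_emod z r
      have h8 := Int.mul_ediv_add_emod z' r
      simp only at h
      rw [← h7, ← h8, h, h5, h6]
    rw [← Finset.card_image_of_injOn hinj]
    apply class_bound_of hm O w hw r hp hN s v hv F hF
    intro q hq
    obtain ⟨z, hz, rfl⟩ := Finset.mem_image.1 hq
    have h5 := (Finset.mem_filter.1 hz).2
    have h7 := Int.mul_ediv_add_emod z r
    rw [← h5, h7]
    exact hZ z (Finset.mem_filter.1 hz).1
  calc ∑ s ∈ Finset.range r, (Z.filter (fun z : ℤ => z % r = (s:ℤ))).card 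
      ≤ ∑ _s ∈ Finset.range r, m.factorial := Finset.sum_le_sum h4
    _ = r * m.factorial := by rw [Finset.sum_const, Finset.card_range, smul_eq_mul]

/-! ### the linking condition -/

/-- **The linking condition.**  The sum of the absolute values of the crossing numbers of the pairs of
strands of `w` is smaller than the absolute value of twice the sum of the crossing numbers of the pairs
of strands with the same direction minus the sum of the other ones. -/
def Linked (O : Outer m) (w : List (Letter m)) : Prop :=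
  ∑ a, ∑ b, |cr w a b| < |∑ a, ∑ b, (if O.up a = O.up b then 2 else -1) * cr w a b|

theorem pat_mul (O : Outer m) (a b : Fin m) :
    pat O.up a * pat O.up b = if O.up a = O.up b then 1 else -1 := by
  unfold pat
  rw [dif_pos a.2, dif_pos b.2]
  simp only [Fin.eta]
  cases O.up a <;> cases O.up b <;> simp

theorem linked_iff (O : Outer m) (w : List (Letter m)) :
    Linked O w ↔ ∑ a, ∑ b, |cr w a b| < |3 * costS (toN w) (pat O.up) + esum w| := by
  have h1 := two_cost w (pat O.up)
  have h2 := two_esum w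
  have h3 : 3 * costS (toN w) (pat O.up) + esum w =
      ∑ a, ∑ b, (if O.up a = O.up b then 2 else -1) * cr w a b := by
    have h4 : 2 * (3 * costS (toN w) (pat O.up) + esum w) =
        2 * ∑ a, ∑ b, (if O.up a = O.up b then 2 else -1) * cr w a b := by
      rw [mul_add, h2, show 2 * (3 * costS (toN w) (pat O.up)) =
        3 * (2 * costS (toN w) (pat O.up)) by ring, h1, Finset.mul_sum, Finset.mul_sum,
        ← Finset.sum_add_distrib]
      refine Finset.sum_congr rfl fun a _ => ?_
      rw [Finset.mul_sum, Finset.mul_sum, ← Finset.sum_add_distrib]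
      refine Finset.sum_congr rfl fun b _ => ?_
      rw [pat_mul]
      split_ifs <;> ring
    linarith
  unfold Linked
  rw [h3]

theorem noAll_of_linked (hm : 0 < m) (O : Outer m) (w : List (Letter m)) (hp : IsPure w)
    (h : Linked O w) : NoAll O (toN w) := by
  intro v hv F hF
  exact no_all_lk hm O w hp v hv ((linked_iff O w).1 h) F hF

/-- all linking numbers have the same sign, and two parallel strands are linked -/
theorem linked_of_sign (O : Outer m) (w : List (Letter m)) (ε : ℤ) (hε : ε = 1 ∨ ε = -1)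
    (h : ∀ a b, 0 ≤ ε * ((if O.up a = O.up b then 1 else -1) * cr w a b))
    (h' : ∃ a b, O.up a = O.up b ∧ cr w a b ≠ 0) : Linked O w := by
  have hε2 : ε * ε = 1 := by rcases hε with rfl | rfl <;> norm_num
  have hε1 : |ε| = 1 := by rcases hε with rfl | rfl <;> norm_num
  unfold Linked
  have h1 : ∀ a b, |cr w a b| ≤ ε * ((if O.up a = O.up b then 2 else -1) * cr w a b) ∧
      (O.up a = O.up b → cr w a b ≠ 0 →
        |cr w a b| < ε * ((if O.up a = O.up b then 2 else -1) * cr w a b)) := by
    intro a b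
    have h2 := h a b
    have h3 : |cr w a b| = ε * ((if O.up a = O.up b then 1 else -1) * cr w a b) := by
      rw [← abs_of_nonneg h2, abs_mul, abs_mul, hε1, one_mul]
      split_ifs <;> simp
    split_ifs at h3 h2 ⊢ with hab
    · refine ⟨by rw [h3]; linarith, fun _ hc => ?_⟩
      have h4 : 0 < |cr w a b| := abs_pos.2 hc
      rw [h3] at h4 ⊢
      linarith
    · exact ⟨h3.le, fun h5 => absurd h5 hab⟩
  have h2 : ∑ a, ∑ b, |cr w a b| <
      ∑ a, ∑ b, ε * ((if O.up a = O.up b then 2 else -1) * cr w a b) := by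
    obtain ⟨a0, b0, hab, hc⟩ := h'
    apply Finset.sum_lt_sum
    · intro a _
      exact Finset.sum_le_sum fun b _ => (h1 a b).1
    · refine ⟨a0, mem_univ _, ?_⟩
      apply Finset.sum_lt_sum
      · intro b _
        exact (h1 a0 b).1
      · exact ⟨b0, mem_univ _, (h1 a0 b0).2 hab hc⟩
  have h3 : ∑ a, ∑ b, ε * ((if O.up a = O.up b then 2 else -1) * cr w a b) =
      ε * ∑ a, ∑ b, (if O.up a = O.up b then 2 else -1) * cr w a b := by
    rw [Finset.mul_sum]
    refine Finset.sum_congr rfl fun a _ => ?_
    rw [Finset.mul_sum]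
  rw [h3] at h2
  refine lt_of_lt_of_le h2 ((le_abs_self _).trans ?_)
  rw [abs_mul, hε1, one_mul]

theorem cr_abs (w : List (Letter m)) : ∑ a, ∑ b, |cr w a b| ≤ 2 * w.length := by
  induction w with
  | nil => simp [cr]
  | cons x w ih =>
    have h2 : ∀ a : Fin m, swp x (swp x a) = a := fun a => Equiv.swap_apply_self _ _ a
    have h1 : ∑ a, ∑ b, |cr w (swp x a) (swp x b)| = ∑ a, ∑ b, |cr w a b| := by
      rw [← Equiv.sum_comp (swp x) (fun a => ∑ b, |cr w a b|)]
      refine Finset.sum_congr rfl fun a _ => ?_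
      rw [← Equiv.sum_comp (swp x) (fun b => |cr w (swp x a) b|)]
    have h3 : ∀ a b : Fin m, |cr (x :: w) a b| ≤
        (if (a = ⟨x.2, by omega⟩ ∧ b = ⟨x.2 + 1, by omega⟩) ∨
          (a = ⟨x.2 + 1, by omega⟩ ∧ b = ⟨x.2, by omega⟩) then (1:ℤ) else 0) • (1:ℤ) +
            |cr w (swp x a) (swp x b)| := by
      intro a b
      rw [cr]
      refine (abs_add_le _ _).trans ?_
      gcongr
      split_ifs <;> simp
    calc ∑ a, ∑ b, |cr (x :: w) a b| ≤ ∑ a, ∑ b, ((if (a = ⟨x.2, by omega⟩ ∧
          b = ⟨x.2 + 1, by omega⟩) ∨ (a = ⟨x.2 + 1, by omega⟩ ∧ b = ⟨x.2, by omega⟩)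
            then (1:ℤ) else 0) • (1:ℤ) + |cr w (swp x a) (swp x b)|) :=
          Finset.sum_le_sum fun a _ => Finset.sum_le_sum fun b _ => h3 a b
      _ = 2 + ∑ a, ∑ b, |cr w a b| := by
          simp only [Finset.sum_add_distrib]
          rw [h1, sum_pair _ _ (by intro h; simp [Fin.ext_iff] at h) (1:ℤ) (fun _ _ => (1:ℤ))]
          simp
      _ ≤ 2 * (x :: w).length := by
          rw [List.length_cons]; push_cast; linarith

theorem esum_eq (w : List (Letter m)) : esum w = positive w - negative w := by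
  induction w with
  | nil => simp [esum, positive, negative]
  | cons x w ih =>
    rw [esum_cons, ih]
    unfold eps positive negative
    rw [List.countP_cons, List.countP_cons]
    cases x.1 <;> simp <;> ring

theorem length_eq (w : List (Letter m)) : (w.length : ℤ) = positive w + negative w := by
  induction w with
  | nil => simp [positive, negative]
  | cons x w ih =>
    rw [List.length_cons]
    push_cast
    rw [ih]
    unfold positive negative
    rw [List.countP_cons, List.countP_cons]
    cases x.1 <;> simp <;> ring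

theorem positive_pow (w : List (Letter m)) (r : ℕ) : positive (powW w r) = r * positive w ∧
    negative (powW w r) = r * negative w := by
  have h1 : toN (powW w r) = (List.replicate r (toN w)).flatten := by rw [toN_pow]; rfl
  constructor
  · rw [← pos_toN, h1, pos_flat, pos_toN]
  · rw [← neg_toN, h1, neg_flat, neg_toN]

/-- mostly positive or mostly negative words -/
theorem linked_of_letters (O : Outer m) (hO : ∀ i j, O.up i = O.up j) (w : List (Letter m)) (r : ℕ)
    (hr : 0 < r) (h : 3 * negative w < positive w ∨ 3 * positive w < negative w) :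
    Linked O (powW w r) := by
  unfold Linked
  have h1 : ∑ a, ∑ b, (if O.up a = O.up b then 2 else -1) * cr (powW w r) a b =
      4 * esum (powW w r) := by
    have h2 := two_esum (powW w r)
    have h3 : (4:ℤ) * esum (powW w r) = 2 * (2 * esum (powW w r)) := by ring
    rw [h3, h2, Finset.mul_sum]
    refine Finset.sum_congr rfl fun a _ => ?_
    rw [Finset.mul_sum]
    refine Finset.sum_congr rfl fun b _ => ?_
    rw [if_pos (hO a b)]
  rw [h1]
  have h2 := cr_abs (powW w r)
  have h3 := length_eq (powW w r)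
  have h4 := esum_eq (powW w r)
  obtain ⟨h5, h6⟩ := positive_pow w r
  rw [h5, h6] at h3 h4
  rw [h3] at h2
  rw [h4]
  have hr' : (0:ℤ) < r := by exact_mod_cast hr
  push_cast at h2 ⊢
  rcases h with h | h
  · have h' : (3:ℤ) * negative w < positive w := by exact_mod_cast h
    have h7 : 0 ≤ (r : ℤ) * positive w - r * negative w := by nlinarith
    rw [abs_of_nonneg (by linarith)]
    nlinarith
  · have h' : (3:ℤ) * positive w < negative w := by exact_mod_cast h
    have h7 : (r : ℤ) * positive w - r * negative w ≤ 0 := by nlinarith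
    rw [abs_of_nonpos (by linarith)]
    nlinarith

end Pool.Agent.V11227.JL
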