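import Pool.Agent.V11227.JonesLk7

/-!
# Powers and random products of braids with enough linking: words of letters
-/

set_option autoImplicit false

namespace Pool.Agent.V11227.JL

open Finset LaurentPolynomial Pool.Agent.H891R2.Jones Pool.Agent.W639.RB Pool.Agent.Y463.SK
  Pool.Agent.V11227.JP Pool.Agent.Y463.RW

variable {m s : ℕ}

theorem pat_inj {U U' : Fin m → Bool} {j : ℕ} {i i' : Fin m} (hj : j < m) (e : (⟨j, hj⟩ : Fin m) = i)
    (h : pat U j = pat U' i') : U i = U' i' := by
  subst e
  unfold pat at h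
  rw [dif_pos hj, dif_pos i'.2] at h
  simp only [Fin.eta] at h
  cases h1 : U ⟨j, hj⟩ <;> cases h2 : U' i' <;> simp_all

theorem draw_dir (O : Outer m) (u : List (Letter m)) (a : Fin m) :
    (draw O (toN u)).up a = O.up (permW u a) := by
  have h1 := congrFun (draw_writhe (toN u) O (toN_lt _)).2 (a : ℕ)
  rw [Function.comp_apply, (permL_toN u).1 a] at h1
  exact pat_inj a.2 rfl h1

/-- **The linking condition after the braid `u`.** -/
def LinkedAt (O : Outer m) (u w : List (Letter m)) : Prop :=
  ∑ a, ∑ b, |cr w a b| <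
    |∑ a, ∑ b, (if O.up (permW u a) = O.up (permW u b) then 2 else -1) * cr w a b|

theorem linkedAt_iff (O : Outer m) (u w : List (Letter m)) :
    LinkedAt O u w ↔ Linked (draw O (toN u)) w := by
  unfold LinkedAt Linked
  simp only [draw_dir]

theorem linkedAt_nil (O : Outer m) (w : List (Letter m)) : LinkedAt O [] w ↔ Linked O w := Iff.rfl

/-- all linking numbers have the same sign, and two parallel strands are linked -/
theorem linkedAt_of_sign (O : Outer m) (u w : List (Letter m)) (ε : ℤ) (hε : ε = 1 ∨ ε = -1)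
    (h : ∀ a b, 0 ≤ ε * ((if O.up (permW u a) = O.up (permW u b) then 1 else -1) * cr w a b))
    (h' : ∃ a b, O.up (permW u a) = O.up (permW u b) ∧ cr w a b ≠ 0) : LinkedAt O u w := by
  rw [linkedAt_iff]
  apply linked_of_sign _ w ε hε
  · simpa only [draw_dir] using h
  · simpa only [draw_dir] using h'

theorem linkedAt_of_letters (O : Outer m) (hO : ∀ i j, O.up i = O.up j) (u w : List (Letter m))
    (r : ℕ) (hr : 0 < r) (h : 3 * negative w < positive w ∨ 3 * positive w < negative w) :
    LinkedAt O u (powW w r) := by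
  rw [linkedAt_iff]
  apply linked_of_letters _ _ w r hr h
  intro i j
  rw [draw_dir, draw_dir]
  exact hO _ _

theorem linkedAt_of_mostly (O : Outer m) (u w : List (Letter m)) (r : ℕ) (h : Mostly O u w r) :
    LinkedAt O u (powW w r) := by
  rw [linkedAt_iff, linked_iff]
  have e : (dia O (u ++ powW w r)).writhe - (dia O u).writhe =
      costS (toN (powW w r)) (pat (draw O (toN u)).up) := by
    rw [writhe_dia, writhe_dia, toN_append, costS_append]
    rw [(draw_writhe (toN u) O (toN_lt _)).2]
    ring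
  have e' : (dia O u).writhe - (dia O (u ++ powW w r)).writhe =
      -costS (toN (powW w r)) (pat (draw O (toN u)).up) := by rw [← e]; ring
  unfold Mostly at h
  rw [e, e'] at h
  have h2 := cr_abs (powW w r)
  have h3 := length_eq (powW w r)
  have h4 := esum_eq (powW w r)
  obtain ⟨h5, h6⟩ := positive_pow w r
  rw [h5, h6] at h3 h4
  rw [h3] at h2
  rw [h4]
  push_cast at h2 ⊢
  rcases h with h | h
  · refine lt_of_le_of_lt h2 (lt_of_lt_of_le ?_ (le_abs_self _))
    linarith
  · refine lt_of_le_of_lt h2 (lt_of_lt_of_le ?_ (neg_le_abs _))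
    linarith

/-- one power -/
theorem lk_one (hm : 0 < m) (O : Outer m) (u w v : List (Letter m)) (r : ℕ) (hr : 0 < r)
    (hp : IsPure (powW w r)) (h : LinkedAt O u (powW w r)) (F : ℤ[T;T⁻¹]) :
    {n : ℤ | (dia O (u ++ (powW w n ++ v))).fPoly = F}.Finite ∧
      {n : ℤ | (dia O (u ++ (powW w n ++ v))).fPoly = F}.ncard ≤ r * m.factorial := by
  by_cases hF : F = 0
  · have : {n : ℤ | (dia O (u ++ (powW w n ++ v))).fPoly = F} = ∅ := by
      ext n
      simp only [Set.mem_ofPred_eq, Set.mem_empty_iff_false, iff_false, hF]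
      exact fPoly_ne _
    rw [this]
    exact ⟨Set.finite_empty, by simp⟩
  · apply fin_of_bound
    intro Z hZ
    have hp' : permL (powL (toN w) r) = 1 := by rw [← toN_pow]; exact permL_of_pure hp
    have hN : NoAll (draw O (toN u)) (powL (toN w) r) := by
      rw [← toN_pow]
      exact noAll_of_linked hm _ _ hp ((linkedAt_iff O u _).1 h)
    refine one_word_of hm (draw O (toN u)) (toN w) (toN_lt _) r hr hp' hN (toN v)
      (toN_lt _) F hF Z (fun z hz => ?_)
    have := hZ z hz
    rw [Set.mem_ofPred_eq, dia_eq, toN_append, toN_pow] at this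
    exact this

/-- many different polynomials -/
theorem lk_image (hm : 0 < m) (O : Outer m) (u w v : List (Letter m)) (r : ℕ) (hr : 0 < r)
    (hp : IsPure (powW w r)) (h : LinkedAt O u (powW w r)) [DecidableEq ℤ[T;T⁻¹]] (Z : Finset ℤ) :
    Z.card ≤ r * m.factorial * (Z.image fun n => (dia O (u ++ (powW w n ++ v))).fPoly).card := by
  apply Finset.card_le_mul_card_image
  intro F _
  obtain ⟨h1, h2⟩ := lk_one hm O u w v r hr hp h F
  refine le_trans ?_ h2
  rw [← Set.ncard_coe_finset]
  apply Set.ncard_le_ncard _ h1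
  intro n hn
  have := (Finset.mem_filter.1 (Finset.mem_coe.1 hn)).2
  exact this

/-- **Several powers.** -/
theorem lk_multi {k : ℕ} (hm : 0 < m) (O : Outer m) (hO : ∀ i j, O.up i = O.up j)
    (w v : Fin k → List (Letter m)) (r : Fin k → ℕ)
    (hr : ∀ i, IsPure (powW (w i) (r i)))
    (h : ∃ i, Linked O (powW (w i) (r i)))
    (s : Fin k → ℤ) (F : ℤ[T;T⁻¹]) [DecidableEq ℤ[T;T⁻¹]] (A : Fin k → Finset ℤ) :
    ((Fintype.piFinset A).filter
      (fun q => (dia O (multiW w v (fun i => r i * q i + s i))).fPoly = F)).card ≤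
        m.factorial * ∑ i, ∏ j ∈ univ.erase i, (A j).card := by
  by_cases hF : F = 0
  · rw [Finset.filter_false_of_mem]
    · simp
    · intro q _
      rw [hF]
      exact fPoly_ne _
  classical
  have key0 := (multi_general hm O w v r hr s F).resolve_left ?_ A
  · convert key0
  intro hall
  obtain ⟨i, hi⟩ := h
  obtain ⟨pre, post, hpp⟩ := flatten_update k (fun j => powW (w j) (s j) ++ v j) i
  have key : ∀ t : ℤ, multiW w v (fun j => r j * (Function.update (0 : Fin k → ℤ) i t) j + s j) =
      pre ++ (powW (w i) (r i * t + s i) ++ v i) ++ post := by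
    intro t
    rw [← hpp]
    unfold multiW
    congr 2
    funext j
    by_cases hj : j = i
    · subst hj
      simp only [Function.update_self]
    · simp only [Function.update_of_ne hj, Pi.zero_apply, mul_zero, zero_add]
  have hN : NoAll (draw O (toN pre)) (powL (toN (w i)) (r i)) := by
    rw [← toN_pow]
    apply noAll_of_linked hm _ _ (hr i)
    unfold Linked at hi ⊢
    have e2 : ∀ a b, (draw O (toN pre)).up a = (draw O (toN pre)).up b := by
      intro a b; rw [draw_dir, draw_dir]; exact hO _ _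
    have e3 : ∑ a, ∑ b, (if (draw O (toN pre)).up a = (draw O (toN pre)).up b then 2 else -1) *
        cr (powW (w i) (r i)) a b = ∑ a, ∑ b, (if O.up a = O.up b then 2 else -1) *
          cr (powW (w i) (r i)) a b := by
      refine Finset.sum_congr rfl fun a _ => Finset.sum_congr rfl fun b _ => ?_
      rw [if_pos (e2 a b), if_pos (hO a b)]
    rw [e3]
    exact hi
  refine no_class_of hm (draw O (toN pre)) (toN (w i)) (toN_lt _) (r i) hN (s i)
    (toN (v i ++ post)) (toN_lt _) F hF (fun t => ?_)
  have h1 := hall (Function.update (0 : Fin k → ℤ) i t)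
  rw [key t, List.append_assoc, List.append_assoc, dia_eq, toN_append, toN_pow] at h1
  exact h1

open Classical in
/-- **One permutation.** -/
theorem lk_random_tau (hm : 0 < m) (hs : 0 < s) (O : Outer m) (w : Fin s → List (Letter m)) (n1 : ℕ)
    (u1 : Fin n1 → Fin s × Bool) (r : ℕ) (hr : IsPure (powW (prodW w u1) r))
    (hM : Linked O (powW (prodW w u1) r)) (v : List (Letter m)) (τ : Equiv.Perm (Fin m))
    (F : ℤ[T;T⁻¹]) (n : ℕ) (hn : 0 < n) :
    ((univ.filter (fun u : Fin n → Fin s × Bool => permW (prodW w u) = τ ∧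
      (dia O (prodW w u ++ v)).fPoly = F)).card : ℝ) ≤
        Cst (2 * s : ℝ) (dimB m + 1) * (n : ℝ) ^ (- ex (dimB m + 1)) * (2 * s : ℝ) ^ n := by
  have hpos : (0:ℝ) ≤ Cst (2 * s : ℝ) (dimB m + 1) * (n : ℝ) ^ (- ex (dimB m + 1)) *
      (2 * s : ℝ) ^ n := by
    have := Cst_ge (2 * s : ℝ) (dimB m + 1)
    positivity
  by_cases hF : F = 0
  · rw [Finset.filter_false_of_mem]
    · simpa using hpos
    · intro u _ hu
      exact fPoly_ne _ (hu.2.trans hF)
  rcases zero_one hm hs O w v F τ with hall | h
  swap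
  · exact h n hn
  by_cases hτ : ∃ (n0 : ℕ) (u0 : Fin n0 → Fin s × Bool), permW (prodW w u0) = τ
  swap
  · rw [Finset.filter_false_of_mem]
    · simpa using hpos
    · intro u _ hu
      exact hτ ⟨n, u, hu.1⟩
  exfalso
  obtain ⟨n0, u0, hu0⟩ := hτ
  set g := prodW w u1 with hg
  have hp' : permL (powL (toN g) r) = 1 := by rw [← toN_pow]; exact permL_of_pure hr
  have hperm : ∀ q : ℤ, permL (powL (toN g) (r * q + 0)) = 1 := by
    intro q
    have h1 := (powL_mul (toN_lt g) r 0 q).2.1
    rw [h1, permL_append, permL_powL hp']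
    rfl
  have hN : NoAll O (powL (toN g) r) := by
    rw [← toN_pow]
    exact noAll_of_linked hm _ _ hr hM
  refine no_class_of hm O (toN g) (toN_lt _) r hN 0
    (toN (prodW w u0 ++ v)) (toN_lt _) F hF (fun q => ?_)
  obtain ⟨l', hl'⟩ := exists_pow w (List.ofFn u1) (r * q + 0)
  rw [← prodW_ofFn, ← hg] at hl'
  have e1 : prodW w (l' ++ List.ofFn u0).get = powW g (r * q + 0) ++ prodW w u0 := by
    rw [prodL_get, prodL_append, hl', ← prodW_ofFn]
  have h2 := hall _ (l' ++ List.ofFn u0).get (by
    rw [e1, ← hu0]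
    apply (perm_iff _ _).1
    rw [toN_append, permL_append, toN_pow, hperm q, one_mul])
  rw [e1, dia_fPoly, List.append_assoc, toN_append, toN_pow] at h2
  exact h2

open Classical in
/-- **All permutations together.** -/
theorem lk_random_all (hm : 0 < m) (hs : 0 < s) (O : Outer m) (w : Fin s → List (Letter m)) (n1 : ℕ)
    (u1 : Fin n1 → Fin s × Bool) (r : ℕ) (hr : IsPure (powW (prodW w u1) r))
    (hM : Linked O (powW (prodW w u1) r)) (v : List (Letter m))
    (F : ℤ[T;T⁻¹]) (n : ℕ) (hn : 0 < n) :
    ((univ.filter (fun u : Fin n → Fin s × Bool =>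
      (dia O (prodW w u ++ v)).fPoly = F)).card : ℝ) ≤
        (m.factorial * Cst (2 * s : ℝ) (dimB m + 1)) * (n : ℝ) ^ (- ex (dimB m + 1)) *
          (2 * s : ℝ) ^ n := by
  rw [Finset.card_eq_sum_card_fiberwise (f := fun u => permW (prodW w u))
    (t := (univ : Finset (Equiv.Perm (Fin m)))) (fun _ _ => Finset.mem_coe.2 (Finset.mem_univ _))]
  push_cast
  calc ∑ τ : Equiv.Perm (Fin m), (((univ.filter (fun u : Fin n → Fin s × Bool =>
        (dia O (prodW w u ++ v)).fPoly = F)).filter (fun u => permW (prodW w u) = τ)).card : ℝ)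
      ≤ ∑ _τ : Equiv.Perm (Fin m), Cst (2 * s : ℝ) (dimB m + 1) * (n : ℝ) ^ (- ex (dimB m + 1)) *
          (2 * s : ℝ) ^ n := by
        refine Finset.sum_le_sum fun τ _ => ?_
        refine le_trans ?_ (lk_random_tau hm hs O w n1 u1 r hr hM v τ F n hn)
        rw [Finset.filter_filter]
        apply le_of_eq
        congr 2
        ext u
        simp only [Finset.mem_filter, Finset.mem_univ, true_and, and_comm]
    _ = _ := by
        rw [Finset.sum_const, Finset.card_univ, Fintype.card_perm, Fintype.card_fin, nsmul_eq_mul]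
        ring

end Pool.Agent.V11227.JL
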