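import Pool.Agent.Y463.SK.Gen

/-!
# Powers of braid words with many more positive than negative letters

The first alternative of the dichotomy for powers of pure braids (all members of the family have the
same polynomial) is excluded for mostly positive and for mostly negative words.
-/

set_option autoImplicit false

namespace Pool.Agent.V11227.JP

open Finset LaurentPolynomial Pool.Agent.H891R2.Jones Pool.Agent.W639.RB Pool.Agent.Y463.SK

/-! ### norms of the operators -/

theorem EE_norm {m N : ℕ} (p q : Fin m) (g : (Fin m → Fin N) → ((Fin m → Fin N) → ℂ)) :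
    ‖(EE p q : Module.End ℂ ((Fin m → Fin N) → ((Fin m → Fin N) → ℂ))) g‖ ≤ N * ‖g‖ := by
  classical
  rw [pi_norm_le_iff_of_nonneg (by positivity)]
  intro x
  rw [EE_apply]
  split_ifs
  · refine (norm_sum_le _ _).trans ?_
    calc ∑ c, ‖g (upd x p q c)‖ ≤ ∑ _c : Fin N, ‖g‖ :=
          Finset.sum_le_sum (fun c _ => norm_le_pi_norm g _)
      _ = N * ‖g‖ := by simp
  · rw [norm_zero]; positivity

theorem ee_norm {m N : ℕ} (i : ℕ) (g : (Fin m → Fin N) → ((Fin m → Fin N) → ℂ)) :
    ‖ee m N ((Fin m → Fin N) → ℂ) i g‖ ≤ N * ‖g‖ := by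
  unfold ee
  split_ifs
  · exact EE_norm _ _ g
  · rw [LinearMap.zero_apply, norm_zero]; positivity

theorem norm_sq_Ar (N : ℕ) (hN : 3 ≤ N) : ‖Ar N‖ ^ 2 = xr N := by
  have h3 := xr_gt N hN
  rw [← norm_pow, Ar_sq N hN, norm_neg, Complex.norm_real, Real.norm_of_nonneg (by linarith)]

theorem le_two (N : ℕ) (hN : 3 ≤ N) : (N : ℝ) ≤ 2 * ‖Ar N‖ ^ 2 := by
  rw [norm_sq_Ar N hN]
  have h := xr_eq N hN
  have h1 := xr_gt N hN
  have h2 : (xr N)⁻¹ ≤ 1 := inv_le_one_of_one_le₀ h1.le
  linarith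

/-- the bound for the norm of a letter -/
noncomputable def lb (a : ℝ) (x : Bool × ℕ) : ℝ := if x.1 then 3 * a else 3 * a ^ 3

theorem lt_norm {m N : ℕ} (hN : 3 ≤ N) (x : Bool × ℕ)
    (g : (Fin m → Fin N) → ((Fin m → Fin N) → ℂ)) :
    ‖lt (Ar N) m N x g‖ ≤ lb ‖Ar N‖ x * ‖g‖ := by
  have h1 := Ar_norm N hN
  have h2 := le_two N hN
  set a := ‖Ar N‖ with ha
  have ha0 : 0 < a := by linarith
  have he := ee_norm (m := m) (N := N) x.2 g
  have hg := norm_nonneg g
  have hai : a⁻¹ ≤ 1 := inv_le_one_of_one_le₀ h1.le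
  have hai0 : 0 < a⁻¹ := inv_pos.2 ha0
  unfold lt lb
  split_ifs with hx
  · unfold sg
    rw [LinearMap.add_apply, LinearMap.smul_apply, LinearMap.smul_apply, Module.End.one_apply]
    refine (norm_add_le _ _).trans ?_
    rw [norm_smul, norm_smul, norm_inv, ← ha]
    have h3 : a⁻¹ * ‖ee m N ((Fin m → Fin N) → ℂ) x.2 g‖ ≤ a⁻¹ * (N * ‖g‖) :=
      mul_le_mul_of_nonneg_left he hai0.le
    have h4 : a⁻¹ * (N * ‖g‖) ≤ a⁻¹ * (2 * a ^ 2 * ‖g‖) :=
      mul_le_mul_of_nonneg_left (mul_le_mul_of_nonneg_right h2 hg) hai0.le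
    have h5 : a⁻¹ * (2 * a ^ 2 * ‖g‖) = 2 * a * ‖g‖ := by
      field_simp
    linarith
  · unfold sg
    rw [LinearMap.add_apply, LinearMap.smul_apply, LinearMap.smul_apply, Module.End.one_apply]
    refine (norm_add_le _ _).trans ?_
    rw [norm_smul, norm_smul, norm_inv, inv_inv, ← ha]
    have h3 : a * ‖ee m N ((Fin m → Fin N) → ℂ) x.2 g‖ ≤ a * (N * ‖g‖) :=
      mul_le_mul_of_nonneg_left he ha0.le
    have h4 : a * (N * ‖g‖) ≤ a * (2 * a ^ 2 * ‖g‖) :=
      mul_le_mul_of_nonneg_left (mul_le_mul_of_nonneg_right h2 hg) ha0.le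
    have h5 : a * (2 * a ^ 2 * ‖g‖) = 2 * a ^ 3 * ‖g‖ := by ring
    have h6 : a⁻¹ * ‖g‖ ≤ a ^ 3 * ‖g‖ := by
      apply mul_le_mul_of_nonneg_right _ hg
      calc a⁻¹ ≤ 1 := hai
        _ ≤ a ^ 3 := one_le_pow₀ h1.le
    linarith

/-- the bound for the norm of a word -/
noncomputable def gr (a : ℝ) (w : List (Bool × ℕ)) : ℝ := (w.map (lb a)).prod

theorem lb_nonneg {a : ℝ} (ha : 0 ≤ a) (x : Bool × ℕ) : 0 ≤ lb a x := by
  unfold lb; split_ifs <;> positivity

theorem gr_nonneg {a : ℝ} (ha : 0 ≤ a) (w : List (Bool × ℕ)) : 0 ≤ gr a w := by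
  unfold gr
  apply List.prod_nonneg
  intro y hy
  obtain ⟨x, _, rfl⟩ := List.mem_map.1 hy
  exact lb_nonneg ha x

theorem rho_norm {m N : ℕ} (hN : 3 ≤ N) (w : List (Bool × ℕ))
    (g : (Fin m → Fin N) → ((Fin m → Fin N) → ℂ)) :
    ‖rho (Ar N) m N w g‖ ≤ gr ‖Ar N‖ w * ‖g‖ := by
  induction w with
  | nil => simp [rho, gr]
  | cons x w ih =>
    have h1 : rho (Ar N) m N (x :: w) g = lt (Ar N) m N x (rho (Ar N) m N w g) := by
      simp [rho]
    have h2 : gr ‖Ar N‖ (x :: w) = lb ‖Ar N‖ x * gr ‖Ar N‖ w := by simp [gr]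
    rw [h1, h2, mul_assoc]
    exact (lt_norm hN x _).trans (mul_le_mul_of_nonneg_left ih (lb_nonneg (norm_nonneg _) x))

theorem gr_rep (a : ℝ) (w : List (Bool × ℕ)) (n : ℕ) :
    gr a (List.replicate n w).flatten = gr a w ^ n := by
  induction n with
  | zero => simp [gr]
  | succ n ih =>
    rw [List.replicate_succ, List.flatten_cons]
    have : gr a (w ++ (List.replicate n w).flatten) = gr a w * gr a (List.replicate n w).flatten := by
      simp [gr]
    rw [this, ih, pow_succ, mul_comm]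

/-- number of positive letters -/
def pos (w : List (Bool × ℕ)) : ℕ := w.countP (fun x => x.1)
/-- number of negative letters -/
def neg (w : List (Bool × ℕ)) : ℕ := w.countP (fun x => !x.1)

theorem gr_eq {a : ℝ} (w : List (Bool × ℕ)) :
    gr a w = 3 ^ (pos w + neg w) * a ^ (pos w + 3 * neg w) := by
  induction w with
  | nil => simp [gr, pos, neg]
  | cons x w ih =>
    have h2 : gr a (x :: w) = lb a x * gr a w := by simp [gr]
    rw [h2, ih]
    unfold lb
    obtain ⟨b, i⟩ := x
    cases b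
    · have e1 : pos ((false, i) :: w) = pos w := by simp [pos]
      have e2 : neg ((false, i) :: w) = neg w + 1 := by simp [neg]
      rw [e1, e2]
      simp only [Bool.false_eq_true, if_false]
      ring
    · have e1 : pos ((true, i) :: w) = pos w + 1 := by simp [pos]
      have e2 : neg ((true, i) :: w) = neg w := by simp [neg]
      rw [e1, e2]
      simp only [if_true]
      ring

theorem pos_inv (w : List (Bool × ℕ)) : pos (invL w) = neg w := by
  unfold pos neg invL
  rw [List.countP_reverse, List.countP_map]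
  rfl

theorem neg_inv (w : List (Bool × ℕ)) : neg (invL w) = pos w := by
  unfold pos neg invL
  rw [List.countP_reverse, List.countP_map]
  congr 1
  funext x
  simp

/-! ### the functional -/

theorem Zg_norm {m N : ℕ} (A : ℂ) (O : Outer m) :
    ∃ C : ℝ, 0 ≤ C ∧ ∀ g : (Fin m → Fin N) → ((Fin m → Fin N) → ℂ), ‖Zg A N O g‖ ≤ C * ‖g‖ := by
  classical
  refine ⟨∑ col : O.P → Fin N, ‖WW A O.arcs O.crossings col‖,
    Finset.sum_nonneg fun _ _ => norm_nonneg _, fun g => ?_⟩
  unfold Zg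
  refine (norm_sum_le _ _).trans ?_
  rw [Finset.sum_mul]
  refine Finset.sum_le_sum fun col _ => ?_
  rw [norm_mul]
  apply mul_le_mul_of_nonneg_left _ (norm_nonneg _)
  exact (norm_le_pi_norm _ _).trans (norm_le_pi_norm g _)

/-- a Laurent polynomial vanishes if its values at almost all of the points vanish -/
theorem eq_zero_of_ev_large (f : ℤ[T;T⁻¹]) (N0 : ℕ)
    (h : ∀ N (hN : 3 ≤ N), N0 ≤ N → ev N hN f = 0) : f = 0 := by
  obtain ⟨n, p, hp⟩ := LaurentPolynomial.exists_T_pow f
  have hp0 : p = 0 := by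
    have h1 : ∀ N, 3 ≤ N → N0 ≤ N → (p.map (Int.castRingHom ℂ)).eval (Ar N) = 0 := by
      intro N hN hN0
      have h2 := congrArg (ev N hN) hp
      rw [map_mul, h N hN hN0, zero_mul] at h2
      unfold ev at h2
      rw [LaurentPolynomial.eval₂_toLaurent] at h2
      rw [Polynomial.eval_map]
      exact h2
    have h3 : p.map (Int.castRingHom ℂ) = 0 := by
      apply Polynomial.eq_zero_of_infinite_isRoot
      have : Set.InjOn Ar {N | max 3 N0 ≤ N} := by
        intro N hN N' hN' hNN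
        have hN3 : 3 ≤ N := (le_max_left _ _).trans hN
        have hN3' : 3 ≤ N' := (le_max_left _ _).trans hN'
        have h4 : Ar N ^ 2 = Ar N' ^ 2 := by rw [hNN]
        rw [Ar_sq N hN3, Ar_sq N' hN3', neg_inj, Complex.ofReal_inj] at h4
        rcases lt_trichotomy N N' with h5 | h5 | h5
        · exact absurd h4 (xr_strictMono h5 hN3).ne
        · exact h5
        · exact absurd h4 (xr_strictMono h5 hN3').ne'
      have hinf : Set.Infinite (Ar '' {N | max 3 N0 ≤ N}) := by
        apply Set.Infinite.image this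
        exact Set.Ici_infinite _
      refine hinf.mono ?_
      rintro _ ⟨N, hN, rfl⟩
      exact h1 N ((le_max_left _ _).trans hN) ((le_max_right _ _).trans hN)
    exact (Polynomial.map_injective _ (RingHom.injective_int (Int.castRingHom ℂ)))
      (by rw [h3, Polynomial.map_zero])
  rw [hp0, map_zero] at hp
  have h5 : f * T n * T (-n) = 0 := by rw [← hp, zero_mul]
  rw [mul_assoc, ← T_add, add_neg_cancel, T_zero, mul_one] at h5
  exact h5

end Pool.Agent.V11227.JP
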