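import Pool.Agent.V11227.JonesPos

/-!
# Powers of braid words with many more positive than negative letters: the bounds
-/

set_option autoImplicit false

namespace Pool.Agent.V11227.JP

open Finset LaurentPolynomial Filter Topology Pool.Agent.H891R2.Jones Pool.Agent.W639.RB
  Pool.Agent.Y463.SK

theorem contract_pos {a : ℝ} (ha1 : 1 < a) (w : List (Bool × ℕ)) (e : ℤ) 
    (haL : 3 ^ (pos w + neg w) < a) (h : (pos w : ℤ) + 3 * neg w < e) :
    a ^ (-e) * gr a w < 1 := by
  have ha0 : 0 < a := by linarith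
  rw [gr_eq, mul_left_comm, ← zpow_natCast a, ← zpow_add₀ ha0.ne']
  have h1 : -e + ((pos w + 3 * neg w : ℕ) : ℤ) ≤ -1 := by push_cast; linarith
  have h2 : a ^ (-e + ((pos w + 3 * neg w : ℕ) : ℤ)) ≤ a ^ (-1 : ℤ) :=
    zpow_le_zpow_right₀ ha1.le h1
  have h3 : (0:ℝ) < 3 ^ (pos w + neg w) := by positivity
  calc (3:ℝ) ^ (pos w + neg w) * a ^ (-e + ((pos w + 3 * neg w : ℕ) : ℤ)) 
      ≤ 3 ^ (pos w + neg w) * a ^ (-1 : ℤ) := mul_le_mul_of_nonneg_left h2 h3.le
    _ < a * a ^ (-1 : ℤ) := mul_lt_mul_of_pos_right haL (by positivity)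
    _ = 1 := by rw [zpow_neg_one, mul_inv_cancel₀ ha0.ne']

theorem powL_nat (w : List (Bool × ℕ)) (k : ℕ) : powL w (k : ℤ) = (List.replicate k w).flatten := rfl

theorem powL_neg (w : List (Bool × ℕ)) (k : ℕ) :
    powL w (-(k : ℤ)) = (List.replicate k (invL w)).flatten := by
  rcases k with _ | k
  · rfl
  · have : -((k + 1 : ℕ) : ℤ) = Int.negSucc k := by rw [Int.negSucc_eq]; push_cast; ring
    rw [this]
    rfl

/-- **The first alternative is impossible for mostly positive and for mostly negative words.** -/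
theorem no_all {m : ℕ} (hm : 0 < m) (O : Outer m) (w : List (Bool × ℕ)) (hw : ∀ x ∈ w, x.2 + 1 < m)
    (hp : permL w = 1) (v : List (Bool × ℕ)) (hv : ∀ x ∈ v, x.2 + 1 < m)
    (h : (pos w : ℤ) + 3 * neg w < 3 * costS w (pat O.up) ∨
      (neg w : ℤ) + 3 * pos w < -(3 * costS w (pat O.up)))
    (F : ℤ[T;T⁻¹]) (hF : F ≠ 0) : ¬ ∀ n : ℤ, ff O (powL w n ++ v) = F := by
  intro hall
  apply hF
  set c := costS w (pat O.up) with hc
  set L := pos w + neg w with hL
  apply eq_zero_of_ev_large F (2 * 9 ^ L + 3)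
  intro N hN hN0
  have ha1 := Ar_norm N hN
  have hle := le_two N hN
  have hANE := Ar_ne N hN
  set a := ‖Ar N‖ with ha
  have ha0 : 0 < a := by linarith
  have haL : (3:ℝ) ^ L < a := by
    have h1 : (2 * 9 ^ L + 3 : ℝ) ≤ N := by exact_mod_cast hN0
    have h2 : ((3:ℝ) ^ L) ^ 2 = 9 ^ L := by
      rw [← pow_mul, mul_comm, pow_mul]; norm_num
    by_contra hcon
    have h3 : a ≤ 3 ^ L := not_lt.1 hcon
    have h4 : a ^ 2 ≤ (3 ^ L) ^ 2 := pow_le_pow_left₀ ha0.le h3 2
    linarith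
  obtain ⟨C, hC0, hC⟩ := Zg_norm (N := N) (Ar N) O
  set g0 := rho (Ar N) m N v (fun x y => ind (x = y)) with hg0
  obtain ⟨K, hK⟩ : ∃ K : ℂ, K = (if Even (owr O + costS v (pat O.up)) then (1 : ℂ) else -1) *
    (Ar N) ^ (-3 * (owr O + costS v (pat O.up))) := ⟨_, rfl⟩
  have key : ∀ n : ℤ, (N : ℂ) * ev N hN F =
      K * ((Ar N) ^ (-3 * (n * c)) * Zg (Ar N) N O (rho (Ar N) m N (powL w n) g0)) := by
    intro n
    have h1 := key_formula hm O w hw hp v hv ⟨N, hN⟩ n
    rw [hall n, Fn_smul, ev_T] at h1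
    unfold Fn at h1
    rw [bb_apply] at h1
    rw [hK]
    exact h1
  have bound : ∀ n : ℤ, (N : ℝ) * ‖ev N hN F‖ ≤
      (‖K‖ * C * ‖g0‖) * (a ^ (-3 * (n * c)) * gr a (powL w n)) := by
    intro n
    have h1 := congrArg norm (key n)
    rw [norm_mul, norm_mul, norm_mul, norm_zpow, Complex.norm_natCast, ← ha] at h1
    rw [h1]
    have h2 := hC (rho (Ar N) m N (powL w n) g0)
    have h3 := rho_norm hN (powL w n) g0
    have h4 : 0 < a ^ (-3 * (n * c)) := zpow_pos ha0 _
    have h5 : ‖Zg (Ar N) N O (rho (Ar N) m N (powL w n) g0)‖ ≤ C * (gr a (powL w n) * ‖g0‖) :=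
      h2.trans (mul_le_mul_of_nonneg_left h3 hC0)
    calc ‖K‖ * (a ^ (-3 * (n * c)) * ‖Zg (Ar N) N O (rho (Ar N) m N (powL w n) g0)‖)
        ≤ ‖K‖ * (a ^ (-3 * (n * c)) * (C * (gr a (powL w n) * ‖g0‖))) :=
          mul_le_mul_of_nonneg_left (mul_le_mul_of_nonneg_left h5 h4.le) (norm_nonneg _)
      _ = (‖K‖ * C * ‖g0‖) * (a ^ (-3 * (n * c)) * gr a (powL w n)) := by ring
  obtain ⟨ρ, hρ0, hρ1, hM⟩ : ∃ ρ : ℝ, 0 ≤ ρ ∧ ρ < 1 ∧ ∀ k : ℕ,
      (N:ℝ) * ‖ev N hN F‖ ≤ (‖K‖ * C * ‖g0‖) * ρ ^ k := by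
    rcases h with h | h
    · refine ⟨a ^ (-(3 * c)) * gr a w, mul_nonneg (zpow_nonneg ha0.le _) (gr_nonneg ha0.le w),
        contract_pos ha1 w (3 * c) haL h, fun k => ?_⟩
      have h1 := bound k
      rw [powL_nat, gr_rep] at h1
      rw [mul_pow, ← zpow_natCast (a ^ (-(3 * c))), ← zpow_mul]
      have h2 : -3 * ((k : ℤ) * c) = -(3 * c) * (k : ℤ) := by ring
      rw [h2] at h1
      exact h1
    · have h' : (pos (invL w) : ℤ) + 3 * neg (invL w) < -(3 * c) := by
        rw [pos_inv, neg_inv]; exact h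
      have haL' : (3:ℝ) ^ (pos (invL w) + neg (invL w)) < a := by
        rw [pos_inv, neg_inv, add_comm]; exact haL
      refine ⟨a ^ (-(-(3 * c))) * gr a (invL w), mul_nonneg (zpow_nonneg ha0.le _)
        (gr_nonneg ha0.le _), contract_pos ha1 (invL w) (-(3 * c)) haL' h', fun k => ?_⟩
      have h1 := bound (-(k : ℤ))
      rw [powL_neg, gr_rep] at h1
      rw [mul_pow, ← zpow_natCast (a ^ (-(-(3 * c)))), ← zpow_mul]
      have h2 : -3 * (-(k : ℤ) * c) = -(-(3 * c)) * (k : ℤ) := by ring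
      rw [h2] at h1
      exact h1
  have hlim : Tendsto (fun k : ℕ => (‖K‖ * C * ‖g0‖) * ρ ^ k) atTop (𝓝 ((‖K‖ * C * ‖g0‖) * 0)) :=
    (tendsto_pow_atTop_nhds_zero_of_lt_one hρ0 hρ1).const_mul _
  have h1 : (N:ℝ) * ‖ev N hN F‖ ≤ (‖K‖ * C * ‖g0‖) * 0 := ge_of_tendsto' hlim hM
  rw [mul_zero] at h1
  have h2 : (0:ℝ) < N := by
    have : 0 < N := by omega
    exact_mod_cast this
  have h3 : ‖ev N hN F‖ ≤ 0 := by
    by_contra hcon
    have := mul_pos h2 (not_le.1 hcon)
    linarith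
  exact norm_le_zero_iff.1 h3

/-! ### words with a power which is pure, a prefix and a suffix -/

theorem pos_flat (w : List (Bool × ℕ)) (r : ℕ) : pos (List.replicate r w).flatten = r * pos w := by
  induction r with
  | zero => simp [pos]
  | succ r ih =>
    rw [List.replicate_succ, List.flatten_cons]
    have : pos (w ++ (List.replicate r w).flatten) = pos w + pos (List.replicate r w).flatten := by
      unfold pos; rw [List.countP_append]
    rw [this, ih]; ring

theorem neg_flat (w : List (Bool × ℕ)) (r : ℕ) : neg (List.replicate r w).flatten = r * neg w := by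
  induction r with
  | zero => simp [neg]
  | succ r ih =>
    rw [List.replicate_succ, List.flatten_cons]
    have : neg (w ++ (List.replicate r w).flatten) = neg w + neg (List.replicate r w).flatten := by
      unfold neg; rw [List.countP_append]
    rw [this, ih]; ring

/-- the writhe of the crossings of the word `x` drawn in the box of `O` -/
noncomputable def wr {m : ℕ} (O : Outer m) (x : List (Bool × ℕ)) : ℤ := costS x (pat O.up)

/-- `w` (with `w ^ r` pure) is mostly positive or mostly negative in the box of `O` -/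
def Big {m : ℕ} (O : Outer m) (w : List (Bool × ℕ)) (r : ℕ) : Prop :=
  (r : ℤ) * (pos w + 3 * neg w) < 3 * wr O (powL w r) ∨
    (r : ℤ) * (neg w + 3 * pos w) < -(3 * wr O (powL w r))

theorem class_eq {m : ℕ} (hm : 0 < m) (O : Outer m) (w : List (Bool × ℕ))
    (hw : ∀ x ∈ w, x.2 + 1 < m) (r : ℕ) (s : ℤ) (v : List (Bool × ℕ))
    (hv : ∀ x ∈ v, x.2 + 1 < m) (q : ℤ) :
    ff O (powL w (r * q + s) ++ v) = ff O (powL (powL w r) q ++ (powL w s ++ v)) := by
  have hwr := powL_lt hw r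
  apply ff_congr hm O
  · intro x hx
    rcases List.mem_append.1 hx with h | h
    · exact powL_lt hw _ x h
    · exact hv x h
  · intro x hx
    rcases List.mem_append.1 hx with h | h
    · exact powL_lt hwr _ x h
    · rcases List.mem_append.1 h with h | h
      · exact powL_lt hw s x h
      · exact hv x h
  · rw [← List.append_assoc]
    exact Eqv.append (powL_mul hw r s q) (Eqv.refl v)

theorem no_class {m : ℕ} (hm : 0 < m) (O : Outer m) (w : List (Bool × ℕ))
    (hw : ∀ x ∈ w, x.2 + 1 < m) (r : ℕ) (hp : permL (powL w r) = 1) (hB : Big O w r) (s : ℤ)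
    (v : List (Bool × ℕ)) (hv : ∀ x ∈ v, x.2 + 1 < m) (F : ℤ[T;T⁻¹]) (hF : F ≠ 0) :
    ¬ ∀ q : ℤ, ff O (powL w (r * q + s) ++ v) = F := by
  intro hall
  refine no_all hm O (powL w r) (powL_lt hw r) hp (powL w s ++ v) ?_ ?_ F hF
    (fun q => by rw [← class_eq hm O w hw r s v hv q]; exact hall q)
  · intro x hx
    rcases List.mem_append.1 hx with h | h
    · exact powL_lt hw s x h
    · exact hv x h
  · have e1 : (pos (powL w r) : ℤ) = r * pos w := by rw [powL_nat, pos_flat]; push_cast; rfl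
    have e2 : (neg (powL w r) : ℤ) = r * neg w := by rw [powL_nat, neg_flat]; push_cast; rfl
    rcases hB with h | h
    · left
      rw [e1, e2]
      unfold wr at h
      linarith
    · right
      rw [e1, e2]
      unfold wr at h
      linarith

theorem class_bound {m : ℕ} (hm : 0 < m) (O : Outer m) (w : List (Bool × ℕ))
    (hw : ∀ x ∈ w, x.2 + 1 < m) (r : ℕ) (hp : permL (powL w r) = 1) (hB : Big O w r) (s : ℤ)
    (v : List (Bool × ℕ)) (hv : ∀ x ∈ v, x.2 + 1 < m) (F : ℤ[T;T⁻¹]) (hF : F ≠ 0) 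
    (Z : Finset ℤ) (hZ : ∀ z ∈ Z, ff O (powL w (r * z + s) ++ v) = F) : Z.card ≤ m.factorial :=
  (single_general hm O w hw r hp s v hv F).resolve_left
    (no_class hm O w hw r hp hB s v hv F hF) Z hZ

/-- **The bound for one word.** -/
theorem one_word {m : ℕ} (hm : 0 < m) (O : Outer m) (w : List (Bool × ℕ))
    (hw : ∀ x ∈ w, x.2 + 1 < m) (r : ℕ) (hr : 0 < r) (hp : permL (powL w r) = 1) (hB : Big O w r)
    (v : List (Bool × ℕ)) (hv : ∀ x ∈ v, x.2 + 1 < m) (F : ℤ[T;T⁻¹]) (hF : F ≠ 0)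
    (Z : Finset ℤ) (hZ : ∀ z ∈ Z, ff O (powL w z ++ v) = F) : Z.card ≤ r * m.factorial := by
  classical
  have h1 : Z ⊆ (Finset.range r).biUnion (fun s => Z.filter (fun z => z % r = s)) := by
    intro z hz
    rw [Finset.mem_biUnion]
    have hr' : (0:ℤ) < r := by exact_mod_cast hr
    have h2 := Int.emod_nonneg z hr'.ne'
    have h3 := Int.emod_lt_of_pos z hr'
    refine ⟨(z % r).toNat, Finset.mem_range.2 (by omega), ?_⟩
    rw [Finset.mem_filter]
    exact ⟨hz, by rw [Int.toNat_of_nonneg h2]⟩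
  refine (Finset.card_le_card h1).trans (Finset.card_biUnion_le.trans ?_)
  have h4 : ∀ s ∈ Finset.range r, (Z.filter (fun z : ℤ => z % r = (s:ℤ))).card ≤ m.factorial := by
    intro s _
    have hinj : Set.InjOn (fun z : ℤ => z / r) (Z.filter (fun z : ℤ => z % r = (s:ℤ))) := by
      intro z hz z' hz' h
      have h5 := (Finset.mem_filter.1 hz).2
      have h6 := (Finset.mem_filter.1 hz').2
      have h7 := Int.mul_ediv_add_emod z r
      have h8 := Int.mul_ediv_add_emod z' r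
      simp only at h
      rw [← h7, ← h8, h, h5, h6]
    rw [← Finset.card_image_of_injOn hinj]
    apply class_bound hm O w hw r hp hB s v hv F hF
    intro q hq
    obtain ⟨z, hz, rfl⟩ := Finset.mem_image.1 hq
    have h5 := (Finset.mem_filter.1 hz).2
    have h7 := Int.mul_ediv_add_emod z r
    rw [← h5, h7]
    exact hZ z (Finset.mem_filter.1 hz).1
  calc ∑ s ∈ Finset.range r, (Z.filter (fun z : ℤ => z % r = (s:ℤ))).card 
      ≤ ∑ _s ∈ Finset.range r, m.factorial := Finset.sum_le_sum h4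
    _ = r * m.factorial := by rw [Finset.sum_const, Finset.card_range, smul_eq_mul]

end Pool.Agent.V11227.JP
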