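import Pool.Agent.V11227.OPDefs

/-!
# Open packings: a general criterion
-/

set_option autoImplicit false

namespace Pool.Agent.V11227.OP

variable {V W : Type}

theorem OpenPacking.subset {G : SimpleGraph V} {S T : Finset V} (hT : OpenPacking G T)
    (h : S ⊆ T) : OpenPacking G S := fun u hu v hv => hT u (h hu) v (h hv)

theorem mem_map_iso {G : SimpleGraph V} {H : SimpleGraph W} (e : G ≃g H) (S : Finset V) (x : W) :
    x ∈ S.map e.toEquiv.toEmbedding ↔ e.symm x ∈ S := by
  rw [Finset.mem_map_equiv]
  rfl

theorem openPacking_map {G : SimpleGraph V} {H : SimpleGraph W} (e : G ≃g H) (S : Finset V) :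
    OpenPacking H (S.map e.toEquiv.toEmbedding) ↔ OpenPacking G S := by
  constructor
  · intro h u hu v hv huv w hw
    refine h (e u) ((mem_map_iso e S _).2 (by rwa [e.symm_apply_apply])) (e v)
      ((mem_map_iso e S _).2 (by rwa [e.symm_apply_apply])) (fun h' => huv (e.injective h'))
      (e w) ⟨e.map_adj_iff.2 hw.1, e.map_adj_iff.2 hw.2⟩
  · intro h u hu v hv huv w hw
    rw [mem_map_iso] at hu hv
    refine h _ hu _ hv (fun h' => huv (e.symm.injective h')) (e.symm w) ⟨?_, ?_⟩
    · exact e.symm.map_adj_iff.2 hw.1
    · exact e.symm.map_adj_iff.2 hw.2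

theorem maximal_map {G : SimpleGraph V} {H : SimpleGraph W} (e : G ≃g H) (S : Finset V)
    (h : MaximalOpenPacking G S) : MaximalOpenPacking H (S.map e.toEquiv.toEmbedding) := by
  refine ⟨(openPacking_map e S).2 h.1, fun T hT hST => ?_⟩
  have h1 : OpenPacking G (T.map e.symm.toEquiv.toEmbedding) := (openPacking_map e.symm T).2 hT
  have h2 : S ⊆ T.map e.symm.toEquiv.toEmbedding := by
    intro x hx
    refine (mem_map_iso e.symm T x).2 (hST ((mem_map_iso e S _).2 ?_))
    have : e.symm (e.symm.symm x) = x := e.symm_apply_apply x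
    rwa [this]
  have h3 := h.2 _ h1 h2
  rw [← h3]
  ext x
  rw [mem_map_iso, mem_map_iso]
  have : e.symm.symm (e.symm x) = x := e.apply_symm_apply x
  rw [this]

theorem sameSize_iso {G : SimpleGraph V} {H : SimpleGraph W} (e : G ≃g H) :
    AllMaximalSameSize G ↔ AllMaximalSameSize H := by
  have key : ∀ {V W : Type} {G : SimpleGraph V} {H : SimpleGraph W} (_ : G ≃g H),
      AllMaximalSameSize H → AllMaximalSameSize G := by
    intro V W G H e h S T hS hT
    have := h _ _ (maximal_map e S hS) (maximal_map e T hT)
    simpa using this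
  exact ⟨key e.symm, key e⟩

theorem exists_maximal [Fintype V] {G : SimpleGraph V} {S : Finset V} (hS : OpenPacking G S) :
    ∃ T, S ⊆ T ∧ MaximalOpenPacking G T := by
  classical
  obtain ⟨T, hT, hmax⟩ := Finset.exists_max_image
    ((Finset.univ : Finset (Finset V)).filter fun T => OpenPacking G T ∧ S ⊆ T) Finset.card
    ⟨S, by simp [hS]⟩
  simp only [Finset.mem_filter, Finset.mem_univ, true_and] at hT hmax
  refine ⟨T, hT.2, hT.1, fun T' hT' hTT' => ?_⟩
  exact (Finset.eq_of_subset_of_card_le hTT' (hmax T' ⟨hT', hT.2.trans hTT'⟩)).symm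

variable [DecidableEq V] (G : SimpleGraph V) (part : V → V) (z : V)
  (h1 : ∀ u v, u ≠ v → part u = part v → ∃ w, G.Adj u w ∧ G.Adj v w)
  (h2 : ∀ v, part v ≠ part z → ∀ u w, G.Adj u w → G.Adj (part v) w → part u = part v)
  (h3 : ∀ v, part (part v) = part v)

include h1 in
theorem part_inj {S : Finset V} (hS : OpenPacking G S) : Set.InjOn part (S : Set V) := by
  intro u hu v hv huv
  by_contra hne
  obtain ⟨w, hw⟩ := h1 u v hne huv
  exact hS u hu v hv hne w hw

include h2 h3 in
theorem hits {S : Finset V} (hS : MaximalOpenPacking G S) (v : V) (hv : part v ≠ part z) :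
    part v ∈ S.image part := by
  classical
  by_contra hcon
  have hn : part v ∉ S := fun h => hcon (Finset.mem_image.2 ⟨_, h, h3 v⟩)
  have hop : OpenPacking G (insert (part v) S) := by
    intro a ha b hb hab w hw
    rw [Finset.mem_insert] at ha hb
    rcases ha with rfl | ha <;> rcases hb with rfl | hb
    · exact hab rfl
    · exact hcon (Finset.mem_image.2 ⟨b, hb, h2 v hv b w hw.2 hw.1⟩)
    · exact hcon (Finset.mem_image.2 ⟨a, ha, h2 v hv a w hw.1 hw.2⟩)
    · exact hS.1 a ha b hb hab w hw
  have := hS.2 _ hop (Finset.subset_insert _ _)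
  exact hn (this ▸ Finset.mem_insert_self _ _)

include h1 h2 h3 in
/-- The criterion: all maximal open packings have the same size unless some open packing blocks
the whole part of `z`. -/
theorem sameSize_iff [Fintype V] : AllMaximalSameSize G ↔
    ¬ ∃ T, OpenPacking G T ∧ ∀ c, part c = part z → c ∉ T ∧ ∃ u ∈ T, ∃ w, G.Adj u w ∧ G.Adj c w := by
  classical
  set U := (Finset.univ : Finset V).image part with hU
  have hsub : ∀ S : Finset V, S.image part ⊆ U := fun S =>
    Finset.image_subset_image (Finset.subset_univ S)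
  have hcard : ∀ S, OpenPacking G S → S.card = (S.image part).card := fun S hS =>
    (Finset.card_image_of_injOn (part_inj G part h1 hS)).symm
  have himg : ∀ S, MaximalOpenPacking G S → part z ∈ S.image part → S.image part = U := by
    intro S hS hz
    refine Finset.Subset.antisymm (hsub S) fun p hp => ?_
    obtain ⟨v, -, rfl⟩ := Finset.mem_image.1 hp
    by_cases hv : part v = part z
    · rw [hv]; exact hz
    · exact hits G part z h2 h3 hS v hv
  constructor
  · rintro h ⟨T, hT, hblock⟩
    obtain ⟨S, hTS, hS⟩ := exists_maximal hT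
    have hzS : part z ∉ S.image part := by
      intro hz
      obtain ⟨c, hc, hcz⟩ := Finset.mem_image.1 hz
      obtain ⟨hcT, u, hu, w, hw⟩ := hblock c hcz
      have huc : u ≠ c := fun h => hcT (h ▸ hu)
      exact hS.1 u (hTS hu) c hc huc w hw
    obtain ⟨S', hzS', hS'⟩ := exists_maximal (G := G) (S := {z}) (by
      intro u hu v hv huv
      rw [Finset.mem_singleton] at hu hv
      exact absurd (hu.trans hv.symm) huv)
    have h4 := himg S' hS' (Finset.mem_image_of_mem _ (hzS' (Finset.mem_singleton_self z)))
    have h5 := h S S' hS hS'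
    rw [hcard S hS.1, hcard S' hS'.1, h4] at h5
    have h6 := Finset.eq_of_subset_of_card_le (hsub S) (le_of_eq h5.symm)
    apply hzS
    rw [h6]
    exact Finset.mem_image_of_mem _ (Finset.mem_univ z)
  · intro h
    have key : ∀ S, MaximalOpenPacking G S → S.card = U.card := by
      intro S hS
      rw [hcard S hS.1, himg S hS]
      by_contra hz
      apply h
      refine ⟨S, hS.1, fun c hc => ?_⟩
      have hcS : c ∉ S := fun h' => hz (Finset.mem_image.2 ⟨c, h', hc⟩)
      refine ⟨hcS, ?_⟩
      by_contra hno
      push Not at hno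
      have hop : OpenPacking G (insert c S) := by
        intro a ha b hb hab w hw
        rw [Finset.mem_insert] at ha hb
        rcases ha with rfl | ha <;> rcases hb with rfl | hb
        · exact hab rfl
        · exact hno b hb w hw.2 hw.1
        · exact hno a ha w hw.1 hw.2
        · exact hS.1 a ha b hb hab w hw
      have := hS.2 _ hop (Finset.subset_insert _ _)
      exact hcS (this ▸ Finset.mem_insert_self _ _)
    intro S T hS hT
    rw [key S hS, key T hT]

end Pool.Agent.V11227.OP
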