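import Pool.Agent.V11227.OP1
import Pool.Agent.H622R2.Base
import Pool.Agent.NPC.Sat2
import Pool.Agent.NPC.Dec

/-!
# Maximal open packings of the same size: the reduction from 3SAT
-/

set_option autoImplicit false

namespace Pool.Agent.V11227.OP

open Pool.Agent.NPC Pool.Agent.H622R2

/-- Labels of vertices: kind, index, second index. -/
abbrev Lab := ℕ × ℕ × ℕ

/-- The `t`-th literal of the `j`-th clause. -/
def occ (φ : List Cl3) (j t : ℕ) : H622R2.Lit :=
  let c := φ.getD j ((false, 0), (false, 0), (false, 0))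
  if t = 0 then c.1 else if t = 1 then c.2.1 else c.2.2

/-- The vertex of a literal. -/
def litLab (l : H622R2.Lit) : Lab := (0, l.2, if l.1 = true then 1 else 0)

/-- Adjacency of `x` (kind at most 3) and `y` (kind at least 4). -/
def AdjP (φ : List Cl3) (x y : Lab) : Prop :=
  (y.1 = 4 ∧ x.1 ≤ 1 ∧ x.2.1 = y.2.1) ∨ (y.1 = 5 ∧ x.1 = 1 ∧ x.2.1 = y.2.1) ∨
    (y.1 = 6 ∧ (x.1 = 2 ∨ x.1 = 3)) ∨
    (y.1 = 7 ∧ (x.1 = 3 ∨ (x.1 = 2 ∧ x.2.1 = y.2.1) ∨ x = litLab (occ φ y.2.1 y.2.2)))

instance (φ : List Cl3) (x y : Lab) : Decidable (AdjP φ x y) := by unfold AdjP; infer_instance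

/-- The labels used. -/
def Valid (m : ℕ) (x : Lab) : Prop :=
  (x.1 = 0 ∧ x.2.2 < 2) ∨ ((x.1 = 1 ∨ x.1 = 4 ∨ x.1 = 5) ∧ x.2.2 = 0) ∨
    (x.1 = 2 ∧ x.2.1 < m ∧ x.2.2 = 0) ∨ (x.1 = 7 ∧ x.2.1 < m) ∨
    ((x.1 = 3 ∨ x.1 = 6) ∧ x.2.1 = 0 ∧ x.2.2 = 0)

instance (m : ℕ) (x : Lab) : Decidable (Valid m x) := by unfold Valid; infer_instance

/-- The list of vertices. -/
def verts (φ : List Cl3) : List Lab :=
  ddup (((List.range 8).flatMap fun k => (List.range (3 * φ.length)).flatMap fun i =>
    (List.range 3).map fun t => (k, i, t)).filter fun x => decide (Valid φ.length x))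

theorem mem_verts (φ : List Cl3) (x : Lab) :
    x ∈ verts φ ↔ x.1 < 8 ∧ x.2.1 < 3 * φ.length ∧ x.2.2 < 3 ∧ Valid φ.length x := by
  obtain ⟨k, i, t⟩ := x
  unfold verts
  rw [mem_ddup, List.mem_filter]
  simp only [List.mem_flatMap, List.mem_range, List.mem_map, Prod.mk.injEq, decide_eq_true_eq]
  constructor
  · rintro ⟨⟨k', hk, i', hi, t', ht, rfl, rfl, rfl⟩, hv⟩
    exact ⟨hk, hi, ht, hv⟩
  · rintro ⟨hk, hi, ht, hv⟩
    exact ⟨⟨k, hk, i, hi, t, ht, rfl, rfl, rfl⟩, hv⟩

/-- The reduction. -/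
def red (φ : List Cl3) : List (List Bool) :=
  mat (verts φ) fun x y => decide (AdjP φ x y)

/-- The parts. -/
def part (x : Lab) : Lab :=
  if x.1 ≤ 1 then (1, x.2.1, 0) else if x.1 ≤ 3 then (3, 0, 0)
    else if x.1 ≤ 5 then (5, x.2.1, 0) else (6, 0, 0)

theorem part_mem {φ : List Cl3} {x : Lab} (h : x ∈ verts φ) : part x ∈ verts φ := by
  rw [mem_verts] at h ⊢
  obtain ⟨h1, h2, h3, h4⟩ := h
  unfold part Valid
  have hm : 0 < 3 * φ.length := by omega
  split_ifs <;> simp <;> omega

/-- The graph on the labels. -/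
abbrev Gr (φ : List Cl3) : SimpleGraph {x // x ∈ verts φ} :=
  labGraph (verts φ) fun x y => decide (AdjP φ x y)

theorem adj_iff {φ : List Cl3} (u v : {x // x ∈ verts φ}) :
    (Gr φ).Adj u v ↔ AdjP φ u.1 v.1 ∨ AdjP φ v.1 u.1 := by
  change (u ≠ v ∧ (decide (AdjP φ u.1 v.1) = true ∨ decide (AdjP φ v.1 u.1) = true)) ↔ _
  rw [decide_eq_true_eq, decide_eq_true_eq]
  constructor
  · exact fun h => h.2
  · intro h
    refine ⟨?_, h⟩
    rintro rfl
    have h' : AdjP φ u.1 u.1 := h.elim id id
    unfold AdjP litLab at h'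
    rcases h' with h' | h' | h' | ⟨h', h'' | h'' | h''⟩
    · omega
    · omega
    · omega
    · omega
    · omega
    · rw [h''] at h'
      simp at h'

/-- The map to the parts. -/
def partV {φ : List Cl3} (u : {x // x ∈ verts φ}) : {x // x ∈ verts φ} :=
  ⟨part u.1, part_mem u.2⟩

theorem part_part (x : Lab) : part (part x) = part x := by
  unfold part
  split_ifs <;> simp_all

theorem kinds {φ : List Cl3} (u : {x // x ∈ verts φ}) : u.1.1 < 8 :=
  ((mem_verts φ _).1 u.2).1

theorem common {φ : List Cl3} (u v : {x // x ∈ verts φ}) (h : partV u = partV v) :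
    ∃ w, (Gr φ).Adj u w ∧ (Gr φ).Adj v w := by
  have h : part u.1 = part v.1 := congrArg Subtype.val h
  have hu := (mem_verts φ _).1 u.2
  have hv := (mem_verts φ _).1 v.2
  have hm : 0 < 3 * φ.length := by omega
  have hk : ∀ k i t, (k, i, t) = part u.1 → part v.1 = (k, i, t) := fun _ _ _ e => by rw [← h, e]
  simp only [adj_iff]
  unfold part at h
  by_cases hu1 : u.1.1 ≤ 1
  · rw [if_pos hu1] at h
    have hv1 : v.1.1 ≤ 1 ∧ v.1.2.1 = u.1.2.1 := by
      split_ifs at h with a b c <;> simp_all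
    refine ⟨⟨(4, u.1.2.1, 0), (mem_verts φ _).2 ⟨by simp, hu.2.1, by simp, ?_⟩⟩, Or.inl ?_, Or.inl ?_⟩
    · unfold Valid; simp
    · exact Or.inl ⟨rfl, hu1, rfl⟩
    · exact Or.inl ⟨rfl, hv1.1, hv1.2⟩
  · rw [if_neg hu1] at h
    by_cases hu2 : u.1.1 ≤ 3
    · rw [if_pos hu2] at h
      have hv1 : 1 < v.1.1 ∧ v.1.1 ≤ 3 := by
        split_ifs at h with a b c <;> simp_all
      refine ⟨⟨(6, 0, 0), (mem_verts φ _).2 ⟨by simp, hm, by simp, ?_⟩⟩, Or.inl ?_, Or.inl ?_⟩
      · unfold Valid; simp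
      · exact Or.inr (Or.inr (Or.inl ⟨rfl, by omega⟩))
      · exact Or.inr (Or.inr (Or.inl ⟨rfl, by omega⟩))
    · rw [if_neg hu2] at h
      by_cases hu3 : u.1.1 ≤ 5
      · rw [if_pos hu3] at h
        have hv1 : 3 < v.1.1 ∧ v.1.1 ≤ 5 ∧ v.1.2.1 = u.1.2.1 := by
          split_ifs at h with a b c <;> simp_all
        refine ⟨⟨(1, u.1.2.1, 0), (mem_verts φ _).2 ⟨by simp, hu.2.1, by simp, ?_⟩⟩, Or.inr ?_,
          Or.inr ?_⟩
        · unfold Valid; simp
        · rcases (show u.1.1 = 4 ∨ u.1.1 = 5 by omega) with e | e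
          · exact Or.inl ⟨e, le_rfl, rfl⟩
          · exact Or.inr (Or.inl ⟨e, rfl, rfl⟩)
        · rcases (show v.1.1 = 4 ∨ v.1.1 = 5 by omega) with e | e
          · exact Or.inl ⟨e, le_rfl, hv1.2.2.symm⟩
          · exact Or.inr (Or.inl ⟨e, rfl, hv1.2.2.symm⟩)
      · rw [if_neg hu3] at h
        have hv1 : 5 < v.1.1 := by
          split_ifs at h with a b c <;> simp_all
        refine ⟨⟨(3, 0, 0), (mem_verts φ _).2 ⟨by simp, hm, by simp, ?_⟩⟩, Or.inr ?_, Or.inr ?_⟩
        · unfold Valid; simp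
        · rcases (show u.1.1 = 6 ∨ u.1.1 = 7 by omega) with e | e
          · exact Or.inr (Or.inr (Or.inl ⟨e, Or.inr rfl⟩))
          · exact Or.inr (Or.inr (Or.inr ⟨e, Or.inl rfl⟩))
        · rcases (show v.1.1 = 6 ∨ v.1.1 = 7 by omega) with e | e
          · exact Or.inr (Or.inr (Or.inl ⟨e, Or.inr rfl⟩))
          · exact Or.inr (Or.inr (Or.inr ⟨e, Or.inl rfl⟩))

theorem AdjP.kind {φ : List Cl3} {x y : Lab} (h : AdjP φ x y) : x.1 ≤ 3 ∧ 4 ≤ y.1 := by
  unfold AdjP litLab at h
  rcases h with h | h | h | ⟨h', h'' | h'' | h''⟩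
  · omega
  · omega
  · omega
  · omega
  · omega
  · rw [h'']
    simp
    omega

theorem separate {φ : List Cl3} (v : {x // x ∈ verts φ}) (hv : part v.1 ≠ (3, 0, 0))
    (u w : {x // x ∈ verts φ}) (h1 : (Gr φ).Adj u w) (h2 : (Gr φ).Adj (partV v) w) :
    part u.1 = part v.1 := by
  rw [adj_iff] at h1 h2
  change AdjP φ (part v.1) w.1 ∨ AdjP φ w.1 (part v.1) at h2
  unfold part at h2 hv
  have hk := kinds u
  by_cases a : v.1.1 ≤ 1
  · simp only [a, if_true] at h2
    have e : part v.1 = (1, v.1.2.1, 0) := by unfold part; rw [if_pos a]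
    rw [e]
    rcases h2 with h2 | h2
    · have h3 := h2.kind
      unfold AdjP litLab at h2
      simp at h2
      have h4 : (w.1.1 = 4 ∨ w.1.1 = 5) ∧ w.1.2.1 = v.1.2.1 := by omega
      rcases h1 with h1 | h1
      · have h5 := h1.kind
        unfold AdjP at h1
        have h6 : u.1.1 ≤ 1 ∧ u.1.2.1 = w.1.2.1 := by omega
        unfold part
        rw [if_pos h6.1, h6.2, h4.2]
      · have h5 := h1.kind
        omega
    · have := h2.kind
      simp at this
  · simp only [a, if_false] at h2 hv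
    by_cases b : v.1.1 ≤ 3
    · simp [b] at hv
    · simp only [b, if_false] at h2 hv
      by_cases c : v.1.1 ≤ 5
      · simp only [c, if_true] at h2
        have e : part v.1 = (5, v.1.2.1, 0) := by unfold part; rw [if_neg a, if_neg b, if_pos c]
        rw [e]
        rcases h2 with h2 | h2
        · have := h2.kind
          simp at this
        · unfold AdjP litLab at h2
          simp at h2
          rcases h1 with h1 | h1
          · have := h1.kind
            omega
          · have h5 := h1.kind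
            unfold AdjP litLab at h1
            have h6 : (u.1.1 = 4 ∨ u.1.1 = 5) ∧ u.1.2.1 = v.1.2.1 := by
              rcases h1 with h1 | h1 | h1 | ⟨h', h'' | h'' | h''⟩
              · omega
              · omega
              · omega
              · omega
              · omega
              · rw [h''] at h2
                simp at h2
            unfold part
            rw [if_neg (by omega), if_neg (by omega), if_pos (by omega), h6.2]
      · simp only [c, if_false] at h2
        have e : part v.1 = (6, 0, 0) := by unfold part; rw [if_neg a, if_neg b, if_neg c]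
        rw [e]
        rcases h2 with h2 | h2
        · have := h2.kind
          simp at this
        · unfold AdjP litLab at h2
          simp at h2
          rcases h1 with h1 | h1
          · have := h1.kind
            omega
          · have h5 := h1.kind
            unfold AdjP litLab at h1
            have h6 : u.1.1 = 6 ∨ u.1.1 = 7 := by
              rcases h1 with h1 | h1 | h1 | ⟨h', -⟩
              · omega
              · omega
              · omega
              · omega
            unfold part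
            rw [if_neg (by omega), if_neg (by omega), if_neg (by omega)]

end Pool.Agent.V11227.OP
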