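import Pool.Agent.V11227.OP2
import Pool.Agent.H671R2.PolyAuto

/-!
# Maximal open packings of the same size: correctness of the reduction
-/

set_option autoImplicit false

namespace Pool.Agent.V11227.OP

open Pool.Agent.NPC Pool.Agent.H622R2

variable {φ : List Cl3}

theorem occ_mem {j : ℕ} (hj : j < φ.length) : φ.getD j ((false, 0), (false, 0), (false, 0)) ∈ φ := by
  rw [List.getD_eq_getElem _ _ hj]
  exact List.getElem_mem hj

theorem occ_lt (hb : Bounded3 φ) {j : ℕ} (hj : j < φ.length) (t : ℕ) :
    (occ φ j t).2 < 3 * φ.length := by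
  have := hb _ (occ_mem hj)
  unfold occ
  simp only
  split_ifs
  · exact this.1
  · exact this.2.1
  · exact this.2.2

theorem litLab_mem (hb : Bounded3 φ) {j : ℕ} (hj : j < φ.length) (t : ℕ) :
    litLab (occ φ j t) ∈ verts φ := by
  rw [mem_verts]
  have := occ_lt hb hj t
  unfold litLab Valid
  simp
  refine ⟨this, ?_, ?_⟩ <;> split_ifs <;> omega

/-- The vertex `z`. -/
theorem z_mem (h : φ ≠ []) : ((3, 0, 0) : Lab) ∈ verts φ := by
  have : 0 < φ.length := List.length_pos_of_ne_nil h
  rw [mem_verts]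
  unfold Valid
  simp
  exact this

theorem part_eq_z {x : Lab} : part x = (3, 0, 0) ↔ x.1 = 2 ∨ x.1 = 3 := by
  unfold part
  split_ifs <;> simp <;> omega

theorem e_mem {j t : ℕ} (hj : j < φ.length) (ht : t < 3) : ((7, j, t) : Lab) ∈ verts φ := by
  rw [mem_verts]
  unfold Valid
  simp
  omega

theorem c_mem {j : ℕ} (hj : j < φ.length) : ((2, j, 0) : Lab) ∈ verts φ := by
  rw [mem_verts]
  unfold Valid
  simp
  omega

theorem litLab_eq {l : H622R2.Lit} {i t : ℕ} (h : (0, i, t) = litLab l) :
    l.2 = i ∧ ((l.1 = true ∧ t = 1) ∨ (l.1 = false ∧ t = 0)) := by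
  unfold litLab at h
  simp only [Prod.mk.injEq, true_and] at h
  refine ⟨h.1.symm, ?_⟩
  cases hl : l.1 <;> simp [hl] at h <;> simp [h]

theorem correct (hb : Bounded3 φ) (hne : φ ≠ []) :
    SAT3 φ ↔ ∃ T : Finset {x // x ∈ verts φ}, OpenPacking (Gr φ) T ∧
      ∀ c, partV c = partV ⟨(3, 0, 0), z_mem hne⟩ →
        c ∉ T ∧ ∃ u ∈ T, ∃ w, (Gr φ).Adj u w ∧ (Gr φ).Adj c w := by
  classical
  have hm : 0 < φ.length := List.length_pos_of_ne_nil hne
  have hpz : ∀ c : {x // x ∈ verts φ}, partV c = partV ⟨(3, 0, 0), z_mem hne⟩ ↔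
      c.1.1 = 2 ∨ c.1.1 = 3 := by
    intro c
    rw [← part_eq_z]
    unfold partV
    rw [Subtype.mk.injEq]
    have : part (3, 0, 0) = (3, 0, 0) := part_eq_z.2 (Or.inr rfl)
    rw [this]
  constructor
  · rintro ⟨τ, hτ⟩
    refine ⟨Finset.univ.filter fun x => x.1.1 = 0 ∧ (x.1.2.2 = if τ x.1.2.1 = true then 1 else 0),
      ?_, ?_⟩
    · intro u hu v hv huv w hw
      simp only [Finset.mem_filter, Finset.mem_univ, true_and] at hu hv
      rw [adj_iff, adj_iff] at hw
      obtain ⟨h1, h2⟩ := hw
      have hu' : AdjP φ u.1 w.1 := by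
        rcases h1 with h1 | h1
        · exact h1
        · have := h1.kind; omega
      have hv' : AdjP φ v.1 w.1 := by
        rcases h2 with h1 | h1
        · exact h1
        · have := h1.kind; omega
      have huv' : u.1 ≠ v.1 := fun h => huv (Subtype.ext h)
      have hi : u.1.2.1 = v.1.2.1 → False := by
        intro hi
        apply huv'
        refine Prod.ext (hu.1.trans hv.1.symm) (Prod.ext hi ?_)
        rw [hu.2, hv.2, hi]
      unfold AdjP at hu' hv'
      rcases hu' with h | h | h | ⟨h7, h | h | h⟩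
      · rcases hv' with h' | h' | h' | ⟨h7', -⟩ <;> first | omega | exact hi (by omega)
      · omega
      · omega
      · omega
      · omega
      · rcases hv' with h' | h' | h' | ⟨h7', h' | h' | h'⟩
        · omega
        · omega
        · omega
        · omega
        · omega
        · exact huv' (h.trans h'.symm)
    · intro c hc
      rw [hpz] at hc
      refine ⟨fun h => by simp at h; omega, ?_⟩
      -- the clause
      obtain ⟨j, hj, hcj⟩ : ∃ j, j < φ.length ∧ (c.1.1 = 3 ∨ (c.1.1 = 2 ∧ c.1.2.1 = j)) := by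
        rcases hc with hc | hc
        · have h4 := (mem_verts φ _).1 c.2
          refine ⟨c.1.2.1, ?_, Or.inr ⟨hc, rfl⟩⟩
          obtain ⟨-, -, -, h4⟩ := h4
          unfold Valid at h4
          omega
        · exact ⟨0, hm, Or.inl hc⟩
      obtain ⟨t, ht, hτt⟩ : ∃ t, t < 3 ∧ τ (occ φ j t).2 = (occ φ j t).1 := by
        rcases hτ _ (occ_mem hj) with h | h | h
        · exact ⟨0, by omega, h⟩
        · exact ⟨1, by omega, h⟩
        · exact ⟨2, by omega, h⟩
      refine ⟨⟨litLab (occ φ j t), litLab_mem hb hj t⟩, ?_, ⟨(7, j, t), e_mem hj ht⟩, ?_, ?_⟩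
      · simp only [Finset.mem_filter, Finset.mem_univ, true_and]
        unfold litLab
        simp only [true_and]
        rw [hτt]
      · rw [adj_iff]
        exact Or.inl (Or.inr (Or.inr (Or.inr ⟨rfl, Or.inr (Or.inr rfl)⟩)))
      · rw [adj_iff]
        refine Or.inl (Or.inr (Or.inr (Or.inr ⟨rfl, ?_⟩)))
        rcases hcj with h | h
        · exact Or.inl h
        · exact Or.inr (Or.inl h)
  · rintro ⟨T, hT, hblock⟩
    refine ⟨fun i => decide (∃ x ∈ T, x.1 = (0, i, 1)), ?_⟩
    intro c hc
    obtain ⟨j, hj, hcj⟩ := List.getElem_of_mem hc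
    have hocc : φ.getD j ((false, 0), (false, 0), (false, 0)) = c := by
      rw [List.getD_eq_getElem _ _ hj, hcj]
    obtain ⟨-, u, hu, w, huw, hcw⟩ := hblock ⟨(2, j, 0), c_mem hj⟩ ((hpz _).2 (Or.inl rfl))
    have huk : ¬ (u.1.1 = 2 ∨ u.1.1 = 3) := fun h => (hblock u ((hpz u).2 h)).1 hu
    rw [adj_iff] at huw hcw
    have hcw' : AdjP φ (2, j, 0) w.1 := by
      rcases hcw with h | h
      · exact h
      · have := h.kind
        simp at this
    have hwk := hcw'.kind
    have huw' : AdjP φ u.1 w.1 := by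
      rcases huw with h | h
      · exact h
      · have := h.kind; omega
    have hkey : w.1.1 = 7 ∧ w.1.2.1 = j := by
      unfold AdjP litLab at hcw' huw'
      rcases hcw' with h | h | h | ⟨h7, h | h | h⟩
      · omega
      · simp at h
      · rcases huw' with h' | h' | h' | ⟨h7', -⟩ <;> omega
      · simp at h
      · exact ⟨h7, h.2.symm⟩
      · simp at h
    have hul : u.1 = litLab (occ φ j w.1.2.2) := by
      unfold AdjP at huw'
      rcases huw' with h | h | h | ⟨h7, h | h | h⟩
      · omega
      · omega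
      · omega
      · omega
      · omega
      · rw [h, hkey.2]
    have hw3 : w.1.2.2 < 3 := ((mem_verts φ _).1 w.2).2.2.1
    have hval : decide (∃ x ∈ T, x.1 = (0, (occ φ j w.1.2.2).2, 1)) = (occ φ j w.1.2.2).1 := by
      cases hs : (occ φ j w.1.2.2).1 with
      | true =>
        rw [decide_eq_true_eq]
        refine ⟨u, hu, ?_⟩
        rw [hul]
        unfold litLab
        simp [hs]
      | false =>
        rw [decide_eq_false_iff_not]
        rintro ⟨x, hx, hx1⟩
        have hu1 : u.1 = (0, (occ φ j w.1.2.2).2, 0) := by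
          rw [hul]
          unfold litLab
          simp [hs]
        have hne : x ≠ u := by
          intro h
          rw [h, hu1] at hx1
          simp at hx1
        have hi : (occ φ j w.1.2.2).2 < 3 * φ.length := occ_lt hb hj _
        have hb4 : ((4, (occ φ j w.1.2.2).2, 0) : Lab) ∈ verts φ := by
          rw [mem_verts]
          unfold Valid
          simp
          exact hi
        refine hT x hx u hu hne ⟨_, hb4⟩ ⟨?_, ?_⟩
        · rw [adj_iff, hx1]
          exact Or.inl (Or.inl ⟨rfl, by simp, rfl⟩)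
        · rw [adj_iff, hu1]
          exact Or.inl (Or.inl ⟨rfl, by simp, rfl⟩)
    have h3 : w.1.2.2 = 0 ∨ w.1.2.2 = 1 ∨ w.1.2.2 = 2 := by omega
    unfold occ at hval
    rw [hocc] at hval
    rcases h3 with h3 | h3 | h3
    · left
      simpa [h3] using hval
    · right; left
      simpa [h3] using hval
    · right; right
      simpa [h3] using hval

theorem red_correct (hb : Bounded3 φ) (hne : φ ≠ []) :
    SAT3 φ ↔ ¬ AllMaximalSameSize (matGraph (red φ)) := by
  classical
  rw [correct hb hne]
  have h1 := sameSize_iso (matIso (verts φ) (fun x y => decide (AdjP φ x y)) (ddup_nodup _))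
  have hpz : partV (φ := φ) ⟨(3, 0, 0), z_mem hne⟩ = ⟨(3, 0, 0), z_mem hne⟩ :=
    Subtype.ext (show part (3, 0, 0) = (3, 0, 0) from part_eq_z.2 (Or.inr rfl))
  have h2 := sameSize_iff (Gr φ) partV ⟨(3, 0, 0), z_mem hne⟩
    (fun u v _ h => common u v h)
    (fun v hv u w h1 h2 => Subtype.ext (separate v
      (fun h => hv (by rw [hpz]; exact Subtype.ext h)) u w h1 h2))
    (fun v => Subtype.ext (part_part v.1))
  unfold red
  rw [h1, h2, not_not]

section PolyTime

theorem poly_length3 : NPC.Poly (fun φ : List Cl3 => List.range (3 * φ.length)) :=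
  ((UPoly.const 3).mul (UPoly.length NPC.Poly.id)).range

theorem poly_decValid {α : Type} [TEnc α] {m : α → ℕ} {x : α → Lab} (hm : NPC.Poly m)
    (hx : NPC.Poly x) : NPC.Poly (fun a => decide (Valid (m a) (x a))) := by
  unfold Valid
  fun_prop

theorem poly_occ {α : Type} [TEnc α] {φ : α → List Cl3} {j t : α → ℕ} (hφ : NPC.Poly φ)
    (hj : NPC.Poly j) (ht : NPC.Poly t) : NPC.Poly (fun a => occ (φ a) (j a) (t a)) := by
  unfold occ
  fun_prop

theorem poly_litLab {α : Type} [TEnc α] {l : α → H622R2.Lit} (hl : NPC.Poly l) :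
    NPC.Poly (fun a => litLab (l a)) := by
  unfold litLab
  fun_prop

attribute [fun_prop] poly_decValid poly_occ poly_litLab

theorem poly_verts : NPC.Poly verts := by
  unfold verts
  refine ddup_poly ?_
  refine NPC.Poly.filter (p := fun (φ : List Cl3) x => decide (Valid φ.length x)) ?_ (by fun_prop)
  refine NPC.Poly.flatMap (F := fun (φ : List Cl3) k => (List.range (3 * φ.length)).flatMap fun i =>
    (List.range 3).map fun t => (k, i, t)) (NPC.Poly.const _) ?_
  refine NPC.Poly.flatMap (F := fun (p : List Cl3 × ℕ) i => (List.range 3).map fun t => (p.2, i, t))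
    (poly_length3.comp (NPC.Poly.fst NPC.Poly.id)) ?_
  exact NPC.Poly.map (F := fun (p : (List Cl3 × ℕ) × ℕ) t => (p.1.2, p.2, t)) (NPC.Poly.const _)
    (by fun_prop)

theorem red_poly : NPC.Poly red := by
  unfold red
  refine mat_poly (l := verts) (adj := fun φ x y => decide (AdjP φ x y)) poly_verts ?_
  unfold AdjP
  fun_prop

end PolyTime

/-- Recognising graphs whose maximal open packings have the same size is hard. -/
theorem hardI : HardI (fun M : List (List Bool) => ¬ AllMaximalSameSize (matGraph M)) :=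
  (hardPr_SAT3b.trans (Pr' := fun _ => True) red_poly (fun _ _ => trivial)
    (fun _ h => red_correct h.2.1 h.2.2)).toHardI

end Pool.Agent.V11227.OP
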