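import Mathlib

/-!
# Open packings: definitions
-/

namespace Pool.Agent.V11227.OP

variable {V : Type}

/-- `S` is an open packing of `G`: the open neighbourhoods of different members of `S` are
disjoint. -/
def OpenPacking (G : SimpleGraph V) (S : Finset V) : Prop :=
  ∀ u ∈ S, ∀ v ∈ S, u ≠ v → ∀ w, ¬ (G.Adj u w ∧ G.Adj v w)

/-- `S` is an open packing which is maximal under inclusion. -/
def MaximalOpenPacking (G : SimpleGraph V) (S : Finset V) : Prop :=
  OpenPacking G S ∧ ∀ T, OpenPacking G T → S ⊆ T → T = S

/-- All maximal open packings of `G` have the same number of vertices. -/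
def AllMaximalSameSize (G : SimpleGraph V) : Prop :=
  ∀ S T, MaximalOpenPacking G S → MaximalOpenPacking G T → S.card = T.card

end Pool.Agent.V11227.OP
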