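import Pool.Agent.V11227.PCDefs

/-!
# The four-point condition for weighted trees
-/

set_option autoImplicit false

namespace Pool.Agent.V11227.PC

variable {N : Type} {T : SimpleGraph N}

section tree

variable (hT : T.IsTree)

include hT

theorem exists_path (x y : N) : ∃ p : T.Walk x y, p.IsPath :=
  (hT.existsUnique_path x y).exists

/-- The path between two vertices of a tree. -/
noncomputable def pth (x y : N) : T.Walk x y := (exists_path hT x y).choose

theorem pth_isPath (x y : N) : (pth hT x y).IsPath := (exists_path hT x y).choose_spec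

theorem eq_pth {x y : N} (p : T.Walk x y) (hp : p.IsPath) : p = pth hT x y :=
  (hT.existsUnique_path x y).unique hp (pth_isPath hT x y)

theorem mem_pth_of {x y : N} {e : Sym2 N} (p : T.Walk x y) (h : e ∈ (pth hT x y).edges) :
    e ∈ p.edges := by
  classical
  have h1 := eq_pth hT p.bypass p.bypass_isPath
  rw [← h1] at h
  exact p.edges_bypass_subset_edges h

/-- The edge separates the vertices. -/
def Sep (e : Sym2 N) (x y : N) : Prop := e ∈ (pth hT x y).edges

theorem not_sep_self (e : Sym2 N) (x : N) : ¬ Sep hT e x x := by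
  intro h
  have := mem_pth_of hT (SimpleGraph.Walk.nil : T.Walk x x) h
  simp at this

theorem Sep.symm {e : Sym2 N} {x y : N} (h : Sep hT e x y) : Sep hT e y x := by
  by_contra h1
  have h2 := mem_pth_of hT (pth hT y x).reverse h
  rw [SimpleGraph.Walk.edges_reverse, List.mem_reverse] at h2
  exact h1 h2

theorem sep_comm {e : Sym2 N} {x y : N} : Sep hT e x y ↔ Sep hT e y x :=
  ⟨Sep.symm hT, Sep.symm hT⟩

theorem not_sep_trans {e : Sym2 N} {x y z : N} (h1 : ¬ Sep hT e x y) (h2 : ¬ Sep hT e y z) :
    ¬ Sep hT e x z := by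
  intro h
  have h3 := mem_pth_of hT ((pth hT x y).append (pth hT y z)) h
  rw [SimpleGraph.Walk.edges_append, List.mem_append] at h3
  exact h3.elim h1 h2

/-- A vertex of the path is not separated from the start by edges not on the path. -/
theorem not_sep_of_mem {e : Sym2 N} {x y a : N} (h : ¬ Sep hT e x y)
    (ha : a ∈ (pth hT x y).support) : ¬ Sep hT e x a := by
  classical
  intro h1
  have h2 := mem_pth_of hT ((pth hT x y).takeUntil a ha) h1
  exact h ((pth hT x y).edges_takeUntil_subset_edges ha h2)

theorem sep_end {a b x : N} : ¬ Sep hT s(a, b) x a ∨ ¬ Sep hT s(a, b) x b := by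
  classical
  by_contra hcon
  push Not at hcon
  obtain ⟨h1, h2⟩ := hcon
  have hadj : T.Adj a b := (pth hT x a).adj_of_mem_edges h1
  have hb : b ∈ (pth hT x a).support := (pth hT x a).snd_mem_support_of_mem_edges h1
  have ha : a ∈ (pth hT x b).support := (pth hT x b).fst_mem_support_of_mem_edges h2
  have e1 := eq_pth hT ((pth hT x a).takeUntil b hb) ((pth_isPath hT x a).takeUntil hb)
  have e2 := eq_pth hT ((pth hT x b).takeUntil a ha) ((pth_isPath hT x b).takeUntil ha)
  have l1 := (pth hT x a).length_takeUntil_lt_length hb hadj.ne'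
  have l2 := (pth hT x b).length_takeUntil_lt_length ha hadj.ne
  rw [e1] at l1
  rw [e2] at l2
  omega

theorem not_sep_three {e : Sym2 N} {x y z : N} : ¬ (Sep hT e x y ∧ Sep hT e y z ∧ Sep hT e x z) := by
  rintro ⟨h1, h2, h3⟩
  induction e using Sym2.ind with
  | _ a b =>
    have k : ∀ c u v, ¬ Sep hT s(a, b) u c → ¬ Sep hT s(a, b) v c → ¬ Sep hT s(a, b) u v :=
      fun c u v hu hv => not_sep_trans hT hu (fun h => hv h.symm)
    rcases sep_end hT (a := a) (b := b) (x := x) with hx | hx <;>
      rcases sep_end hT (a := a) (b := b) (x := y) with hy | hy <;>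
      rcases sep_end hT (a := a) (b := b) (x := z) with hz | hz
    · exact k _ _ _ hx hy h1
    · exact k _ _ _ hx hy h1
    · exact k _ _ _ hx hz h3
    · exact k _ _ _ hy hz h2
    · exact k _ _ _ hy hz h2
    · exact k _ _ _ hx hz h3
    · exact k _ _ _ hx hy h1
    · exact k _ _ _ hx hy h1

/-- Two edges do not give crossing splits. -/
theorem compat {e f : Sym2 N} {x y z u : N} (h1 : ¬ Sep hT e x y) (h2 : ¬ Sep hT e z u)
    (h3 : Sep hT f x y) (h4 : Sep hT f z u) : ¬ Sep hT e x z := by
  induction f using Sym2.ind with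
  | _ a b =>
    have a1 : a ∈ (pth hT x y).support := (pth hT x y).fst_mem_support_of_mem_edges h3
    have a2 : a ∈ (pth hT z u).support := (pth hT z u).fst_mem_support_of_mem_edges h4
    exact not_sep_trans hT (not_sep_of_mem hT h1 a1) (fun h => not_sep_of_mem hT h2 a2 h.symm)

open Classical in
/-- The distance in a weighted tree. -/
noncomputable def dst (w : Sym2 N → ℝ) (x y : N) : ℝ := wt w (pth hT x y)

theorem wt_eq_dst (w : Sym2 N → ℝ) {x y : N} (p : T.Walk x y) (hp : p.IsPath) :
    wt w p = dst hT w x y := by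
  unfold dst
  rw [eq_pth hT p hp]

open Classical in
theorem dst_eq_sum [Fintype N] (w : Sym2 N → ℝ) (x y : N) :
    dst hT w x y = ∑ e : Sym2 N, if Sep hT e x y then w e else 0 := by
  unfold dst wt
  rw [← Finset.sum_filter]
  have h1 : (Finset.univ.filter fun e => Sep hT e x y) = (pth hT x y).edges.toFinset := by
    ext e
    simp [Sep]
  rw [h1, List.sum_toFinset _ (pth_isPath hT x y).isTrail.edges_nodup]

theorem dst_comm [Finite N] (w : Sym2 N → ℝ) (x y : N) : dst hT w x y = dst hT w y x := by
  classical
  have : Fintype N := Fintype.ofFinite N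
  rw [dst_eq_sum, dst_eq_sum]
  exact Finset.sum_congr rfl fun e _ => by rw [sep_comm]

theorem dst_self [Finite N] (w : Sym2 N → ℝ) (x : N) : dst hT w x x = 0 := by
  classical
  have : Fintype N := Fintype.ofFinite N
  rw [dst_eq_sum]
  exact Finset.sum_eq_zero fun e _ => by rw [if_neg (not_sep_self hT e x)]

theorem le_of_no_cross [Fintype N] {w : Sym2 N → ℝ} (hw : ∀ e ∈ T.edgeSet, 0 < w e) {x y z u : N}
    (h : ∀ e, ¬ (¬ Sep hT e x y ∧ ¬ Sep hT e z u ∧ Sep hT e x z)) :
    dst hT w x z + dst hT w y u ≤ dst hT w x y + dst hT w z u := by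
  classical
  rw [dst_eq_sum, dst_eq_sum, dst_eq_sum, dst_eq_sum, ← Finset.sum_add_distrib,
    ← Finset.sum_add_distrib]
  refine Finset.sum_le_sum fun e _ => ?_
  by_cases he : e ∈ T.edgeSet
  · have hp := hw e he
    have t1 := not_sep_trans hT (e := e) (x := x) (y := y) (z := z)
    have t2 := not_sep_trans hT (e := e) (x := x) (y := z) (z := u)
    have t3 := not_sep_three hT (e := e) (x := x) (y := y) (z := u)
    have t4 := not_sep_three hT (e := e) (x := y) (y := z) (z := u)
    have t5 := not_sep_three hT (e := e) (x := x) (y := z) (z := u)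
    have t6 := not_sep_trans hT (e := e) (x := y) (y := z) (z := u)
    have t7 := not_sep_trans hT (e := e) (x := y) (y := x) (z := u)
    have t8 := not_sep_three hT (e := e) (x := x) (y := y) (z := z)
    have t9 := not_sep_trans hT (e := e) (x := y) (y := x) (z := z)
    have t10 := h e
    rw [sep_comm hT (x := y) (y := x)] at t7 t9
    by_cases a1 : Sep hT e x z <;> by_cases a2 : Sep hT e y u <;> by_cases a3 : Sep hT e x y <;>
      by_cases a4 : Sep hT e z u <;> by_cases a5 : Sep hT e x u <;> by_cases a6 : Sep hT e y z <;>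
      simp only [a1, a2, a3, a4, a5, a6, if_true, if_false, not_true_eq_false, not_false_eq_true,
        true_and, and_true, false_and, and_false, true_implies, false_implies, imp_false] at t1 t2 t3 t4 t5 t6 t7 t8 t9 t10 ⊢ <;>
      linarith
  · have h0 : ∀ x y, ¬ Sep hT e x y := fun x y h' => he ((pth hT x y).edges_subset_edgeSet h')
    simp [h0]

/-- **The four-point condition.** -/
theorem four_point [Finite N] {w : Sym2 N → ℝ} (hw : ∀ e ∈ T.edgeSet, 0 < w e) (x y z u : N) :
    dst hT w x z + dst hT w y u ≤
      max (dst hT w x y + dst hT w z u) (dst hT w x u + dst hT w y z) := by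
  classical
  have : Fintype N := Fintype.ofFinite N
  by_cases h : ∃ f, ¬ Sep hT f x u ∧ ¬ Sep hT f z y ∧ Sep hT f x z
  · obtain ⟨f, f1, f2, f3⟩ := h
    refine le_max_of_le_left (le_of_no_cross hT hw ?_)
    rintro e ⟨e1, e2, e3⟩
    -- `f` separates `x, u` from `y, z`
    have g1 : Sep hT f x y := by
      by_contra h1
      exact not_sep_trans hT h1 (fun h => f2 h.symm) f3
    have g2 : Sep hT f z u := by
      by_contra h1
      exact not_sep_trans hT f1 (fun h => h1 h.symm) f3
    exact compat hT e1 e2 g1 g2 e3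
  · push Not at h
    refine le_max_of_le_right ?_
    have := le_of_no_cross hT hw (x := x) (y := u) (z := z) (u := y) (fun e he =>
      h e he.1 he.2.1 he.2.2)
    rw [dst_comm hT w y u, dst_comm hT w y z]
    exact this

end tree

end Pool.Agent.V11227.PC
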