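import Pool.Agent.V11227.PC1
import Pool.Agent.V11227.Betw

/-!
# Near pairs in tree metrics, and the extraction of a linear order
-/

set_option autoImplicit false

namespace Pool.Agent.V11227.PC

open Pool.Agent.V11227.BT

/-- A function satisfying the four-point condition. -/
structure FP {V : Type} (d : V → V → ℝ) : Prop where
  comm : ∀ x y, d x y = d y x
  fp : ∀ x y z u, d x z + d y u ≤ max (d x y + d z u) (d x u + d y z)

section

variable {V : Type} {d : V → V → ℝ} (hd : FP d) {t : ℝ}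

include hd

theorem FP.chord {r v u w : V} (h1 : d r u ≤ d r v) (h2 : d r w ≤ d r v) (h3 : d u v < t)
    (h4 : d w v < t) : d u w < t := by
  have h := hd.fp r u v w
  have e := hd.comm v w
  rcases le_max_iff.1 h with h | h <;> linarith

theorem FP.simple {r v u w x : V} (h1 : d r w ≤ d r u) (h2 : d r u ≤ d r v) (h3 : d r x ≤ d r v)
    (h4 : d u v < t) (h5 : d w v < t) (h6 : d x u < t) : d x w < t := by
  have ha := hd.fp r u v w
  have hb := hd.fp r x u w
  have e1 := hd.comm v w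
  have e2 := hd.comm u w
  have k : d r v + d u w < d r u + t := by
    rcases le_max_iff.1 ha with h | h <;> linarith
  rcases le_max_iff.1 hb with h | h <;> linarith

theorem FP.c4 {a b c e : V} (h1 : d a b < t) (h2 : d b c < t) (h3 : d c e < t) (h4 : d e a < t) :
    d a c < t ∨ d b e < t := by
  by_contra hcon
  push Not at hcon
  have h := hd.fp a b c e
  have e1 := hd.comm a e
  rcases le_max_iff.1 h with h | h <;> linarith

/-- In a cycle some vertex has neighbours which are near each other. -/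
theorem FP.cyc5 (v : Fin 5 → V) (h : ∀ i, d (v i) (v (i + 1)) < t) :
    ∃ i, d (v i) (v (i + 2)) < t := by
  obtain ⟨i, hi⟩ := Finite.exists_max fun i => d (v 0) (v i)
  refine ⟨i - 1, hd.chord (r := v 0) (v := v i) (hi _) (hi _) ?_ ?_⟩
  · have := h (i - 1)
    rwa [sub_add_cancel] at this
  · have := h i
    rw [hd.comm] at this
    rw [show i - 1 + 2 = i + 1 from (by decide : ∀ i : Fin 5, i - 1 + 2 = i + 1) i]
    exact this

theorem FP.cyc6 (v : Fin 6 → V) (h : ∀ i, d (v i) (v (i + 1)) < t) :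
    ∃ i, d (v i) (v (i + 2)) < t := by
  obtain ⟨i, hi⟩ := Finite.exists_max fun i => d (v 0) (v i)
  refine ⟨i - 1, hd.chord (r := v 0) (v := v i) (hi _) (hi _) ?_ ?_⟩
  · have := h (i - 1)
    rwa [sub_add_cancel] at this
  · have := h i
    rw [hd.comm] at this
    rw [show i - 1 + 2 = i + 1 from (by decide : ∀ i : Fin 6, i - 1 + 2 = i + 1) i]
    exact this

/-- The five-cycle. -/
theorem FP.c5 {a b c e f : V} (h1 : d a b < t) (h2 : d b c < t) (h3 : d c e < t) (h4 : d e f < t)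
    (h5 : d f a < t) : d a c < t ∨ d b e < t ∨ d c f < t ∨ d e a < t ∨ d f b < t := by
  obtain ⟨i, hi⟩ := hd.cyc5 (t := t) ![a, b, c, e, f] (by
    intro i
    fin_cases i
    · exact h1
    · exact h2
    · exact h3
    · exact h4
    · exact h5)
  fin_cases i
  · exact Or.inl hi
  · exact Or.inr (Or.inl hi)
  · exact Or.inr (Or.inr (Or.inl hi))
  · exact Or.inr (Or.inr (Or.inr (Or.inl hi)))
  · exact Or.inr (Or.inr (Or.inr (Or.inr hi)))

/-- The six-cycle. -/
theorem FP.c6 {a b c e f g : V} (h1 : d a b < t) (h2 : d b c < t) (h3 : d c e < t) (h4 : d e f < t)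
    (h5 : d f g < t) (h6 : d g a < t) :
    d a c < t ∨ d b e < t ∨ d c f < t ∨ d e g < t ∨ d f a < t ∨ d g b < t := by
  obtain ⟨i, hi⟩ := hd.cyc6 (t := t) ![a, b, c, e, f, g] (by
    intro i
    fin_cases i
    · exact h1
    · exact h2
    · exact h3
    · exact h4
    · exact h5
    · exact h6)
  fin_cases i
  · exact Or.inl hi
  · exact Or.inr (Or.inl hi)
  · exact Or.inr (Or.inr (Or.inl hi))
  · exact Or.inr (Or.inr (Or.inr (Or.inl hi)))
  · exact Or.inr (Or.inr (Or.inr (Or.inr (Or.inl hi))))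
  · exact Or.inr (Or.inr (Or.inr (Or.inr (Or.inr hi))))

/-- There is no 3-sun. -/
theorem FP.sun {a b c x y z : V} (_ab : d a b < t) (_bc : d b c < t) (_ac : d a c < t)
    (xb : d x b < t) (xc : d x c < t) (xa : ¬ d x a < t)
    (ya : d y a < t) (yc : d y c < t) (yb : ¬ d y b < t)
    (za : d z a < t) (zb : d z b < t) (zc : ¬ d z c < t)
    (xy : ¬ d x y < t) (yz : ¬ d y z < t) (xz : ¬ d x z < t) : False := by
  obtain ⟨i, hi⟩ := Finite.exists_max fun i => d a ((![a, b, c, x, y, z] : Fin 6 → V) i)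
  have ha := hi 0
  have hb := hi 1
  have hc := hi 2
  have hx := hi 3
  have hy := hi 4
  have hz := hi 5
  simp only [Matrix.cons_val] at ha hb hc hx hy hz
  have bx := xb
  have cx := xc
  have ay := ya
  have cy := yc
  have az := za
  have bz := zb
  rw [hd.comm] at bx cx ay cy az bz
  fin_cases i <;> simp only [Matrix.cons_val, Fin.isValue, Fin.mk_zero, Fin.mk_one, Fin.reduceFinMk,
    Fin.zero_eta] at ha hb hc hx hy hz
  · exact yz (hd.chord (r := a) (v := a) hy hz ya za)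
  · exact xz (hd.chord (r := a) (v := b) hx hz xb zb)
  · exact xy (hd.chord (r := a) (v := c) hx hy xc yc)
  · rcases le_total (d a b) (d a c) with h | h
    · exact yb (hd.simple (r := a) (v := x) h hc hy cx bx yc)
    · exact zc (hd.simple (r := a) (v := x) h hb hz bx cx zb)
  · rcases le_total (d a a) (d a c) with h | h
    · exact xa (hd.simple (r := a) (v := y) h hc hx cy ay xc)
    · exact zc (hd.simple (r := a) (v := y) h ha hz ay cy za)
  · rcases le_total (d a a) (d a b) with h | h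
    · exact xa (hd.simple (r := a) (v := z) h hb hx bz az xb)
    · exact yb (hd.simple (r := a) (v := z) h ha hy az bz ya)

end

/-- The pattern of the reduction. -/
structure Pat {V : Type} (d : V → V → ℝ) (t : ℝ) (E : List ℕ) (L R N : ℕ → V) : Prop where
  LL : ∀ x ∈ E, ∀ y ∈ E, x ≠ y → d (L x) (L y) < t
  RR : ∀ x ∈ E, ∀ y ∈ E, x ≠ y → d (R x) (R y) < t
  LN : ∀ x ∈ E, d (L x) (N x) < t
  RN : ∀ x ∈ E, d (R x) (N x) < t
  LR : ∀ x ∈ E, ¬ d (L x) (R x) < t
  NN : ∀ x ∈ E, ∀ y ∈ E, x ≠ y → ¬ d (N x) (N y) < t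

section order

variable {V : Type} {d : V → V → ℝ} (hd : FP d) {t : ℝ} {E : List ℕ} {L R N : ℕ → V}
  (hp : Pat d t E L R N)

include hd hp

theorem total {x y : ℕ} (hx : x ∈ E) (hy : y ∈ E) (hxy : x ≠ y) :
    d (N y) (L x) < t ∨ d (N x) (L y) < t := by
  by_contra hcon
  push Not at hcon
  obtain ⟨n1, n2⟩ := hcon
  -- the six-cycle `L x, L y, N y, R y, R x, N x`
  have e12 := hp.LL x hx y hy hxy
  have e23 := hp.LN y hy
  have e34 := hp.RN y hy
  have e45 := hp.RR x hx y hy hxy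
  have e56 := hp.RN x hx
  have e61 := hp.LN x hx
  have f15 := hp.LR x hx
  have f24 := hp.LR y hy
  have f36 := hp.NN x hx y hy hxy
  rw [hd.comm] at e34 e45 e61
  rcases hd.c6 e12 e23 e34 e45 e56 e61 with h | h | h | h | h | h
  · rw [hd.comm] at h; linarith
  · exact f24 h
  · -- `N y`, `R x` near
    rcases hd.c5 e12 e23 h e56 e61 with h' | h' | h' | h' | h'
    · rw [hd.comm] at h'; linarith
    · -- `L y`, `R x` near
      rcases hd.c4 e12 h' e56 e61 with h'' | h''
      · exact f15 h''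
      · rw [hd.comm] at h''; linarith
    · rw [hd.comm] at h'; exact f36 h'
    · rw [hd.comm] at h'; exact f15 h'
    · linarith
  · -- `R y`, `N x` near
    rcases hd.c5 e12 e23 e34 h e61 with h' | h' | h' | h' | h'
    · rw [hd.comm] at h'; linarith
    · exact f24 h'
    · rw [hd.comm] at h'; exact f36 h'
    · -- `R y`, `L x` near
      rcases hd.c4 e12 e23 e34 h' with h'' | h''
      · rw [hd.comm] at h''; linarith
      · exact f24 h''
    · linarith
  · rw [hd.comm] at h; exact f15 h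
  · linarith

theorem excl {x y : ℕ} (hx : x ∈ E) (hy : y ∈ E) (hxy : x ≠ y) (h : d (N y) (L x) < t) :
    ¬ d (N y) (R x) < t ∧ d (N x) (R y) < t ∧ ¬ d (N x) (L y) < t := by
  have e12 := hp.LL x hx y hy hxy
  have e23 := hp.LN y hy
  have e34 := hp.RN y hy
  have e45 := hp.RR x hx y hy hxy
  have e56 := hp.RN x hx
  have e61 := hp.LN x hx
  have f15 := hp.LR x hx
  have f24 := hp.LR y hy
  have f36 := hp.NN x hx y hy hxy
  rw [hd.comm] at e34 e45 e61
  have g35 : ¬ d (N y) (R x) < t := by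
    intro h'
    have h1 := h
    rw [hd.comm] at h1
    rcases hd.c4 h1 h' e56 e61 with h'' | h''
    · exact f15 h''
    · rw [hd.comm] at h''; exact f36 h''
  have g46 : d (N x) (R y) < t := by
    have h1 := h
    rw [hd.comm] at h1
    rcases hd.c5 h1 e34 e45 e56 e61 with h' | h' | h' | h' | h'
    · -- `L x`, `R y` near
      rw [hd.comm] at h'
      have h2 := h'
      rw [hd.comm] at h2
      rcases hd.c4 h2 e45 e56 e61 with h'' | h''
      · exact absurd h'' f15
      · rw [hd.comm] at h''; exact h''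
    · exact absurd h' g35
    · rw [hd.comm] at h'; exact h'
    · rw [hd.comm] at h'; exact absurd h' f15
    · exact absurd h' f36
  refine ⟨g35, g46, fun h' => ?_⟩
  -- the four-cycle `L y, N y, R y, N x`
  rw [hd.comm] at g46
  rcases hd.c4 e23 e34 g46 h' with h'' | h''
  · exact f24 h''
  · rw [hd.comm] at h''; exact f36 h''

theorem asymm' {x y : ℕ} (hx : x ∈ E) (hy : y ∈ E) (hxy : x ≠ y) :
    d (N y) (L x) < t ↔ ¬ d (N x) (L y) < t := by
  constructor
  · intro h
    exact (excl hd hp hx hy hxy h).2.2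
  · intro h
    exact (total hd hp hx hy hxy).resolve_right h

theorem trans' {x y z : ℕ} (hx : x ∈ E) (hy : y ∈ E) (hz : z ∈ E) (hxy : x ≠ y) (hyz : y ≠ z)
    (h1 : d (N x) (L y) < t) (h2 : d (N y) (L z) < t) : x ≠ z ∧ d (N x) (L z) < t := by
  have hxz : x ≠ z := by
    rintro rfl
    exact (asymm' hd hp hx hy hxy).1 h2 h1
  refine ⟨hxz, ?_⟩
  by_contra h3
  have h4 : d (N z) (L x) < t := (total hd hp hx hz hxz).resolve_right h3
  have g1 : ¬ d (N y) (L x) < t := fun h => (asymm' hd hp hx hy hxy).1 h h1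
  have g2 : ¬ d (N z) (L y) < t := fun h => (asymm' hd hp hy hz hyz).1 h h2
  have e1 := hp.LN x hx
  have e2 := hp.LN y hy
  have e3 := hp.LN z hz
  rw [hd.comm] at e1 e2 e3
  -- the sun: `N y` is far from `L x`, `N z` from `L y`, `N x` from `L z`
  exact hd.sun (a := L x) (b := L y) (c := L z) (x := N y) (y := N z) (z := N x)
    (hp.LL x hx y hy hxy) (hp.LL y hy z hz hyz) (hp.LL x hx z hz hxz)
    e2 h2 g1 h4 e3 g2 e1 h1 h3
    (hp.NN y hy z hz hyz) (hp.NN z hz x hx hxz.symm) (hp.NN y hy x hx hxy.symm)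

/-- A vertex near `N a` and `N b` is near every `N c` with `c` between `a` and `b`. -/
theorem hull {a b c : ℕ} (ha : a ∈ E) (hb : b ∈ E) (hc : c ∈ E) (hac : a ≠ c) (hcb : c ≠ b)
    (h1 : d (N a) (L c) < t) (h2 : d (N c) (L b) < t) {m : V} (m1 : d m (N a) < t)
    (m2 : d m (N b) < t) : d m (N c) < t := by
  by_contra m3
  have hab := (trans' hd hp ha hc hb hac hcb h1 h2).1
  obtain ⟨k1, k2, k3⟩ := excl hd hp hc ha hac.symm h1
  obtain ⟨k4, k5, k6⟩ := excl hd hp hb hc hcb.symm h2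
  -- the six-cycle `m, N a, L c, N c, R c, N b`
  have e34 := hp.LN c hc
  have e45 := hp.RN c hc
  have f24 := hp.NN a ha c hc hac
  have f46 := hp.NN c hc b hb hcb
  have f26 := hp.NN a ha b hb hab
  have f35 := hp.LR c hc
  rw [hd.comm] at e45 k5 m2
  rcases hd.c6 m1 h1 e34 e45 k5 m2 with h | h | h | h | h | h
  · -- `m`, `L c` near
    rcases hd.c5 h e34 e45 k5 m2 with h' | h' | h' | h' | h'
    · exact m3 h'
    · exact f35 h'
    · exact f46 h'
    · rcases hd.c4 h e34 e45 h' with h'' | h''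
      · exact m3 h''
      · exact f35 h''
    · exact k6 h'
  · exact f24 h
  · exact f35 h
  · exact f46 h
  · -- `R c`, `m` near
    rcases hd.c5 m1 h1 e34 e45 h with h' | h' | h' | h' | h'
    · rcases hd.c4 h' e34 e45 h with h'' | h''
      · exact m3 h''
      · exact f35 h''
    · exact f24 h'
    · exact f35 h'
    · rw [hd.comm] at h'; exact m3 h'
    · rw [hd.comm] at h'; exact k1 h'
  · rw [hd.comm] at h; exact f26 h

open Classical in
/-- The rank of an element. -/
noncomputable def rk (E : List ℕ) (d : V → V → ℝ) (t : ℝ) (L N : ℕ → V) (x : ℕ) : ℤ :=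
  ((E.toFinset.filter fun y => y ≠ x ∧ d (N y) (L x) < t).card : ℤ)

theorem rk_lt {x y : ℕ} (hx : x ∈ E) (hy : y ∈ E) (hxy : x ≠ y) (h : d (N x) (L y) < t) :
    rk E d t L N x < rk E d t L N y := by
  classical
  unfold rk
  rw [Int.ofNat_lt]
  refine Finset.card_lt_card ?_
  rw [Finset.ssubset_iff]
  refine ⟨x, by simp, ?_⟩
  intro z hz
  rw [Finset.mem_insert, Finset.mem_filter, List.mem_toFinset] at hz
  rw [Finset.mem_filter, List.mem_toFinset]
  rcases hz with rfl | ⟨hz, hzx, hz'⟩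
  · exact ⟨hx, hxy, h⟩
  · exact ⟨hz, (trans' hd hp hz hx hy hzx hxy hz' h).1, (trans' hd hp hz hx hy hzx hxy hz' h).2⟩

theorem rk_lt_iff {x y : ℕ} (hx : x ∈ E) (hy : y ∈ E) (hxy : x ≠ y) :
    rk E d t L N x < rk E d t L N y ↔ d (N x) (L y) < t := by
  constructor
  · intro h
    rcases total hd hp hx hy hxy with h' | h'
    · have := rk_lt hd hp hy hx hxy.symm h'
      omega
    · exact h'
  · exact rk_lt hd hp hx hy hxy

theorem rk_injOn : Set.InjOn (rk E d t L N) {x | x ∈ E} := by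
  intro x hx y hy h
  by_contra hxy
  rcases total hd hp hx hy hxy with h' | h'
  · have := rk_lt hd hp hy hx (Ne.symm hxy) h'
    omega
  · have := rk_lt hd hp hx hy hxy h'
    omega

theorem not_mid {a b c : ℕ} (ha : a ∈ E) (hb : b ∈ E) (hc : c ∈ E) (hac : a ≠ c) (hcb : c ≠ b)
    {m : V} (m1 : d m (N a) < t) (m2 : d m (N b) < t) (m3 : ¬ d m (N c) < t) :
    ¬ Mid (rk E d t L N a) (rk E d t L N c) (rk E d t L N b) := by
  rintro (⟨h1, h2⟩ | ⟨h1, h2⟩)
  · rw [rk_lt_iff hd hp ha hc hac] at h1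
    rw [rk_lt_iff hd hp hc hb hcb] at h2
    exact m3 (hull hd hp ha hb hc hac hcb h1 h2 m1 m2)
  · rw [rk_lt_iff hd hp hb hc hcb.symm] at h1
    rw [rk_lt_iff hd hp hc ha hac.symm] at h2
    exact m3 (hull hd hp hb ha hc hcb.symm hac.symm h1 h2 m2 m1)

theorem betweenness_of {ts : List (ℕ × ℕ × ℕ)} (hg : Good (E, ts))
    (h : ∀ s ∈ ts, (∃ m, d m (N s.1) < t ∧ d m (N s.2.1) < t ∧ ¬ d m (N s.2.2) < t) ∧
      (∃ m, d m (N s.2.1) < t ∧ d m (N s.2.2) < t ∧ ¬ d m (N s.1) < t)) :
    Betweenness (E, ts) := by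
  refine ⟨rk E d t L N, rk_injOn hd hp, fun s hs => ?_⟩
  obtain ⟨a, b, c⟩ := s
  obtain ⟨h1, h2, h3, h4, h5, h6⟩ := hg.2 _ hs
  simp only at h1 h2 h3 h4 h5 h6 ⊢
  obtain ⟨⟨m, m1, m2, m3⟩, ⟨m', n1, n2, n3⟩⟩ := h _ hs
  have k1 := not_mid hd hp h1 h2 h3 h6 h5.symm m1 m2 m3
  have k2 := not_mid hd hp h2 h3 h1 h4.symm h6 n1 n2 n3
  have i1 : rk E d t L N a ≠ rk E d t L N b := fun h => h4 (rk_injOn hd hp h1 h2 h)
  have i2 : rk E d t L N b ≠ rk E d t L N c := fun h => h5 (rk_injOn hd hp h2 h3 h)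
  have i3 : rk E d t L N a ≠ rk E d t L N c := fun h => h6 (rk_injOn hd hp h1 h3 h)
  unfold Mid at k1 k2 ⊢
  omega

end order

end Pool.Agent.V11227.PC
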