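import Pool.Agent.V11227.PC1

/-!
# Caterpillars
-/

set_option autoImplicit false

namespace Pool.Agent.V11227.PC

/-- A path with given weight from a decreasing potential. -/
theorem exists_path_wt {N : Type} {T : SimpleGraph N} {w : Sym2 N → ℝ} {y : N} {φ : N → ℝ}
    (hy : φ y = 0) (m : N → ℕ)
    (hstep : ∀ x, x ≠ y → ∃ x', T.Adj x x' ∧ m x' < m x ∧ φ x' < φ x ∧ φ x = w s(x, x') + φ x') :
    ∀ x, ∃ p : T.Walk x y, p.IsPath ∧ wt w p = φ x ∧ ∀ z ∈ p.support, φ z ≤ φ x := by
  intro x
  induction hm : m x using Nat.strong_induction_on generalizing x with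
  | _ n ih =>
    by_cases hxy : x = y
    · subst hxy
      refine ⟨SimpleGraph.Walk.nil, SimpleGraph.Walk.IsPath.nil, ?_, ?_⟩
      · rw [hy]; rfl
      · intro z hz
        rw [SimpleGraph.Walk.support_nil, List.mem_singleton] at hz
        rw [hz]
    · obtain ⟨x', h1, h2, h3, h4⟩ := hstep x hxy
      obtain ⟨p, p1, p2, p3⟩ := ih (m x') (hm ▸ h2) x' rfl
      refine ⟨SimpleGraph.Walk.cons h1 p, ?_, ?_, ?_⟩
      · rw [SimpleGraph.Walk.cons_isPath_iff]
        refine ⟨p1, fun h => ?_⟩
        have := p3 x h
        linarith
      · rw [h4, ← p2]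
        unfold wt
        rw [SimpleGraph.Walk.edges_cons, List.map_cons, List.sum_cons]
      · intro z hz
        rw [SimpleGraph.Walk.support_cons, List.mem_cons] at hz
        rcases hz with rfl | hz
        · exact le_rfl
        · exact (p3 z hz).trans h3.le

section cat

variable {V : Type} (D : ℕ) (pos : V → ℕ) (h : V → ℝ)

/-- The nodes of the caterpillar: the spine and the leaves. -/
abbrev Nd (D : ℕ) (V : Type) : Type := Fin (D + 1) ⊕ V

/-- Adjacency in the caterpillar. -/
def cadj : Nd D V → Nd D V → Prop
  | Sum.inl i, Sum.inl j => i.1 + 1 = j.1 ∨ j.1 + 1 = i.1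
  | Sum.inl i, Sum.inr v => pos v = i.1
  | Sum.inr v, Sum.inl i => pos v = i.1
  | Sum.inr _, Sum.inr _ => False

/-- The caterpillar. -/
def cat : SimpleGraph (Nd D V) where
  Adj := cadj D pos
  symm := ⟨fun x y hxy => by
    rcases x with x | x <;> rcases y with y | y <;> simp only [cadj] at hxy ⊢
    · exact hxy.symm
    · exact hxy
    · exact hxy⟩
  loopless := ⟨fun x hx => by
    rcases x with x | x <;> simp only [cadj] at hx
    omega⟩

/-- The weights. -/
def cw : Sym2 (Nd D V) → ℝ := Sym2.lift ⟨fun x y => match x, y with
  | Sum.inl _, Sum.inl _ => 1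
  | Sum.inl _, Sum.inr v => h v
  | Sum.inr v, Sum.inl _ => h v
  | Sum.inr _, Sum.inr _ => 1, by
    intro x y
    rcases x with x | x <;> rcases y with y | y <;> rfl⟩

/-- The coordinate. -/
def cd : Nd D V → ℕ
  | Sum.inl i => i.1
  | Sum.inr v => pos v

/-- The height. -/
def ht : Nd D V → ℝ
  | Sum.inl _ => 0
  | Sum.inr v => h v

open Classical in
/-- The distance. -/
noncomputable def pot (y x : Nd D V) : ℝ :=
  if x = y then 0 else ht D h x + ht D h y + |(cd D pos x : ℝ) - cd D pos y|

/-- The measure. -/
def ms (y x : Nd D V) : ℕ :=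
  match x with
  | Sum.inl i => 2 * ((i.1 - cd D pos y) + (cd D pos y - i.1)) + (match y with
    | Sum.inl _ => 0
    | Sum.inr _ => 1)
  | Sum.inr v => 2 * ((pos v - cd D pos y) + (cd D pos y - pos v)) + 2

variable {D pos h}

theorem cat_adj {x y : Nd D V} : (cat D pos).Adj x y ↔ cadj D pos x y := Iff.rfl

theorem exists_cat_path (hpos : ∀ v, pos v ≤ D) (hh : ∀ v, 0 < h v) (y x : Nd D V) :
    ∃ p : (cat D pos).Walk x y, p.IsPath ∧ wt (cw D h) p = pot D pos h y x := by
  classical
  suffices H : ∀ x, ∃ p : (cat D pos).Walk x y, p.IsPath ∧ wt (cw D h) p = pot D pos h y x ∧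
      ∀ z ∈ p.support, pot D pos h y z ≤ pot D pos h y x by
    obtain ⟨p, h1, h2, -⟩ := H x
    exact ⟨p, h1, h2⟩
  refine exists_path_wt (by unfold pot; rw [if_pos rfl])
    (fun x => if x = y then 0 else ms D pos y x + 1) fun x hxy => ?_
  rcases x with i | v
  · have key : ∀ i' : Fin (D + 1), (i.1 + 1 = i'.1 ∧ i.1 < cd D pos y) ∨
        (i'.1 + 1 = i.1 ∧ cd D pos y < i.1) →
        ∃ x', (cat D pos).Adj (Sum.inl i) x' ∧
          (if x' = y then 0 else ms D pos y x' + 1) <
            (if (Sum.inl i : Nd D V) = y then 0 else ms D pos y (Sum.inl i) + 1) ∧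
          pot D pos h y x' < pot D pos h y (Sum.inl i) ∧
          pot D pos h y (Sum.inl i) = cw D h s(Sum.inl i, x') + pot D pos h y x' := by
      intro i' hi'
      refine ⟨Sum.inl i', ?_, ?_, ?_⟩
      · show i.1 + 1 = i'.1 ∨ i'.1 + 1 = i.1
        omega
      · rw [if_neg hxy]
        split_ifs
        · omega
        · unfold ms
          rcases y with y | y <;> simp only [cd] at hi' ⊢ <;> omega
      · have hw : cw D h s(Sum.inl i, Sum.inl i') = 1 := rfl
        have hpx : pot D pos h y (Sum.inl i) = 0 + ht D h y + |((i.1 : ℕ) : ℝ) - cd D pos y| := by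
          unfold pot
          rw [if_neg hxy]
          rfl
        have hpx' : pot D pos h y (Sum.inl i') = 0 + ht D h y + |((i'.1 : ℕ) : ℝ) - cd D pos y| := by
          unfold pot
          split_ifs with h1
          · subst h1
            simp [ht, cd]
          · rfl
        have habs : |((i.1 : ℕ) : ℝ) - cd D pos y| = 1 + |((i'.1 : ℕ) : ℝ) - cd D pos y| := by
          rcases hi' with ⟨h1, h2⟩ | ⟨h1, h2⟩
          · have e1 : ((i'.1 : ℕ) : ℝ) = (i.1 : ℝ) + 1 := by rw [← h1]; push_cast; ring
            have e2 : ((i'.1 : ℕ) : ℝ) ≤ cd D pos y := by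
              rw [← h1]; exact_mod_cast h2
            rw [abs_of_nonpos (by linarith), abs_of_nonpos (by linarith)]
            linarith
          · have e1 : ((i.1 : ℕ) : ℝ) = (i'.1 : ℝ) + 1 := by rw [← h1]; push_cast; ring
            have e2 : (cd D pos y : ℝ) ≤ ((i'.1 : ℕ) : ℝ) := by
              exact_mod_cast (by omega : cd D pos y ≤ i'.1)
            rw [abs_of_nonneg (by linarith), abs_of_nonneg (by linarith)]
            linarith
        rw [hpx, hpx', hw, habs]
        constructor <;> linarith
    rcases lt_trichotomy i.1 (cd D pos y) with hlt | heq | hgt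
    · have hcd : cd D pos y ≤ D := by
        rcases y with y | y
        · exact Nat.lt_succ_iff.1 y.2
        · exact hpos y
      exact key ⟨i.1 + 1, by omega⟩ (Or.inl ⟨rfl, hlt⟩)
    · rcases y with y | y
      · exact absurd (congrArg Sum.inl (Fin.ext heq)) hxy
      · refine ⟨Sum.inr y, ?_, ?_, ?_⟩
        · show pos y = i.1
          exact heq.symm
        · rw [if_pos rfl, if_neg hxy]
          omega
        · have hw : cw D h s(Sum.inl i, Sum.inr y) = h y := rfl
          have hpx : pot D pos h (Sum.inr y) (Sum.inl i) = h y := by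
            unfold pot
            rw [if_neg hxy]
            simp [ht, cd, show i.1 = pos y from heq]
          have hpx' : pot D pos h (Sum.inr y) (Sum.inr y) = 0 := by
            unfold pot
            rw [if_pos rfl]
          rw [hpx, hpx', hw]
          have := hh y
          constructor <;> linarith
    · exact key ⟨i.1 - 1, by omega⟩ (Or.inr ⟨by simp only; omega, hgt⟩)
  · refine ⟨Sum.inl ⟨pos v, by have := hpos v; omega⟩, rfl, ?_, ?_⟩
    · rw [if_neg hxy]
      split_ifs
      · omega
      · unfold ms
        rcases y with y | y <;> simp only [cd] <;> omega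
    · have hw : cw D h s(Sum.inr v, Sum.inl ⟨pos v, by have := hpos v; omega⟩) = h v := rfl
      have hpx : pot D pos h y (Sum.inr v) = h v + ht D h y + |(pos v : ℝ) - cd D pos y| := by
        unfold pot
        rw [if_neg hxy]
        rfl
      have hpx' : pot D pos h y (Sum.inl ⟨pos v, by have := hpos v; omega⟩) =
          0 + ht D h y + |(pos v : ℝ) - cd D pos y| := by
        unfold pot
        split_ifs with h1
        · subst h1
          simp [ht, cd]
        · rfl
      rw [hpx, hpx', hw]
      have := hh v
      constructor <;> linarith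

theorem cat_isTree (hpos : ∀ v, pos v ≤ D) : (cat D pos).IsTree := by
  classical
  refine ⟨?_, ?_⟩
  · have : Nonempty (Nd D V) := ⟨Sum.inl 0⟩
    refine SimpleGraph.Connected.mk fun x y => ?_
    obtain ⟨p, -⟩ := exists_cat_path (h := fun _ : V => 1) hpos (fun _ => one_pos) y x
    exact ⟨p⟩
  · rw [SimpleGraph.isAcyclic_iff_forall_isBridge]
    -- a side that is constant along all other edges
    have key : ∀ (x y : Nd D V) (side : Nd D V → Prop), (cat D pos).Adj x y → side x → ¬ side y →
        (∀ u v, (cat D pos).Adj u v → s(u, v) ≠ s(x, y) → (side u → side v)) →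
        (cat D pos).IsBridge s(x, y) := by
      intro x y side hxy hx hy hs
      rw [SimpleGraph.isBridge_iff]
      rintro ⟨p⟩
      have : ∀ (u v : Nd D V) (q : ((cat D pos).deleteEdges {s(x, y)}).Walk u v), side u → side v := by
        intro u v q
        induction q with
        | nil => exact id
        | cons hadj q ih =>
          intro hu
          rw [SimpleGraph.deleteEdges_adj] at hadj
          exact ih (hs _ _ hadj.1 (fun h => hadj.2 h) hu)
      exact hy (this _ _ p hx)
    intro e he
    induction e using Sym2.ind with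
    | _ x y =>
      rw [SimpleGraph.mem_edgeSet] at he
      have spine : ∀ i j : Fin (D + 1), i.1 + 1 = j.1 →
          (cat D pos).IsBridge s(Sum.inl i, Sum.inl j) := by
        intro i j hij
        refine key _ _ (fun z => cd D pos z ≤ i.1) (Or.inl hij) le_rfl (by simp only [cd]; omega) ?_
        intro u v huv hne hu
        rcases u with u | u <;> rcases v with v | v
        · rcases huv with huv | huv
          · simp only [cd] at hu ⊢
            by_contra h1
            apply hne
            have e1 : u = i := Fin.ext (by omega)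
            have e2 : v = j := Fin.ext (by omega)
            rw [e1, e2]
          · simp only [cd] at hu ⊢
            omega
        · have : pos v = u.1 := huv
          simp only [cd] at hu ⊢
          omega
        · have : pos u = v.1 := huv
          simp only [cd] at hu ⊢
          omega
        · exact huv.elim
      have leg : ∀ (i : Fin (D + 1)) (v : V), pos v = i.1 →
          (cat D pos).IsBridge s(Sum.inr v, Sum.inl i) := by
        intro i v hv
        refine key _ _ (fun z => z = Sum.inr v) hv rfl (by simp) ?_
        intro a b hab hne ha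
        subst ha
        rcases b with b | b
        · exfalso
          apply hne
          have : pos v = b.1 := hab
          have e1 : b = i := Fin.ext (by omega)
          rw [e1]
        · exact hab.elim
      rcases x with x | x <;> rcases y with y | y
      · rcases he with he | he
        · exact spine _ _ he
        · rw [Sym2.eq_swap]
          exact spine _ _ he
      · rw [Sym2.eq_swap]
        exact leg _ _ he
      · exact leg _ _ he
      · exact he.elim

/-- A graph given by the distances in a caterpillar is a pairwise compatibility graph. -/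
theorem isPCG_of_cat [Finite V] (hpos : ∀ v, pos v ≤ D) (hh : ∀ v, 0 < h v) (hD : 0 < D)
    (h0 : ∃ v, pos v = 0) (h1 : ∃ v, pos v = D) {dmin dmax : ℝ} (hd0 : 0 ≤ dmin)
    (hd : dmin ≤ dmax) {G : SimpleGraph V}
    (hG : ∀ u v, G.Adj u v ↔ u ≠ v ∧ dmin ≤ h u + h v + |(pos u : ℝ) - pos v| ∧
      h u + h v + |(pos u : ℝ) - pos v| ≤ dmax) : IsPCG G := by
  classical
  have hT : (cat D pos).IsTree := cat_isTree hpos
  refine ⟨Nd D V, inferInstance, cat D pos, cw D h, Sum.inr, dmin, dmax, hT, ?_,
    Sum.inr_injective, ?_, hd0, hd, ?_⟩
  · intro e he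
    induction e using Sym2.ind with
    | _ x y =>
      rcases x with x | x <;> rcases y with y | y
      · exact one_pos
      · exact hh _
      · exact hh _
      · exact one_pos
  · intro x
    constructor
    · intro hx
      rcases x with i | v
      · exfalso
        have uniq : ∀ a b, (cat D pos).Adj (Sum.inl i) a → (cat D pos).Adj (Sum.inl i) b → a = b :=
          fun a b ha hb => hx.unique ha hb
        by_cases hi0 : i.1 = 0
        · obtain ⟨v, hv⟩ := h0
          have := uniq (Sum.inl ⟨1, by omega⟩) (Sum.inr v) (Or.inl (by simp [hi0])) (by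
            show pos v = i.1
            omega)
          exact absurd this (by simp)
        · by_cases hiD : i.1 = D
          · obtain ⟨v, hv⟩ := h1
            have := uniq (Sum.inl ⟨i.1 - 1, by omega⟩) (Sum.inr v) (Or.inr (by simp only; omega)) (by
              show pos v = i.1
              omega)
            exact absurd this (by simp)
          · have hi := i.2
            have := uniq (Sum.inl ⟨i.1 - 1, by omega⟩) (Sum.inl ⟨i.1 + 1, by omega⟩)
              (Or.inr (by simp only; omega)) (Or.inl rfl)
            rw [Sum.inl.injEq, Fin.mk.injEq] at this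
            omega
      · exact ⟨v, rfl⟩
    · rintro ⟨v, rfl⟩
      refine ⟨Sum.inl ⟨pos v, by have := hpos v; omega⟩, rfl, ?_⟩
      intro y hy
      rcases y with y | y
      · have : pos v = y.1 := hy
        exact congrArg Sum.inl (Fin.ext this.symm)
      · exact hy.elim
  · intro u v p hp
    obtain ⟨q, hq, hq'⟩ := exists_cat_path (h := h) hpos hh (Sum.inr v) (Sum.inr u)
    have hpq : p = q := (hT.existsUnique_path _ _).unique hp hq
    rw [hpq, hq', hG]
    by_cases huv : u = v
    · simp [huv]
    · have : pot D pos h (Sum.inr v) (Sum.inr u) = h u + h v + |(pos u : ℝ) - pos v| := by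
        unfold pot
        rw [if_neg (by simpa using huv)]
        rfl
      rw [this]

end cat

end Pool.Agent.V11227.PC
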