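import Pool.Agent.V11227.PC2
import Pool.Agent.V11227.PC3
import Pool.Agent.H622R2.Base

/-!
# Generalized PCG recognition: the reduction from betweenness
-/

set_option autoImplicit false

namespace Pool.Agent.V11227.PC

open Pool.Agent.NPC Pool.Agent.H622R2 Pool.Agent.V11227.BT

/-! ### Transfer along bijections -/

theorem IsPCG.comap {V W : Type} {H : SimpleGraph W} (hH : IsPCG H) (e : V ≃ W)
    {G : SimpleGraph V} (hG : ∀ u v, G.Adj u v ↔ H.Adj (e u) (e v)) : IsPCG G := by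
  obtain ⟨N, hN, T, w, l, dmin, dmax, h1, h2, h3, h4, h5, h6, h7⟩ := hH
  refine ⟨N, hN, T, w, l ∘ e, dmin, dmax, h1, h2, h3.comp e.injective, ?_, h5, h6, ?_⟩
  · intro x
    rw [h4 x]
    constructor
    · rintro ⟨y, rfl⟩
      exact ⟨e.symm y, by simp⟩
    · rintro ⟨y, rfl⟩
      exact ⟨e y, rfl⟩
  · intro u v p hp
    rw [hG, h7 (e u) (e v) p hp, e.injective.ne_iff]

/-- The version of the caterpillar lemma with natural numbers. -/
theorem isPCG_of_catN {V : Type} [Finite V] {D : ℕ} {pos h : V → ℕ} (hpos : ∀ v, pos v ≤ D)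
    (hh : ∀ v, 0 < h v) (hD : 0 < D) (h0 : ∃ v, pos v = 0) (h1 : ∃ v, pos v = D) {dmin dmax : ℕ}
    (hd : dmin ≤ dmax) {G : SimpleGraph V}
    (hG : ∀ u v, G.Adj u v ↔ u ≠ v ∧ dmin ≤ h u + h v + ((pos u - pos v) + (pos v - pos u)) ∧
      h u + h v + ((pos u - pos v) + (pos v - pos u)) ≤ dmax) : IsPCG G := by
  refine isPCG_of_cat (h := fun v => (h v : ℝ)) hpos (fun v => by exact_mod_cast hh v) hD h0 h1
    (dmin := dmin) (dmax := dmax) (by positivity) (by exact_mod_cast hd) fun u v => ?_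
  have key : (h u : ℝ) + h v + |(pos u : ℝ) - pos v| =
      ((h u + h v + ((pos u - pos v) + (pos v - pos u)) : ℕ) : ℝ) := by
    rcases le_total (pos u) (pos v) with hle | hle
    · rw [abs_of_nonpos (by have : (pos u : ℝ) ≤ pos v := by exact_mod_cast hle
                            linarith), Nat.sub_eq_zero_of_le hle]
      push_cast [Nat.cast_sub hle]
      ring
    · rw [abs_of_nonneg (by have : (pos v : ℝ) ≤ pos u := by exact_mod_cast hle
                            linarith), Nat.sub_eq_zero_of_le hle]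
      push_cast [Nat.cast_sub hle]
      ring
  rw [key, hG, Nat.cast_le, Nat.cast_le]

/-! ### The reduction -/

/-- Labels: kind and index. -/
abbrev Lb := ℕ × ℕ

/-- Betweenness instances. -/
abbrev Inst := List ℕ × List (ℕ × ℕ × ℕ)

/-- The triple with a given index. -/
def tr (I : Inst) (i : ℕ) : ℕ × ℕ × ℕ := I.2.getD i (0, 0, 0)

/-- The vertices. -/
def vs (I : Inst) : List Lb :=
  I.1.map (fun x => (0, x)) ++ (I.1.map (fun x => (1, x)) ++ (I.1.map (fun x => (2, x)) ++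
    ((List.range I.2.length).map (fun i => (3, i)) ++
      ((List.range I.2.length).map (fun i => (4, i)) ++ [(5, 0), (5, 1), (5, 2), (5, 3)]))))

/-- The edges. -/
def adjE (I : Inst) (u v : Lb) : Bool :=
  (decide (u.1 = 0) && decide (v.1 = 0)) ||
  ((decide (u.1 = 1) && (decide (v.1 = 2) && decide (u.2 = v.2))) ||
  ((decide (u.1 = 3) && (decide (v.1 = 0) && decide (v.2 = (tr I u.2).2.2))) ||
  ((decide (u.1 = 4) && (decide (v.1 = 0) && decide (v.2 = (tr I u.2).1))) ||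
  ((decide (u.1 = 5) && !decide (v.1 = 5)) ||
  (decide (u.1 = 5) && (decide (v.1 = 5) && decide ((u.2 + v.2) % 2 = 0)))))))

/-- The pairs of the set `S`. -/
def adjS (I : Inst) (u v : Lb) : Bool :=
  (decide (u.1 = 1) && decide (v.1 = 1)) ||
  ((decide (u.1 = 2) && decide (v.1 = 2)) ||
  ((decide (u.1 = 1) && (decide (v.1 = 0) && decide (u.2 = v.2))) ||
  ((decide (u.1 = 2) && (decide (v.1 = 0) && decide (u.2 = v.2))) ||
  ((decide (u.1 = 3) && (decide (v.1 = 0) &&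
    (decide (v.2 = (tr I u.2).1) || decide (v.2 = (tr I u.2).2.1)))) ||
  ((decide (u.1 = 4) && (decide (v.1 = 0) &&
    (decide (v.2 = (tr I u.2).2.1) || decide (v.2 = (tr I u.2).2.2)))) ||
  (decide (u.1 = 5) && (decide (v.1 = 5) && decide ((u.2 + v.2) % 2 = 1))))))))

/-- The reduction. -/
def red (I : Inst) : List (List Bool) × List (List Bool) :=
  (mat (vs I) (adjE I), mat (vs I) (adjS I))

theorem mem_vs {I : Inst} {u : Lb} : u ∈ vs I ↔ (u.1 ≤ 2 ∧ u.2 ∈ I.1) ∨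
    ((u.1 = 3 ∨ u.1 = 4) ∧ u.2 < I.2.length) ∨ (u.1 = 5 ∧ u.2 < 4) := by
  obtain ⟨k, x⟩ := u
  unfold vs
  simp only [List.mem_append, List.mem_map, List.mem_range, List.mem_cons, List.not_mem_nil,
    or_false, Prod.mk.injEq]
  constructor
  · rintro (⟨y, h, rfl, rfl⟩ | ⟨y, h, rfl, rfl⟩ | ⟨y, h, rfl, rfl⟩ | ⟨y, h, rfl, rfl⟩ |
      ⟨y, h, rfl, rfl⟩ | ⟨rfl, rfl⟩ | ⟨rfl, rfl⟩ | ⟨rfl, rfl⟩ | ⟨rfl, rfl⟩)
    · exact Or.inl ⟨by omega, h⟩
    · exact Or.inl ⟨by omega, h⟩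
    · exact Or.inl ⟨by omega, h⟩
    · exact Or.inr (Or.inl ⟨Or.inl rfl, h⟩)
    · exact Or.inr (Or.inl ⟨Or.inr rfl, h⟩)
    all_goals exact Or.inr (Or.inr ⟨rfl, by omega⟩)
  · rintro (⟨h1, h2⟩ | ⟨rfl | rfl, h⟩ | ⟨rfl, h⟩)
    · have : k = 0 ∨ k = 1 ∨ k = 2 := by omega
      rcases this with rfl | rfl | rfl
      · exact Or.inl ⟨x, h2, rfl, rfl⟩
      · exact Or.inr (Or.inl ⟨x, h2, rfl, rfl⟩)
      · exact Or.inr (Or.inr (Or.inl ⟨x, h2, rfl, rfl⟩))
    · exact Or.inr (Or.inr (Or.inr (Or.inl ⟨x, h, rfl, rfl⟩)))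
    · exact Or.inr (Or.inr (Or.inr (Or.inr (Or.inl ⟨x, h, rfl, rfl⟩))))
    · have : x = 0 ∨ x = 1 ∨ x = 2 ∨ x = 3 := by omega
      rcases this with rfl | rfl | rfl | rfl
      · exact Or.inr (Or.inr (Or.inr (Or.inr (Or.inr (Or.inl ⟨rfl, rfl⟩)))))
      · exact Or.inr (Or.inr (Or.inr (Or.inr (Or.inr (Or.inr (Or.inl ⟨rfl, rfl⟩))))))
      · exact Or.inr (Or.inr (Or.inr (Or.inr (Or.inr (Or.inr (Or.inr (Or.inl ⟨rfl, rfl⟩)))))))
      · exact Or.inr (Or.inr (Or.inr (Or.inr (Or.inr (Or.inr (Or.inr (Or.inr ⟨rfl, rfl⟩)))))))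

theorem nodup_map_pair {l : List ℕ} (hl : l.Nodup) (k : ℕ) :
    (l.map (fun x => ((k, x) : Lb))).Nodup :=
  hl.map fun _ _ h => (Prod.mk.inj h).2

theorem vs_nodup {I : Inst} (hI : I.1.Nodup) : (vs I).Nodup := by
  unfold vs
  have h : ∀ (k : ℕ) (l : List ℕ) (l' : List Lb), (∀ u ∈ l', k < u.1) → l.Nodup → l'.Nodup →
      (l.map (fun x => ((k, x) : Lb)) ++ l').Nodup := by
    intro k l l' h1 h2 h3
    rw [List.nodup_append]
    refine ⟨nodup_map_pair h2 k, h3, ?_⟩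
    intro u hu v hv huv
    obtain ⟨x, -, rfl⟩ := List.mem_map.1 hu
    have := h1 v hv
    rw [← huv] at this
    exact lt_irrefl _ this
  have m : ∀ (k : ℕ) (l : List ℕ) (u : Lb), u ∈ l.map (fun x => ((k, x) : Lb)) → u.1 = k := by
    intro k l u hu
    obtain ⟨x, -, rfl⟩ := List.mem_map.1 hu
    rfl
  have m5 : ∀ u : Lb, u ∈ [((5, 0) : Lb), (5, 1), (5, 2), (5, 3)] → u.1 = 5 := by
    intro u hu
    simp only [List.mem_cons, List.not_mem_nil, or_false] at hu
    rcases hu with rfl | rfl | rfl | rfl <;> rfl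
  refine h 0 _ _ ?_ hI (h 1 _ _ ?_ hI (h 2 _ _ ?_ hI (h 3 _ _ ?_ List.nodup_range
    (h 4 _ _ ?_ List.nodup_range (by decide)))))
  · intro u hu
    simp only [List.mem_append] at hu
    rcases hu with hu | hu | hu | hu | hu
    · rw [m _ _ _ hu]; omega
    · rw [m _ _ _ hu]; omega
    · rw [m _ _ _ hu]; omega
    · rw [m _ _ _ hu]; omega
    · rw [m5 _ hu]; omega
  · intro u hu
    simp only [List.mem_append] at hu
    rcases hu with hu | hu | hu | hu
    · rw [m _ _ _ hu]; omega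
    · rw [m _ _ _ hu]; omega
    · rw [m _ _ _ hu]; omega
    · rw [m5 _ hu]; omega
  · intro u hu
    simp only [List.mem_append] at hu
    rcases hu with hu | hu | hu
    · rw [m _ _ _ hu]; omega
    · rw [m _ _ _ hu]; omega
    · rw [m5 _ hu]; omega
  · intro u hu
    simp only [List.mem_append] at hu
    rcases hu with hu | hu
    · rw [m _ _ _ hu]; omega
    · rw [m5 _ hu]; omega
  · intro u hu
    rw [m5 _ hu]; omega

theorem adjE_iff {I : Inst} {u v : Lb} : adjE I u v = true ↔ (u.1 = 0 ∧ v.1 = 0) ∨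
    (u.1 = 1 ∧ v.1 = 2 ∧ u.2 = v.2) ∨ (u.1 = 3 ∧ v.1 = 0 ∧ v.2 = (tr I u.2).2.2) ∨
    (u.1 = 4 ∧ v.1 = 0 ∧ v.2 = (tr I u.2).1) ∨ (u.1 = 5 ∧ v.1 ≠ 5) ∨
    (u.1 = 5 ∧ v.1 = 5 ∧ (u.2 + v.2) % 2 = 0) := by
  unfold adjE
  simp only [Bool.or_eq_true, Bool.and_eq_true, decide_eq_true_eq, Bool.not_eq_true',
    decide_eq_false_iff_not]

theorem adjS_iff {I : Inst} {u v : Lb} : adjS I u v = true ↔ (u.1 = 1 ∧ v.1 = 1) ∨
    (u.1 = 2 ∧ v.1 = 2) ∨ (u.1 = 1 ∧ v.1 = 0 ∧ u.2 = v.2) ∨ (u.1 = 2 ∧ v.1 = 0 ∧ u.2 = v.2) ∨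
    (u.1 = 3 ∧ v.1 = 0 ∧ (v.2 = (tr I u.2).1 ∨ v.2 = (tr I u.2).2.1)) ∨
    (u.1 = 4 ∧ v.1 = 0 ∧ (v.2 = (tr I u.2).2.1 ∨ v.2 = (tr I u.2).2.2)) ∨
    (u.1 = 5 ∧ v.1 = 5 ∧ (u.2 + v.2) % 2 = 1) := by
  unfold adjS
  simp only [Bool.or_eq_true, Bool.and_eq_true, decide_eq_true_eq]

theorem tr_mem {I : Inst} {i : ℕ} (hi : i < I.2.length) : tr I i ∈ I.2 := by
  unfold tr
  rw [List.getD_eq_getElem _ _ hi]
  exact List.getElem_mem hi

/-! ### The instance with labels -/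

/-- The problem on the labels. -/
def LabPCG (I : Inst) : Prop := ∃ H : SimpleGraph {x // x ∈ vs I}, IsPCG H ∧
  (∀ u v, u ≠ v → adjE I u.1 v.1 = true → H.Adj u v) ∧
  ∀ u v, u ≠ v → adjS I u.1 v.1 = true → ¬ H.Adj u v

theorem genPCG_iff {I : Inst} (hI : I.1.Nodup) : GenPCG (red I) ↔ LabPCG I := by
  classical
  have hnd := vs_nodup hI
  have hlen := mat_length (vs I) (adjE I)
  let e : Fin (red I).1.length ≃ {x // x ∈ vs I} :=
    (finCongr hlen).trans (List.Nodup.getEquiv (vs I) hnd)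
  have he : ∀ i, (e i).1 = (vs I)[i.1]'(lt_of_lt_of_eq i.2 hlen) := fun i => rfl
  have hE : ∀ i j, entry (red I).1 i.1 j.1 = adjE I (e i).1 (e j).1 := fun i j =>
    entry_mat _ _ _ _ (lt_of_lt_of_eq i.2 hlen) (lt_of_lt_of_eq j.2 hlen)
  have hS : ∀ i j : Fin (red I).1.length, entry (red I).2 i.1 j.1 = adjS I (e i).1 (e j).1 :=
    fun i j => entry_mat _ _ _ _ (lt_of_lt_of_eq i.2 hlen) (lt_of_lt_of_eq j.2 hlen)
  constructor
  · rintro ⟨-, H, h1, h2, h3⟩
    refine ⟨H.comap e.symm, h1.comap e.symm fun u v => Iff.rfl, fun u v huv hadj => ?_,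
      fun u v huv hadj => ?_⟩
    · refine h2 _ _ ⟨fun h => huv (e.symm.injective h), Or.inl ?_⟩
      rw [hE, e.apply_symm_apply, e.apply_symm_apply]
      exact hadj
    · refine h3 _ _ ⟨fun h => huv (e.symm.injective h), Or.inl ?_⟩
      rw [hS, e.apply_symm_apply, e.apply_symm_apply]
      exact hadj
  · rintro ⟨H, h1, h2, h3⟩
    have k2 : ∀ i j, (matGraph (red I).1).Adj i j → (H.comap e).Adj i j := by
      rintro i j ⟨hij, hadj⟩
      have hne : e i ≠ e j := fun h => hij (e.injective h)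
      rcases hadj with hadj | hadj
      · rw [hE] at hadj
        exact h2 _ _ hne hadj
      · rw [hE] at hadj
        exact (h2 _ _ hne.symm hadj).symm
    have k3 : ∀ i j, (pairGraph (red I).1.length (red I).2).Adj i j → ¬ (H.comap e).Adj i j := by
      rintro i j ⟨hij, hadj⟩
      have hne : e i ≠ e j := fun h => hij (e.injective h)
      rcases hadj with hadj | hadj
      · rw [hS] at hadj
        exact h3 _ _ hne hadj
      · rw [hS] at hadj
        exact fun h => h3 _ _ hne.symm hadj h.symm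
    exact ⟨fun i j h h' => k3 i j h (k2 i j h'), H.comap e, h1.comap e fun u v => Iff.rfl, k2, k3⟩

/-! ### From orderings to trees -/

section yes

variable (I : Inst) (P : ℕ → ℕ) (B : ℕ)

/-- Position of a leaf on the spine. -/
def ps (u : Lb) : ℕ :=
  if u.1 = 0 then 8 * P u.2 + 3 else
  if u.1 = 1 then 4 * P u.2 + 1 else
  if u.1 = 2 then 4 * P u.2 + 4 * B + 4 else
  if u.1 = 3 then 4 * P (tr I u.2).1 + 4 * P (tr I u.2).2.1 + 2 else
  if u.1 = 4 then 4 * P (tr I u.2).2.1 + 4 * P (tr I u.2).2.2 + 2 else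
  if u.2 % 2 = 0 then 0 else 8 * B + 4

/-- Height of a leaf. -/
def hs (u : Lb) : ℕ :=
  if u.1 = 0 then 4 * B + 2 else
  if u.1 = 1 then 4 * B + 2 - 4 * P u.2 else
  if u.1 = 2 then 4 * P u.2 + 3 else
  if u.1 = 3 then 4 * B + 3 - 4 * ((P (tr I u.2).1 - P (tr I u.2).2.1) +
    (P (tr I u.2).2.1 - P (tr I u.2).1)) else
  if u.1 = 4 then 4 * B + 3 - 4 * ((P (tr I u.2).2.1 - P (tr I u.2).2.2) +
    (P (tr I u.2).2.2 - P (tr I u.2).2.1)) else
  16 * B + 11

end yes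

theorem yes_dir {I : Inst} (hg : Good I) (h : Betweenness I) : LabPCG I := by
  classical
  obtain ⟨g, hinj, hmid⟩ := h
  obtain ⟨⟨n, hn, hI⟩, hts⟩ := hg
  -- shift the positions to natural numbers
  obtain ⟨C, hC⟩ : ∃ C : ℤ, ∀ x ∈ I.1, C ≤ g x := by
    obtain ⟨C, hC⟩ := (List.finite_toSet I.1).image g |>.bddBelow
    exact ⟨C, fun x hx => hC ⟨x, hx, rfl⟩⟩
  obtain ⟨A, hA⟩ : ∃ A : ℤ, ∀ x ∈ I.1, g x ≤ A := by
    obtain ⟨A, hA⟩ := (List.finite_toSet I.1).image g |>.bddAbove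
    exact ⟨A, fun x hx => hA ⟨x, hx, rfl⟩⟩
  let P : ℕ → ℕ := fun x => if x ∈ I.1 then (g x - C).toNat else 0
  let B : ℕ := (A - C).toNat + 1
  have hP : ∀ x ∈ I.1, (P x : ℤ) = g x - C := by
    intro x hx
    have := hC x hx
    simp only [P, if_pos hx]
    omega
  have hPB : ∀ x, P x < B := by
    intro x
    by_cases hx : x ∈ I.1
    · have h1 := hP x hx
      have h2 := hA x hx
      simp only [B]
      omega
    · simp only [P, if_neg hx, B]
      omega
  have hPne : ∀ x ∈ I.1, ∀ y ∈ I.1, x ≠ y → P x ≠ P y := by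
    intro x hx y hy hxy he
    have h1 := hP x hx
    have h2 := hP y hy
    exact hxy (hinj hx hy (by omega))
  have hPmid : ∀ i, i < I.2.length →
      (P (tr I i).1 < P (tr I i).2.1 ∧ P (tr I i).2.1 < P (tr I i).2.2) ∨
      (P (tr I i).2.2 < P (tr I i).2.1 ∧ P (tr I i).2.1 < P (tr I i).1) := by
    intro i hi
    have hm := tr_mem hi
    obtain ⟨h1, h2, h3, -⟩ := hts _ hm
    have h4 := hmid _ hm
    have e1 := hP _ h1
    have e2 := hP _ h2
    have e3 := hP _ h3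
    unfold Mid at h4
    omega
  let D := 8 * B + 4
  let ps' : {x // x ∈ vs I} → ℕ := fun u => ps I P B u.1
  let hs' : {x // x ∈ vs I} → ℕ := fun u => hs I P B u.1
  let H : SimpleGraph {x // x ∈ vs I} :=
    { Adj := fun u v => u ≠ v ∧
        8 * B + 7 ≤ hs' u + hs' v + ((ps' u - ps' v) + (ps' v - ps' u)) ∧
        hs' u + hs' v + ((ps' u - ps' v) + (ps' v - ps' u)) ≤ 32 * B + 22
      symm := ⟨fun u v huv => ⟨huv.1.symm, by omega, by omega⟩⟩
      loopless := ⟨fun u hu => hu.1 rfl⟩ }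
  have hfin : Finite {x // x ∈ vs I} := (List.finite_toSet (vs I)).to_subtype
  have hm : ∀ u ∈ vs I, (u.1 ≤ 2 ∧ u.2 ∈ I.1) ∨
    ((u.1 = 3 ∨ u.1 = 4) ∧ u.2 < I.2.length) ∨ (u.1 = 5 ∧ u.2 < 4) := fun u hu => mem_vs.1 hu
  have hps : ∀ u, ps' u ≤ D := by
    rintro ⟨⟨k, x⟩, hu⟩
    simp only [ps', ps, D]
    have a1 := hPB x
    have a2 := hPB (tr I x).1
    have a3 := hPB (tr I x).2.1
    have a4 := hPB (tr I x).2.2
    split_ifs <;> omega
  have hhs : ∀ u, 0 < hs' u := by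
    rintro ⟨⟨k, x⟩, hu⟩
    simp only [hs', hs]
    have a1 := hPB x
    have a2 := hPB (tr I x).1
    have a3 := hPB (tr I x).2.1
    have a4 := hPB (tr I x).2.2
    split_ifs <;> omega
  have w0 : ((5, 0) : Lb) ∈ vs I := mem_vs.2 (Or.inr (Or.inr ⟨rfl, by simp⟩))
  have w1 : ((5, 1) : Lb) ∈ vs I := mem_vs.2 (Or.inr (Or.inr ⟨rfl, by simp⟩))
  refine ⟨H, isPCG_of_catN (D := D) (pos := ps') (h := hs') (dmin := 8 * B + 7)
    (dmax := 32 * B + 22) hps hhs (by simp only [D]; omega) ⟨⟨_, w0⟩, ?_⟩ ⟨⟨_, w1⟩, ?_⟩ (by omega)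
    (fun u v => Iff.rfl), ?_, ?_⟩
  · simp [ps', ps]
  · simp [ps', ps, D]
  · rintro ⟨⟨k, x⟩, hu⟩ ⟨⟨l, y⟩, hv⟩ huv hadj
    refine ⟨huv, ?_⟩
    rw [adjE_iff] at hadj
    have hne : ¬ (k = l ∧ x = y) := fun h => huv (by rw [Subtype.mk.injEq, Prod.mk.injEq]; exact h)
    have mu := hm _ hu
    have mv := hm _ hv
    have a1 := hPB x
    have a2 := hPB (tr I x).1
    have a3 := hPB (tr I x).2.1
    have a4 := hPB (tr I x).2.2
    have b1 := hPB y
    have b2 := hPB (tr I y).1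
    have b3 := hPB (tr I y).2.1
    have b4 := hPB (tr I y).2.2
    simp only at hadj mu mv
    rcases hadj with ⟨rfl, rfl⟩ | ⟨rfl, rfl, rfl⟩ | ⟨rfl, rfl, rfl⟩ | ⟨rfl, rfl, rfl⟩ | ⟨rfl, hl⟩ |
      ⟨rfl, rfl, hxy⟩
    · have h1 : x ∈ I.1 := by
        rcases mu with mu | mu | mu
        · exact mu.2
        · omega
        · omega
      have h2 : y ∈ I.1 := by
        rcases mv with mv | mv | mv
        · exact mv.2
        · omega
        · omega
      have := hPne x h1 y h2 (by omega)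
      simp +decide only [ps', hs', ps, hs, if_true, if_false]
      omega
    · simp +decide only [ps', hs', ps, hs, if_true, if_false]
      omega
    · have hx : x < I.2.length := by omega
      have := hPmid x hx
      simp +decide only [ps', hs', ps, hs, if_true, if_false]
      omega
    · have hx : x < I.2.length := by omega
      have := hPmid x hx
      simp +decide only [ps', hs', ps, hs, if_true, if_false]
      omega
    · have hl' : l = 0 ∨ l = 1 ∨ l = 2 ∨ l = 3 ∨ l = 4 := by omega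
      rcases hl' with rfl | rfl | rfl | rfl | rfl <;>
        simp +decide only [ps', hs', ps, hs, if_true, if_false] <;> split_ifs <;> omega
    · simp +decide only [ps', hs', ps, hs, if_true, if_false]
      split_ifs <;> omega
  · rintro ⟨⟨k, x⟩, hu⟩ ⟨⟨l, y⟩, hv⟩ huv hadj ⟨-, hlo, hhi⟩
    rw [adjS_iff] at hadj
    have mu := hm _ hu
    have a1 := hPB x
    have a2 := hPB (tr I x).1
    have a3 := hPB (tr I x).2.1
    have a4 := hPB (tr I x).2.2
    have b1 := hPB y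
    simp only at hadj mu
    rcases hadj with ⟨rfl, rfl⟩ | ⟨rfl, rfl⟩ | ⟨rfl, rfl, rfl⟩ | ⟨rfl, rfl, rfl⟩ | ⟨rfl, rfl, hy⟩ |
      ⟨rfl, rfl, hy⟩ | ⟨rfl, rfl, hxy⟩
    · simp +decide only [ps', hs', ps, hs, if_true, if_false] at hlo hhi
      omega
    · simp +decide only [ps', hs', ps, hs, if_true, if_false] at hlo hhi
      omega
    · simp +decide only [ps', hs', ps, hs, if_true, if_false] at hlo hhi
      omega
    · simp +decide only [ps', hs', ps, hs, if_true, if_false] at hlo hhi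
      omega
    · have hx : x < I.2.length := by omega
      have := hPmid x hx
      rcases hy with rfl | rfl <;>
      simp +decide only [ps', hs', ps, hs, if_true, if_false] at hlo hhi <;>
      omega
    · have hx : x < I.2.length := by omega
      have := hPmid x hx
      rcases hy with rfl | rfl <;>
      simp +decide only [ps', hs', ps, hs, if_true, if_false] at hlo hhi <;>
      omega
    · simp +decide only [ps', hs', ps, hs, if_true, if_false] at hlo hhi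
      split_ifs at hlo hhi <;> omega

end Pool.Agent.V11227.PC
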