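import Pool.Agent.V11227.PC4

/-!
# Generalized PCG recognition: from trees to orderings, and the hardness
-/

set_option autoImplicit false

namespace Pool.Agent.V11227.PC

open Pool.Agent.NPC Pool.Agent.H622R2 Pool.Agent.V11227.BT

theorem no_dir {I : Inst} (hg : Good I) (h : LabPCG I) : Betweenness I := by
  classical
  obtain ⟨H, ⟨N, hN, T, w, l, dmin, dmax, hT, hw, hinj, hleaf, hd0, hdd, hH⟩, hE, hS⟩ := h
  have x0 : ((5, 0) : Lb) ∈ vs I := mem_vs.2 (Or.inr (Or.inr ⟨rfl, by simp⟩))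
  let vx : Lb → {x // x ∈ vs I} := fun u => if h : u ∈ vs I then ⟨u, h⟩ else ⟨(5, 0), x0⟩
  have hvx : ∀ u, u ∈ vs I → (vx u).1 = u := by
    intro u hu
    simp only [vx, dif_pos hu]
  let d : Lb → Lb → ℝ := fun u v => dst hT w (l (vx u)) (l (vx v))
  have hd : FP d := ⟨fun x y => dst_comm hT w _ _, fun x y z u => four_point hT hw _ _ _ _⟩
  have hadj : ∀ u v, u ∈ vs I → v ∈ vs I → u ≠ v →
      (H.Adj (vx u) (vx v) ↔ dmin ≤ d u v ∧ d u v ≤ dmax) := by
    intro u v hu hv huv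
    have hne : vx u ≠ vx v := fun h => huv (by rw [← hvx u hu, ← hvx v hv, h])
    rw [hH (vx u) (vx v) (pth hT _ _) (pth_isPath hT _ _), wt_eq_dst hT w _ (pth_isPath hT _ _)]
    exact ⟨fun h => h.2, fun h => ⟨hne, h⟩⟩
  have kE : ∀ u v, u ∈ vs I → v ∈ vs I → u ≠ v → adjE I u v = true →
      dmin ≤ d u v ∧ d u v ≤ dmax := by
    intro u v hu hv huv h
    have hne : vx u ≠ vx v := fun h => huv (by rw [← hvx u hu, ← hvx v hv, h])
    exact (hadj u v hu hv huv).1 (hE _ _ hne (by rw [hvx u hu, hvx v hv]; exact h))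
  have kS : ∀ u v, u ∈ vs I → v ∈ vs I → u ≠ v → adjS I u v = true →
      d u v < dmin ∨ dmax < d u v := by
    intro u v hu hv huv h
    have hne : vx u ≠ vx v := fun h => huv (by rw [← hvx u hu, ← hvx v hv, h])
    have := hS _ _ hne (by rw [hvx u hu, hvx v hv]; exact h)
    rw [hadj u v hu hv huv] at this
    by_contra hcon
    push Not at hcon
    exact this hcon
  have hw' : ∀ i, i < 4 → ((5, i) : Lb) ∈ vs I := fun i hi => mem_vs.2 (Or.inr (Or.inr ⟨rfl, hi⟩))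
  -- a far pair in the gadget
  obtain ⟨i, j, hi, hj, hij⟩ : ∃ i j, i < 4 ∧ j < 4 ∧ dmax < d (5, i) (5, j) := by
    by_contra hcon
    push Not at hcon
    have s : ∀ i j, i < 4 → j < 4 → (i + j) % 2 = 1 → d (5, i) (5, j) < dmin := by
      intro i j hi hj hij
      rcases kS (5, i) (5, j) (hw' i hi) (hw' j hj) (by simp; omega)
        (adjS_iff.2 (Or.inr (Or.inr (Or.inr (Or.inr (Or.inr (Or.inr ⟨rfl, rfl, hij⟩))))))) with h | h
      · exact h
      · exact absurd (hcon i j hi hj) (not_le.2 h)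
    have e1 := kE (5, 0) (5, 2) (hw' _ (by norm_num)) (hw' _ (by norm_num)) (by simp)
      (adjE_iff.2 (Or.inr (Or.inr (Or.inr (Or.inr (Or.inr ⟨rfl, rfl, rfl⟩))))))
    have e2 := kE (5, 1) (5, 3) (hw' _ (by norm_num)) (hw' _ (by norm_num)) (by simp)
      (adjE_iff.2 (Or.inr (Or.inr (Or.inr (Or.inr (Or.inr ⟨rfl, rfl, rfl⟩))))))
    rcases hd.c4 (s 0 1 (by norm_num) (by norm_num) rfl) (s 1 2 (by norm_num) (by norm_num) rfl)
      (s 2 3 (by norm_num) (by norm_num) rfl) (s 3 0 (by norm_num) (by norm_num) rfl) with h | h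
    · linarith
    · linarith
  have kW : ∀ i, i < 4 → ∀ u, u ∈ vs I → u.1 ≠ 5 → d (5, i) u ≤ dmax := by
    intro i hi u hu hu5
    refine (kE (5, i) u (hw' i hi) hu ?_ (adjE_iff.2 (Or.inr (Or.inr (Or.inr (Or.inr
      (Or.inl ⟨rfl, hu5⟩))))))).2
    rintro rfl
    exact hu5 rfl
  -- all pairs of `S` outside the gadget are near
  have near : ∀ u v, u ∈ vs I → v ∈ vs I → u.1 ≠ 5 → v.1 ≠ 5 → u ≠ v → adjS I u v = true →
      d u v < dmin := by
    intro u v hu hv hu5 hv5 huv h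
    rcases kS u v hu hv huv h with h | h
    · exact h
    · exfalso
      have h1 := kW i hi u hu hu5
      have h2 := kW j hj u hu hu5
      have h3 := kW i hi v hv hv5
      have h4 := kW j hj v hv hv5
      have h5 := hd.fp (5, i) u (5, j) v
      rw [hd.comm u (5, j)] at h5
      rcases le_max_iff.1 h5 with h6 | h6 <;> linarith
  have m0 : ∀ k x, k ≤ 2 → x ∈ I.1 → ((k, x) : Lb) ∈ vs I := fun k x hk hx =>
    mem_vs.2 (Or.inl ⟨hk, hx⟩)
  have m3 : ∀ i, i < I.2.length → ((3, i) : Lb) ∈ vs I := fun i hi =>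
    mem_vs.2 (Or.inr (Or.inl ⟨Or.inl rfl, hi⟩))
  have m4 : ∀ i, i < I.2.length → ((4, i) : Lb) ∈ vs I := fun i hi =>
    mem_vs.2 (Or.inr (Or.inl ⟨Or.inr rfl, hi⟩))
  have hp : Pat d dmin I.1 (fun x => (1, x)) (fun x => (2, x)) (fun x => (0, x)) := by
    constructor
    · intro x hx y hy hxy
      exact near _ _ (m0 1 x (by norm_num) hx) (m0 1 y (by norm_num) hy) (by simp) (by simp)
        (by simpa using hxy) (adjS_iff.2 (Or.inl ⟨rfl, rfl⟩))
    · intro x hx y hy hxy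
      exact near _ _ (m0 2 x (by norm_num) hx) (m0 2 y (by norm_num) hy) (by simp) (by simp)
        (by simpa using hxy) (adjS_iff.2 (Or.inr (Or.inl ⟨rfl, rfl⟩)))
    · intro x hx
      exact near _ _ (m0 1 x (by norm_num) hx) (m0 0 x (by norm_num) hx) (by simp) (by simp)
        (by simp) (adjS_iff.2 (Or.inr (Or.inr (Or.inl ⟨rfl, rfl, rfl⟩))))
    · intro x hx
      exact near _ _ (m0 2 x (by norm_num) hx) (m0 0 x (by norm_num) hx) (by simp) (by simp)
        (by simp) (adjS_iff.2 (Or.inr (Or.inr (Or.inr (Or.inl ⟨rfl, rfl, rfl⟩)))))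
    · intro x hx
      exact not_lt.2 (kE _ _ (m0 1 x (by norm_num) hx) (m0 2 x (by norm_num) hx) (by simp)
        (adjE_iff.2 (Or.inr (Or.inl ⟨rfl, rfl, rfl⟩)))).1
    · intro x hx y hy hxy
      exact not_lt.2 (kE _ _ (m0 0 x (by norm_num) hx) (m0 0 y (by norm_num) hy)
        (by simpa using hxy) (adjE_iff.2 (Or.inl ⟨rfl, rfl⟩))).1
  refine betweenness_of hd hp (ts := I.2) hg fun s hs => ?_
  obtain ⟨k, hk, rfl⟩ : ∃ k, k < I.2.length ∧ tr I k = s := by
    obtain ⟨k, hk, rfl⟩ := List.getElem_of_mem hs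
    exact ⟨k, hk, by unfold tr; rw [List.getD_eq_getElem _ _ hk]⟩
  obtain ⟨t1, t2, t3, -⟩ := hg.2 _ hs
  refine ⟨⟨(3, k), ?_, ?_, ?_⟩, ⟨(4, k), ?_, ?_, ?_⟩⟩
  · exact near _ _ (m3 k hk) (m0 0 _ (by norm_num) t1) (by simp) (by simp) (by simp)
      (adjS_iff.2 (Or.inr (Or.inr (Or.inr (Or.inr (Or.inl ⟨rfl, rfl, Or.inl rfl⟩))))))
  · exact near _ _ (m3 k hk) (m0 0 _ (by norm_num) t2) (by simp) (by simp) (by simp)
      (adjS_iff.2 (Or.inr (Or.inr (Or.inr (Or.inr (Or.inl ⟨rfl, rfl, Or.inr rfl⟩))))))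
  · exact not_lt.2 (kE _ _ (m3 k hk) (m0 0 _ (by norm_num) t3) (by simp)
      (adjE_iff.2 (Or.inr (Or.inr (Or.inl ⟨rfl, rfl, rfl⟩))))).1
  · exact near _ _ (m4 k hk) (m0 0 _ (by norm_num) t2) (by simp) (by simp) (by simp)
      (adjS_iff.2 (Or.inr (Or.inr (Or.inr (Or.inr (Or.inr (Or.inl ⟨rfl, rfl, Or.inl rfl⟩)))))))
  · exact near _ _ (m4 k hk) (m0 0 _ (by norm_num) t3) (by simp) (by simp) (by simp)
      (adjS_iff.2 (Or.inr (Or.inr (Or.inr (Or.inr (Or.inr (Or.inl ⟨rfl, rfl, Or.inr rfl⟩)))))))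
  · exact not_lt.2 (kE _ _ (m4 k hk) (m0 0 _ (by norm_num) t1) (by simp)
      (adjE_iff.2 (Or.inr (Or.inr (Or.inr (Or.inl ⟨rfl, rfl, rfl⟩)))))).1

theorem red_correct {I : Inst} (hg : Good I) : Betweenness I ↔ GenPCG (red I) := by
  have hnd : I.1.Nodup := by
    obtain ⟨⟨n, -, hI⟩, -⟩ := hg
    rw [hI]
    exact List.nodup_range
  rw [genPCG_iff hnd]
  exact ⟨yes_dir hg, no_dir hg⟩

/-! ### Polynomial time -/

section poly

variable {α : Type} [TEnc α]

@[fun_prop]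
theorem poly_tr {I : α → Inst} {i : α → ℕ} (hI : NPC.Poly I) (hi : NPC.Poly i) :
    NPC.Poly (fun a => tr (I a) (i a)) := by
  unfold tr
  fun_prop

theorem poly_adjE : NPC.Poly (fun p : (Inst × Lb) × Lb => adjE p.1.1 p.1.2 p.2) := by
  unfold adjE
  fun_prop

theorem poly_adjS : NPC.Poly (fun p : (Inst × Lb) × Lb => adjS p.1.1 p.1.2 p.2) := by
  unfold adjS
  fun_prop

theorem poly_vs : NPC.Poly vs := by
  unfold vs
  have h : NPC.Poly (fun I : Inst => List.range I.2.length) :=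
    (UPoly.length (NPC.Poly.snd NPC.Poly.id)).range
  fun_prop

theorem poly_red : NPC.Poly red :=
  NPC.Poly.pair (mat_poly (adj := fun I u v => adjE I u v) poly_vs poly_adjE)
    (mat_poly (adj := fun I u v => adjS I u v) poly_vs poly_adjS)

end poly

theorem hardI_genPCG : HardI GenPCG :=
  (hardPr_betweenness.trans (Pr' := fun _ => True) poly_red (fun _ _ => trivial)
    (fun _ h => red_correct h)).toHardI

end Pool.Agent.V11227.PC
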