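import Mathlib
import Pool.Agent.H622R2.MatGraph

/-!
# Pairwise compatibility graphs: definitions
-/

set_option autoImplicit false

namespace Pool.Agent.V11227.PC

open Pool.Agent.H622R2

/-- The total weight of the edges of a walk. -/
def wt {N : Type} {T : SimpleGraph N} (w : Sym2 N → ℝ) {x y : N} (p : T.Walk x y) : ℝ :=
  (p.edges.map w).sum

/-- `x` is a leaf: it has exactly one neighbour. -/
def IsLeaf {N : Type} (T : SimpleGraph N) (x : N) : Prop := ∃! y, T.Adj x y

/-- `G` is a pairwise compatibility graph: there are a finite tree `T` with positive edge weights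
`w`, a bijection `l` from the vertices of `G` to the leaves of `T`, and numbers
`0 ≤ dmin ≤ dmax` such that `u ≠ v` are adjacent in `G` iff the weight of the path between their
leaves is in `[dmin, dmax]`. -/
def IsPCG {V : Type} (G : SimpleGraph V) : Prop :=
  ∃ (N : Type) (_ : Finite N) (T : SimpleGraph N) (w : Sym2 N → ℝ) (l : V → N) (dmin dmax : ℝ),
    T.IsTree ∧ (∀ e ∈ T.edgeSet, 0 < w e) ∧ Function.Injective l ∧
    (∀ x, IsLeaf T x ↔ x ∈ Set.range l) ∧ 0 ≤ dmin ∧ dmin ≤ dmax ∧
    ∀ (u v : V) (p : T.Walk (l u) (l v)), p.IsPath →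
      (G.Adj u v ↔ u ≠ v ∧ dmin ≤ wt w p ∧ wt w p ≤ dmax)

/-- The second graph of an instance, on the vertices `0, ..., n - 1`: two distinct vertices `i`, `j`
are adjacent when the entry `(i, j)` or the entry `(j, i)` of the matrix `S` is `true`. -/
def pairGraph (n : ℕ) (S : List (List Bool)) : SimpleGraph (Fin n) where
  Adj i j := i ≠ j ∧ (entry S i j = true ∨ entry S j i = true)
  symm := ⟨fun _ _ h => ⟨h.1.symm, h.2.symm⟩⟩
  loopless := ⟨fun _ h => h.1 rfl⟩

/-- Generalized PCG recognition.  An instance consists of two matrices; the first one is the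
adjacency matrix of the graph `G`, the second one gives the set `S` of pairs, which have to be
non-edges of `G`.  The question is whether there is a pairwise compatibility graph `H` on the
vertices of `G` which contains all edges of `G` and no pair of `S`. -/
def GenPCG (I : List (List Bool) × List (List Bool)) : Prop :=
  (∀ i j, (pairGraph I.1.length I.2).Adj i j → ¬ (matGraph I.1).Adj i j) ∧
    ∃ H : SimpleGraph (Fin I.1.length), IsPCG H ∧ (∀ i j, (matGraph I.1).Adj i j → H.Adj i j) ∧
      ∀ i j, (pairGraph I.1.length I.2).Adj i j → ¬ H.Adj i j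

end Pool.Agent.V11227.PC
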