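import Pool.Agent.V11227.PKDefs
import Pool.Agent.V11227.PC2
import Pool.Agent.V11227.PC3

/-!
# Leaf distances: the four-point condition and caterpillars
-/

set_option autoImplicit false

namespace Pool.Agent.V11227.PK

open Pool.Agent.V11227.PC (Sep dst FP pth)

section tree

variable {N : Type} {T : SimpleGraph N} (hT : T.IsTree)

include hT

theorem le_of_no_cross' [Fintype N] {w : Sym2 N → ℝ} (hw : ∀ e ∈ T.edgeSet, 0 ≤ w e) {x y z u : N}
    (h : ∀ e, ¬ (¬ Sep hT e x y ∧ ¬ Sep hT e z u ∧ Sep hT e x z)) :
    dst hT w x z + dst hT w y u ≤ dst hT w x y + dst hT w z u := by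
  classical
  rw [PC.dst_eq_sum, PC.dst_eq_sum, PC.dst_eq_sum, PC.dst_eq_sum, ← Finset.sum_add_distrib,
    ← Finset.sum_add_distrib]
  refine Finset.sum_le_sum fun e _ => ?_
  by_cases he : e ∈ T.edgeSet
  · have hp := hw e he
    have t1 := PC.not_sep_trans hT (e := e) (x := x) (y := y) (z := z)
    have t2 := PC.not_sep_trans hT (e := e) (x := x) (y := z) (z := u)
    have t3 := PC.not_sep_three hT (e := e) (x := x) (y := y) (z := u)
    have t4 := PC.not_sep_three hT (e := e) (x := y) (y := z) (z := u)
    have t5 := PC.not_sep_three hT (e := e) (x := x) (y := z) (z := u)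
    have t6 := PC.not_sep_trans hT (e := e) (x := y) (y := z) (z := u)
    have t7 := PC.not_sep_trans hT (e := e) (x := y) (y := x) (z := u)
    have t8 := PC.not_sep_three hT (e := e) (x := x) (y := y) (z := z)
    have t9 := PC.not_sep_trans hT (e := e) (x := y) (y := x) (z := z)
    have t10 := h e
    rw [PC.sep_comm hT (x := y) (y := x)] at t7 t9
    by_cases a1 : Sep hT e x z <;> by_cases a2 : Sep hT e y u <;> by_cases a3 : Sep hT e x y <;>
      by_cases a4 : Sep hT e z u <;> by_cases a5 : Sep hT e x u <;> by_cases a6 : Sep hT e y z <;>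
      simp only [a1, a2, a3, a4, a5, a6, if_true, if_false, not_true_eq_false, not_false_eq_true,
        and_true, and_false, true_implies, false_implies, imp_false] at t1 t2 t3 t4 t5 t6 t7 t8 t9 t10 ⊢ <;>
      linarith
  · have h0 : ∀ x y, ¬ Sep hT e x y := fun x y h' => he ((pth hT x y).edges_subset_edgeSet h')
    simp [h0]

/-- The four-point condition for nonnegative weights. -/
theorem four_point' [Finite N] {w : Sym2 N → ℝ} (hw : ∀ e ∈ T.edgeSet, 0 ≤ w e) (x y z u : N) :
    dst hT w x z + dst hT w y u ≤
      max (dst hT w x y + dst hT w z u) (dst hT w x u + dst hT w y z) := by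
  classical
  have : Fintype N := Fintype.ofFinite N
  by_cases h : ∃ f, ¬ Sep hT f x u ∧ ¬ Sep hT f z y ∧ Sep hT f x z
  · obtain ⟨f, f1, f2, f3⟩ := h
    refine le_max_of_le_left (le_of_no_cross' hT hw ?_)
    rintro e ⟨e1, e2, e3⟩
    have g1 : Sep hT f x y := by
      by_contra h1
      exact PC.not_sep_trans hT h1 (fun h => f2 h.symm) f3
    have g2 : Sep hT f z u := by
      by_contra h1
      exact PC.not_sep_trans hT f1 (fun h => h1 h.symm) f3
    exact PC.compat hT e1 e2 g1 g2 e3
  · push Not at h
    refine le_max_of_le_right ?_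
    have := le_of_no_cross' hT hw (x := x) (y := u) (z := z) (u := y) (fun e he =>
      h e he.1 he.2.1 he.2.2)
    rw [PC.dst_comm hT w y u, PC.dst_comm hT w y z]
    exact this

end tree

theorem IsLeafDist.fp {V : Type} {d : V → V → ℝ} (h : IsLeafDist d) : FP d := by
  obtain ⟨N, hN, T, w, l, hT, hw, hinj, hleaf, hd⟩ := h
  have e : ∀ u v, d u v = dst hT w (l u) (l v) := by
    intro u v
    rw [← hd u v (pth hT _ _) (PC.pth_isPath hT _ _)]
    rfl
  constructor
  · intro x y
    rw [e, e, PC.dst_comm]
  · intro x y z u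
    simp only [e]
    exact four_point' hT hw _ _ _ _

/-- Distances in caterpillars. -/
theorem isLeafDist_cat {V : Type} [Finite V] {D : ℕ} {pos : V → ℕ} {h : V → ℝ}
    (hpos : ∀ v, pos v ≤ D) (hh : ∀ v, 0 < h v) (hD : 0 < D)
    (h0 : ∃ v, pos v = 0) (h1 : ∃ v, pos v = D) :
    ∃ d : V → V → ℝ, IsLeafDist d ∧
      ∀ u v, u ≠ v → d u v = h u + h v + |(pos u : ℝ) - pos v| := by
  classical
  have hT : (PC.cat D pos).IsTree := PC.cat_isTree hpos
  refine ⟨fun u v => PC.pot D pos h (Sum.inr v) (Sum.inr u), ⟨PC.Nd D V, inferInstance,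
    PC.cat D pos, PC.cw D h, Sum.inr, hT, ?_, Sum.inr_injective, ?_, ?_⟩, ?_⟩
  · intro e he
    induction e using Sym2.ind with
    | _ x y =>
      rcases x with x | x <;> rcases y with y | y
      · exact zero_le_one
      · exact (hh _).le
      · exact (hh _).le
      · exact zero_le_one
  · intro x
    constructor
    · intro hx
      rcases x with i | v
      · exfalso
        have uniq : ∀ a b, (PC.cat D pos).Adj (Sum.inl i) a →
            (PC.cat D pos).Adj (Sum.inl i) b → a = b := fun a b ha hb => hx.unique ha hb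
        by_cases hi0 : i.1 = 0
        · obtain ⟨v, hv⟩ := h0
          have := uniq (Sum.inl ⟨1, by omega⟩) (Sum.inr v) (Or.inl (by simp [hi0])) (by
            show pos v = i.1
            omega)
          exact absurd this (by simp)
        · by_cases hiD : i.1 = D
          · obtain ⟨v, hv⟩ := h1
            have := uniq (Sum.inl ⟨i.1 - 1, by omega⟩) (Sum.inr v) (Or.inr (by simp only; omega)) (by
              show pos v = i.1
              omega)
            exact absurd this (by simp)
          · have hi := i.2
            have := uniq (Sum.inl ⟨i.1 - 1, by omega⟩) (Sum.inl ⟨i.1 + 1, by omega⟩)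
              (Or.inr (by simp only; omega)) (Or.inl rfl)
            rw [Sum.inl.injEq, Fin.mk.injEq] at this
            omega
      · exact ⟨v, rfl⟩
    · rintro ⟨v, rfl⟩
      refine ⟨Sum.inl ⟨pos v, by have := hpos v; omega⟩, rfl, ?_⟩
      intro y hy
      rcases y with y | y
      · have : pos v = y.1 := hy
        exact congrArg Sum.inl (Fin.ext this.symm)
      · exact hy.elim
  · intro u v p hp
    obtain ⟨q, hq, hq'⟩ := PC.exists_cat_path (h := h) hpos hh (Sum.inr v) (Sum.inr u)
    have hpq : p = q := (hT.existsUnique_path _ _).unique hp hq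
    rw [hpq]
    exact hq'
  · intro u v huv
    simp only [PC.pot]
    rw [if_neg (by simpa using huv)]
    rfl

/-- If `d ∉ I` and `d` is greater than some element of `I`, it is greater than all elements. -/
theorem far_of {I : Set ℝ} (hI : IsInterval I) {x t s : ℝ} (hx : x ∉ I) (ht : t ∈ I) (htx : t < x)
    (hs : s ∈ I) : s < x := by
  by_contra h
  push Not at h
  exact hx (hI.1.out ht hs ⟨htx.le, h⟩)

theorem near_of {I : Set ℝ} {x s : ℝ} (hx : x ∉ I) (hno : ∀ t ∈ I, ¬ t < x)
    (hs : s ∈ I) : x < s := by
  rcases lt_trichotomy x s with h | h | h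
  · exact h
  · exact absurd (h ▸ hs) hx
  · exact absurd h (hno s hs)

/-- Two disjoint pairs which are farther apart than all cross pairs do not exist. -/
theorem no_two_far {V : Type} {d : V → V → ℝ} (hd : FP d) {a b x y : V}
    (h1 : d a x < d a b) (h2 : d a y < d a b) (h3 : d b y < d x y) (h4 : d b x < d x y)
    : False := by
  have h := hd.fp a x b y
  rw [hd.comm x b] at h
  rcases le_max_iff.1 h with h | h <;> linarith

end Pool.Agent.V11227.PK
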