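import Pool.Agent.V11227.PK1

/-!
# Disjoint copies of complete bipartite graphs are PCGs whose complements are not `k`-AND-PCGs
-/

set_option autoImplicit false

namespace Pool.Agent.V11227.PK

open Pool.Agent.V11227.PC (FP)

/-- `k + 1` disjoint copies of the complete bipartite graph with sides of size `n`. -/
def copies (k n : ℕ) : SimpleGraph (Fin (k + 1) × Bool × Fin n) where
  Adj u v := u.1 = v.1 ∧ u.2.1 ≠ v.2.1
  symm := ⟨fun _ _ h => ⟨h.1.symm, h.2.symm⟩⟩
  loopless := ⟨fun _ h => h.2 rfl⟩

theorem isPCG_copies {k n : ℕ} (hk : 1 ≤ k) (hn : 1 ≤ n) : IsPCG (copies k n) := by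
  obtain ⟨d, hd, hd'⟩ := isLeafDist_cat (V := Fin (k + 1) × Bool × Fin n) (D := 10 * k)
    (pos := fun u => 10 * u.1.1) (h := fun u => if u.2.1 = true then 3 else 1)
    (fun u => by have := u.1.2; omega) (fun u => by split_ifs <;> norm_num) (by omega)
    ⟨(0, false, ⟨0, by omega⟩), by simp⟩ ⟨(Fin.last k, false, ⟨0, by omega⟩), by simp⟩
  refine ⟨d, hd, {4}, ⟨Set.ordConnected_singleton, by simp⟩, fun u v huv => ?_⟩
  obtain ⟨c, s, x⟩ := u
  obtain ⟨c', s', y⟩ := v
  rw [hd' _ _ huv, Set.mem_singleton_iff]
  simp only [copies]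
  by_cases hc : c = c'
  · subst hc
    rw [sub_self, abs_zero]
    cases s <;> cases s' <;> norm_num
  · have habs : (10 : ℝ) ≤ |((10 * c.1 : ℕ) : ℝ) - ((10 * c'.1 : ℕ) : ℝ)| := by
      have hne : c.1 ≠ c'.1 := fun h => hc (Fin.ext h)
      rcases lt_or_gt_of_ne hne with h | h
      · have h1 : 10 * c.1 + 10 ≤ 10 * c'.1 := by omega
        have h2 : ((10 * c.1 : ℕ) : ℝ) + 10 ≤ ((10 * c'.1 : ℕ) : ℝ) := by exact_mod_cast h1
        rw [abs_of_nonpos (by linarith)]
        linarith
      · have h1 : 10 * c'.1 + 10 ≤ 10 * c.1 := by omega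
        have h2 : ((10 * c'.1 : ℕ) : ℝ) + 10 ≤ ((10 * c.1 : ℕ) : ℝ) := by exact_mod_cast h1
        rw [abs_of_nonneg (by linarith)]
        linarith
    have h1 : (1 : ℝ) ≤ (if s = true then 3 else 1) := by split_ifs <;> norm_num
    have h2 : (1 : ℝ) ≤ (if s' = true then 3 else 1) := by split_ifs <;> norm_num
    constructor
    · intro h; exact absurd h.1 hc
    · intro h; linarith

section forest

variable {V : Type} {d : V → V → ℝ} (hd : FP d) (I : Set ℝ)

/-- The pair is near: its distance is less than all elements of `I`. -/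
def Near (d : V → V → ℝ) (I : Set ℝ) (x y : V) : Prop := ∀ s ∈ I, d x y < s

include hd

open Classical in
/-- The near pairs between two sides without near pairs form a forest. -/
theorem forest {I : Set ℝ} (n : ℕ) : ∀ (A B : Finset V), A.card + B.card = n → 0 < n →
    Disjoint A B → (∀ a ∈ A, ∀ a' ∈ A, a ≠ a' → ¬ Near d I a a') →
    (∀ b ∈ B, ∀ b' ∈ B, b ≠ b' → ¬ Near d I b b') →
    ((A ×ˢ B).filter fun p => Near d I p.1 p.2).card + 1 ≤ n := by
  induction n with
  | zero => intro A B _ h; omega
  | succ n ih =>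
    intro A B hn _ hAB hA hB
    have hne : (A ∪ B).Nonempty := by
      rw [← Finset.card_pos, Finset.card_union_of_disjoint hAB]
      omega
    obtain ⟨r, hr⟩ := hne
    obtain ⟨v, hv, hmax⟩ := Finset.exists_max_image (A ∪ B) (fun x => d r x) ⟨r, hr⟩
    have chord : ∀ u ∈ A ∪ B, ∀ w ∈ A ∪ B, Near d I u v → Near d I w v → Near d I u w :=
      fun u hu w hw h1 h2 s hs => hd.chord (hmax u hu) (hmax w hw) (h1 s hs) (h2 s hs)
    rcases Nat.eq_zero_or_pos n with hn0 | hn0
    · -- one side is empty
      have : A ×ˢ B = ∅ := by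
        rw [Finset.product_eq_empty, ← Finset.card_eq_zero, ← Finset.card_eq_zero]
        omega
      rw [this]
      simp
    · rw [Finset.mem_union] at hv
      rcases hv with hv | hv
      · have h1 := ih (A.erase v) B (by rw [Finset.card_erase_of_mem hv]; have := Finset.card_pos.2 ⟨v, hv⟩; omega) hn0
          (hAB.mono_left (Finset.erase_subset _ _))
          (fun a ha a' ha' => hA a (Finset.mem_of_mem_erase ha) a' (Finset.mem_of_mem_erase ha')) hB
        have h2 : (B.filter fun b => Near d I v b).card ≤ 1 := by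
          rw [Finset.card_le_one]
          intro b hb b' hb'
          rw [Finset.mem_filter] at hb hb'
          by_contra hbb
          refine hB b hb.1 b' hb'.1 hbb (chord b (Finset.mem_union_right _ hb.1) b'
            (Finset.mem_union_right _ hb'.1) (fun s hs => ?_) (fun s hs => ?_))
          · rw [hd.comm]; exact hb.2 s hs
          · rw [hd.comm]; exact hb'.2 s hs
        have h3 : ((A ×ˢ B).filter fun p => Near d I p.1 p.2) ⊆
            (((A.erase v) ×ˢ B).filter fun p => Near d I p.1 p.2) ∪
              (B.filter fun b => Near d I v b).image fun b => (v, b) := by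
          intro p hp
          rw [Finset.mem_filter, Finset.mem_product] at hp
          rw [Finset.mem_union]
          by_cases hpv : p.1 = v
          · right
            rw [Finset.mem_image]
            exact ⟨p.2, Finset.mem_filter.2 ⟨hp.1.2, hpv ▸ hp.2⟩, by rw [← hpv]⟩
          · left
            rw [Finset.mem_filter, Finset.mem_product]
            exact ⟨⟨Finset.mem_erase.2 ⟨hpv, hp.1.1⟩, hp.1.2⟩, hp.2⟩
        have h4 := (Finset.card_le_card h3).trans (Finset.card_union_le _ _)
        have h5 := Finset.card_image_le (s := B.filter fun b => Near d I v b)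
          (f := fun b => (v, b))
        omega
      · have h1 := ih A (B.erase v) (by rw [Finset.card_erase_of_mem hv]; have := Finset.card_pos.2 ⟨v, hv⟩; omega) hn0
          (hAB.mono_right (Finset.erase_subset _ _)) hA
          (fun a ha a' ha' => hB a (Finset.mem_of_mem_erase ha) a' (Finset.mem_of_mem_erase ha'))
        have h2 : (A.filter fun a => Near d I a v).card ≤ 1 := by
          rw [Finset.card_le_one]
          intro a ha a' ha'
          rw [Finset.mem_filter] at ha ha'
          by_contra haa
          exact hA a ha.1 a' ha'.1 haa (chord a (Finset.mem_union_left _ ha.1) a'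
            (Finset.mem_union_left _ ha'.1) ha.2 ha'.2)
        have h3 : ((A ×ˢ B).filter fun p => Near d I p.1 p.2) ⊆
            ((A ×ˢ (B.erase v)).filter fun p => Near d I p.1 p.2) ∪
              (A.filter fun a => Near d I a v).image fun a => (a, v) := by
          intro p hp
          rw [Finset.mem_filter, Finset.mem_product] at hp
          rw [Finset.mem_union]
          by_cases hpv : p.2 = v
          · right
            rw [Finset.mem_image]
            exact ⟨p.1, Finset.mem_filter.2 ⟨hp.1.1, hpv ▸ hp.2⟩, by rw [← hpv]⟩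
          · left
            rw [Finset.mem_filter, Finset.mem_product]
            exact ⟨⟨hp.1.1, Finset.mem_erase.2 ⟨hpv, hp.1.2⟩⟩, hp.2⟩
        have h4 := (Finset.card_le_card h3).trans (Finset.card_union_le _ _)
        have h5 := Finset.card_image_le (s := A.filter fun a => Near d I a v)
          (f := fun a => (a, v))
        omega

end forest

theorem not_isAndPCG_compl {k n : ℕ} (h : k * (2 * n - 1) < n * n) :
    ¬ IsAndPCG k (copies k n)ᶜ := by
  classical
  rintro ⟨F, hF, hG⟩
  choose d hd I hI hFI using hF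
  have hfp : ∀ i, FP (d i) := fun i => (hd i).fp
  have hn : 1 ≤ n := by
    rcases Nat.eq_zero_or_pos n with h0 | h0
    · subst h0; omega
    · exact h0
  -- non-edges of `copies` are in all intervals
  have hin : ∀ u v, u ≠ v → ¬ (copies k n).Adj u v → ∀ i, d i u v ∈ I i := by
    intro u v huv hadj i
    exact (hFI i u v huv).1 ((hG u v huv).1 ⟨huv, hadj⟩ i)
  have hout : ∀ u v, (copies k n).Adj u v → ∃ i, d i u v ∉ I i := by
    intro u v hadj
    by_contra hcon
    push Not at hcon
    have huv := hadj.ne
    exact ((hG u v huv).2 fun i => (hFI i u v huv).2 (hcon i)).2 hadj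
  -- a copy without far pairs
  let Far : Fin (k + 1) → Fin k → Prop := fun c i => ∃ u v, u.1 = c ∧ (copies k n).Adj u v ∧
    d i u v ∉ I i ∧ ∃ t ∈ I i, t < d i u v
  have hfar : ∀ c c' i, Far c i → Far c' i → c = c' := by
    rintro c c' i ⟨u, v, huc, huv, h1, t, ht, h2⟩ ⟨x, y, hxc, hxy, h3, t', ht', h4⟩
    by_contra hcc
    have hvc : v.1 = c := huv.1.symm.trans huc
    have hyc : y.1 = c' := hxy.1.symm.trans hxc
    have cross : ∀ p q : Fin (k + 1) × Bool × Fin n, p.1 = c → q.1 = c' → d i p q ∈ I i := by
      intro p q hp hq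
      refine hin p q ?_ ?_ i
      · rintro rfl
        exact hcc (hp.symm.trans hq)
      · intro h
        exact hcc (hp.symm.trans (h.1.trans hq))
    exact no_two_far (hfp i) (a := u) (b := v) (x := x) (y := y)
      (far_of (hI i) h1 ht h2 (cross u x huc hxc)) (far_of (hI i) h1 ht h2 (cross u y huc hyc))
      (far_of (hI i) h3 ht' h4 (cross v y hvc hyc)) (far_of (hI i) h3 ht' h4 (cross v x hvc hxc))
  obtain ⟨c, hc⟩ : ∃ c, ∀ i, ¬ Far c i := by
    by_contra hcon
    push Not at hcon
    choose g hg using hcon
    have : Function.Injective g := fun c c' h => hfar c c' (g c) (hg c) (h ▸ hg c')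
    have := Fintype.card_le_of_injective g this
    simp at this
  -- the two sides
  let A : Finset (Fin (k + 1) × Bool × Fin n) := Finset.univ.image fun x => (c, false, x)
  let B : Finset (Fin (k + 1) × Bool × Fin n) := Finset.univ.image fun x => (c, true, x)
  have hAcard : A.card = n := by
    rw [Finset.card_image_of_injective _ (fun x y h => by simpa using h), Finset.card_univ,
      Fintype.card_fin]
  have hBcard : B.card = n := by
    rw [Finset.card_image_of_injective _ (fun x y h => by simpa using h), Finset.card_univ,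
      Fintype.card_fin]
  have hcov : A ×ˢ B ⊆ (Finset.univ : Finset (Fin k)).biUnion fun i =>
      (A ×ˢ B).filter fun p => Near (d i) (I i) p.1 p.2 := by
    intro p hp
    have hp' := hp
    rw [Finset.mem_product, Finset.mem_image, Finset.mem_image] at hp'
    obtain ⟨⟨x, -, hx⟩, ⟨y, -, hy⟩⟩ := hp'
    have hadj : (copies k n).Adj p.1 p.2 := by
      rw [← hx, ← hy]
      exact ⟨rfl, by simp⟩
    obtain ⟨i, hi⟩ := hout _ _ hadj
    rw [Finset.mem_biUnion]
    refine ⟨i, Finset.mem_univ _, Finset.mem_filter.2 ⟨hp, fun s hs => ?_⟩⟩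
    refine near_of hi (fun t ht hlt => hc i ⟨p.1, p.2, ?_, hadj, hi, t, ht, hlt⟩) hs
    rw [← hx]
  have hfor : ∀ i : Fin k, ((A ×ˢ B).filter fun p => Near (d i) (I i) p.1 p.2).card ≤
      2 * n - 1 := by
    intro i
    have := forest (hfp i) (I := I i) (2 * n) A B (by omega) (by omega) ?_ ?_ ?_
    · omega
    · rw [Finset.disjoint_left]
      intro p hp hp'
      rw [Finset.mem_image] at hp hp'
      obtain ⟨x, -, rfl⟩ := hp
      obtain ⟨y, -, hy⟩ := hp'
      simp at hy
    · intro a ha a' ha' haa hnear
      rw [Finset.mem_image] at ha ha'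
      obtain ⟨x, -, rfl⟩ := ha
      obtain ⟨y, -, rfl⟩ := ha'
      have := hin _ _ haa (fun h => h.2 rfl) i
      exact lt_irrefl _ (hnear _ this)
    · intro a ha a' ha' haa hnear
      rw [Finset.mem_image] at ha ha'
      obtain ⟨x, -, rfl⟩ := ha
      obtain ⟨y, -, rfl⟩ := ha'
      have := hin _ _ haa (fun h => h.2 rfl) i
      exact lt_irrefl _ (hnear _ this)
  have h1 := (Finset.card_le_card hcov).trans Finset.card_biUnion_le
  have h2 := Finset.sum_le_card_nsmul Finset.univ
    (fun i : Fin k => ((A ×ˢ B).filter fun p => Near (d i) (I i) p.1 p.2).card) (2 * n - 1)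
    (fun i _ => hfor i)
  rw [Finset.card_product, hAcard, hBcard] at h1
  rw [Finset.card_univ, Fintype.card_fin, smul_eq_mul] at h2
  omega

end Pool.Agent.V11227.PK
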