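import Pool.Agent.V11227.PK1

/-!
# Alternating cographs and a Ramsey argument
-/

set_option autoImplicit false

namespace Pool.Agent.V11227.PK

open Pool.Agent.V11227.PC (FP)

/-- The leaves of the `M`-ary tree of depth `n`. -/
def Lf (M : ℕ) : ℕ → Type
  | 0 => Unit
  | n + 1 => Fin M × Lf M n

instance Lf.finite (M n : ℕ) : Finite (Lf M n) := by
  induction n with
  | zero => exact inferInstanceAs (Finite Unit)
  | succ n ih => exact inferInstanceAs (Finite (Fin M × Lf M n))

theorem Lf.nonempty {M : ℕ} (hM : 1 ≤ M) (n : ℕ) : Nonempty (Lf M n) := by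
  induction n with
  | zero => exact ⟨()⟩
  | succ n ih =>
    obtain ⟨x⟩ := ih
    exact ⟨((⟨0, hM⟩ : Fin M), x)⟩

/-- Alternating adjacency: leaves in different subtrees of the root are adjacent iff `b` is `true`,
and the subtrees carry the relation for `!b`. -/
def ad {M : ℕ} : (b : Bool) → (n : ℕ) → Lf M n → Lf M n → Prop
  | _, 0, _, _ => False
  | b, n + 1, u, v => (u.1 ≠ v.1 ∧ b = true) ∨ (u.1 = v.1 ∧ ad (!b) n u.2 v.2)

theorem ad_irrefl {M : ℕ} (b : Bool) (n : ℕ) (u : Lf M n) : ¬ ad b n u u := by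
  induction n generalizing b with
  | zero => exact id
  | succ n ih =>
    rintro (⟨h, -⟩ | ⟨-, h⟩)
    · exact h rfl
    · exact ih _ _ h

theorem ad_symm {M : ℕ} (b : Bool) (n : ℕ) (u v : Lf M n) (h : ad b n u v) : ad b n v u := by
  induction n generalizing b with
  | zero => exact h
  | succ n ih =>
    rcases h with ⟨h, h'⟩ | ⟨h, h'⟩
    · exact Or.inl ⟨h.symm, h'⟩
    · exact Or.inr ⟨h.symm, ih _ _ _ h'⟩

theorem ad_not {M : ℕ} (b : Bool) (n : ℕ) (u v : Lf M n) (huv : u ≠ v) :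
    ad (!b) n u v ↔ ¬ ad b n u v := by
  induction n generalizing b with
  | zero => exact absurd rfl huv
  | succ n ih =>
    obtain ⟨i, x⟩ := u
    obtain ⟨j, y⟩ := v
    unfold ad
    simp only
    by_cases hij : i = j
    · subst hij
      have hxy : x ≠ y := fun h => huv (by rw [h])
      have := ih (!b) x y hxy
      simp only [ne_eq, not_true_eq_false, false_and, true_and, false_or]
      exact this
    · simp only [ne_eq, hij, not_false_eq_true, true_and, false_and, or_false]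
      cases b <;> simp

/-- The alternating cograph. -/
def cog (M : ℕ) (b : Bool) (n : ℕ) : SimpleGraph (Lf M n) where
  Adj u v := ad b n u v
  symm := ⟨fun u v h => ad_symm b n u v h⟩
  loopless := ⟨fun u h => ad_irrefl b n u h⟩

/-- Embeddings of smaller trees. -/
def IsEmb {m M n : ℕ} (f : Lf m n → Lf M n) : Prop :=
  Function.Injective f ∧ ∀ b u v, ad b n (f u) (f v) ↔ ad b n u v

theorem IsEmb.comp {m M K n : ℕ} {f : Lf m n → Lf M n} {g : Lf M n → Lf K n} (hg : IsEmb g)
    (hf : IsEmb f) : IsEmb (g ∘ f) :=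
  ⟨hg.1.comp hf.1, fun b u v => (hg.2 b _ _).trans (hf.2 b u v)⟩

/-- Putting embeddings of the subtrees together. -/
theorem isEmb_succ {m M n : ℕ} (σ : Fin m → Fin M) (hσ : Function.Injective σ)
    (f : Fin m → Lf m n → Lf M n) (hf : ∀ i, IsEmb (f i)) :
    IsEmb (n := n + 1) (fun u : Lf m (n + 1) => ((σ u.1, f u.1 u.2) : Fin M × Lf M n)) := by
  constructor
  · rintro ⟨i, x⟩ ⟨j, y⟩ h
    have h' := Prod.mk.inj h
    have hij : i = j := hσ h'.1
    subst hij
    have hxy : x = y := (hf i).1 h'.2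
    rw [hxy]
  · rintro b ⟨i, x⟩ ⟨j, y⟩
    unfold ad
    simp only
    by_cases hij : i = j
    · subst hij
      simp only [ne_eq, not_true_eq_false, false_and, true_and, false_or]
      exact (hf i).2 _ _ _
    · have : σ i ≠ σ j := fun h => hij (hσ h)
      simp only [ne_eq, hij, this, not_false_eq_true, true_and, false_and, or_false]

theorem exists_emb {m M : ℕ} (h : m ≤ M) (n : ℕ) : ∃ f : Lf m n → Lf M n, IsEmb f := by
  induction n with
  | zero => exact ⟨fun _ => (), fun _ _ _ => rfl, fun _ _ _ => Iff.rfl⟩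
  | succ n ih =>
    obtain ⟨f, hf⟩ := ih
    exact ⟨_, isEmb_succ (Fin.castLE h) (Fin.castLE_injective h) (fun _ => f) fun _ => hf⟩

/-- Colourings of the leaves. -/
theorem ramsey1 (n m : ℕ) : ∀ (C : Type) [Finite C], ∃ M0, ∀ M, M0 ≤ M → ∀ χ : Lf M n → C,
    ∃ f : Lf m n → Lf M n, IsEmb f ∧ ∀ u v, χ (f u) = χ (f v) := by
  classical
  intro C _
  rcases Nat.eq_zero_or_pos m with hm | hm
  · subst hm
    cases n with
    | zero =>
      exact ⟨0, fun M _ χ => ⟨fun _ => (), ⟨fun _ _ _ => rfl, fun _ _ _ => Iff.rfl⟩, fun _ _ => rfl⟩⟩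
    | succ n =>
      exact ⟨0, fun M _ χ => ⟨fun u => u.1.elim0, ⟨fun u => u.1.elim0, fun _ u => u.1.elim0⟩,
        fun u => u.1.elim0⟩⟩
  induction n with
  | zero =>
    exact ⟨0, fun M _ χ => ⟨fun _ => (), ⟨fun _ _ _ => rfl, fun _ _ _ => Iff.rfl⟩, fun _ _ => rfl⟩⟩
  | succ n ih =>
    obtain ⟨M1, hM1⟩ := ih
    have : Fintype C := Fintype.ofFinite C
    refine ⟨max M1 (Fintype.card C * m) + 1, fun M hM χ => ?_⟩
    have k1 : M1 ≤ M := by
      have := le_max_left M1 (Fintype.card C * m)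
      omega
    have k2 : Fintype.card C * m ≤ M := by
      have := le_max_right M1 (Fintype.card C * m)
      omega
    choose f hf hfc using fun i : Fin M => hM1 M k1 fun x => χ ((i, x) : Fin M × Lf M n)
    obtain ⟨x0⟩ := Lf.nonempty (M := m) hm n
    let c : Fin M → C := fun i => χ ((i, f i x0) : Fin M × Lf M n)
    have : Nonempty C := ⟨c ⟨0, by omega⟩⟩
    obtain ⟨y, hy⟩ := Fintype.exists_le_card_fiber_of_mul_le_card c
      (n := m) (by rw [Fintype.card_fin]; exact k2)
    let σ := Finset.orderEmbOfCardLe _ hy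
    have hσ : ∀ i, c (σ i) = y := by
      intro i
      have := Finset.orderEmbOfCardLe_mem _ hy i
      rw [Finset.mem_filter] at this
      exact this.2
    refine ⟨_, isEmb_succ σ σ.injective (fun i => f (σ i)) (fun i => hf (σ i)), ?_⟩
    rintro ⟨i, x⟩ ⟨j, z⟩
    have h1 : χ ((σ i, f (σ i) x) : Fin M × Lf M n) = y := (hfc (σ i) x x0).trans (hσ i)
    have h2 : χ ((σ j, f (σ j) z) : Fin M × Lf M n) = y := (hfc (σ j) z x0).trans (hσ j)
    exact h1.trans h2.symm

/-- Colourings of the pairs of leaves of two trees. -/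
theorem ramsey2 (n m : ℕ) (C : Type) [Finite C] : ∃ M0, ∀ M, M0 ≤ M → ∀ χ : Lf M n → Lf M n → C,
    ∃ f g : Lf m n → Lf M n, IsEmb f ∧ IsEmb g ∧ ∀ u v u' v', χ (f u) (g v) = χ (f u') (g v') := by
  classical
  obtain ⟨m1, hm1⟩ := ramsey1 n m C
  obtain ⟨M1, hM1⟩ := ramsey1 n m (Lf m1 n → C)
  refine ⟨max M1 m1, fun M hM χ => ?_⟩
  obtain ⟨g0, hg0⟩ := exists_emb ((le_max_right M1 m1).trans hM) n
  obtain ⟨f, hf, hfc⟩ := hM1 M ((le_max_left M1 m1).trans hM) fun u v => χ u (g0 v)
  by_cases hne : Nonempty (Lf m n)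
  · obtain ⟨u0⟩ := hne
    obtain ⟨g1, hg1, hgc⟩ := hm1 m1 le_rfl fun v => χ (f u0) (g0 v)
    refine ⟨f, g0 ∘ g1, hf, hg0.comp hg1, fun u v u' v' => ?_⟩
    have e : ∀ u v, χ (f u) (g0 (g1 v)) = χ (f u0) (g0 (g1 v)) := fun u v =>
      congrFun (hfc u u0) (g1 v)
    exact (e u v).trans ((hgc v v').trans (e u' v').symm)
  · exact ⟨f, f, hf, hf, fun u => absurd ⟨u⟩ hne⟩

/-- The depths. -/
def dep : ℕ → ℕ
  | 0 => 1
  | k + 1 => dep k + 1 + 1

/-- The key statement: `k` trees do not suffice. -/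
theorem claim (k : ℕ) : ∃ M0, ∀ M, M0 ≤ M → ∀ (ι : Type) (A : Finset ι), A.card = k →
    ∀ (d : ι → Lf M (dep k) → Lf M (dep k) → ℝ) (I : ι → Set ℝ), (∀ i, FP (d i)) →
    (∀ i, IsInterval (I i)) →
    (∀ i ∈ A, ∀ u v, u ≠ v → ¬ ad true (dep k) u v → d i u v ∉ I i) →
    (∀ u v, ad true (dep k) u v → ∃ i ∈ A, d i u v ∈ I i) → False := by
  classical
  induction k with
  | zero =>
    refine ⟨2, fun M hM ι A hA d I _ _ _ h => ?_⟩
    rw [Finset.card_eq_zero] at hA
    subst hA
    obtain ⟨i, hi, -⟩ := h (((⟨0, by omega⟩ : Fin M), ()) : Fin M × Unit)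
      (((⟨1, by omega⟩ : Fin M), ()) : Fin M × Unit) (Or.inl ⟨by simp, rfl⟩)
    simp at hi
  | succ k ih =>
    obtain ⟨Mk, hMk⟩ := ih
    obtain ⟨MR, hMR⟩ := ramsey2 (dep k + 1) (max Mk 2) (Fin (k + 1))
    refine ⟨max MR 2, fun M hM ι A hA d I hd hI hout hin => ?_⟩
    have hM2 : 2 ≤ M := (le_max_right MR 2).trans hM
    have hm2 : 2 ≤ max Mk 2 := le_max_right _ _
    -- adjacency
    have adtop : ∀ (a b : Fin M) (u v : Lf M (dep k + 1)), a ≠ b →
        ad true (dep (k + 1)) ((a, u) : Fin M × Lf M (dep k + 1)) ((b, v) : Fin M × _) :=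
      fun a b u v hab => Or.inl ⟨hab, rfl⟩
    have adsub : ∀ (a : Fin M) (u v : Lf M (dep k + 1)),
        ad true (dep (k + 1)) ((a, u) : Fin M × Lf M (dep k + 1)) ((a, v) : Fin M × _) ↔
          ad false (dep k + 1) u v := by
      intro a u v
      constructor
      · rintro (⟨h, -⟩ | ⟨-, h⟩)
        · exact absurd rfl h
        · exact h
      · exact fun h => Or.inr ⟨rfl, h⟩
    -- the colouring
    let e := A.equivFinOfCardEq hA
    have hcol : ∀ u v : Lf M (dep k + 1), ∃ i : {i // i ∈ A},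
        d i ((⟨0, by omega⟩ : Fin M), u) ((⟨1, by omega⟩ : Fin M), v) ∈ I i := by
      intro u v
      obtain ⟨i, hi, hi'⟩ := hin _ _ (adtop ⟨0, by omega⟩ ⟨1, by omega⟩ u v (by simp))
      exact ⟨⟨i, hi⟩, hi'⟩
    choose χ hχ using hcol
    obtain ⟨f, g, hf, hg, hfg⟩ := hMR M ((le_max_left MR 2).trans hM) fun u v => e (χ u v)
    obtain ⟨u0⟩ := Lf.nonempty (M := max Mk 2) (by omega) (dep k + 1)
    obtain ⟨i, hi⟩ : ∃ j, j = χ (f u0) (g u0) := ⟨_, rfl⟩
    have hcross : ∀ u v, d i ((⟨0, by omega⟩ : Fin M), f u) ((⟨1, by omega⟩ : Fin M), g v) ∈ I i := by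
      intro u v
      have h1 : χ (f u) (g v) = i := by
        rw [hi]
        exact e.injective (hfg u v u0 u0)
      rw [← h1]
      exact hχ _ _
    have hiA : (i : ι) ∈ A := i.2
    -- a side without far non-edges leads to a contradiction
    have side : ∀ (a : Fin M) (f : Lf (max Mk 2) (dep k + 1) → Lf M (dep k + 1)), IsEmb f →
        (∀ u v, u ≠ v → ¬ ad false (dep k + 1) u v → ∀ t ∈ I i, ¬ t < d i (a, f u) (a, f v)) →
        False := by
      intro a f hf hnf
      have hnear : ∀ u v, u ≠ v → ¬ ad false (dep k + 1) u v → ∀ s ∈ I i,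
          d i (a, f u) (a, f v) < s := by
        intro u v huv hadj s hs
        refine near_of ?_ (hnf u v huv hadj) hs
        refine hout i hiA _ _ (fun h => huv (hf.1 (Prod.mk.inj h).2)) ?_
        rw [adsub, hf.2]
        exact hadj
      have hsub : ∀ p : Fin (max Mk 2), (∀ x y : Lf (max Mk 2) (dep k), ad true (dep k) x y →
          d i (a, f ((p, x) : Fin (max Mk 2) × _)) (a, f ((p, y) : Fin (max Mk 2) × _)) ∉ I i) →
          False := by
        intro p hp
        have adp : ∀ x y : Lf (max Mk 2) (dep k),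
            ad true (dep (k + 1)) ((a, f ((p, x) : Fin (max Mk 2) × _)) : Fin M × _)
              ((a, f ((p, y) : Fin (max Mk 2) × _)) : Fin M × _) ↔ ad true (dep k) x y := by
          intro x y
          rw [adsub, hf.2]
          constructor
          · rintro (⟨h, -⟩ | ⟨-, h⟩)
            · exact absurd rfl h
            · exact h
          · exact fun h => Or.inr ⟨rfl, h⟩
        refine hMk (max Mk 2) (le_max_left _ _) ι (A.erase i) (by
          rw [Finset.card_erase_of_mem hiA, hA]; rfl)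
          (fun j x y => d j (a, f ((p, x) : Fin (max Mk 2) × _))
            (a, f ((p, y) : Fin (max Mk 2) × _))) I
          (fun j => ⟨fun x y => (hd j).comm _ _, fun x y z u => (hd j).fp _ _ _ _⟩) hI ?_ ?_
        · intro j hj x y hxy hadj
          refine hout j (Finset.mem_of_mem_erase hj) _ _ ?_ ?_
          · intro h
            exact hxy (Prod.mk.inj (hf.1 (Prod.mk.inj h).2)).2
          · rw [adp]; exact hadj
        · intro x y hadj
          obtain ⟨j, hj, hj'⟩ := hin _ _ ((adp x y).2 hadj)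
          refine ⟨j, Finset.mem_erase.2 ⟨?_, hj⟩, hj'⟩
          rintro rfl
          exact hp x y hadj hj'
      have h0 : ∃ x y : Lf (max Mk 2) (dep k), ad true (dep k) x y ∧
          d i (a, f (((⟨0, by omega⟩ : Fin (max Mk 2)), x) : Fin (max Mk 2) × _))
            (a, f (((⟨0, by omega⟩ : Fin (max Mk 2)), y) : Fin (max Mk 2) × _)) ∈ I i := by
        by_contra hcon
        push Not at hcon
        exact hsub _ hcon
      have h1 : ∃ x y : Lf (max Mk 2) (dep k), ad true (dep k) x y ∧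
          d i (a, f (((⟨1, by omega⟩ : Fin (max Mk 2)), x) : Fin (max Mk 2) × _))
            (a, f (((⟨1, by omega⟩ : Fin (max Mk 2)), y) : Fin (max Mk 2) × _)) ∈ I i := by
        by_contra hcon
        push Not at hcon
        exact hsub _ hcon
      obtain ⟨x, y, -, hxy⟩ := h0
      obtain ⟨x', y', -, hxy'⟩ := h1
      have hc : ∀ z z' : Lf (max Mk 2) (dep k), ∀ s ∈ I i,
          d i (a, f (((⟨0, by omega⟩ : Fin (max Mk 2)), z) : Fin (max Mk 2) × _))
            (a, f (((⟨1, by omega⟩ : Fin (max Mk 2)), z') : Fin (max Mk 2) × _)) < s := by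
        intro z z' s hs
        refine hnear _ _ ?_ ?_ s hs
        · intro h
          have := (Prod.mk.inj h).1
          simp at this
        · rintro (⟨-, h⟩ | ⟨h, -⟩)
          · exact absurd h (by decide)
          · simp at h
      exact no_two_far (hd i) (hc x x' _ hxy) (hc x y' _ hxy) (hc y y' _ hxy') (hc y x' _ hxy')
    -- one of the two sides has no far non-edges
    refine side ⟨0, by omega⟩ f hf fun u v huv hadj t ht hlt => ?_
    refine side ⟨1, by omega⟩ g hg fun x y hxy hadj' t' ht' hlt' => ?_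
    have o1 : d i ((⟨0, by omega⟩ : Fin M), f u) ((⟨0, by omega⟩ : Fin M), f v) ∉ I i := by
      refine hout i hiA _ _ (fun h => huv (hf.1 (Prod.mk.inj h).2)) ?_
      rw [adsub, hf.2]
      exact hadj
    have o2 : d i ((⟨1, by omega⟩ : Fin M), g x) ((⟨1, by omega⟩ : Fin M), g y) ∉ I i := by
      refine hout i hiA _ _ (fun h => hxy (hg.1 (Prod.mk.inj h).2)) ?_
      rw [adsub, hg.2]
      exact hadj'
    exact no_two_far (hd i) (far_of (hI i) o1 ht hlt (hcross u x))
      (far_of (hI i) o1 ht hlt (hcross u y)) (far_of (hI i) o2 ht' hlt' (hcross v y))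
      (far_of (hI i) o2 ht' hlt' (hcross v x))

end Pool.Agent.V11227.PK
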