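import Pool.Agent.V11227.PK3
import Pool.Agent.V11227.PK2

/-!
# Alternating cographs are `k`-interval-PCGs; the classes are not closed under complement
-/

set_option autoImplicit false

namespace Pool.Agent.V11227.PK

open Pool.Agent.V11227.PC (FP)

/-- The largest position. -/
def bd (M : ℕ) : ℕ → ℕ
  | 0 => 0
  | n + 1 => (M - 1) * (2 * bd M n + 1) + bd M n

/-- The position of a leaf. -/
def lp (M : ℕ) : (n : ℕ) → Lf M n → ℕ
  | 0, _ => 0
  | n + 1, u => u.1.1 * (2 * bd M n + 1) + lp M n u.2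

theorem lp_le {M : ℕ} (n : ℕ) (u : Lf M n) : lp M n u ≤ bd M n := by
  induction n with
  | zero => exact le_rfl
  | succ n ih =>
    obtain ⟨i, x⟩ := u
    have h1 := ih x
    have h2 := i.2
    have h3 : i.1 * (2 * bd M n + 1) ≤ (M - 1) * (2 * bd M n + 1) :=
      Nat.mul_le_mul_right _ (by omega)
    show i.1 * (2 * bd M n + 1) + lp M n x ≤ (M - 1) * (2 * bd M n + 1) + bd M n
    omega

theorem bd_le_succ (M n : ℕ) : bd M n ≤ bd M (n + 1) := by
  show bd M n ≤ (M - 1) * (2 * bd M n + 1) + bd M n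
  omega

theorem bd_mono (M : ℕ) : Monotone (bd M) := monotone_nat_of_le_succ (bd_le_succ M)

/-- The level at which two leaves differ. -/
theorem exists_level {M : ℕ} (n : ℕ) (u v : Lf M n) (huv : u ≠ v) :
    ∃ h < n, bd M h + 1 ≤ (lp M n u - lp M n v) + (lp M n v - lp M n u) ∧
      (lp M n u - lp M n v) + (lp M n v - lp M n u) ≤ bd M (h + 1) ∧
      ∀ b, ad b n u v ↔ (if (n - 1 - h) % 2 = 0 then b else !b) = true := by
  induction n with
  | zero => exact absurd rfl huv
  | succ n ih =>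
    obtain ⟨i, x⟩ := u
    obtain ⟨j, y⟩ := v
    by_cases hij : i = j
    · subst hij
      have hxy : x ≠ y := fun h => huv (by rw [h])
      obtain ⟨h, h1, h2, h3, h4⟩ := ih x y hxy
      refine ⟨h, by omega, ?_, ?_, fun b => ?_⟩
      · show bd M h + 1 ≤ ((i.1 * (2 * bd M n + 1) + lp M n x) - (i.1 * (2 * bd M n + 1) + lp M n y)) +
          ((i.1 * (2 * bd M n + 1) + lp M n y) - (i.1 * (2 * bd M n + 1) + lp M n x))
        omega
      · show ((i.1 * (2 * bd M n + 1) + lp M n x) - (i.1 * (2 * bd M n + 1) + lp M n y)) +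
          ((i.1 * (2 * bd M n + 1) + lp M n y) - (i.1 * (2 * bd M n + 1) + lp M n x)) ≤ _
        omega
      · have e : ad b (n + 1) ((i, x) : Fin M × Lf M n) ((i, y) : Fin M × Lf M n) ↔
            ad (!b) n x y := by
          constructor
          · rintro (⟨h, -⟩ | ⟨-, h⟩)
            · exact absurd rfl h
            · exact h
          · exact fun h => Or.inr ⟨rfl, h⟩
        rw [e, h4]
        have hp : (n + 1 - 1 - h) % 2 = 0 ↔ ¬ (n - 1 - h) % 2 = 0 := by omega
        by_cases hpar : (n - 1 - h) % 2 = 0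
        · rw [if_pos hpar, if_neg (by omega)]
        · rw [if_neg hpar, if_pos (by omega), Bool.not_not]
    · have hx := lp_le n x
      have hy := lp_le n y
      refine ⟨n, by omega, ?_, ?_, fun b => ?_⟩
      · show bd M n + 1 ≤ ((i.1 * (2 * bd M n + 1) + lp M n x) - (j.1 * (2 * bd M n + 1) + lp M n y)) +
          ((j.1 * (2 * bd M n + 1) + lp M n y) - (i.1 * (2 * bd M n + 1) + lp M n x))
        have hne : i.1 ≠ j.1 := fun h => hij (Fin.ext h)
        rcases lt_or_gt_of_ne hne with hlt | hlt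
        · have := Nat.mul_le_mul_right (2 * bd M n + 1) (show i.1 + 1 ≤ j.1 by omega)
          rw [add_mul, one_mul] at this
          omega
        · have := Nat.mul_le_mul_right (2 * bd M n + 1) (show j.1 + 1 ≤ i.1 by omega)
          rw [add_mul, one_mul] at this
          omega
      · have h1 := lp_le (n + 1) (((i, x) : Fin M × Lf M n) : Lf M (n + 1))
        have h2 := lp_le (n + 1) (((j, y) : Fin M × Lf M n) : Lf M (n + 1))
        omega
      · have e : ad b (n + 1) ((i, x) : Fin M × Lf M n) ((j, y) : Fin M × Lf M n) ↔ b = true := by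
          constructor
          · rintro (⟨-, h⟩ | ⟨h, -⟩)
            · exact h
            · exact absurd h hij
          · exact fun h => Or.inl ⟨hij, h⟩
        rw [e, if_pos (by omega)]

theorem exists_lp_zero {M : ℕ} (hM : 1 ≤ M) (n : ℕ) : ∃ u : Lf M n, lp M n u = 0 := by
  induction n with
  | zero => exact ⟨(), rfl⟩
  | succ n ih =>
    obtain ⟨x, hx⟩ := ih
    refine ⟨((⟨0, hM⟩ : Fin M), x), ?_⟩
    show 0 * (2 * bd M n + 1) + lp M n x = 0
    omega

theorem exists_lp_max {M : ℕ} (hM : 1 ≤ M) (n : ℕ) : ∃ u : Lf M n, lp M n u = bd M n := by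
  induction n with
  | zero => exact ⟨(), rfl⟩
  | succ n ih =>
    obtain ⟨x, hx⟩ := ih
    refine ⟨((⟨M - 1, by omega⟩ : Fin M), x), ?_⟩
    show (M - 1) * (2 * bd M n + 1) + lp M n x = (M - 1) * (2 * bd M n + 1) + bd M n
    omega

theorem dep_eq (k : ℕ) : dep k = 2 * k + 1 := by
  induction k with
  | zero => rfl
  | succ k ih =>
    show dep k + 1 + 1 = _
    omega

/-- The alternating cograph is a `k`-interval-PCG. -/
theorem isIntervalPCG_cog {M k : ℕ} (hM : 2 ≤ M) : IsIntervalPCG k (cog M false (dep k)) := by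
  obtain ⟨d, hd, hd'⟩ := isLeafDist_cat (V := Lf M (dep k)) (D := bd M (dep k))
    (pos := lp M (dep k)) (h := fun _ => 1) (lp_le _) (fun _ => one_pos) (by
      have h1 : 0 < bd M 1 := by
        show 0 < (M - 1) * (2 * 0 + 1) + 0
        omega
      exact h1.trans_le (bd_mono M (by rw [dep_eq]; omega)))
    (exists_lp_zero (by omega) _) (exists_lp_max (by omega) _)
  let I : Fin k → Set ℝ := fun j => Set.Icc ((2 + bd M (2 * j.1 + 1) + 1 : ℕ) : ℝ)
    ((2 + bd M (2 * j.1 + 2) : ℕ) : ℝ)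
  refine ⟨d, hd, I, fun i => ⟨Set.ordConnected_Icc, ?_⟩, ?_, fun u v huv => ?_⟩
  · rintro x ⟨hx, -⟩
    exact le_trans (Nat.cast_nonneg _) hx
  · have key : ∀ i j : Fin k, i.1 < j.1 → Disjoint (I i) (I j) := by
      intro i j hij
      rw [Set.disjoint_left]
      rintro x ⟨-, hx⟩ ⟨hx', -⟩
      have h1 := hx'.trans hx
      rw [Nat.cast_le] at h1
      have h2 := bd_mono M (show 2 * i.1 + 2 ≤ 2 * j.1 + 1 by omega)
      omega
    intro i j hij
    rcases lt_or_gt_of_ne (fun h => hij (Fin.ext h) : i.1 ≠ j.1) with h | h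
    · exact key i j h
    · exact (key j i h).symm
  · obtain ⟨h, h1, h2, h3, h4⟩ := exists_level (dep k) u v huv
    have hdist : d u v = ((2 + ((lp M (dep k) u - lp M (dep k) v) +
        (lp M (dep k) v - lp M (dep k) u)) : ℕ) : ℝ) := by
      rw [hd' u v huv]
      rcases le_total (lp M (dep k) u) (lp M (dep k) v) with hle | hle
      · rw [abs_of_nonpos (by
          have : (lp M (dep k) u : ℝ) ≤ lp M (dep k) v := by exact_mod_cast hle
          linarith), Nat.sub_eq_zero_of_le hle]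
        push_cast [Nat.cast_sub hle]
        ring
      · rw [abs_of_nonneg (by
          have : (lp M (dep k) v : ℝ) ≤ lp M (dep k) u := by exact_mod_cast hle
          linarith), Nat.sub_eq_zero_of_le hle]
        push_cast [Nat.cast_sub hle]
        ring
    have hI : ∀ j : Fin k, d u v ∈ I j ↔ h = 2 * j.1 + 1 := by
      intro j
      rw [hdist]
      simp only [I, Set.mem_Icc, Nat.cast_le]
      constructor
      · rintro ⟨k1, k2⟩
        by_contra hne
        rcases lt_or_gt_of_ne hne with hlt | hlt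
        · have := bd_mono M (show h + 1 ≤ 2 * j.1 + 1 by omega)
          omega
        · have := bd_mono M (show 2 * j.1 + 2 ≤ h by omega)
          omega
      · intro he
        subst he
        have e : bd M (2 * j.1 + 1 + 1) = bd M (2 * j.1 + 2) := rfl
        constructor <;> omega
    show ad false (dep k) u v ↔ _
    rw [h4]
    have hn := dep_eq k
    constructor
    · intro hadj
      have hodd : (dep k - 1 - h) % 2 ≠ 0 := by
        intro h0
        rw [if_pos h0] at hadj
        exact absurd hadj (by decide)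
      exact ⟨⟨(h - 1) / 2, by omega⟩, (hI _).2 (by simp only; omega)⟩
    · rintro ⟨j, hj⟩
      have := (hI j).1 hj
      rw [if_neg (by omega)]
      rfl

theorem IsIntervalPCG.isOrPCG {k : ℕ} {V : Type} {G : SimpleGraph V} (h : IsIntervalPCG k G) :
    IsOrPCG k G := by
  obtain ⟨d, hd, I, hI, -, hG⟩ := h
  have hfp := hd.fp
  refine ⟨fun i => SimpleGraph.mk (fun u v => u ≠ v ∧ d u v ∈ I i)
    ⟨fun u v h => ⟨h.1.symm, by rw [hfp.comm]; exact h.2⟩⟩ ⟨fun u h => h.1 rfl⟩,
    fun i => ⟨d, hd, I i, hI i, fun u v huv => ⟨fun h => h.2, fun h => ⟨huv, h⟩⟩⟩, ?_⟩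
  intro u v huv
  rw [hG u v huv]
  exact ⟨fun ⟨i, hi⟩ => ⟨i, huv, hi⟩, fun ⟨i, _, hi⟩ => ⟨i, hi⟩⟩

theorem exists_cog (k : ℕ) : ∃ M, IsIntervalPCG k (cog M false (dep k)) ∧
    ¬ IsOrPCG k (cog M false (dep k))ᶜ := by
  obtain ⟨M0, hM0⟩ := claim k
  refine ⟨max M0 2, isIntervalPCG_cog (le_max_right _ _), ?_⟩
  rintro ⟨F, hF, hG⟩
  choose d hd I hI hFI using hF
  have hnot : ∀ u v : Lf (max M0 2) (dep k), u ≠ v →
      (ad true (dep k) u v ↔ ¬ ad false (dep k) u v) := fun u v huv => ad_not false _ u v huv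
  refine hM0 _ (le_max_left _ _) (Fin k) Finset.univ (by simp) d I (fun i => (hd i).fp) hI ?_ ?_
  · intro i _ u v huv hadj hdi
    have h1 := (hG u v huv).2 ⟨i, (hFI i u v huv).2 hdi⟩
    exact hadj ((hnot u v huv).2 h1.2)
  · intro u v hadj
    have huv : u ≠ v := by
      rintro rfl
      exact ad_irrefl _ _ _ hadj
    obtain ⟨i, hi⟩ := (hG u v huv).1 ⟨huv, (hnot u v huv).1 hadj⟩
    exact ⟨i, Finset.mem_univ _, (hFI i u v huv).1 hi⟩

theorem IsPCG.isAndPCG {k : ℕ} (hk : 1 ≤ k) {V : Type} {G : SimpleGraph V} (h : IsPCG G) :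
    IsAndPCG k G :=
  ⟨fun _ => G, fun _ => h, fun _ _ _ => ⟨fun h _ => h, fun h => h ⟨0, hk⟩⟩⟩

/-- Closure of a graph property under complement. -/
def ClosedCompl (P : ∀ {V : Type}, SimpleGraph V → Prop) : Prop :=
  ∀ (V : Type) [Finite V] (G : SimpleGraph V), P G → P Gᶜ

theorem not_closed (k : ℕ) (hk : 1 ≤ k) :
    ¬ ClosedCompl (IsIntervalPCG k) ∧ ¬ ClosedCompl (IsOrPCG k) ∧ ¬ ClosedCompl (IsAndPCG k) := by
  obtain ⟨M, h1, h2⟩ := exists_cog k
  refine ⟨fun h => h2 (h _ _ h1).isOrPCG, fun h => h2 (h _ _ h1.isOrPCG), fun h => ?_⟩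
  refine not_isAndPCG_compl (k := k) (n := 2 * k) ?_
    (h _ _ ((isPCG_copies hk (by omega)).isAndPCG hk))
  obtain ⟨m, rfl⟩ : ∃ m, k = m + 1 := ⟨k - 1, by omega⟩
  have : 2 * (2 * (m + 1)) - 1 = 4 * m + 3 := by omega
  rw [this]
  nlinarith

end Pool.Agent.V11227.PK
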