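import Mathlib

/-!
# Generalized pairwise compatibility graphs: definitions
-/

set_option autoImplicit false

namespace Pool.Agent.V11227.PK

/-- The total weight of the edges of a walk. -/
def wt {N : Type} {T : SimpleGraph N} (w : Sym2 N → ℝ) {x y : N} (p : T.Walk x y) : ℝ :=
  (p.edges.map w).sum

/-- `x` is a leaf: it has exactly one neighbour. -/
def IsLeaf {N : Type} (T : SimpleGraph N) (x : N) : Prop := ∃! y, T.Adj x y

/-- `d` is the distance function on the leaves of a finite tree with nonnegative edge weights, whose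
leaves are identified with `V`. -/
def IsLeafDist {V : Type} (d : V → V → ℝ) : Prop :=
  ∃ (N : Type) (_ : Finite N) (T : SimpleGraph N) (w : Sym2 N → ℝ) (l : V → N),
    T.IsTree ∧ (∀ e ∈ T.edgeSet, 0 ≤ w e) ∧ Function.Injective l ∧
    (∀ x, IsLeaf T x ↔ x ∈ Set.range l) ∧
    ∀ (u v : V) (p : T.Walk (l u) (l v)), p.IsPath → wt w p = d u v

/-- An interval of nonnegative reals. -/
def IsInterval (I : Set ℝ) : Prop := I.OrdConnected ∧ ∀ x ∈ I, 0 ≤ x

/-- Pairwise compatibility graphs. -/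
def IsPCG {V : Type} (G : SimpleGraph V) : Prop :=
  ∃ d : V → V → ℝ, IsLeafDist d ∧ ∃ I : Set ℝ, IsInterval I ∧
    ∀ u v, u ≠ v → (G.Adj u v ↔ d u v ∈ I)

/-- `k`-interval-PCGs: one tree and `k` pairwise disjoint intervals. -/
def IsIntervalPCG (k : ℕ) {V : Type} (G : SimpleGraph V) : Prop :=
  ∃ d : V → V → ℝ, IsLeafDist d ∧ ∃ I : Fin k → Set ℝ, (∀ i, IsInterval (I i)) ∧
    (∀ i j, i ≠ j → Disjoint (I i) (I j)) ∧ ∀ u v, u ≠ v → (G.Adj u v ↔ ∃ i, d u v ∈ I i)

/-- `k`-OR-PCGs: the edge-union of `k` PCGs on the same vertices. -/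
def IsOrPCG (k : ℕ) {V : Type} (G : SimpleGraph V) : Prop :=
  ∃ F : Fin k → SimpleGraph V, (∀ i, IsPCG (F i)) ∧
    ∀ u v, u ≠ v → (G.Adj u v ↔ ∃ i, (F i).Adj u v)

/-- `k`-AND-PCGs: the edge-intersection of `k` PCGs on the same vertices. -/
def IsAndPCG (k : ℕ) {V : Type} (G : SimpleGraph V) : Prop :=
  ∃ F : Fin k → SimpleGraph V, (∀ i, IsPCG (F i)) ∧
    ∀ u v, u ≠ v → (G.Adj u v ↔ ∀ i, (F i).Adj u v)

end Pool.Agent.V11227.PK
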