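import Mathlib
import Pool.Agent.V11227.CFG

/-!
# A context-free set that is periodically unavoidable but avoidable

The avoiding word is the sequence `W`: the position `p = 2^l * m`, `m` odd, carries the level
`l` (level `0` with its own label, the other levels modulo `3`) and the residue of `m` modulo
`4`.
-/

set_option autoImplicit false

namespace Pool.Agent.V11227.RulerWord

open Pool.Agent.V11227.CFG

/-- Letters: a label of a level and the side. -/
abbrev Lt := Fin 4 × Bool

/-- The label of the next level. -/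
def sc (x : Fin 4) : Fin 4 := if x = 3 then 1 else x + 1

theorem sc_ne_zero : ∀ x : Fin 4, sc x ≠ 0 := by decide
theorem sc_ne : ∀ x : Fin 4, sc x ≠ x := by decide
theorem sc_sc_ne : ∀ x : Fin 4, sc (sc x) ≠ x := by decide

/-- The label of a level. -/
def lab : ℕ → Fin 4
  | 0 => 0
  | n + 1 => sc (lab n)

theorem lab_eq_zero {l : ℕ} : lab l = 0 ↔ l = 0 := by
  cases l with
  | zero => simp [lab]
  | succ n => simp [lab, sc_ne_zero]

/-- The word. -/
def W (p : ℕ) : Lt :=
  (lab (padicValNat 2 p), decide ((p / 2 ^ padicValNat 2 p) % 4 = 3))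

theorem W_eq {l m : ℕ} (hm : m % 2 = 1) : W (2 ^ l * m) = (lab l, decide (m % 4 = 3)) := by
  have h2 : padicValNat 2 (2 ^ l * m) = l := by
    have : Fact (Nat.Prime 2) := ⟨Nat.prime_two⟩
    have hm0 : m ≠ 0 := by rintro rfl; simp at hm
    rw [padicValNat.mul (by positivity) hm0, padicValNat.prime_pow,
      padicValNat.eq_zero_of_not_dvd (by omega)]
    rfl
  unfold W
  rw [h2, Nat.mul_div_cancel_left _ (by positivity)]

theorem exists_form {p : ℕ} (hp : 1 ≤ p) : ∃ l m, m % 2 = 1 ∧ p = 2 ^ l * m := by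
  obtain ⟨k, m, hm, h⟩ := Nat.exists_eq_two_pow_mul_odd (n := p) (by omega)
  exact ⟨k, m, Nat.odd_iff.1 hm, h⟩

/-- The triples of letters that may be equidistant. -/
def Allowed (a b c : Lt) : Prop :=
  (a.1 = c.1 ∧ a.2 ≠ c.2) ∨ (a.1 = b.1 ∧ c.1 = b.1 ∧ a.2 = c.2) ∨ a.1 = sc b.1 ∨ c.1 = sc b.1

instance (a b c : Lt) : Decidable (Allowed a b c) := by unfold Allowed; infer_instance

theorem not_allowed : ∀ (x : Fin 4) (f g : Bool), ¬ Allowed (x, f) (sc x, g) (x, f) := by
  decide

/-- Nonterminals. -/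
inductive NT
  | st
  | tr (x : Fin 4) (f : Bool)
  | ar (b : Lt)

open Symbol

/-- The rules. -/
inductive Rule : ContextFreeRule Lt NT → Prop
  | pair (x y : Lt) (h : x.1 = 0 ↔ y.1 = 0) : Rule ⟨NT.st, [terminal x, terminal y]⟩
  | right (x : Fin 4) (b : Lt) (h : b.1 ≠ sc x) :
      Rule ⟨NT.st, [nonterminal (NT.tr x false), terminal b]⟩
  | left (x : Fin 4) (b : Lt) (h : b.1 ≠ sc x) :
      Rule ⟨NT.st, [terminal b, nonterminal (NT.tr x true)]⟩
  | tri (a b c : Lt) (h : ¬ Allowed a b c) :
      Rule ⟨NT.st, [terminal a, nonterminal (NT.ar b), terminal c]⟩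
  | arStep (b x y : Lt) : Rule ⟨NT.ar b, [terminal x, nonterminal (NT.ar b), terminal y]⟩
  | arBase (b : Lt) : Rule ⟨NT.ar b, [terminal b]⟩
  | trBase (f : Bool) : Rule ⟨NT.tr 0 f, [terminal (0, f)]⟩
  | trStep (x : Fin 4) (f : Bool) :
      Rule ⟨NT.tr (sc x) f,
        [nonterminal (NT.tr x false), terminal (sc x, f), nonterminal (NT.tr x true)]⟩

theorem rules_finite : {r | Rule r}.Finite := by
  apply Set.Finite.subset
    ((Set.finite_range (fun p : Lt × Lt =>
        (⟨NT.st, [terminal p.1, terminal p.2]⟩ : ContextFreeRule Lt NT))).union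
    ((Set.finite_range (fun p : Fin 4 × Lt =>
        (⟨NT.st, [nonterminal (NT.tr p.1 false), terminal p.2]⟩ : ContextFreeRule Lt NT))).union
    ((Set.finite_range (fun p : Fin 4 × Lt =>
        (⟨NT.st, [terminal p.2, nonterminal (NT.tr p.1 true)]⟩ : ContextFreeRule Lt NT))).union
    ((Set.finite_range (fun p : Lt × Lt × Lt =>
        (⟨NT.st, [terminal p.1, nonterminal (NT.ar p.2.1), terminal p.2.2]⟩ :
          ContextFreeRule Lt NT))).union
    ((Set.finite_range (fun p : Lt × Lt × Lt =>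
        (⟨NT.ar p.1, [terminal p.2.1, nonterminal (NT.ar p.1), terminal p.2.2]⟩ :
          ContextFreeRule Lt NT))).union
    ((Set.finite_range (fun b : Lt =>
        (⟨NT.ar b, [terminal b]⟩ : ContextFreeRule Lt NT))).union
    ((Set.finite_range (fun f : Bool =>
        (⟨NT.tr 0 f, [terminal (0, f)]⟩ : ContextFreeRule Lt NT))).union
    (Set.finite_range (fun p : Fin 4 × Bool =>
        (⟨NT.tr (sc p.1) p.2, [nonterminal (NT.tr p.1 false), terminal (sc p.1, p.2),
          nonterminal (NT.tr p.1 true)]⟩ : ContextFreeRule Lt NT))))))))))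
  rintro r hr
  cases (hr : Rule r) with
  | pair x y h => exact Or.inl ⟨(x, y), rfl⟩
  | right x b h => exact Or.inr (Or.inl ⟨(x, b), rfl⟩)
  | left x b h => exact Or.inr (Or.inr (Or.inl ⟨(x, b), rfl⟩))
  | tri a b c h => exact Or.inr (Or.inr (Or.inr (Or.inl ⟨(a, b, c), rfl⟩)))
  | arStep b x y => exact Or.inr (Or.inr (Or.inr (Or.inr (Or.inl ⟨(b, x, y), rfl⟩))))
  | arBase b => exact Or.inr (Or.inr (Or.inr (Or.inr (Or.inr (Or.inl ⟨b, rfl⟩)))))
  | trBase f => exact Or.inr (Or.inr (Or.inr (Or.inr (Or.inr (Or.inr (Or.inl ⟨f, rfl⟩))))))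
  | trStep x f => exact Or.inr (Or.inr (Or.inr (Or.inr (Or.inr (Or.inr (Or.inr ⟨(x, f), rfl⟩))))))

/-- The grammar. -/
noncomputable def gr : ContextFreeGrammar Lt where
  NT := NT
  initial := NT.st
  rules := rules_finite.toFinset

theorem mem_rules {r : ContextFreeRule Lt NT} : r ∈ gr.rules ↔ Rule r :=
  Set.Finite.mem_toFinset _

/-! ### The word avoids the language -/

/-- Factors of `W`. -/
def fac (s n : ℕ) : List Lt := (List.range n).map (fun i => W (s + i))

@[simp] theorem fac_length (s n : ℕ) : (fac s n).length = n := by simp [fac]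

theorem fac_add (s a b : ℕ) : fac s (a + b) = fac s a ++ fac (s + a) b := by
  unfold fac
  rw [List.range_add, List.map_append, List.map_map]
  congr 1
  apply List.map_congr_left
  intro i _
  simp [Nat.add_assoc]

theorem append_eq_fac {w1 w2 : List Lt} {s : ℕ}
    (h : w1 ++ w2 = fac s (w1 ++ w2).length) :
    w1 = fac s w1.length ∧ w2 = fac (s + w1.length) w2.length := by
  rw [List.length_append, fac_add] at h
  exact List.append_inj h (by simp)

theorem cons_eq_fac {a : Lt} {w : List Lt} {s : ℕ}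
    (h : a :: w = fac s (a :: w).length) : a = W s ∧ w = fac (s + 1) w.length := by
  have h' : [a] ++ w = fac s ([a] ++ w).length := by simpa using h
  obtain ⟨h1, h2⟩ := append_eq_fac h'
  refine ⟨?_, by simpa using h2⟩
  simpa [fac] using h1

/-- The interpretation of the nonterminals over the factors of `W`. -/
def I : NT → List Lt → Prop
  | NT.st, w => ∀ s, 1 ≤ s → w ≠ fac s w.length
  | NT.tr x f, w => ∀ s, 1 ≤ s → w = fac s w.length →
      ∃ l m, m % 2 = 1 ∧ lab l = x ∧ decide (m % 4 = 3) = f ∧ s + 2 ^ l = 2 ^ l * m + 1 ∧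
        w.length + 1 = 2 ^ (l + 1)
  | NT.ar b, w => ∃ u v : List Lt, u.length = v.length ∧ w = u ++ b :: v

theorem allowed_W {p i : ℕ} (hi : 1 ≤ i) (hp : i < p) : Allowed (W (p - i)) (W p) (W (p + i)) := by
  obtain ⟨l, m, hm, rfl⟩ := exists_form (show 1 ≤ p by omega)
  obtain ⟨k, n, hn, rfl⟩ := exists_form hi
  rcases lt_trichotomy k l with hkl | rfl | hkl
  · -- the distance has smaller level
    obtain ⟨d, rfl⟩ := Nat.exists_eq_add_of_lt hkl
    have e : 2 ^ (k + d + 1) * m = 2 ^ k * (2 * (2 ^ d * m)) := by ring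
    rw [e] at hp ⊢
    generalize 2 ^ d * m = q at hp ⊢
    have hlt : n < 2 * q := lt_of_mul_lt_mul_left hp (Nat.zero_le _)
    rw [← Nat.mul_sub, ← Nat.mul_add, W_eq (m := 2 * q - n) (by omega),
      W_eq (m := 2 * q + n) (by omega)]
    left
    refine ⟨rfl, ?_⟩
    intro h
    simp only [decide_eq_decide] at h
    omega
  · have hlt : n < m := lt_of_mul_lt_mul_left hp (Nat.zero_le _)
    rw [← Nat.mul_sub, ← Nat.mul_add, W_eq hm]
    obtain ⟨x, hx⟩ : ∃ x, m - n = 2 * x := ⟨(m - n) / 2, by omega⟩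
    obtain ⟨y, hy⟩ : ∃ y, m + n = 2 * y := ⟨(m + n) / 2, by omega⟩
    rw [hx, hy, show 2 ^ k * (2 * x) = 2 ^ (k + 1) * x by ring,
      show 2 ^ k * (2 * y) = 2 ^ (k + 1) * y by ring]
    right; right
    rcases Nat.mod_two_eq_zero_or_one x with h | h
    · right
      rw [W_eq (by omega)]
      rfl
    · left
      rw [W_eq h]
      rfl
  · obtain ⟨d, rfl⟩ := Nat.exists_eq_add_of_lt hkl
    have e : 2 ^ (l + d + 1) * n = 2 ^ l * (2 * (2 ^ d * n)) := by ring
    rw [e] at hp ⊢
    generalize 2 ^ d * n = q at hp ⊢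
    have hlt : 2 * q < m := lt_of_mul_lt_mul_left hp (Nat.zero_le _)
    rw [← Nat.mul_sub, ← Nat.mul_add, W_eq hm, W_eq (m := m - 2 * q) (by omega),
      W_eq (m := m + 2 * q) (by omega)]
    right; left
    refine ⟨rfl, rfl, ?_⟩
    simp only [decide_eq_decide]
    omega

theorem I_sound : ∀ r ∈ gr.rules, ∀ w, Sem I r.output w → I r.input w := by
  intro r hr w hw
  cases mem_rules.1 hr with
  | pair x y h =>
    obtain ⟨_, rfl, _, rfl, hnil⟩ := hw
    have hn : _ = [] := hnil
    subst hn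
    intro s hs he
    obtain ⟨h1, h2⟩ := cons_eq_fac he
    obtain ⟨h3, _⟩ := cons_eq_fac h2
    obtain ⟨l, m, hm, hsl⟩ := exists_form hs
    obtain ⟨l', m', hm', hsl'⟩ := exists_form (show 1 ≤ s + 1 by omega)
    rw [h1, h3, hsl', hsl, W_eq hm, W_eq hm'] at h
    simp only [lab_eq_zero] at h
    rcases Nat.eq_zero_or_pos l with h0 | h0
    · have h0' := h.1 h0
      subst h0 h0'
      simp at hsl hsl'
      omega
    · have h0' : l' ≠ 0 := fun h' => by have := h.2 h'; omega
      obtain ⟨a, rfl⟩ := Nat.exists_eq_succ_of_ne_zero h0'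
      obtain ⟨b, rfl⟩ := Nat.exists_eq_succ_of_ne_zero h0.ne'
      rw [pow_succ, mul_comm (2 ^ b) 2, mul_assoc] at hsl
      rw [pow_succ, mul_comm (2 ^ a) 2, mul_assoc] at hsl'
      omega
  | right x b h =>
    obtain ⟨u, _, rfl, hu, _, rfl, hnil⟩ := hw
    have hn : _ = [] := hnil
    subst hn
    intro s hs he
    obtain ⟨h1, h2⟩ := append_eq_fac he
    obtain ⟨h3, _⟩ := cons_eq_fac h2
    obtain ⟨l, m, hm, hl, hf, hsm, hlen⟩ := hu s hs h1
    apply h
    have hm4 : m % 4 = 1 := by
      have : ¬ m % 4 = 3 := by simpa using hf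
      omega
    have e : s + u.length = 2 ^ (l + 1) * ((m + 1) / 2) := by
      obtain ⟨y, hy⟩ : ∃ y, m + 1 = 2 * y := ⟨(m + 1) / 2, by omega⟩
      have hy' : (m + 1) / 2 = y := by omega
      rw [hy']
      have : 2 ^ (l + 1) * y = 2 ^ l * m + 2 ^ l := by
        have : 2 ^ l * m + 2 ^ l = 2 ^ l * (m + 1) := by ring
        rw [this, hy]; ring
      rw [this]
      rw [pow_succ] at hlen
      omega
    rw [h3, e, W_eq (by omega), ← hl]
    rfl
  | left x b h =>
    obtain ⟨_, rfl, u, _, rfl, hu, hnil⟩ := hw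
    have hn : _ = [] := hnil
    subst hn
    intro s hs he
    rw [List.append_nil] at he
    obtain ⟨h1, h2⟩ := cons_eq_fac he
    obtain ⟨l, m, hm, hl, hf, hsm, hlen⟩ := hu (s + 1) (by omega) h2
    apply h
    have hm4 : m % 4 = 3 := by simpa using hf
    have e : s = 2 ^ (l + 1) * ((m - 1) / 2) := by
      obtain ⟨y, hy⟩ : ∃ y, m = 2 * y + 1 := ⟨(m - 1) / 2, by omega⟩
      have hy' : (m - 1) / 2 = y := by omega
      rw [hy']
      have : 2 ^ l * m = 2 ^ (l + 1) * y + 2 ^ l := by
        rw [hy]; ring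
      omega
    rw [h1, e, W_eq (by omega), ← hl]
    rfl
  | tri a b c h =>
    obtain ⟨_, rfl, v, _, rfl, hv, _, rfl, hnil⟩ := hw
    have hn : _ = [] := hnil
    subst hn
    obtain ⟨v1, v2, hlen, rfl⟩ := hv
    intro s hs he
    obtain ⟨h1, h2⟩ := cons_eq_fac he
    obtain ⟨h3, h4⟩ := append_eq_fac h2
    obtain ⟨h5, _⟩ := cons_eq_fac h4
    obtain ⟨_, h6⟩ := append_eq_fac h3
    obtain ⟨h7, _⟩ := cons_eq_fac h6
    apply h
    have := allowed_W (p := s + 1 + v1.length) (i := v1.length + 1) (by omega) (by omega)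
    rw [h1, h5, h7]
    convert this using 2
    · omega
    · simp only [List.length_append, List.length_cons]
      omega
  | arStep b x y =>
    obtain ⟨_, rfl, v, _, rfl, hv, _, rfl, hnil⟩ := hw
    have hn : _ = [] := hnil
    subst hn
    obtain ⟨v1, v2, hlen, rfl⟩ := hv
    exact ⟨x :: v1, v2 ++ [y], by simp [hlen], by simp⟩
  | arBase b =>
    obtain ⟨_, rfl, hnil⟩ := hw
    have hn : _ = [] := hnil
    subst hn
    exact ⟨[], [], rfl, rfl⟩
  | trBase f =>
    obtain ⟨_, rfl, hnil⟩ := hw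
    have hn : _ = [] := hnil
    subst hn
    intro s hs he
    obtain ⟨h1, _⟩ := cons_eq_fac he
    obtain ⟨l, m, hm, hsl⟩ := exists_form hs
    rw [hsl, W_eq hm] at h1
    have h0 : l = 0 := lab_eq_zero.1 (congrArg Prod.fst h1).symm
    subst h0
    refine ⟨0, m, hm, rfl, (congrArg Prod.snd h1).symm, by simp at hsl ⊢; omega, rfl⟩
  | trStep x f =>
    obtain ⟨u1, _, rfl, hu1, _, rfl, u2, _, rfl, hu2, hnil⟩ := hw
    have hn : _ = [] := hnil
    subst hn
    intro s hs he
    rw [List.append_nil] at he ⊢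
    obtain ⟨h1, h2⟩ := append_eq_fac he
    obtain ⟨h3, h4⟩ := cons_eq_fac h2
    obtain ⟨l1, m1, hm1, hl1, hf1, hs1, hlen1⟩ := hu1 s hs h1
    obtain ⟨l2, m2, hm2, hl2, hf2, hs2, hlen2⟩ := hu2 (s + u1.length + 1) (by omega) h4
    have hm14 : m1 % 4 = 1 := by
      have : ¬ m1 % 4 = 3 := by simpa using hf1
      omega
    have hm24 : m2 % 4 = 3 := by simpa using hf2
    obtain ⟨y, hy⟩ : ∃ y, m1 + 1 = 2 * y := ⟨(m1 + 1) / 2, by omega⟩
    obtain ⟨z, hz⟩ : ∃ z, m2 = 2 * z + 1 := ⟨(m2 - 1) / 2, by omega⟩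
    have e1 : s + u1.length = 2 ^ (l1 + 1) * y := by
      have : 2 ^ (l1 + 1) * y = 2 ^ l1 * m1 + 2 ^ l1 := by
        have : 2 ^ l1 * m1 + 2 ^ l1 = 2 ^ l1 * (m1 + 1) := by ring
        rw [this, hy]; ring
      rw [this]
      rw [pow_succ] at hlen1
      omega
    have e2 : s + u1.length = 2 ^ (l2 + 1) * z := by
      have : 2 ^ l2 * m2 = 2 ^ (l2 + 1) * z + 2 ^ l2 := by
        rw [hz]; ring
      omega
    have hl12 : l1 = l2 := by
      have hv1 := W_eq (l := l1 + 1) (m := y) (by omega)
      have a1 : padicValNat 2 (2 ^ (l1 + 1) * y) = l1 + 1 := by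
        have : Fact (Nat.Prime 2) := ⟨Nat.prime_two⟩
        rw [padicValNat.mul (by positivity) (by omega), padicValNat.prime_pow,
          padicValNat.eq_zero_of_not_dvd (by omega)]
      have a2 : padicValNat 2 (2 ^ (l2 + 1) * z) = l2 + 1 := by
        have : Fact (Nat.Prime 2) := ⟨Nat.prime_two⟩
        rw [padicValNat.mul (by positivity) (by omega), padicValNat.prime_pow,
          padicValNat.eq_zero_of_not_dvd (by omega)]
      rw [← e1, e2, a2] at a1
      omega
    subst hl12
    refine ⟨l1 + 1, y, by omega, ?_, ?_, ?_, ?_⟩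
    · rw [← hl1]; rfl
    · rw [e1, W_eq (by omega)] at h3
      exact (congrArg Prod.snd h3).symm
    · rw [← e1]
      rw [pow_succ] at hlen1 ⊢
      omega
    · simp only [List.length_append, List.length_cons]
      rw [pow_succ] at hlen1 hlen2
      rw [pow_succ, pow_succ]
      omega

theorem avoid {s n : ℕ} (hs : 1 ≤ s) : fac s n ∉ gr.language := by
  intro h
  have := sound_language (g := gr) I I_sound h
  exact this s hs (by simp)

/-! ### Periodic words meet the language -/

section periodic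

variable (u : ℤ → Lt)

/-- Segments of a two-sided word. -/
def seg (i : ℤ) (n : ℕ) : List Lt := (List.range n).map (fun k : ℕ => u (i + (k : ℤ)))

@[simp] theorem seg_length (i : ℤ) (n : ℕ) : (seg u i n).length = n := by simp [seg]

theorem seg_add (i : ℤ) (a b : ℕ) : seg u i (a + b) = seg u i a ++ seg u (i + a) b := by
  unfold seg
  rw [List.range_add, List.map_append, List.map_map]
  congr 1
  apply List.map_congr_left
  intro k _
  simp only [Function.comp]
  congr 1
  push_cast
  ring

theorem seg_one (i : ℤ) : seg u i 1 = [u i] := by simp [seg]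

theorem seg_succ (i : ℤ) (n : ℕ) : seg u i (n + 1) = u i :: seg u (i + 1) n := by
  rw [Nat.add_comm, seg_add, seg_one]
  simp

theorem gen_ar (i : ℤ) (n : ℕ) : Gen gr (NT.ar (u i)) (seg u (i - n) (2 * n + 1)) := by
  induction n with
  | zero =>
    have h := gen_of_rule (g := gr) (mem_rules.2 (Rule.arBase (u i))) (w := [u i])
      ⟨[], rfl, rfl⟩
    simpa [seg_one] using h
  | succ n ih =>
    have h := gen_of_rule (g := gr)
      (mem_rules.2 (Rule.arStep (u i) (u (i - (n + 1 : ℕ))) (u (i + (n + 1 : ℕ)))))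
      (w := u (i - (n + 1 : ℕ)) :: (seg u (i - n) (2 * n + 1) ++ [u (i + (n + 1 : ℕ))]))
      ⟨_, rfl, _, _, rfl, ih, _, rfl, rfl⟩
    have e : seg u (i - (n + 1 : ℕ)) (2 * (n + 1) + 1) =
        u (i - (n + 1 : ℕ)) :: (seg u (i - n) (2 * n + 1) ++ [u (i + (n + 1 : ℕ))]) := by
      rw [show 2 * (n + 1) + 1 = (2 * n + 1 + 1) + 1 by ring, seg_succ, seg_add _ _ (2 * n + 1) 1,
        seg_one]
      have e1 : i - ((n + 1 : ℕ) : ℤ) + 1 = i - n := by push_cast; ring
      have e2 : i - (n : ℤ) + ((2 * n + 1 : ℕ) : ℤ) = i + ((n + 1 : ℕ) : ℤ) := by push_cast; ring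
      rw [e1, e2]
    rw [e]
    exact h

variable (hav : ∀ (i : ℤ) (n : ℕ), seg u i n ∉ gr.language)

include hav

theorem no_pair (i : ℤ) : ¬ ((u i).1 = 0 ↔ (u (i + 1)).1 = 0) := by
  intro h
  apply hav i 2
  apply mem_language_of_gen
  have h2 : seg u i 2 = [u i, u (i + 1)] := by
    rw [show (2 : ℕ) = 1 + 1 by rfl, seg_succ, seg_one]
  rw [h2]
  exact gen_of_rule (g := gr) (mem_rules.2 (Rule.pair (u i) (u (i + 1)) h))
    (w := [u i, u (i + 1)]) ⟨_, rfl, _, rfl, rfl⟩

theorem no_right {x : Fin 4} {i : ℤ} {n : ℕ} (h : Gen gr (NT.tr x false) (seg u i n)) :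
    (u (i + n)).1 = sc x := by
  by_contra hne
  apply hav i (n + 1)
  apply mem_language_of_gen
  rw [seg_add, seg_one]
  exact gen_of_rule (g := gr) (mem_rules.2 (Rule.right x (u (i + n)) hne))
    ⟨_, _, rfl, h, _, rfl, rfl⟩

theorem no_left {x : Fin 4} {i : ℤ} {n : ℕ} (h : Gen gr (NT.tr x true) (seg u (i + 1) n)) :
    (u i).1 = sc x := by
  by_contra hne
  apply hav i (n + 1)
  apply mem_language_of_gen
  rw [seg_succ]
  exact gen_of_rule (g := gr) (mem_rules.2 (Rule.left x (u i) hne))
    ⟨_, rfl, _, _, (List.append_nil _).symm, h, rfl⟩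

theorem all_allowed (i : ℤ) (n : ℕ) :
    Allowed (u (i - (n + 1 : ℕ))) (u i) (u (i + (n + 1 : ℕ))) := by
  by_contra hne
  apply hav (i - (n + 1 : ℕ)) (2 * n + 1 + 1 + 1)
  apply mem_language_of_gen
  have e : seg u (i - (n + 1 : ℕ)) (2 * n + 1 + 1 + 1) =
      u (i - (n + 1 : ℕ)) :: (seg u (i - n) (2 * n + 1) ++ [u (i + (n + 1 : ℕ))]) := by
    rw [seg_succ, seg_add _ _ (2 * n + 1) 1, seg_one]
    have e1 : i - ((n + 1 : ℕ) : ℤ) + 1 = i - n := by push_cast; ring
    have e2 : i - (n : ℤ) + ((2 * n + 1 : ℕ) : ℤ) = i + ((n + 1 : ℕ) : ℤ) := by push_cast; ring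
    rw [e1, e2]
  rw [e]
  exact gen_of_rule (g := gr) (mem_rules.2 (Rule.tri _ _ _ hne))
    ⟨_, rfl, _, _, rfl, gen_ar u i n, _, rfl, rfl⟩

/-- The decomposition into blocks of level `j`, and the divisibility of the period. -/
theorem blocks {q : ℤ} (hq : ∀ i, u (i + q) = u i) (j : ℕ) :
    ∃ c : ℤ, (∀ m : ℤ, (u (c + m * 2 ^ (j + 1))).1 = lab j ∧
      Gen gr (NT.tr (lab j) (u (c + m * 2 ^ (j + 1))).2)
        (seg u (c + m * 2 ^ (j + 1) - (2 ^ j - 1)) (2 ^ (j + 1) - 1))) ∧
      (2 ^ (j + 1) : ℤ) ∣ q := by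
  induction j with
  | zero =>
    have alt : ∀ i, ((u (i + 1)).1 = 0 ↔ ¬ (u i).1 = 0) := by
      intro i
      have := no_pair u hav i
      tauto
    have alt2 : ∀ i, ((u (i + 2)).1 = 0 ↔ (u i).1 = 0) := by
      intro i
      have h1 := alt i
      have h2 := alt (i + 1)
      rw [show i + 1 + 1 = i + 2 by ring] at h2
      tauto
    have alt3 : ∀ (i : ℤ) (m : ℕ), ((u (i + m * 2)).1 = 0 ↔ (u i).1 = 0) := by
      intro i m
      induction m with
      | zero => simp
      | succ m ih =>
        rw [← ih, ← alt2 (i + m * 2)]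
        have : i + ((m + 1 : ℕ) : ℤ) * 2 = i + m * 2 + 2 := by push_cast; ring
        rw [this]
    have alt4 : ∀ (i : ℤ) (m : ℤ), ((u (i + m * 2)).1 = 0 ↔ (u i).1 = 0) := by
      intro i m
      rcases Int.eq_nat_or_neg m with ⟨k, rfl | rfl⟩
      · exact alt3 i k
      · have := alt3 (i + -k * 2) k
        rw [← this]
        have e : i + -(k : ℤ) * 2 + k * 2 = i := by ring
        rw [e]
    obtain ⟨c, hc⟩ : ∃ c, (u c).1 = 0 := by
      by_cases h : (u 0).1 = 0
      · exact ⟨0, h⟩
      · exact ⟨1, by simpa using (alt 0).2 h⟩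
    refine ⟨c, ?_, ?_⟩
    · intro m
      have h0 : (u (c + m * 2 ^ (0 + 1))).1 = 0 := by
        simpa using (alt4 c m).2 hc
      refine ⟨h0, ?_⟩
      have h := gen_of_rule (g := gr)
        (mem_rules.2 (Rule.trBase (u (c + m * 2 ^ (0 + 1))).2))
        (w := [((0 : Fin 4), (u (c + m * 2 ^ (0 + 1))).2)]) ⟨[], rfl, rfl⟩
      have e : ((0 : Fin 4), (u (c + m * 2 ^ (0 + 1))).2) = u (c + m * 2 ^ (0 + 1)) :=
        Prod.ext h0.symm rfl
      rw [e] at h
      have e2 : seg u (c + m * 2 ^ (0 + 1) - (2 ^ 0 - 1)) (2 ^ (0 + 1) - 1) =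
          [u (c + m * 2 ^ (0 + 1))] := by
        have := seg_one u (c + m * 2 ^ (0 + 1))
        simpa using this
      rw [e2]
      exact h
    · by_contra hodd
      have hodd' : q % 2 = 1 := by
        rw [zero_add, pow_one] at hodd
        omega
      have h1 := hq c
      have h2 := alt4 (c + 1) (q / 2)
      have e : c + 1 + q / 2 * 2 = c + q := by omega
      rw [e, h1] at h2
      have h3 := (alt c).1 (h2.1 hc)
      exact h3 hc
  | succ j ih =>
    obtain ⟨c, hc, hdvd⟩ := ih
    set P : ℤ := 2 ^ j with hP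
    have hP1 : (1 : ℤ) ≤ P := by
      have : (0 : ℤ) < P := by rw [hP]; positivity
      omega
    have hPn : ((2 ^ j : ℕ) : ℤ) = P := by rw [hP]; push_cast; rfl
    have h2P : (2 : ℤ) ^ (j + 1) = 2 * P := by rw [pow_succ, hP]; ring
    have h4P : (2 : ℤ) ^ (j + 1 + 1) = 4 * P := by rw [pow_succ, h2P]; ring
    rw [h2P] at hc hdvd
    have hlen : ((2 ^ (j + 1) - 1 : ℕ) : ℤ) = 2 * P - 1 := by
      have h1 : 1 ≤ 2 ^ (j + 1) := Nat.one_le_two_pow
      push_cast [Nat.cast_sub h1]
      rw [h2P]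
    -- the separator after a left block and before a right block
    have sepR : ∀ m, (u (c + m * (2 * P))).2 = false → (u (c + m * (2 * P) + P)).1 = lab (j + 1) := by
      intro m hm
      have h := (hc m).2
      rw [hm] at h
      have h' := no_right u hav h
      rw [hlen] at h'
      have e : c + m * (2 * P) - (P - 1) + (2 * P - 1) = c + m * (2 * P) + P := by ring
      rw [e] at h'
      exact h'
    have sepL : ∀ m, (u (c + m * (2 * P))).2 = true → (u (c + m * (2 * P) - P)).1 = lab (j + 1) := by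
      intro m hm
      have h := (hc m).2
      rw [hm] at h
      have e : c + m * (2 * P) - (P - 1) = c + m * (2 * P) - P + 1 := by ring
      rw [e] at h
      exact no_left u hav h
    have tri : ∀ i : ℤ, Allowed (u (i - P)) (u i) (u (i + P)) := by
      intro i
      have h := all_allowed u hav i (2 ^ j - 1)
      have e : ((2 ^ j - 1 + 1 : ℕ) : ℤ) = P := by
        rw [Nat.sub_add_cancel Nat.one_le_two_pow]
        exact hPn
      rw [e] at h
      exact h
    have noeq : ∀ m, (u (c + m * (2 * P) + P)).1 = lab (j + 1) →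
        (u (c + m * (2 * P))).2 ≠ (u (c + (m + 1) * (2 * P))).2 := by
      intro m hm he
      have h := tri (c + m * (2 * P) + P)
      have e1 : c + m * (2 * P) + P - P = c + m * (2 * P) := by ring
      have e2 : c + m * (2 * P) + P + P = c + (m + 1) * (2 * P) := by ring
      rw [e1, e2] at h
      have f1 : u (c + m * (2 * P)) = (lab j, (u (c + m * (2 * P))).2) :=
        Prod.ext (hc m).1 rfl
      have f2 : u (c + (m + 1) * (2 * P)) = (lab j, (u (c + m * (2 * P))).2) :=
        Prod.ext (hc (m + 1)).1 he.symm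
      have f3 : u (c + m * (2 * P) + P) = (sc (lab j), (u (c + m * (2 * P) + P)).2) :=
        Prod.ext hm rfl
      rw [f2, f3, f1] at h
      exact not_allowed _ _ _ h
    have altF : ∀ m, (u (c + m * (2 * P))).2 ≠ (u (c + (m + 1) * (2 * P))).2 := by
      intro m he
      rcases Bool.eq_false_or_eq_true (u (c + m * (2 * P))).2 with hm | hm
      · -- both sides are right children
        have h1 : (u (c + (m + 1) * (2 * P))).2 = true := by rw [← he]; exact hm
        have h2 := sepL (m + 1) h1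
        have e : c + (m + 1) * (2 * P) - P = c + m * (2 * P) + P := by ring
        rw [e] at h2
        exact noeq m h2 he
      · exact noeq m (sepR m hm) he
    have altF2 : ∀ (m : ℤ) (k : ℕ), (u (c + (m + 2 * k) * (2 * P))).2 = (u (c + m * (2 * P))).2 := by
      intro m k
      induction k with
      | zero => simp
      | succ k ih =>
        rw [← ih]
        have h1 := altF (m + 2 * k)
        have h2 := altF (m + 2 * k + 1)
        have e : m + 2 * ((k + 1 : ℕ) : ℤ) = m + 2 * k + 1 + 1 := by push_cast; ring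
        rw [e]
        revert h1 h2
        generalize (u (c + (m + 2 * k) * (2 * P))).2 = a
        generalize (u (c + (m + 2 * k + 1) * (2 * P))).2 = b
        generalize (u (c + (m + 2 * k + 1 + 1) * (2 * P))).2 = d
        intro h1 h2
        cases a <;> cases b <;> cases d <;> simp_all
    have altF3 : ∀ (m : ℤ) (k : ℤ), (u (c + (m + 2 * k) * (2 * P))).2 = (u (c + m * (2 * P))).2 := by
      intro m k
      rcases Int.eq_nat_or_neg k with ⟨n, rfl | rfl⟩
      · exact altF2 m n
      · have := altF2 (m + 2 * -(n : ℤ)) n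
        rw [← this]
        have e : m + 2 * -(n : ℤ) + 2 * n = m := by ring
        rw [e]
    obtain ⟨m0, hm0⟩ : ∃ m0, (u (c + m0 * (2 * P))).2 = false := by
      rcases Bool.eq_false_or_eq_true (u (c + 0 * (2 * P))).2 with h | h
      · refine ⟨0 + 1, ?_⟩
        have := altF 0
        rw [h] at this
        rcases Bool.eq_false_or_eq_true (u (c + (0 + 1) * (2 * P))).2 with h' | h'
        · exact absurd h'.symm this
        · exact h'
      · exact ⟨0, h⟩
    refine ⟨c + m0 * (2 * P) + P, ?_, ?_⟩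
    · intro m
      rw [h4P]
      have hmf : (u (c + (m0 + 2 * m) * (2 * P))).2 = false := by rw [altF3, hm0]
      have hmt : (u (c + (m0 + 2 * m + 1) * (2 * P))).2 = true := by
        have := altF (m0 + 2 * m)
        rw [hmf] at this
        rcases Bool.eq_false_or_eq_true (u (c + (m0 + 2 * m + 1) * (2 * P))).2 with h' | h'
        · exact h'
        · exact absurd h'.symm this
      have ec : c + m0 * (2 * P) + P + m * (4 * P) = c + (m0 + 2 * m) * (2 * P) + P := by ring
      rw [ec]
      have hroot := sepR _ hmf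
      refine ⟨hroot, ?_⟩
      have g1 := (hc (m0 + 2 * m)).2
      have g2 := (hc (m0 + 2 * m + 1)).2
      rw [hmf] at g1
      rw [hmt] at g2
      set r : ℤ := c + (m0 + 2 * m) * (2 * P) with hr
      have er : c + (m0 + 2 * m + 1) * (2 * P) = r + 2 * P := by rw [hr]; ring
      rw [er] at g2
      have g := gen_of_rule (g := gr) (mem_rules.2 (Rule.trStep (lab j) (u (r + P)).2))
        (w := seg u (r - (P - 1)) (2 ^ (j + 1) - 1) ++
          ((sc (lab j), (u (r + P)).2) :: seg u (r + 2 * P - (P - 1)) (2 ^ (j + 1) - 1)))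
        ⟨_, _, rfl, g1, _, rfl, _, _, (List.append_nil _).symm, g2, rfl⟩
      have e3 : (sc (lab j), (u (r + P)).2) = u (r + P) := Prod.ext hroot.symm rfl
      rw [e3] at g
      have e4 : seg u (r + P - (2 ^ (j + 1) - 1)) (2 ^ (j + 1 + 1) - 1) =
          seg u (r - (P - 1)) (2 ^ (j + 1) - 1) ++
          (u (r + P) :: seg u (r + 2 * P - (P - 1)) (2 ^ (j + 1) - 1)) := by
        have e5 : 2 ^ (j + 1 + 1) - 1 = (2 ^ (j + 1) - 1) + ((2 ^ (j + 1) - 1) + 1) := by
          have : 1 ≤ 2 ^ (j + 1) := Nat.one_le_two_pow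
          have : 2 ^ (j + 1 + 1) = 2 ^ (j + 1) * 2 := pow_succ _ _
          omega
        rw [e5, seg_add, seg_succ, hlen, h2P]
        have a1 : r + P - (2 * P - 1) = r - (P - 1) := by ring
        have a2 : r - (P - 1) + (2 * P - 1) = r + P := by ring
        have a3 : r + P + 1 = r + 2 * P - (P - 1) := by ring
        rw [a1, a2, a3]
      rw [e4]
      exact g
    · rw [h4P]
      obtain ⟨k, hk⟩ := hdvd
      by_contra hnd
      have hk2 : k % 2 = 1 := by
        rcases Int.emod_two_eq_zero_or_one k with h | h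
        · exfalso
          apply hnd
          obtain ⟨t, rfl⟩ : ∃ t, k = 2 * t := ⟨k / 2, by omega⟩
          exact ⟨t, by rw [hk]; ring⟩
        · exact h
      obtain ⟨t, rfl⟩ : ∃ t, k = 2 * t + 1 := ⟨k / 2, by omega⟩
      have h1 := hq (c + m0 * (2 * P))
      have e : c + m0 * (2 * P) + q = c + (m0 + 2 * t + 1) * (2 * P) := by rw [hk]; ring
      rw [e] at h1
      have h2 := altF (m0 + 2 * t)
      rw [h1, altF3] at h2
      exact h2 rfl

theorem no_period {q : ℤ} (hq : ∀ i, u (i + q) = u i) (hpos : 0 < q) : False := by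
  obtain ⟨n, hn⟩ : ∃ n : ℕ, q < 2 ^ (n + 1) := by
    obtain ⟨n, rfl⟩ := Int.eq_ofNat_of_zero_le hpos.le
    refine ⟨n, ?_⟩
    have h1 : n < 2 ^ n := Nat.lt_two_pow_self
    have h2 : 2 ^ n ≤ 2 ^ (n + 1) := Nat.pow_le_pow_right (by norm_num) (by omega)
    exact_mod_cast lt_of_lt_of_le h1 h2
  obtain ⟨_, _, hd⟩ := blocks u hav hq n
  have := Int.le_of_dvd hpos hd
  omega

end periodic

/-! ### The theorem -/

/-- The periodic two-sided word of a nonempty list. -/
def per (w : List Lt) (hw : w ≠ []) (i : ℤ) : Lt :=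
  w[(i % (w.length : ℤ)).toNat]'(by
    have h : (0 : ℤ) < w.length := by
      have := List.length_pos_iff.2 hw
      exact_mod_cast this
    have h1 := Int.emod_nonneg i h.ne'
    have h2 := Int.emod_lt_of_pos i h
    omega)

theorem per_add (w : List Lt) (hw : w ≠ []) (i : ℤ) :
    per w hw (i + w.length) = per w hw i := by
  unfold per
  congr 2
  simp

theorem per_add_mul (w : List Lt) (hw : w ≠ []) (i k : ℤ) :
    per w hw (i + k * w.length) = per w hw i := by
  unfold per
  congr 2
  simp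

theorem seg_per_self (w : List Lt) (hw : w ≠ []) (k : ℤ) :
    seg (per w hw) (k * w.length) w.length = w := by
  apply List.ext_getElem
  · simp
  · intro n h1 h2
    simp only [seg, List.getElem_map, List.getElem_range]
    rw [add_comm, per_add_mul]
    unfold per
    congr 1
    have : ((n : ℤ) % (w.length : ℤ)) = n := Int.emod_eq_of_lt (by omega) (by exact_mod_cast h2)
    rw [this]
    rfl

theorem replicate_flatten (w : List Lt) (hw : w ≠ []) (N : ℕ) :
    (List.replicate N w).flatten = seg (per w hw) 0 (N * w.length) := by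
  induction N with
  | zero => simp [seg]
  | succ N ih =>
    rw [List.replicate_succ', List.flatten_append, ih, Nat.succ_mul, seg_add]
    congr 1
    have := seg_per_self w hw N
    rw [zero_add]
    push_cast
    rw [this]
    simp

theorem seg_infix (w : List Lt) (hw : w ≠ []) (i : ℤ) (n : ℕ) :
    ∃ N, seg (per w hw) i n <:+: (List.replicate N w).flatten := by
  have hpos : (0 : ℤ) < w.length := by
    have := List.length_pos_iff.2 hw
    exact_mod_cast this
  obtain ⟨a, ha⟩ := Int.eq_ofNat_of_zero_le (Int.emod_nonneg i hpos.ne')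
  have hi : i = a + (i / w.length) * w.length := by
    have h := Int.emod_add_mul_ediv i w.length
    rw [ha] at h
    linarith
  have hseg : seg (per w hw) i n = seg (per w hw) a n := by
    unfold seg
    apply List.map_congr_left
    intro k _
    rw [hi, show (a : ℤ) + i / w.length * w.length + k = a + k + i / w.length * w.length by ring,
      per_add_mul]
  refine ⟨a + n, ?_⟩
  rw [hseg, replicate_flatten w hw]
  have hlen : 1 ≤ w.length := by exact_mod_cast hpos
  obtain ⟨r, hr⟩ : ∃ r, (a + n) * w.length = a + (n + r) :=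
    ⟨(a + n) * w.length - (a + n), by
      have : a + n ≤ (a + n) * w.length := Nat.le_mul_of_pos_right _ hlen
      omega⟩
  rw [hr, seg_add, seg_add, zero_add]
  exact ⟨seg (per w hw) 0 a, seg (per w hw) (a + n) r, by rw [List.append_assoc]⟩

theorem main :
    ¬ (∀ (α : Type) [Fintype α] (L : Language α),
      L.IsContextFree →
      (∀ v ∈ L, v ≠ []) →
      ({u : List α | ¬ ∃ v ∈ L, v <:+: u}.Finite ↔
        ∀ w : List α, w ≠ [] →
          ∃ n : ℕ, ∃ v ∈ L, v <:+: (List.replicate n w).flatten)) := by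
  intro H
  have hne : ∀ v ∈ gr.language, v ≠ [] := by
    rintro v hv rfl
    exact avoid (s := 1) (n := 0) le_rfl hv
  have h1 := (H Lt gr.language ⟨gr, rfl⟩ hne).2 (by
    intro w hw
    by_contra hcon
    push Not at hcon
    have hav : ∀ (i : ℤ) (n : ℕ), seg (per w hw) i n ∉ gr.language := by
      intro i n hmem
      obtain ⟨N, hN⟩ := seg_infix w hw i n
      exact hcon N _ hmem hN
    have hpos : (0 : ℤ) < w.length := by
      have := List.length_pos_iff.2 hw
      exact_mod_cast this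
    exact no_period (per w hw) hav (per_add w hw) hpos)
  have hinf : (Set.range (fun n : ℕ => fac 1 n)).Infinite := by
    apply Set.infinite_range_of_injective
    intro a b hab
    have := congrArg List.length hab
    simpa using this
  apply hinf
  apply h1.subset
  rintro _ ⟨n, rfl⟩
  rintro ⟨v, hv, s, t, hst⟩
  have e : s ++ v ++ t = fac 1 (s ++ v ++ t).length := by
    rw [hst]; simp
  obtain ⟨e1, _⟩ := append_eq_fac e
  obtain ⟨_, e2⟩ := append_eq_fac e1
  rw [e2] at hv
  exact avoid (by omega) hv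

end Pool.Agent.V11227.RulerWord
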