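import Pool.Agent.H601R2.PCG.Defs
import Pool.Agent.H692R2.EqDefs

/-!
# Split clique graphs with a bounded stable side: definitions
-/

namespace Pool.Agent.V11227.SC

open Pool.Agent.H692R2.Equi Pool.Agent.H601R2.PCG

/-- `G` is a split graph whose (normalised) split partition `(K, S)` has `|S| ≤ k`: `S` is
independent, the complement `K` of `S` is a clique, and `K` is the union of the neighbourhoods of
the vertices of `S`. -/
def SplitLe {V : Type} [Fintype V] (k : ℕ) (G : SimpleGraph V) : Prop :=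
  ∃ S : Finset V, S.card ≤ k ∧ (∀ a ∈ S, ∀ b ∈ S, ¬ G.Adj a b) ∧
    (∀ x ∉ S, ∀ y ∉ S, x ≠ y → G.Adj x y) ∧ ∀ x ∉ S, ∃ s ∈ S, G.Adj x s

/-- The decision problem `REC_S(k)`: `M` is the adjacency matrix of a split graph with `|S| ≤ k`
which is a clique graph. -/
def RecS (k : ℕ) (M : List (List Bool)) : Prop :=
  ∃ (n : ℕ) (G : SimpleGraph (Fin n)), M = matrix G ∧ SplitLe k G ∧ IsCliqueGraph G

end Pool.Agent.V11227.SC
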