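import Pool.Agent.H601R2.PCG.KFun
import Pool.Agent.V11227.SCDefs
import Pool.Agent.V11227.GraphM

/-!
# Split clique graphs with a bounded stable side
-/

namespace Pool.Agent.V11227.SC

open Pool.Agent.NPC Pool.Agent.H692R2.Equi Pool.Agent.H601R2.PCG

/-! ### Blowing up vertices into true twins -/

/-- `H'` is obtained from `H` by blowing up vertices into true twins (along `π`) -/
def Blow {V V' : Type} (H : SimpleGraph V) (H' : SimpleGraph V') (π : V' → V) : Prop :=
  ∀ x y, H'.Adj x y ↔ x ≠ y ∧ (π x = π y ∨ H.Adj (π x) (π y))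

theorem blow_good {V V' : Type} {H : SimpleGraph V} {H' : SimpleGraph V'} {π : V' → V}
    (hb : Blow H H' π) (hs : Function.Surjective π) {K : V → V → Set V} (hK : Good H K) :
    ∃ K', Good H' K' := by
  classical
  refine ⟨fun x y => if π x = π y then {z | π z = π x} else {z | π z ∈ K (π x) (π y)}, ?_⟩
  have hr : ∀ a b, H.Adj a b → b ∈ K a b := fun a b h => by
    rw [hK.symm]; exact hK.left b a h.symm
  constructor
  · intro a b
    by_cases h : π a = π b
    · simp [h]
    · rw [if_neg h, if_neg (Ne.symm h), hK.symm]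
  · intro a b hab
    by_cases h : π a = π b
    · simp [h]
    · rw [if_neg h]
      exact hK.left _ _ ((((hb a b).1 hab).2).resolve_left h)
  · intro a b hab x hx y hy hxy
    by_cases h : π a = π b
    · simp only [h, if_true, Set.mem_ofPred_eq] at hx hy
      exact (hb x y).2 ⟨hxy, Or.inl (hx.trans hy.symm)⟩
    · simp only [h, if_false, Set.mem_ofPred_eq] at hx hy
      by_cases h' : π x = π y
      · exact (hb x y).2 ⟨hxy, Or.inl h'⟩
      · exact (hb x y).2 ⟨hxy, Or.inr
          (hK.complete _ _ ((((hb a b).1 hab).2).resolve_left h) hx hy h')⟩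
  · intro a b x y hab hx hy hxy z hz
    by_cases h : π a = π b
    · simp only [h, if_true, Set.mem_ofPred_eq] at hx hy ⊢
      simp only [hx, hy, if_true, Set.mem_ofPred_eq] at hz
      exact hz
    · simp only [h, if_false, Set.mem_ofPred_eq] at hx hy ⊢
      have hab' := (((hb a b).1 hab).2).resolve_left h
      by_cases h' : π x = π y
      · simp only [h', if_true, Set.mem_ofPred_eq] at hz
        rw [hz]; exact hy
      · simp only [h', if_false, Set.mem_ofPred_eq] at hz
        exact hK.mono _ _ _ _ hab' hx hy h' hz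
  · intro a b c hab hbc hac
    by_cases h1 : π a = π b
    · by_cases h2 : π b = π c
      · refine ⟨a, ?_, ?_, ?_⟩ <;> simp [h1, h2]
      · have h3 : π a ≠ π c := fun e => h2 (h1.symm.trans e)
        refine ⟨b, ?_, ?_, ?_⟩
        · simp [h1]
        · simp only [h2, if_false, Set.mem_ofPred_eq]
          exact hK.left _ _ ((((hb b c).1 hbc).2).resolve_left h2)
        · simp only [h3, if_false, Set.mem_ofPred_eq]
          rw [h1]
          exact hK.left _ _ ((((hb b c).1 hbc).2).resolve_left h2)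
    · by_cases h2 : π b = π c
      · have h3 : π a ≠ π c := fun e => h1 (e.trans h2.symm)
        refine ⟨b, ?_, ?_, ?_⟩
        · simp only [h1, if_false, Set.mem_ofPred_eq]
          exact hr _ _ ((((hb a b).1 hab).2).resolve_left h1)
        · simp [h2]
        · simp only [h3, if_false, Set.mem_ofPred_eq]
          rw [h2]
          exact hr _ _ ((((hb a c).1 hac).2).resolve_left h3)
      · by_cases h3 : π a = π c
        · refine ⟨a, ?_, ?_, ?_⟩
          · simp only [h1, if_false, Set.mem_ofPred_eq]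
            exact hK.left _ _ ((((hb a b).1 hab).2).resolve_left h1)
          · simp only [h2, if_false, Set.mem_ofPred_eq]
            rw [h3]
            exact hr _ _ ((((hb b c).1 hbc).2).resolve_left h2)
          · simp [h3]
        · obtain ⟨v, hv1, hv2, hv3⟩ := hK.tri _ _ _ ((((hb a b).1 hab).2).resolve_left h1)
            ((((hb b c).1 hbc).2).resolve_left h2) ((((hb a c).1 hac).2).resolve_left h3)
          obtain ⟨w, rfl⟩ := hs v
          refine ⟨w, ?_, ?_, ?_⟩
          · simp only [h1, if_false, Set.mem_ofPred_eq]; exact hv1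
          · simp only [h2, if_false, Set.mem_ofPred_eq]; exact hv2
          · simp only [h3, if_false, Set.mem_ofPred_eq]; exact hv3

theorem blow_cliqueGraph {V V' : Type} [Finite V'] {H : SimpleGraph V}
    {H' : SimpleGraph V'} {π : V' → V} (hb : Blow H H' π) (hs : Function.Surjective π)
    (h : IsCliqueGraph H) : IsCliqueGraph H' := by
  obtain ⟨⟨v⟩, K, hK⟩ := good_of_isCliqueGraph h
  obtain ⟨w, -⟩ := hs v
  rw [isCliqueGraph_iff]
  exact ⟨⟨w⟩, blow_good hb hs hK⟩

/-- `G` contains `P` as an induced subgraph, and every vertex of `G` is a true twin of (or equal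
to) a vertex of the copy of `P` -/
def Ext {W V : Type} (P : SimpleGraph W) (G : SimpleGraph V) : Prop :=
  ∃ φ : W → V, Function.Injective φ ∧ (∀ i j, P.Adj i j ↔ G.Adj (φ i) (φ j)) ∧
    ∀ v, ∃ i, ∀ w, (v = w ∨ G.Adj v w) ↔ (φ i = w ∨ G.Adj (φ i) w)

theorem Ext.cliqueGraph {W V : Type} [Finite V] {P : SimpleGraph W} {G : SimpleGraph V}
    (h : Ext P G) (hP : IsCliqueGraph P) : IsCliqueGraph G := by
  classical
  obtain ⟨φ, hinj, hadj, htw⟩ := h
  choose ψ hψ using htw
  let π : V → W := fun v => if h : ∃ i, φ i = v then h.choose else ψ v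
  have hπφ : ∀ i, π (φ i) = i := by
    intro i
    have h : ∃ j, φ j = φ i := ⟨i, rfl⟩
    change (if h : ∃ j, φ j = φ i then h.choose else ψ (φ i)) = i
    rw [dif_pos h]
    exact hinj h.choose_spec
  have hπ : ∀ v w, (v = w ∨ G.Adj v w) ↔ (φ (π v) = w ∨ G.Adj (φ (π v)) w) := by
    intro v w
    by_cases h : ∃ i, φ i = v
    · obtain ⟨i, rfl⟩ := h
      rw [hπφ]
    · have : π v = ψ v := dif_neg h
      rw [this]
      exact hψ v w
  refine blow_cliqueGraph (π := π) (H := P) ?_ (fun i => ⟨φ i, hπφ i⟩) hP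
  intro x y
  constructor
  · intro hxy
    refine ⟨hxy.ne, ?_⟩
    by_cases he : π x = π y
    · exact Or.inl he
    · right
      rw [hadj]
      have h1 := (hπ x y).1 (Or.inr hxy)
      have h2 : (y = φ (π x) ∨ G.Adj y (φ (π x))) := by
        rcases h1 with h | h
        · exact Or.inl h.symm
        · exact Or.inr h.symm
      rcases (hπ y _).1 h2 with h | h
      · exact absurd (hinj h).symm he
      · exact h.symm
  · rintro ⟨hne, he | h⟩
    · have h1 := (hπ x x).1 (Or.inl rfl)
      rw [he] at h1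
      rcases (hπ y x).2 h1 with h | h
      · exact absurd h.symm hne
      · exact h.symm
    · rw [hadj] at h
      have h1 := (hπ x (φ (π y))).2 (Or.inr h)
      have h2 : (φ (π y) = x ∨ G.Adj (φ (π y)) x) := by
        rcases h1 with h | h
        · exact Or.inl h.symm
        · exact Or.inr h.symm
      rcases (hπ y x).2 h2 with h | h
      · exact absurd h.symm hne
      · exact h.symm

/-! ### Finitely many minimal graphs -/

/-- the vectors of multiplicities of the clique graphs which are blow-ups of `Q` -/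
def XQ {m : ℕ} (Q : SimpleGraph (Fin m)) : Set (Fin m → ℕ) :=
  {μ | ∃ (n : ℕ) (G : SimpleGraph (Fin n)) (π : Fin n → Fin m),
    (∀ i, 1 ≤ μ i ∧ (Finset.univ.filter fun v => π v = i).card = μ i) ∧ Blow Q G π ∧
      IsCliqueGraph G}

theorem exists_min {m : ℕ} (X : Set (Fin m → ℕ)) : ∃ B : Set (Fin m → ℕ), B.Finite ∧ B ⊆ X ∧
    ∀ μ ∈ X, ∃ ν ∈ B, ν ≤ μ := by
  refine ⟨{ν | Minimal (· ∈ X) ν}, ?_, fun ν hν => hν.prop, fun μ hμ => ?_⟩
  · refine WellQuasiOrderedLE.finite_of_isAntichain ?_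
    intro a ha b hb hab h
    exact hab (le_antisymm h (hb.le_of_le ha.prop h))
  · obtain ⟨ν, hν1, hν2⟩ := exists_minimal_le_of_wellFoundedLT (· ∈ X) μ hμ
    exact ⟨ν, hν2, hν1⟩

theorem ext_of_le {m : ℕ} {Q : SimpleGraph (Fin m)} {μ ν : Fin m → ℕ} (hle : ν ≤ μ)
    {r n : ℕ} {P : SimpleGraph (Fin r)} {G : SimpleGraph (Fin n)} {ρ : Fin r → Fin m}
    {π : Fin n → Fin m}
    (h1 : ∀ i, 1 ≤ ν i ∧ (Finset.univ.filter fun v => ρ v = i).card = ν i) (h2 : Blow Q P ρ)
    (h3 : ∀ i, 1 ≤ μ i ∧ (Finset.univ.filter fun v => π v = i).card = μ i) (h4 : Blow Q G π) :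
    Ext P G := by
  classical
  have hc : ∀ i, Nonempty ({v // ρ v = i} ↪ {v // π v = i}) := by
    intro i
    refine Function.Embedding.nonempty_of_card_le ?_
    rw [Fintype.card_subtype, Fintype.card_subtype, (h1 i).2, (h3 i).2]
    exact hle i
  let f : ∀ i, {v // ρ v = i} ↪ {v // π v = i} := fun i => (hc i).some
  let φ : Fin r → Fin n := fun a => (f (ρ a) ⟨a, rfl⟩ : Fin n)
  have hφ : ∀ a, π (φ a) = ρ a := fun a => (f (ρ a) ⟨a, rfl⟩).2
  have hinj : Function.Injective φ := by
    intro a b hab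
    have h : ρ a = ρ b := by rw [← hφ a, ← hφ b, hab]
    have key : ∀ (i : Fin m) (a b : {v // ρ v = i}), ((f i a : {v // π v = i}) : Fin n) = f i b →
        a = b := fun i a b h => (f i).injective (Subtype.ext h)
    have h' : ((f (ρ b) ⟨a, h⟩ : {v // π v = ρ b}) : Fin n) = f (ρ b) ⟨b, rfl⟩ := by
      change φ a = φ b at hab
      have : φ a = ((f (ρ b) ⟨a, h⟩ : {v // π v = ρ b}) : Fin n) := by
        change ((f (ρ a) ⟨a, rfl⟩ : {v // π v = ρ a}) : Fin n) = _
        have gen : ∀ (i j : Fin m) (hi : ρ a = i) (hj : ρ a = j) (_ : i = j),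
            ((f i ⟨a, hi⟩ : {v // π v = i}) : Fin n) = ((f j ⟨a, hj⟩ : {v // π v = j}) : Fin n) := by
          intro i j hi hj hij
          subst hij
          rfl
        exact gen _ _ rfl h h
      rw [← this, hab]
    exact congrArg Subtype.val (key _ _ _ h')
  refine ⟨φ, hinj, fun i j => ?_, fun v => ?_⟩
  · rw [h2, h4, hφ, hφ]
    exact and_congr_left fun _ => hinj.ne_iff.symm
  · have hne : (Finset.univ.filter fun a => ρ a = π v).Nonempty := by
      rw [← Finset.card_pos, (h1 _).2]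
      exact (h1 _).1
    obtain ⟨a, ha⟩ := hne
    rw [Finset.mem_filter] at ha
    have hav : π (φ a) = π v := (hφ a).trans ha.2
    have gen : ∀ v w, (v = w ∨ G.Adj v w) ↔ (π v = π w ∨ Q.Adj (π v) (π w)) := by
      intro v w
      rw [h4]
      constructor
      · rintro (rfl | h)
        · exact Or.inl rfl
        · exact h.2
      · intro h
        by_cases hvw : v = w
        · exact Or.inl hvw
        · exact Or.inr ⟨hvw, h⟩
    refine ⟨a, fun w => ?_⟩
    rw [gen, gen, hav]

/-- Finitely many graphs suffice. -/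
theorem exists_family (m : ℕ) : ∃ F : Finset (Σ r : ℕ, SimpleGraph (Fin r)),
    (∀ P ∈ F, IsCliqueGraph P.2) ∧ ∀ (m' : ℕ) (_ : m' ≤ m) (Q : SimpleGraph (Fin m')) (n : ℕ)
      (G : SimpleGraph (Fin n)) (π : Fin n → Fin m'), Function.Surjective π → Blow Q G π →
        IsCliqueGraph G → ∃ P ∈ F, Ext P.2 G := by
  classical
  have h : ∀ (m' : ℕ) (Q : SimpleGraph (Fin m')), ∃ B : Set (Fin m' → ℕ), B.Finite ∧ B ⊆ XQ Q ∧
    ∀ μ ∈ XQ Q, ∃ ν ∈ B, ν ≤ μ := fun m' Q => exists_min _
  choose B hB1 hB2 hB3 using h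
  have h' : ∀ (m' : ℕ) (Q : SimpleGraph (Fin m')) (ν : Fin m' → ℕ), ν ∈ B m' Q →
      ∃ (P : Σ r : ℕ, SimpleGraph (Fin r)) (ρ : Fin P.1 → Fin m'),
        (∀ i, 1 ≤ ν i ∧ (Finset.univ.filter fun v => ρ v = i).card = ν i) ∧ Blow Q P.2 ρ ∧
          IsCliqueGraph P.2 := by
    intro m' Q ν hν
    obtain ⟨n, G, π, h1, h2, h3⟩ := hB2 m' Q hν
    exact ⟨⟨n, G⟩, π, h1, h2, h3⟩
  let g : ∀ (m' : ℕ) (Q : SimpleGraph (Fin m')), (Fin m' → ℕ) → Σ r : ℕ, SimpleGraph (Fin r) :=
    fun m' Q ν => if hν : ν ∈ B m' Q then (h' m' Q ν hν).choose else ⟨1, ⊥⟩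
  have hfin : (⋃ m' ∈ Finset.range (m + 1), ⋃ Q : SimpleGraph (Fin m'),
      g m' Q '' (B m' Q)).Finite := by
    refine Set.Finite.biUnion (Finset.finite_toSet _) fun m' _ => ?_
    exact Set.finite_iUnion fun Q => (hB1 m' Q).image _
  have hg : ∀ (m' : ℕ) (Q : SimpleGraph (Fin m')) (ν : Fin m' → ℕ), ν ∈ B m' Q →
      ∃ (ρ : Fin (g m' Q ν).1 → Fin m'),
        (∀ i, 1 ≤ ν i ∧ (Finset.univ.filter fun v => ρ v = i).card = ν i) ∧
          Blow Q (g m' Q ν).2 ρ ∧ IsCliqueGraph (g m' Q ν).2 := by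
    intro m' Q ν hν
    have : g m' Q ν = (h' m' Q ν hν).choose := dif_pos hν
    rw [this]
    exact (h' m' Q ν hν).choose_spec
  refine ⟨hfin.toFinset, ?_, ?_⟩
  · intro P hP
    rw [Set.Finite.mem_toFinset] at hP
    simp only [Set.mem_iUnion, Set.mem_image] at hP
    obtain ⟨m', -, Q, ν, hν, rfl⟩ := hP
    obtain ⟨ρ, -, -, h3⟩ := hg m' Q ν hν
    exact h3
  · intro m' hm' Q n G π hπ hb hG
    let μ : Fin m' → ℕ := fun i => (Finset.univ.filter fun v => π v = i).card
    have hμ : ∀ i, 1 ≤ μ i ∧ (Finset.univ.filter fun v => π v = i).card = μ i := by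
      intro i
      refine ⟨?_, rfl⟩
      obtain ⟨v, hv⟩ := hπ i
      exact Finset.card_pos.2 ⟨v, by simp [hv]⟩
    obtain ⟨ν, hν, hle⟩ := hB3 m' Q μ ⟨n, G, π, hμ, hb, hG⟩
    obtain ⟨ρ, h1, h2, -⟩ := hg m' Q ν hν
    refine ⟨g m' Q ν, ?_, ext_of_le hle h1 h2 hμ hb⟩
    rw [Set.Finite.mem_toFinset]
    simp only [Set.mem_iUnion, Set.mem_image]
    exact ⟨m', Finset.mem_range.2 (by omega), Q, ν, hν, rfl⟩

/-- Split graphs with `|S| ≤ k` are blow-ups of graphs with at most `k + 2 ^ k` vertices. -/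
theorem exists_quotient {n k : ℕ} {G : SimpleGraph (Fin n)} (h : SplitLe k G) :
    ∃ (m' : ℕ) (_ : m' ≤ k + 2 ^ k) (Q : SimpleGraph (Fin m')) (π : Fin n → Fin m'),
      Function.Surjective π ∧ Blow Q G π := by
  classical
  obtain ⟨S, hS, hind, hcl, -⟩ := h
  let N : Fin n → Finset (Fin n) := fun v => Finset.univ.filter fun w => v = w ∨ G.Adj v w
  have hN : ∀ v w, w ∈ N v ↔ v = w ∨ G.Adj v w := fun v w => by simp [N]
  have hsymm : ∀ v w, w ∈ N v ↔ v ∈ N w := by
    intro v w
    rw [hN, hN, G.adj_comm, eq_comm]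
  let I : Finset (Finset (Fin n)) := Finset.univ.image N
  have hI : I.card ≤ k + 2 ^ k := by
    have hsub : I ⊆ S.image N ∪ S.powerset.image (fun A => Sᶜ ∪ A) := by
      intro A hA
      obtain ⟨v, -, rfl⟩ := Finset.mem_image.1 hA
      by_cases hv : v ∈ S
      · exact Finset.mem_union_left _ (Finset.mem_image_of_mem _ hv)
      · refine Finset.mem_union_right _ (Finset.mem_image.2 ⟨S.filter fun w => G.Adj v w, ?_, ?_⟩)
        · exact Finset.mem_powerset.2 (Finset.filter_subset _ _)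
        · ext w
          rw [hN, Finset.mem_union, Finset.mem_compl, Finset.mem_filter]
          constructor
          · rintro (h | h)
            · by_cases hvw : v = w
              · exact Or.inl hvw
              · exact Or.inr (hcl v hv w h hvw)
            · exact Or.inr h.2
          · rintro (h | h)
            · left; rw [← h]; exact hv
            · by_cases hw : w ∈ S
              · exact Or.inr ⟨hw, h⟩
              · exact Or.inl hw
    refine (Finset.card_le_card hsub).trans ((Finset.card_union_le _ _).trans ?_)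
    refine Nat.add_le_add (Finset.card_image_le.trans hS) (Finset.card_image_le.trans ?_)
    rw [Finset.card_powerset]
    exact Nat.pow_le_pow_right (by norm_num) hS
  let e := I.equivFin
  let π : Fin n → Fin I.card := fun v => e ⟨N v, Finset.mem_image_of_mem _ (Finset.mem_univ v)⟩
  have hπ : ∀ v w, π v = π w ↔ N v = N w := by
    intro v w
    change e _ = e _ ↔ _
    rw [e.apply_eq_iff_eq, Subtype.mk.injEq]
  let Q : SimpleGraph (Fin I.card) :=
    { Adj := fun i j => i ≠ j ∧ ∃ x y, π x = i ∧ π y = j ∧ G.Adj x y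
      symm := ⟨fun i j h => ⟨h.1.symm, by
        obtain ⟨-, x, y, h1, h2, h3⟩ := h
        exact ⟨y, x, h2, h1, h3.symm⟩⟩⟩
      loopless := ⟨fun i h => h.1 rfl⟩ }
  refine ⟨I.card, hI, Q, π, ?_, ?_⟩
  · intro i
    obtain ⟨A, hA⟩ := e.surjective i
    obtain ⟨v, -, hv⟩ := Finset.mem_image.1 A.2
    refine ⟨v, ?_⟩
    rw [← hA]
    exact congrArg e (Subtype.ext hv)
  · intro x y
    constructor
    · intro h
      refine ⟨h.ne, ?_⟩
      by_cases he : π x = π y
      · exact Or.inl he
      · exact Or.inr ⟨he, x, y, rfl, rfl, h⟩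
    · rintro ⟨hne, he | ⟨-, x', y', hx, hy, h⟩⟩
      · have h1 : N x = N y := (hπ x y).1 he
        have h2 : x ∈ N y := by rw [← h1, hN]; exact Or.inl rfl
        rcases (hN y x).1 h2 with h | h
        · exact absurd h.symm hne
        · exact h.symm
      · have h1 : y' ∈ N x' := (hN _ _).2 (Or.inr h)
        rw [(hπ x' x).1 hx, ← hsymm, (hπ y' y).1 hy, ← hsymm, hN] at h1
        rcases h1 with h | h
        · exact absurd h hne
        · exact h

/-- The characterisation of `RecS k` by finitely many graphs. -/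
theorem exists_char (k : ℕ) : ∃ F : Finset (Σ r : ℕ, SimpleGraph (Fin r)),
    ∀ (n : ℕ) (G : SimpleGraph (Fin n)), SplitLe k G → (IsCliqueGraph G ↔ ∃ P ∈ F, Ext P.2 G) := by
  obtain ⟨F, hF1, hF2⟩ := exists_family (k + 2 ^ k)
  refine ⟨F, fun n G hG => ⟨fun h => ?_, ?_⟩⟩
  · obtain ⟨m', hm', Q, π, hπ, hb⟩ := exists_quotient hG
    exact hF2 m' hm' Q n G π hπ hb h
  · rintro ⟨P, hP, h⟩
    exact h.cliqueGraph (hF1 P hP)

end Pool.Agent.V11227.SC
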