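import Pool.Agent.V11227.SC

/-!
# Split clique graphs with a bounded stable side: the algorithm
-/

namespace Pool.Agent.V11227.SC

open Pool.Agent.NPC Pool.Agent.H692R2.Equi Pool.Agent.H601R2.PCG

/-- the conditions on the stable set given by a list of vertices -/
def SplitM (M : List (List Bool)) (L : List ℕ) : Prop :=
  (∀ a ∈ L, ∀ b ∈ L, ¬ adjM M a b) ∧
    (∀ x < M.length, x ∉ L → ∀ y < M.length, y ∉ L → x ≠ y → adjM M x y) ∧
    ∀ x < M.length, x ∉ L → ∃ s ∈ L, adjM M x s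

/-- `Ext` for matrices -/
def ExtM (P M : List (List Bool)) (L : List ℕ) : Prop :=
  (∀ i < P.length, L.getD i 0 < M.length) ∧
  (∀ i < P.length, ∀ j < P.length, (L.getD i 0 = L.getD j 0 → i = j) ∧
    (adjM P i j ↔ adjM M (L.getD i 0) (L.getD j 0))) ∧
    ∀ v < M.length, ∃ i < P.length, ∀ w < M.length,
      ((v = w ∨ adjM M v w) ↔ (L.getD i 0 = w ∨ adjM M (L.getD i 0) w))

theorem splitLe_iff {k : ℕ} {M : List (List Bool)} (h : ValidM M) :
    SplitLe k (ofM M h) ↔ ∃ L ∈ tuplesLe M.length k, SplitM M L := by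
  classical
  constructor
  · rintro ⟨S, h1, h2, h3, h4⟩
    have hmem : ∀ x (hx : x < M.length), x ∈ (S.toList.map Fin.val) ↔ (⟨x, hx⟩ : Fin M.length) ∈ S := by
      intro x hx
      rw [List.mem_map]
      constructor
      · rintro ⟨v, hv, rfl⟩
        exact Finset.mem_toList.1 hv
      · intro hv
        exact ⟨_, Finset.mem_toList.2 hv, rfl⟩
    have hlt : ∀ x ∈ (S.toList.map Fin.val), x < M.length := by
      intro x hx
      obtain ⟨v, -, rfl⟩ := List.mem_map.1 hx
      exact v.2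
    refine ⟨S.toList.map Fin.val, mem_tuplesLe.2 ⟨by simpa using h1, hlt⟩, ?_, ?_, ?_⟩
    · intro a ha b hb
      exact h2 ⟨a, hlt a ha⟩ ((hmem a _).1 ha) ⟨b, hlt b hb⟩ ((hmem b _).1 hb)
    · intro x hx hxL y hy hyL hxy
      exact h3 ⟨x, hx⟩ (fun h => hxL ((hmem x hx).2 h)) ⟨y, hy⟩ (fun h => hyL ((hmem y hy).2 h))
        (fun h => hxy (Fin.ext_iff.1 h))
    · intro x hx hxL
      obtain ⟨s, hs, hs'⟩ := h4 ⟨x, hx⟩ (fun h => hxL ((hmem x hx).2 h))
      exact ⟨s, (hmem s s.2).2 hs, hs'⟩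
  · rintro ⟨L, hL, h1, h2, h3⟩
    obtain ⟨hk, hlt⟩ := mem_tuplesLe.1 hL
    let S : Finset (Fin M.length) := Finset.univ.filter fun v => (v : ℕ) ∈ L
    have hS : ∀ v : Fin M.length, v ∈ S ↔ (v : ℕ) ∈ L := fun v => by simp [S]
    refine ⟨S, ?_, ?_, ?_, ?_⟩
    · have h5 : (S.image Fin.val) ⊆ L.toFinset := by
        intro x hx
        obtain ⟨v, hv, rfl⟩ := Finset.mem_image.1 hx
        exact List.mem_toFinset.2 ((hS v).1 hv)
      have h6 := Finset.card_le_card h5
      rw [Finset.card_image_of_injective _ Fin.val_injective] at h6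
      exact h6.trans ((List.toFinset_card_le L).trans hk)
    · intro a ha b hb
      exact h1 a ((hS a).1 ha) b ((hS b).1 hb)
    · intro x hx y hy hxy
      exact h2 x x.2 (fun h => hx ((hS x).2 h)) y y.2 (fun h => hy ((hS y).2 h))
        (fun h => hxy (Fin.ext h))
    · intro x hx
      obtain ⟨s, hs, hs'⟩ := h3 x x.2 (fun h => hx ((hS x).2 h))
      exact ⟨⟨s, hlt s hs⟩, (hS _).2 hs, hs'⟩

theorem ext_iff {r : ℕ} (P : SimpleGraph (Fin r)) {M : List (List Bool)} (h : ValidM M) :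
    Ext P (ofM M h) ↔ ∃ L ∈ tuplesLe M.length r, ExtM (matrix P) M L := by
  classical
  have hr := matrix_length P
  constructor
  · rintro ⟨φ, h1, h2, h3⟩
    let L : List ℕ := List.ofFn fun i => (φ i : ℕ)
    have hL : ∀ i (hi : i < r), L.getD i 0 = φ ⟨i, hi⟩ := by
      intro i hi
      simp [L, List.getD_eq_getElem?_getD, hi]
    refine ⟨L, mem_tuplesLe.2 ⟨by simp [L], fun x hx => ?_⟩, ?_, ?_, ?_⟩
    · obtain ⟨i, hi⟩ := List.mem_ofFn.1 hx
      change (φ i : ℕ) = x at hi
      rw [← hi]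
      exact (φ i).2
    · rw [hr]
      intro i hi
      rw [hL i hi]
      exact (φ _).2
    · rw [hr]
      intro i hi j hj
      rw [hL i hi, hL j hj]
      refine ⟨fun he => ?_, ?_⟩
      · exact Fin.ext_iff.1 (h1 (Fin.ext he))
      · rw [adjM_matrix P ⟨i, hi⟩ ⟨j, hj⟩, h2]
        rfl
    · rw [hr]
      intro v hv
      obtain ⟨i, hi⟩ := h3 ⟨v, hv⟩
      refine ⟨i, i.2, fun w hw => ?_⟩
      rw [hL i i.2]
      have := hi ⟨w, hw⟩
      rw [Fin.ext_iff, Fin.ext_iff] at this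
      exact this
  · rintro ⟨L, -, h1, h2, h3⟩
    rw [hr] at h1 h2 h3
    refine ⟨fun i => ⟨L.getD i 0, h1 i i.2⟩, fun i j hij => ?_, fun i j => ?_, fun v => ?_⟩
    · exact Fin.ext ((h2 i i.2 j j.2).1 (Fin.ext_iff.1 hij))
    · rw [← adjM_matrix]
      exact (h2 i i.2 j j.2).2
    · obtain ⟨i, hi, hi'⟩ := h3 v v.2
      refine ⟨⟨i, hi⟩, fun w => ?_⟩
      have := hi' w w.2
      rw [Fin.ext_iff, Fin.ext_iff]
      exact this

theorem recS_iff (k : ℕ) : ∃ F : List (ℕ × List (List Bool)), ∀ M, RecS k M ↔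
    ValidM M ∧ (∃ L ∈ tuplesLe M.length k, SplitM M L) ∧
      ∃ P ∈ F, ∃ L ∈ tuplesLe M.length P.1, ExtM P.2 M L := by
  classical
  obtain ⟨F, hF⟩ := exists_char k
  refine ⟨F.toList.map fun P => (P.1, matrix P.2), fun M => ?_⟩
  unfold RecS
  rw [graphM_iff (fun n G => SplitLe k G ∧ IsCliqueGraph G)]
  constructor
  · rintro ⟨h, h1, h2⟩
    refine ⟨h, (splitLe_iff h).1 h1, ?_⟩
    obtain ⟨P, hP, hP'⟩ := (hF _ _ h1).1 h2
    exact ⟨_, List.mem_map.2 ⟨P, Finset.mem_toList.2 hP, rfl⟩, (ext_iff P.2 h).1 hP'⟩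
  · rintro ⟨h, h1, P, hP, hP'⟩
    obtain ⟨P', hP1, rfl⟩ := List.mem_map.1 hP
    have h1' := (splitLe_iff h).2 h1
    exact ⟨h, h1', (hF _ _ h1').2 ⟨P', Finset.mem_toList.1 hP1, (ext_iff P'.2 h).2 hP'⟩⟩

/-! ### Polynomial time -/

theorem pp_splitM : PP (fun p : List (List Bool) × List ℕ => SplitM p.1 p.2) := by
  refine PP.and ?_ (PP.and ?_ ?_)
  · refine PP.ball (l := fun p : List (List Bool) × List ℕ => p.2) (by fun_prop)
      (PP.ball (l := fun p : (List (List Bool) × List ℕ) × ℕ => p.1.2) (by fun_prop) (PP.not ?_))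
    exact pAdj (g := fun p : ((List (List Bool) × List ℕ) × ℕ) × ℕ => p.1.1.1) (by fun_prop)
      (by fun_prop) (by fun_prop)
  · refine pAllL (g := fun p : List (List Bool) × List ℕ => p.1) (by fun_prop) (pImp (PP.not
      (PP.mem (by fun_prop) (by fun_prop)))
      (pAllL (g := fun p : (List (List Bool) × List ℕ) × ℕ => p.1.1) (by fun_prop)
        (pImp (PP.not (PP.mem (by fun_prop) (by fun_prop)))
          (pImp (PP.ne (by fun_prop) (by fun_prop)) ?_))))
    exact pAdj (g := fun p : ((List (List Bool) × List ℕ) × ℕ) × ℕ => p.1.1.1) (by fun_prop)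
      (by fun_prop) (by fun_prop)
  · refine pAllL (g := fun p : List (List Bool) × List ℕ => p.1) (by fun_prop) (pImp (PP.not
      (PP.mem (by fun_prop) (by fun_prop)))
      (PP.bex (l := fun p : (List (List Bool) × List ℕ) × ℕ => p.1.2) (by fun_prop) ?_))
    exact pAdj (g := fun p : ((List (List Bool) × List ℕ) × ℕ) × ℕ => p.1.1.1) (by fun_prop)
      (by fun_prop) (by fun_prop)

theorem pp_extM (P : List (List Bool)) :
    PP (fun p : List (List Bool) × List ℕ => ExtM P p.1 p.2) := by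
  refine PP.and ?_ (PP.and ?_ ?_)
  · exact pAllL (g := fun p : List (List Bool) × List ℕ => P) (NPC.Poly.const _)
      (PP.lt (by fun_prop) (by fun_prop))
  · refine pAllL (g := fun p : List (List Bool) × List ℕ => P) (NPC.Poly.const _)
      (pAllL (g := fun p : (List (List Bool) × List ℕ) × ℕ => P) (NPC.Poly.const _)
        (PP.and (pImp (PP.eq (by fun_prop) (by fun_prop)) (PP.eq (by fun_prop) (by fun_prop)))
          (pIff ?_ ?_)))
    · exact pAdj (g := fun p : ((List (List Bool) × List ℕ) × ℕ) × ℕ => P) (NPC.Poly.const _)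
        (by fun_prop) (by fun_prop)
    · exact pAdj (g := fun p : ((List (List Bool) × List ℕ) × ℕ) × ℕ => p.1.1.1) (by fun_prop)
        (by fun_prop) (by fun_prop)
  · refine pAllL (g := fun p : List (List Bool) × List ℕ => p.1) (by fun_prop)
      (pExL (g := fun p : (List (List Bool) × List ℕ) × ℕ => P) (NPC.Poly.const _)
        (pAllL (g := fun p : ((List (List Bool) × List ℕ) × ℕ) × ℕ => p.1.1.1) (by fun_prop)
          (pIff (PP.or (PP.eq (by fun_prop) (by fun_prop)) ?_)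
            (PP.or (PP.eq (by fun_prop) (by fun_prop)) ?_))))
    · exact pAdj (g := fun p : (((List (List Bool) × List ℕ) × ℕ) × ℕ) × ℕ => p.1.1.1.1)
        (by fun_prop) (by fun_prop) (by fun_prop)
    · exact pAdj (g := fun p : (((List (List Bool) × List ℕ) × ℕ) × ℕ) × ℕ => p.1.1.1.1)
        (by fun_prop) (by fun_prop) (by fun_prop)

theorem pp_false {α : Type} [TEnc α] : PP (fun _ : α => False) :=
  ⟨fun _ => false, NPC.Poly.const _, fun _ => by simp⟩

theorem pp_bexConst {α β : Type} [TEnc α] (F : List β) {p : β → α → Prop}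
    (h : ∀ b, PP (p b)) : PP (fun a => ∃ b ∈ F, p b a) := by
  induction F with
  | nil => exact pp_false.congr fun a => by simp
  | cons b F ih => exact ((h b).or ih).congr fun a => by simp

/-- `REC_S(k)` is in P for every fixed `k`. -/
theorem inPP_recS (k : ℕ) : InPP (RecS k) := by
  obtain ⟨F, hF⟩ := recS_iff k
  refine inPP_of_PP (PP.congr ?_ fun M => (hF M).symm)
  have hlen : UPoly (fun M : List (List Bool) => M.length) := UPoly.length NPC.Poly.id
  refine PP.and pp_validM (PP.and ?_ ?_)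
  · exact PP.bex (l := fun M : List (List Bool) => tuplesLe M.length k) (poly_tuplesLe k hlen)
      pp_splitM
  · exact pp_bexConst F fun P => PP.bex (l := fun M : List (List Bool) => tuplesLe M.length P.1)
      (poly_tuplesLe P.1 hlen) (pp_extM P.2)

end Pool.Agent.V11227.SC
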