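import Mathlib

/-!
Cubes in dense sets of natural numbers and subspaces in dense sets of groups of exponent two.
-/

set_option autoImplicit false

namespace Pool.Agent.V11227.SumCol

open Finset

/-- number of increasing pairs, counted by differences -/
lemma sum_diff (N : ℕ) (S : Finset ℕ) (hS : S ⊆ range N) :
    ∑ h ∈ Ico 1 N, (S.filter fun s => s + h ∈ S).card =
      ((S ×ˢ S).filter fun p => p.1 < p.2).card := by
  classical
  have h1 : ((S ×ˢ S).filter fun p => p.1 < p.2) =
      (Ico 1 N).biUnion fun h => (S.filter fun s => s + h ∈ S).image fun s => (s, s + h) := by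
    ext ⟨a, b⟩
    simp only [mem_filter, mem_product, mem_biUnion, mem_Ico, mem_image, Prod.mk.injEq]
    constructor
    · rintro ⟨⟨ha, hb⟩, hab⟩
      refine ⟨b - a, ⟨by omega, ?_⟩, a, ⟨ha, ?_⟩, rfl, by omega⟩
      · have := mem_range.1 (hS hb)
        omega
      · rwa [show a + (b - a) = b by omega]
    · rintro ⟨h, ⟨h1, -⟩, s, ⟨hs, hsh⟩, rfl, rfl⟩
      exact ⟨⟨hs, hsh⟩, by omega⟩
  rw [h1, card_biUnion]
  · refine sum_congr rfl fun h _ => ?_
    rw [card_image_of_injective]
    intro a b hab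
    exact (Prod.mk.inj hab).1
  · intro a _ b _ hab
    rw [Function.onFun, disjoint_left]
    rintro ⟨x, y⟩ hx hy
    simp only [mem_image, mem_filter, Prod.mk.injEq] at hx hy
    obtain ⟨s, -, rfl, h2⟩ := hx
    obtain ⟨s', -, rfl, h3⟩ := hy
    omega

lemma card_lt_pairs (S : Finset ℕ) :
    2 * ((S ×ˢ S).filter fun p => p.1 < p.2).card = S.card * S.card - S.card := by
  classical
  have h1 : S.offDiag = ((S ×ˢ S).filter fun p => p.1 < p.2) ∪
      ((S ×ˢ S).filter fun p => p.2 < p.1) := by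
    ext ⟨a, b⟩
    simp only [mem_offDiag, mem_union, mem_filter, mem_product]
    constructor
    · rintro ⟨ha, hb, hab⟩
      rcases Nat.lt_or_gt_of_ne hab with h | h
      · exact Or.inl ⟨⟨ha, hb⟩, h⟩
      · exact Or.inr ⟨⟨ha, hb⟩, h⟩
    · rintro (⟨⟨ha, hb⟩, h⟩ | ⟨⟨ha, hb⟩, h⟩)
      · exact ⟨ha, hb, by simpa using h.ne⟩
      · exact ⟨ha, hb, by simpa using h.ne'⟩
  have h2 : ((S ×ˢ S).filter fun p => p.2 < p.1).card =
      ((S ×ˢ S).filter fun p => p.1 < p.2).card := by
    refine card_bij (fun p _ => (p.2, p.1)) ?_ ?_ ?_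
    · rintro ⟨a, b⟩ h
      simp only [mem_filter, mem_product] at h ⊢
      exact ⟨⟨h.1.2, h.1.1⟩, h.2⟩
    · rintro ⟨a, b⟩ _ ⟨c, d⟩ _ h
      simp only [Prod.mk.injEq] at h ⊢
      exact ⟨h.2, h.1⟩
    · rintro ⟨a, b⟩ h
      simp only [mem_filter, mem_product] at h
      exact ⟨(b, a), by simp only [mem_filter, mem_product]; exact ⟨⟨h.1.2, h.1.1⟩, h.2⟩, rfl⟩
  have h3 : Disjoint ((S ×ˢ S).filter fun p => p.1 < p.2)
      ((S ×ˢ S).filter fun p => p.2 < p.1) := by
    rw [disjoint_left]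
    rintro ⟨a, b⟩ h h'
    simp only [mem_filter] at h h'
    omega
  have h4 := offDiag_card S
  rw [h1, card_union_of_disjoint h3, h2] at h4
  omega

/-- a popular difference outside of a given set -/
lemma step (N n : ℕ) (S E : Finset ℕ) (hS : S ⊆ range N) (hE : E.card ≤ n)
    (hc : 2 * (2 * n + 1) ≤ S.card) :
    ∃ h, 1 ≤ h ∧ h ∉ E ∧ S.card * S.card ≤ 4 * N * (S.filter fun s => s + h ∈ S).card := by
  classical
  by_contra hno
  push Not at hno
  have h1 := sum_diff N S hS
  have h2 := card_lt_pairs S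
  set s := S.card with hs
  have hsum : ∑ h ∈ Ico 1 N, (S.filter fun s => s + h ∈ S).card ≤
      (∑ h ∈ (Ico 1 N).filter (fun h => h ∉ E), (S.filter fun s => s + h ∈ S).card) + n * s := by
    rw [← sum_filter_add_sum_filter_not (Ico 1 N) (fun h => h ∉ E)]
    refine Nat.add_le_add_left ?_ _
    calc ∑ h ∈ (Ico 1 N).filter (fun h => ¬ h ∉ E), (S.filter fun s => s + h ∈ S).card
        ≤ ∑ h ∈ (Ico 1 N).filter (fun h => ¬ h ∉ E), s :=
          sum_le_sum fun h _ => card_filter_le _ _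
      _ = ((Ico 1 N).filter (fun h => ¬ h ∉ E)).card * s := by rw [sum_const, smul_eq_mul]
      _ ≤ n * s := by
          refine Nat.mul_le_mul_right _ (le_trans (card_le_card ?_) hE)
          intro h hh
          simpa using (mem_filter.1 hh).2
  have hN : 1 ≤ N := by
    rcases Nat.eq_zero_or_pos N with h | h
    · subst h
      have : s = 0 := by
        rw [hs, card_eq_zero]
        simpa using hS
      omega
    · exact h
  have hup : 4 * N * (∑ h ∈ (Ico 1 N).filter (fun h => h ∉ E),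
      (S.filter fun s => s + h ∈ S).card) ≤ N * (s * s) := by
    rw [mul_sum]
    calc ∑ h ∈ (Ico 1 N).filter (fun h => h ∉ E), 4 * N * (S.filter fun s => s + h ∈ S).card
        ≤ ∑ h ∈ (Ico 1 N).filter (fun h => h ∉ E), (s * s - 1) := by
          refine sum_le_sum fun h hh => ?_
          have := hno h (mem_Ico.1 (mem_filter.1 hh).1).1 (mem_filter.1 hh).2
          omega
      _ = ((Ico 1 N).filter (fun h => h ∉ E)).card * (s * s - 1) := by
          rw [sum_const, smul_eq_mul]
      _ ≤ (N - 1) * (s * s - 1) := by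
          refine Nat.mul_le_mul_right _ (le_trans (card_filter_le _ _) ?_)
          rw [Nat.card_Ico]
      _ ≤ N * (s * s) := Nat.mul_le_mul (by omega) (by omega)
  have hup' : 4 * N * (∑ h ∈ (Ico 1 N).filter (fun h => h ∉ E),
      (S.filter fun s => s + h ∈ S).card) ≤ (N - 1) * (s * s - 1) := by
    rw [mul_sum]
    calc ∑ h ∈ (Ico 1 N).filter (fun h => h ∉ E), 4 * N * (S.filter fun s => s + h ∈ S).card
        ≤ ∑ h ∈ (Ico 1 N).filter (fun h => h ∉ E), (s * s - 1) := by
          refine sum_le_sum fun h hh => ?_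
          have := hno h (mem_Ico.1 (mem_filter.1 hh).1).1 (mem_filter.1 hh).2
          omega
      _ = ((Ico 1 N).filter (fun h => h ∉ E)).card * (s * s - 1) := by
          rw [sum_const, smul_eq_mul]
      _ ≤ (N - 1) * (s * s - 1) := by
          refine Nat.mul_le_mul_right _ (le_trans (card_filter_le _ _) ?_)
          rw [Nat.card_Ico]
  -- lower bound
  set P := ((S ×ˢ S).filter fun p => p.1 < p.2).card
  set Q := ∑ h ∈ (Ico 1 N).filter (fun h => h ∉ E), (S.filter fun s => s + h ∈ S).card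
  have h3 : P ≤ Q + n * s := by rw [← h1]; exact hsum
  have hs1 : 1 ≤ s := by omega
  have h5 : s ≤ s * s := by nlinarith
  have h4 : s * s ≤ 2 * Q + 2 * (n * s) + s := by omega
  have h6 : 2 * (2 * n + 1) * s ≤ s * s := Nat.mul_le_mul_right _ hc
  have h7 : s * s ≤ 4 * Q := by nlinarith
  have h8 : N * (s * s) ≤ (N - 1) * (s * s - 1) := by
    calc N * (s * s) ≤ N * (4 * Q) := Nat.mul_le_mul_left _ h7
      _ = 4 * N * Q := by ring
      _ ≤ _ := hup'
  have h9 : (N - 1) * (s * s - 1) < N * (s * s) := by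
    have : (N - 1) * (s * s - 1) ≤ (N - 1) * (s * s) := Nat.mul_le_mul_left _ (by omega)
    have h10 : (N - 1) * (s * s) < N * (s * s) := by
      apply Nat.mul_lt_mul_of_pos_right (by omega)
      nlinarith
    omega
  omega

/-- cubes in dense sets -/
lemma cube (N n : ℕ) (hN : 0 < N) : ∀ (t : ℕ) (S E : Finset ℕ), S ⊆ range N → E.card + t ≤ n →
    2 * (2 * n + 1) * (4 * N) ^ (2 ^ t - 1) ≤ S.card ^ 2 ^ t →
    ∃ (b : ℕ) (H : Finset ℕ), H.card = t ∧ (∀ h ∈ H, 1 ≤ h ∧ h ∉ E) ∧
      ∀ T ⊆ H, b + ∑ h ∈ T, h ∈ S := by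
  classical
  intro t
  induction t with
  | zero =>
    intro S E hS hE hc
    have h1 : 0 < S.card := by
      simp only [pow_zero, Nat.sub_self, mul_one, pow_one] at hc
      omega
    obtain ⟨b, hb⟩ := card_pos.1 h1
    refine ⟨b, ∅, rfl, by simp, fun T hT => ?_⟩
    rw [subset_empty.1 hT]
    simpa using hb
  | succ t ih =>
    intro S E hS hE hc
    have hSN : S.card ≤ N := by simpa using card_le_card hS
    have hpow : 2 ^ (t + 1) - 1 = (2 ^ t - 1) + 2 ^ t := by
      have : 1 ≤ 2 ^ t := Nat.one_le_two_pow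
      rw [pow_succ]
      omega
    have hK : 2 * (2 * n + 1) ≤ S.card := by
      by_contra hlt
      push Not at hlt
      have h1 : S.card ^ 2 ^ (t + 1) ≤ S.card * (4 * N) ^ (2 ^ (t + 1) - 1) := by
        have h2 : 2 ^ (t + 1) = (2 ^ (t + 1) - 1) + 1 := by
          have : 1 ≤ 2 ^ (t + 1) := Nat.one_le_two_pow
          omega
        calc S.card ^ 2 ^ (t + 1) = S.card ^ ((2 ^ (t + 1) - 1) + 1) := by rw [← h2]
          _ = S.card * S.card ^ (2 ^ (t + 1) - 1) := by rw [pow_succ, mul_comm]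
          _ ≤ _ := Nat.mul_le_mul_left _ (Nat.pow_le_pow_left (by omega) _)
      have h3 : 0 < (4 * N) ^ (2 ^ (t + 1) - 1) := by positivity
      have h4 := lt_of_lt_of_le (Nat.mul_lt_mul_of_pos_right hlt h3) (hc.trans h1)
      exact lt_irrefl _ h4
    obtain ⟨h, hh1, hhE, hh2⟩ := step N n S E hS (by omega) hK
    set S' := S.filter fun s => s + h ∈ S with hS'
    have hc' : 2 * (2 * n + 1) * (4 * N) ^ (2 ^ t - 1) ≤ S'.card ^ 2 ^ t := by
      have h3 : 2 * (2 * n + 1) * (4 * N) ^ (2 ^ t - 1) * (4 * N) ^ 2 ^ t ≤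
          S'.card ^ 2 ^ t * (4 * N) ^ 2 ^ t := by
        calc 2 * (2 * n + 1) * (4 * N) ^ (2 ^ t - 1) * (4 * N) ^ 2 ^ t
            = 2 * (2 * n + 1) * (4 * N) ^ (2 ^ (t + 1) - 1) := by rw [hpow, pow_add]; ring
          _ ≤ S.card ^ 2 ^ (t + 1) := hc
          _ = (S.card * S.card) ^ 2 ^ t := by rw [← pow_two, ← pow_mul, pow_succ, mul_comm]
          _ ≤ (4 * N * S'.card) ^ 2 ^ t := Nat.pow_le_pow_left hh2 _
          _ = S'.card ^ 2 ^ t * (4 * N) ^ 2 ^ t := by rw [mul_pow, mul_comm]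
      exact Nat.le_of_mul_le_mul_right h3 (by positivity)
    obtain ⟨b, H, hH1, hH2, hH3⟩ := ih S' (insert h E) ((filter_subset _ _).trans hS)
      (by rw [card_insert_of_notMem hhE]; omega) hc'
    have hhH : h ∉ H := fun hm => (hH2 h hm).2 (mem_insert_self _ _)
    refine ⟨b, insert h H, by rw [card_insert_of_notMem hhH, hH1], ?_, ?_⟩
    · intro x hx
      rcases mem_insert.1 hx with rfl | hx
      · exact ⟨hh1, hhE⟩
      · exact ⟨(hH2 x hx).1, fun hm => (hH2 x hx).2 (mem_insert_of_mem hm)⟩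
    · intro T hT
      by_cases hhT : h ∈ T
      · have h5 : T.erase h ⊆ H := by
          intro x hx
          have := hT (mem_of_mem_erase hx)
          rcases mem_insert.1 this with h6 | h6
          · exact absurd h6 (ne_of_mem_erase hx)
          · exact h6
        have h7 := (mem_filter.1 (hH3 _ h5)).2
        rw [← sum_erase_add _ _ hhT, ← add_assoc]
        exact h7
      · have h5 : T ⊆ H := by
          intro x hx
          rcases mem_insert.1 (hT hx) with h6 | h6
          · exact absurd (h6 ▸ hx) hhT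
          · exact h6
        exact (mem_filter.1 (hH3 _ h5)).1

/-- the largest colour class -/
lemma exists_class {α C : Type*} [Fintype C] [DecidableEq C] [Nonempty C] (A : Finset α)
    (f : α → C) : ∃ c, A.card ≤ Fintype.card C * (A.filter fun x => f x = c).card := by
  classical
  by_contra hno
  push Not at hno
  have h1 : A.card = ∑ c : C, (A.filter fun x => f x = c).card :=
    card_eq_sum_card_fiberwise (fun x _ => mem_univ (f x))
  have h2 : ∑ c : C, Fintype.card C * (A.filter fun x => f x = c).card < ∑ _c : C, A.card :=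
    sum_lt_sum_of_nonempty univ_nonempty fun c _ => hno c
  rw [← mul_sum, ← h1, sum_const, smul_eq_mul, card_univ] at h2
  exact lt_irrefl _ h2

lemma bound_aux (n : ℕ) : 2 * (2 * n + 1) * 4 ^ (2 ^ n - 1) ≤ 8 ^ 2 ^ n := by
  have h1 : 2 * (2 * n + 1) ≤ 4 * 2 ^ 2 ^ n := by
    have h2 : n + 1 ≤ 2 ^ n := Nat.lt_two_pow_self
    have h3 : 2 ^ n < 2 ^ 2 ^ n := Nat.lt_two_pow_self
    omega
  have h4 : 1 ≤ 2 ^ n := Nat.one_le_two_pow
  calc 2 * (2 * n + 1) * 4 ^ (2 ^ n - 1) ≤ 4 * 2 ^ 2 ^ n * 4 ^ (2 ^ n - 1) :=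
        Nat.mul_le_mul_right _ h1
    _ = 2 ^ 2 ^ n * (4 ^ (2 ^ n - 1) * 4) := by ring
    _ = 2 ^ 2 ^ n * 4 ^ 2 ^ n := by rw [← pow_succ, Nat.sub_add_cancel h4]
    _ = 8 ^ 2 ^ n := by rw [← mul_pow]; norm_num

/-- monochromatic cubes with different steps -/
lemma mono_cube {C : Type*} [Fintype C] [DecidableEq C] [Nonempty C] (N n : ℕ)
    (hN : (8 * Fintype.card C) ^ 2 ^ n ≤ N) (f : ℕ → C) :
    ∃ (c : C) (b : ℕ) (H : Finset ℕ), H.card = n ∧ (∀ h ∈ H, 1 ≤ h) ∧
      ∀ T ⊆ H, b + ∑ h ∈ T, h < N ∧ f (b + ∑ h ∈ T, h) = c := by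
  classical
  obtain ⟨c, hc⟩ := exists_class (range N) f
  rw [card_range] at hc
  set q := Fintype.card C with hq
  have hq0 : 0 < q := Fintype.card_pos
  have hN0 : 0 < N := lt_of_lt_of_le (by positivity) hN
  set S := (range N).filter fun x => f x = c with hS
  have h4 : 1 ≤ 2 ^ n := Nat.one_le_two_pow
  have hcond : 2 * (2 * n + 1) * (4 * N) ^ (2 ^ n - 1) ≤ S.card ^ 2 ^ n := by
    have h1 : (2 * (2 * n + 1) * (4 * N) ^ (2 ^ n - 1)) * q ^ 2 ^ n ≤
        S.card ^ 2 ^ n * q ^ 2 ^ n := by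
      calc (2 * (2 * n + 1) * (4 * N) ^ (2 ^ n - 1)) * q ^ 2 ^ n
          = (2 * (2 * n + 1) * 4 ^ (2 ^ n - 1)) * q ^ 2 ^ n * N ^ (2 ^ n - 1) := by
            rw [mul_pow]; ring
        _ ≤ 8 ^ 2 ^ n * q ^ 2 ^ n * N ^ (2 ^ n - 1) :=
            Nat.mul_le_mul_right _ (Nat.mul_le_mul_right _ (bound_aux n))
        _ = (8 * q) ^ 2 ^ n * N ^ (2 ^ n - 1) := by rw [mul_pow]
        _ ≤ N * N ^ (2 ^ n - 1) := Nat.mul_le_mul_right _ hN
        _ = N ^ 2 ^ n := by rw [← pow_succ', Nat.sub_add_cancel h4]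
        _ ≤ (q * S.card) ^ 2 ^ n := Nat.pow_le_pow_left hc _
        _ = S.card ^ 2 ^ n * q ^ 2 ^ n := by rw [mul_pow, mul_comm]
    exact Nat.le_of_mul_le_mul_right h1 (by positivity)
  obtain ⟨b, H, hH1, hH2, hH3⟩ := cube N n hN0 n S ∅ (filter_subset _ _) (by simp) hcond
  refine ⟨c, b, H, hH1, fun h hh => (hH2 h hh).1, fun T hT => ?_⟩
  have := mem_filter.1 (hH3 T hT)
  exact ⟨mem_range.1 this.1, this.2⟩

/-- **Sums.** -/
theorem sums {C : Type*} [Fintype C] [DecidableEq C] [Nonempty C] (r n N : ℕ) (hr : 1 ≤ r)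
    (hN : r * (8 * Fintype.card C) ^ 2 ^ n ≤ N) (f : ℕ → C) :
    ∃ (c : C) (X : Finset ℕ), X ⊆ range N ∧ X.card = n ∧
      ∀ x : Fin r → ℕ, Function.Injective x → (∀ i, x i ∈ X) → f (∑ i, x i) = c := by
  classical
  have hM : (8 * Fintype.card C) ^ 2 ^ n ≤ N / r :=
    (Nat.le_div_iff_mul_le hr).2 (by rw [mul_comm]; exact hN)
  obtain ⟨c, b, H, hH1, hH2, hH3⟩ := mono_cube (N / r) n hM fun x => f (r * x)
  refine ⟨c, H.image fun h => b + r * h, ?_, ?_, ?_⟩
  · intro y hy
    obtain ⟨h, hh, rfl⟩ := mem_image.1 hy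
    have h1 := (hH3 {h} (by simpa using hh)).1
    rw [sum_singleton] at h1
    rw [mem_range]
    have h2 : r * (b + h) < r * (N / r) := Nat.mul_lt_mul_of_pos_left h1 hr
    have h3 : r * (N / r) ≤ N := Nat.mul_div_le N r
    have h4 : b ≤ r * b := Nat.le_mul_of_pos_left b hr
    have h5 : r * (b + h) = r * b + r * h := by ring
    omega
  · rw [card_image_of_injective _ ?_, hH1]
    intro a a' haa
    have h1 : r * a = r * a' := by simpa using haa
    exact Nat.eq_of_mul_eq_mul_left hr h1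
  · intro x hx hxX
    have h1 : ∀ i, ∃ h ∈ H, b + r * h = x i := fun i => by
      simpa using hxX i
    choose u hu hux using h1
    have huinj : Function.Injective u := by
      intro i j hij
      apply hx
      rw [← hux i, ← hux j, hij]
    have h2 : ∑ i, x i = r * (b + ∑ h ∈ univ.image u, h) := by
      rw [sum_image (fun i _ j _ hij => huinj hij)]
      calc ∑ i, x i = ∑ i, (b + r * u i) := sum_congr rfl fun i _ => (hux i).symm
        _ = r * (b + ∑ i, u i) := by
          rw [sum_add_distrib, ← mul_sum, sum_const, card_univ, Fintype.card_fin, smul_eq_mul]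
          ring
    rw [h2]
    exact (hH3 _ (by
      intro y hy
      obtain ⟨i, -, rfl⟩ := mem_image.1 hy
      exact hu i)).2

/-- alternating sums of partial sums are subset sums -/
lemma alt_subset (b : ℕ) (g : ℕ → ℕ) : ∀ (m : ℕ) (j : ℕ → ℕ),
    (∀ i < 2 * m, j i < j (i + 1)) → ∃ U : Finset ℕ, U ⊆ range (j (2 * m) + 1) ∧
      ∑ i ∈ range (2 * m + 1), (-1 : ℤ) ^ i * ((b + ∑ t ∈ range (j i + 1), g t : ℕ) : ℤ) =
        ((b + ∑ t ∈ U, g t : ℕ) : ℤ) := by
  classical
  intro m
  induction m with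
  | zero =>
    intro j _
    exact ⟨range (j 0 + 1), subset_rfl, by simp⟩
  | succ m ih =>
    intro j hj
    obtain ⟨U, hU, hs⟩ := ih j fun i hi => hj i (by omega)
    have h1 := hj (2 * m) (by omega)
    have h2 : j (2 * m + 1) < j (2 * m + 2) := hj (2 * m + 1) (by omega)
    refine ⟨U ∪ Ioc (j (2 * m + 1)) (j (2 * m + 2)), ?_, ?_⟩
    · intro x hx
      rw [show 2 * (m + 1) = 2 * m + 2 by ring]
      rcases mem_union.1 hx with h | h
      · have := mem_range.1 (hU h)
        exact mem_range.2 (by omega)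
      · have := mem_Ioc.1 h
        exact mem_range.2 (by omega)
    · have hdis : Disjoint U (Ioc (j (2 * m + 1)) (j (2 * m + 2))) := by
        rw [disjoint_left]
        intro x hx hx'
        have := mem_range.1 (hU hx)
        have := mem_Ioc.1 hx'
        omega
      have hP : ∑ t ∈ range (j (2 * m + 2) + 1), g t = ∑ t ∈ range (j (2 * m + 1) + 1), g t +
          ∑ t ∈ Ioc (j (2 * m + 1)) (j (2 * m + 2)), g t := by
        rw [← sum_union]
        · congr 1
          ext x
          simp only [mem_range, mem_union, mem_Ioc]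
          omega
        · rw [disjoint_left]
          intro x hx hx'
          simp only [mem_range, mem_Ioc] at hx hx'
          omega
      rw [show 2 * (m + 1) + 1 = 2 * m + 1 + 1 + 1 by ring, sum_range_succ, sum_range_succ, hs,
        sum_union hdis, show 2 * m + 1 + 1 = 2 * m + 2 by ring, hP, pow_succ, pow_mul]
      rw [show 2 * m + 2 = 2 * (m + 1) by ring, pow_mul]
      push_cast
      norm_num
      ring

/-- **Alternating sums**, with unary information about the vertices. -/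
theorem alternating {C K : Type*} [Fintype C] [DecidableEq C] [Nonempty C] [Fintype K]
    [DecidableEq K] [Nonempty K] (m n N : ℕ)
    (hN : (8 * (Fintype.card C * Fintype.card K)) ^ 2 ^ n ≤ N) (κ : ℕ → K)
    (Φ : ℤ → (Fin (2 * m + 1) → K) → C) :
    ∃ (c : C) (X : Finset ℕ), X ⊆ range N ∧ X.card = n ∧
      ∀ x : Fin (2 * m + 1) → ℕ, StrictMono x → (∀ i, x i ∈ X) →
        Φ (∑ i : Fin (2 * m + 1), (-1 : ℤ) ^ (i : ℕ) * (x i : ℤ)) (fun i => κ (x i)) = c := by
  classical
  obtain ⟨⟨c, k⟩, b, H, hH1, hH2, hH3⟩ := mono_cube (C := C × K) N n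
    (by rw [Fintype.card_prod]; exact hN) fun x => (Φ (x : ℤ) (fun _ => κ x), κ x)
  let e := (H.orderIsoOfFin hH1)
  let g : ℕ → ℕ := fun t => if h : t < n then (e ⟨t, h⟩ : ℕ) else 0
  have hg : ∀ t, t < n → g t ∈ H := fun t ht => by
    simp only [g, dif_pos ht]
    exact (e ⟨t, ht⟩).2
  have hginj : ∀ t, t < n → ∀ t', t' < n → g t = g t' → t = t' := fun t ht t' ht' h => by
    simp only [g, dif_pos ht, dif_pos ht'] at h
    have h1 := e.injective (Subtype.ext h)
    simpa using h1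
  have hcube : ∀ U ⊆ range n, b + ∑ t ∈ U, g t < N ∧
      Φ ((b + ∑ t ∈ U, g t : ℕ) : ℤ) (fun _ => κ (b + ∑ t ∈ U, g t)) = c ∧
      κ (b + ∑ t ∈ U, g t) = k := by
    intro U hU
    have h1 : ∑ h ∈ U.image g, h = ∑ t ∈ U, g t := by
      rw [sum_image]
      intro t ht t' ht' h
      exact hginj t (mem_range.1 (hU ht)) t' (mem_range.1 (hU ht')) h
    have h2 := hH3 (U.image g) (by
      intro y hy
      obtain ⟨t, ht, rfl⟩ := mem_image.1 hy
      exact hg t (mem_range.1 (hU ht)))
    rw [h1, Prod.mk.injEq] at h2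
    exact h2
  let P : ℕ → ℕ := fun j => b + ∑ t ∈ range (j + 1), g t
  have hPmono : ∀ i j, i < j → j < n → P i < P j := by
    intro i j hij hj
    have h1 : ∑ t ∈ range (j + 1), g t = ∑ t ∈ range (i + 1), g t + ∑ t ∈ Ioc i j, g t := by
      rw [← sum_union]
      · congr 1
        ext x
        simp only [mem_range, mem_union, mem_Ioc]
        omega
      · rw [disjoint_left]
        intro x hx hx'
        simp only [mem_range, mem_Ioc] at hx hx'
        omega
    have h2 : g j ≤ ∑ t ∈ Ioc i j, g t :=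
      single_le_sum (f := g) (fun _ _ => Nat.zero_le _) (mem_Ioc.2 ⟨hij, le_rfl⟩)
    have h3 := hH2 _ (hg j hj)
    simp only [P]
    omega
  have hPlt : ∀ i j, i < n → j < n → P i < P j → i < j := by
    intro i j hi hj h
    by_contra hc
    rcases Nat.lt_or_ge j i with h1 | h1
    · exact absurd (hPmono j i h1 hi) (by omega)
    · have : i = j := by omega
      subst this
      exact lt_irrefl _ h
  refine ⟨c, (range n).image P, ?_, ?_, ?_⟩
  · intro y hy
    obtain ⟨j, hj, rfl⟩ := mem_image.1 hy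
    exact mem_range.2 (hcube _ (range_subset_range.2 (mem_range.1 hj))).1
  · rw [card_image_of_injOn, card_range]
    intro i hi j hj h
    rw [coe_range, Set.mem_Iio] at hi hj
    by_contra hne
    rcases Nat.lt_or_gt_of_ne hne with h1 | h1
    · exact absurd (hPmono i j h1 hj) (by omega)
    · exact absurd (hPmono j i h1 hi) (by omega)
  · intro x hx hxX
    have h1 : ∀ i, ∃ j, j < n ∧ P j = x i := fun i => by
      simpa using hxX i
    choose u hu hux using h1
    let j : ℕ → ℕ := fun i => if h : i < 2 * m + 1 then u ⟨i, h⟩ else 0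
    have hj : ∀ i (h : i < 2 * m + 1), j i = u ⟨i, h⟩ := fun i h => dif_pos h
    have hjm : ∀ i < 2 * m, j i < j (i + 1) := by
      intro i hi
      rw [hj i (by omega), hj (i + 1) (by omega)]
      apply hPlt _ _ (hu _) (hu _)
      rw [hux, hux]
      exact hx (by simp [Fin.lt_def])
    obtain ⟨U, hU, hs⟩ := alt_subset b g m j hjm
    have hUn : U ⊆ range n := by
      intro y hy
      have h2 := mem_range.1 (hU hy)
      rw [hj (2 * m) (by omega)] at h2
      have := hu ⟨2 * m, by omega⟩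
      exact mem_range.2 (by omega)
    have hsum : ∑ i : Fin (2 * m + 1), (-1 : ℤ) ^ (i : ℕ) * (x i : ℤ) =
        ((b + ∑ t ∈ U, g t : ℕ) : ℤ) := by
      rw [← hs, ← Fin.sum_univ_eq_sum_range
        (fun i => (-1 : ℤ) ^ i * ((b + ∑ t ∈ range (j i + 1), g t : ℕ) : ℤ))]
      refine sum_congr rfl fun i _ => ?_
      rw [hj i i.2, ← hux i]
    have hκ : (fun i => κ (x i)) = fun _ => κ (b + ∑ t ∈ U, g t) := by
      funext i
      rw [← hux i, (hcube U hUn).2.2]
      exact (hcube (range (u i + 1)) (range_subset_range.2 (hu i))).2.2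
    rw [hsum, hκ]
    exact (hcube U hUn).2.1

end Pool.Agent.V11227.SumCol
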