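import Pool.Agent.V11227.SumCol

/-!
Monochromatic cosets of subgroups in groups of exponent two, with logarithmic size.
-/

set_option autoImplicit false

namespace Pool.Agent.V11227.SumCol

open Finset

variable {G : Type*} [AddCommGroup G] [Fintype G] [DecidableEq G]

lemma sum_diff_group (S : Finset G) :
    ∑ h : G, (S.filter fun s => s + h ∈ S).card = S.card * S.card := by
  classical
  have h1 : ∀ h : G, (S.filter fun s => s + h ∈ S).card = ∑ s ∈ S, if s + h ∈ S then 1 else 0 :=
    fun h => by rw [card_filter]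
  simp_rw [h1]
  rw [sum_comm]
  have h2 : ∀ s ∈ S, (∑ h : G, if s + h ∈ S then 1 else 0) = S.card := by
    intro s _
    rw [← card_filter]
    refine card_bij (fun h _ => s + h) ?_ ?_ ?_
    · intro h hh
      exact (mem_filter.1 hh).2
    · intro a _ b _ hab
      exact add_left_cancel hab
    · intro y hy
      refine ⟨y - s, ?_, by abel⟩
      simp only [mem_filter, mem_univ, true_and]
      rwa [add_sub_cancel]
  rw [sum_congr rfl h2, sum_const, smul_eq_mul]

lemma stepG (S E : Finset G) (hc : 2 * E.card ≤ S.card) (hS : 0 < S.card) :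
    ∃ h, h ∉ E ∧ S.card * S.card ≤
      2 * Fintype.card G * (S.filter fun s => s + h ∈ S).card := by
  classical
  by_contra hno
  push Not at hno
  have h1 := sum_diff_group S
  set s := S.card with hs
  set M := Fintype.card G with hM
  rw [← sum_filter_add_sum_filter_not univ (fun h => h ∉ E)] at h1
  have h2 : ∑ h ∈ univ.filter (fun h => ¬ h ∉ E), (S.filter fun s => s + h ∈ S).card ≤
      E.card * s := by
    calc ∑ h ∈ univ.filter (fun h => ¬ h ∉ E), (S.filter fun s => s + h ∈ S).card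
        ≤ ∑ h ∈ univ.filter (fun h => ¬ h ∉ E), s := sum_le_sum fun h _ => card_filter_le _ _
      _ = (univ.filter (fun h => ¬ h ∉ E)).card * s := by rw [sum_const, smul_eq_mul]
      _ ≤ E.card * s := by
          refine Nat.mul_le_mul_right _ (card_le_card ?_)
          intro h hh
          simpa using (mem_filter.1 hh).2
  have hM0 : 0 < M := Fintype.card_pos_iff.2 ⟨0⟩
  have h3 : 2 * M * (∑ h ∈ univ.filter (fun h => h ∉ E), (S.filter fun s => s + h ∈ S).card) ≤
      M * (s * s - 1) := by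
    rw [mul_sum]
    calc ∑ h ∈ univ.filter (fun h => h ∉ E), 2 * M * (S.filter fun s => s + h ∈ S).card
        ≤ ∑ h ∈ univ.filter (fun h => h ∉ E), (s * s - 1) := by
          refine sum_le_sum fun h hh => ?_
          have := hno h (mem_filter.1 hh).2
          omega
      _ = (univ.filter (fun h => h ∉ E)).card * (s * s - 1) := by rw [sum_const, smul_eq_mul]
      _ ≤ M * (s * s - 1) := Nat.mul_le_mul_right _ (card_filter_le _ _)
  set Q := ∑ h ∈ univ.filter (fun h => h ∉ E), (S.filter fun s => s + h ∈ S).card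
  have h4 : s * s ≤ Q + E.card * s := by rw [← h1]; exact Nat.add_le_add_left h2 _
  have h5 : 2 * E.card * s ≤ s * s := Nat.mul_le_mul_right _ hc
  have h6 : s * s ≤ 2 * Q := by nlinarith
  have h7 : M * (s * s) ≤ M * (s * s - 1) := by
    calc M * (s * s) ≤ M * (2 * Q) := Nat.mul_le_mul_left _ h6
      _ = 2 * M * Q := by ring
      _ ≤ _ := h3
  have h8 : s * s ≤ s * s - 1 := Nat.le_of_mul_le_mul_left h7 hM0
  have h9 : 0 < s * s := Nat.mul_pos hS hS
  omega

/-- cosets of subgroups in dense sets -/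
lemma coset (h2 : ∀ x : G, x + x = 0) (d : ℕ) : ∀ (t u : ℕ) (S E : Finset G), u + t ≤ d →
    (0 : G) ∈ E → E.card ≤ 2 ^ u →
    2 * 2 ^ d * (2 * Fintype.card G) ^ (2 ^ t - 1) ≤ S.card ^ 2 ^ t →
    ∃ (b : G) (H : Finset G), H.card = 2 ^ t ∧ (0 : G) ∈ H ∧ (∀ x ∈ H, ∀ y ∈ H, x + y ∈ H) ∧
      (∀ x ∈ H, x ∈ E → x = 0) ∧ ∀ x ∈ H, b + x ∈ S := by
  classical
  intro t
  induction t with
  | zero =>
    intro u S E _ _ _ hc
    have h1 : 0 < S.card := by
      simp only [pow_zero, Nat.sub_self, mul_one, pow_one] at hc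
      have : 0 < 2 ^ d := by positivity
      omega
    obtain ⟨b, hb⟩ := card_pos.1 h1
    refine ⟨b, {0}, rfl, by simp, by simp, by simp, by simpa using hb⟩
  | succ t ih =>
    intro u S E hut hE0 hE hc
    have hSM : S.card ≤ Fintype.card G := card_le_univ S
    have hM0 : 0 < Fintype.card G := Fintype.card_pos_iff.2 ⟨0⟩
    have hpow : 2 ^ (t + 1) - 1 = (2 ^ t - 1) + 2 ^ t := by
      have : 1 ≤ 2 ^ t := Nat.one_le_two_pow
      rw [pow_succ]
      omega
    have hK : 2 * 2 ^ d ≤ S.card := by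
      by_contra hlt
      push Not at hlt
      have h1 : S.card ^ 2 ^ (t + 1) ≤ S.card * (2 * Fintype.card G) ^ (2 ^ (t + 1) - 1) := by
        have h2 : 2 ^ (t + 1) = (2 ^ (t + 1) - 1) + 1 := by
          have : 1 ≤ 2 ^ (t + 1) := Nat.one_le_two_pow
          omega
        calc S.card ^ 2 ^ (t + 1) = S.card ^ ((2 ^ (t + 1) - 1) + 1) := by rw [← h2]
          _ = S.card * S.card ^ (2 ^ (t + 1) - 1) := by rw [pow_succ, mul_comm]
          _ ≤ _ := Nat.mul_le_mul_left _ (Nat.pow_le_pow_left (by omega) _)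
      have h3 : 0 < (2 * Fintype.card G) ^ (2 ^ (t + 1) - 1) := by positivity
      have h4 := lt_of_lt_of_le (Nat.mul_lt_mul_of_pos_right hlt h3) (hc.trans h1)
      exact lt_irrefl _ h4
    have hEd : E.card ≤ 2 ^ d := hE.trans (Nat.pow_le_pow_right (by norm_num) (by omega))
    obtain ⟨h, hhE, hh2⟩ := stepG S E (by omega) (by
      have : 0 < 2 ^ d := by positivity
      omega)
    set S' := S.filter fun s => s + h ∈ S with hS'
    have hc' : 2 * 2 ^ d * (2 * Fintype.card G) ^ (2 ^ t - 1) ≤ S'.card ^ 2 ^ t := by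
      have h3 : 2 * 2 ^ d * (2 * Fintype.card G) ^ (2 ^ t - 1) * (2 * Fintype.card G) ^ 2 ^ t ≤
          S'.card ^ 2 ^ t * (2 * Fintype.card G) ^ 2 ^ t := by
        calc 2 * 2 ^ d * (2 * Fintype.card G) ^ (2 ^ t - 1) * (2 * Fintype.card G) ^ 2 ^ t
            = 2 * 2 ^ d * (2 * Fintype.card G) ^ (2 ^ (t + 1) - 1) := by
              rw [hpow, pow_add]; ring
          _ ≤ S.card ^ 2 ^ (t + 1) := hc
          _ = (S.card * S.card) ^ 2 ^ t := by rw [← pow_two, ← pow_mul, pow_succ, mul_comm]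
          _ ≤ (2 * Fintype.card G * S'.card) ^ 2 ^ t := Nat.pow_le_pow_left hh2 _
          _ = S'.card ^ 2 ^ t * (2 * Fintype.card G) ^ 2 ^ t := by rw [mul_pow, mul_comm]
      exact Nat.le_of_mul_le_mul_right h3 (by positivity)
    obtain ⟨b, H, hH1, hH0, hHadd, hHE, hHS⟩ := ih (u + 1) S' (E ∪ E.image fun x => x + h)
      (by omega) (mem_union_left _ hE0) (by
        refine (card_union_le _ _).trans ?_
        have := card_image_le (s := E) (f := fun x => x + h)
        rw [pow_succ]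
        omega) hc'
    have hhE' : h ∈ E ∪ E.image fun x => x + h :=
      mem_union_right _ (mem_image.2 ⟨0, hE0, by simp⟩)
    have hh0 : h ≠ 0 := fun h0 => hhE (h0 ▸ hE0)
    have hhH : h ∉ H := fun hm => hh0 (hHE h hm hhE')
    have hdis : Disjoint H (H.image fun x => x + h) := by
      rw [disjoint_left]
      intro x hx hx'
      obtain ⟨y, hy, rfl⟩ := mem_image.1 hx'
      apply hhH
      have h3 := hHadd y hy _ hx
      rwa [← add_assoc, h2 y, zero_add] at h3
    refine ⟨b, H ∪ H.image fun x => x + h, ?_, mem_union_left _ hH0, ?_, ?_, ?_⟩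
    · rw [card_union_of_disjoint hdis, card_image_of_injective _ (add_left_injective h), hH1,
        pow_succ]
      ring
    · intro x hx y hy
      rcases mem_union.1 hx with hx | hx <;> rcases mem_union.1 hy with hy | hy
      · exact mem_union_left _ (hHadd x hx y hy)
      · obtain ⟨z, hz, rfl⟩ := mem_image.1 hy
        exact mem_union_right _ (mem_image.2 ⟨x + z, hHadd x hx z hz, by abel⟩)
      · obtain ⟨z, hz, rfl⟩ := mem_image.1 hx
        exact mem_union_right _ (mem_image.2 ⟨z + y, hHadd z hz y hy, by abel⟩)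
      · obtain ⟨z, hz, rfl⟩ := mem_image.1 hx
        obtain ⟨w, hw, rfl⟩ := mem_image.1 hy
        refine mem_union_left _ ?_
        have h3 : z + h + (w + h) = z + w + (h + h) := by abel
        rw [h3, h2 h, add_zero]
        exact hHadd z hz w hw
    · intro x hx hxE
      rcases mem_union.1 hx with hx | hx
      · exact hHE x hx (mem_union_left _ hxE)
      · obtain ⟨z, hz, rfl⟩ := mem_image.1 hx
        have h3 : z ∈ E ∪ E.image fun x => x + h := by
          refine mem_union_right _ (mem_image.2 ⟨z + h, hxE, ?_⟩)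
          rw [add_assoc, h2 h, add_zero]
        have h4 := hHE z hz h3
        rw [h4, zero_add] at hxE
        exact absurd hxE hhE
    · intro x hx
      rcases mem_union.1 hx with hx | hx
      · exact (mem_filter.1 (hHS x hx)).1
      · obtain ⟨z, hz, rfl⟩ := mem_image.1 hx
        have := (mem_filter.1 (hHS z hz)).2
        rwa [← add_assoc]

lemma bound_auxG (d : ℕ) : 2 * 2 ^ d * 2 ^ (2 ^ d - 1) ≤ 4 ^ 2 ^ d := by
  have h3 : 2 ^ d ≤ 2 ^ 2 ^ d := Nat.lt_two_pow_self.le
  have h4 : 1 ≤ 2 ^ d := Nat.one_le_two_pow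
  calc 2 * 2 ^ d * 2 ^ (2 ^ d - 1) = 2 ^ d * (2 ^ (2 ^ d - 1) * 2) := by ring
    _ = 2 ^ d * 2 ^ 2 ^ d := by rw [← pow_succ, Nat.sub_add_cancel h4]
    _ ≤ 2 ^ 2 ^ d * 2 ^ 2 ^ d := Nat.mul_le_mul_right _ h3
    _ = 4 ^ 2 ^ d := by rw [← mul_pow]; norm_num

/-- monochromatic cosets of subgroups -/
lemma mono_coset {C : Type*} [Fintype C] [DecidableEq C] [Nonempty C] (h2 : ∀ x : G, x + x = 0)
    (d : ℕ) (hG : (4 * Fintype.card C) ^ 2 ^ d ≤ Fintype.card G) (f : G → C) :
    ∃ (c : C) (b : G) (H : Finset G), H.card = 2 ^ d ∧ (0 : G) ∈ H ∧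
      (∀ x ∈ H, ∀ y ∈ H, x + y ∈ H) ∧ ∀ x ∈ H, f (b + x) = c := by
  classical
  obtain ⟨c, hc⟩ := exists_class (univ : Finset G) f
  rw [card_univ] at hc
  set q := Fintype.card C with hq
  set M := Fintype.card G with hM
  have hq0 : 0 < q := Fintype.card_pos
  set S := (univ : Finset G).filter fun x => f x = c with hS
  have h4 : 1 ≤ 2 ^ d := Nat.one_le_two_pow
  have hcond : 2 * 2 ^ d * (2 * M) ^ (2 ^ d - 1) ≤ S.card ^ 2 ^ d := by
    have h1 : (2 * 2 ^ d * (2 * M) ^ (2 ^ d - 1)) * q ^ 2 ^ d ≤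
        S.card ^ 2 ^ d * q ^ 2 ^ d := by
      calc (2 * 2 ^ d * (2 * M) ^ (2 ^ d - 1)) * q ^ 2 ^ d
          = (2 * 2 ^ d * 2 ^ (2 ^ d - 1)) * q ^ 2 ^ d * M ^ (2 ^ d - 1) := by
            rw [mul_pow]; ring
        _ ≤ 4 ^ 2 ^ d * q ^ 2 ^ d * M ^ (2 ^ d - 1) :=
            Nat.mul_le_mul_right _ (Nat.mul_le_mul_right _ (bound_auxG d))
        _ = (4 * q) ^ 2 ^ d * M ^ (2 ^ d - 1) := by rw [mul_pow]
        _ ≤ M * M ^ (2 ^ d - 1) := Nat.mul_le_mul_right _ hG
        _ = M ^ 2 ^ d := by rw [← pow_succ', Nat.sub_add_cancel h4]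
        _ ≤ (q * S.card) ^ 2 ^ d := Nat.pow_le_pow_left hc _
        _ = S.card ^ 2 ^ d * q ^ 2 ^ d := by rw [mul_pow, mul_comm]
    exact Nat.le_of_mul_le_mul_right h1 (by positivity)
  obtain ⟨b, H, hH1, hH0, hHa, -, hHS⟩ := coset h2 d d 0 S {0} (by omega) (by simp) (by simp)
    hcond
  exact ⟨c, b, H, hH1, hH0, hHa, fun x hx => (mem_filter.1 (hHS x hx)).2⟩

/-- **Sums in groups of exponent two**, with unary information about the vertices. -/
theorem nim {C K : Type*} [Fintype C] [DecidableEq C] [Nonempty C] [Fintype K]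
    [DecidableEq K] [Nonempty K] (h2 : ∀ x : G, x + x = 0) (m n : ℕ)
    (hG : (4 * (Fintype.card C * Fintype.card K)) ^ (2 * n) ≤ Fintype.card G) (κ : G → K)
    (Φ : G → (Fin (2 * m + 1) → K) → C) :
    ∃ (c : C) (X : Finset G), X.card = n ∧
      ∀ x : Fin (2 * m + 1) → G, (∀ i, x i ∈ X) →
        Φ (∑ i : Fin (2 * m + 1), x i) (fun i => κ (x i)) = c := by
  classical
  -- a power of two between `n` and `2 n`
  obtain ⟨d, hd1, hd2⟩ : ∃ d, n ≤ 2 ^ d ∧ 2 ^ d ≤ max 1 (2 * n) := by
    rcases Nat.eq_zero_or_pos n with h | h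
    · exact ⟨0, by omega, by omega⟩
    · refine ⟨Nat.clog 2 n, Nat.le_pow_clog (by norm_num) n, ?_⟩
      rcases Nat.lt_or_ge 1 n with h1 | h1
      · have h3 := Nat.pow_pred_clog_lt_self (b := 2) (by norm_num) h1
        have h4 : 0 < Nat.clog 2 n := Nat.clog_pos (by norm_num) h1
        have h5 : 2 ^ Nat.clog 2 n = 2 ^ (Nat.clog 2 n).pred * 2 := by
          rw [← pow_succ, show (Nat.clog 2 n).pred + 1 = Nat.clog 2 n from
            Nat.succ_pred_eq_of_pos h4]
        omega
      · have : n = 1 := by omega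
        subst this
        simp
  rcases Nat.eq_zero_or_pos n with hn | hn
  · subst hn
    exact ⟨Classical.arbitrary C, ∅, rfl, fun x hx => absurd (hx 0) (by simp)⟩
  have hG' : (4 * Fintype.card (C × K)) ^ 2 ^ d ≤ Fintype.card G := by
    rw [Fintype.card_prod]
    refine le_trans (Nat.pow_le_pow_right ?_ ?_) hG
    · have h5 : 0 < Fintype.card C := Fintype.card_pos
      have h6 : 0 < Fintype.card K := Fintype.card_pos
      have := Nat.mul_pos h5 h6
      omega
    · refine hd2.trans ?_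
      omega
  obtain ⟨⟨c, k⟩, b, H, hH1, hH0, hHa, hHc⟩ := mono_coset (C := C × K) h2 d hG'
    fun x => (Φ x (fun _ => κ x), κ x)
  obtain ⟨Y, hYH, hY⟩ := exists_subset_card_eq (s := H) (n := n) (by omega)
  refine ⟨c, Y.image fun x => b + x, ?_, ?_⟩
  · rw [card_image_of_injective _ (add_right_injective b), hY]
  · intro x hx
    have h1 : ∀ i, ∃ y ∈ H, b + y = x i := fun i => by
      obtain ⟨y, hy, hyx⟩ := mem_image.1 (hx i)
      exact ⟨y, hYH hy, hyx⟩
    choose y hy hyx using h1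
    have hsumH : ∀ (s : Finset (Fin (2 * m + 1))), ∑ i ∈ s, y i ∈ H := by
      intro s
      induction s using Finset.induction_on with
      | empty => simpa using hH0
      | insert a s ha ih =>
        rw [sum_insert ha]
        exact hHa _ (hy a) _ ih
    have hodd : (2 * m + 1) • b = b := by
      rw [add_smul, mul_comm, mul_smul, two_smul, h2 b, smul_zero, zero_add, one_smul]
    have hsum : ∑ i : Fin (2 * m + 1), x i = b + ∑ i : Fin (2 * m + 1), y i := by
      calc ∑ i : Fin (2 * m + 1), x i = ∑ i : Fin (2 * m + 1), (b + y i) :=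
            sum_congr rfl fun i _ => (hyx i).symm
        _ = b + ∑ i : Fin (2 * m + 1), y i := by
          rw [sum_add_distrib, sum_const, card_univ, Fintype.card_fin, hodd]
    have h3 := hHc _ (hsumH univ)
    rw [← hsum, Prod.mk.injEq] at h3
    have hκ : (fun i => κ (x i)) = fun _ => κ (∑ i : Fin (2 * m + 1), x i) := by
      funext i
      have h4 := hHc _ (hy i)
      rw [hyx i, Prod.mk.injEq] at h4
      rw [h4.2, h3.2]
    rw [hκ]
    exact h3.1

end Pool.Agent.V11227.SumCol
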